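import Pool.Agent.P.MP_0279ce_an.L1

/-! A bounded bilinear map whose linearisation is onto but not open. -/

namespace Pool.Agent.P.MP_0279ce_an

open scoped Topology
open Filter

variable {I : Type}

/-- Replace the diagonal point masses by the vectors `s k`. -/
noncomputable def That (s : I → L1 (I × I)) (u : L1 (I × I)) : L1 (I × I) :=
  u + ∑' k, u (k, k) • (s k - delta (k, k))

lemma diag_inj : Function.Injective (fun k : I => (k, k)) := fun _ _ h => (Prod.mk.inj h).1

lemma norm_term_le {s : I → L1 (I × I)} (hs : ∀ k, ‖s k‖ ≤ 1) (u : L1 (I × I)) (k : I) :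
    ‖u (k, k) • (s k - delta (k, k))‖ ≤ 2 * ‖u (k, k)‖ := by
  rw [norm_smul, mul_comm]
  gcongr
  calc ‖s k - delta (k, k)‖ ≤ ‖s k‖ + ‖delta (k, k)‖ := norm_sub_le _ _
    _ ≤ 1 + 1 := by rw [norm_delta]; gcongr; exact hs k
    _ = 2 := by norm_num

lemma summable_term {s : I → L1 (I × I)} (hs : ∀ k, ‖s k‖ ≤ 1) (u : L1 (I × I)) :
    Summable fun k => u (k, k) • (s k - delta (k, k)) :=
  Summable.of_norm_bounded ((L1.summable_comp u diag_inj).mul_left 2) (norm_term_le hs u)

lemma That_add {s : I → L1 (I × I)} (hs : ∀ k, ‖s k‖ ≤ 1) (u v : L1 (I × I)) :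
    That s (u + v) = That s u + That s v := by
  unfold That
  have : ∀ k, (u + v) (k, k) • (s k - delta (k, k)) =
      u (k, k) • (s k - delta (k, k)) + v (k, k) • (s k - delta (k, k)) := by
    intro k
    rw [← add_smul]; rfl
  simp_rw [this]
  rw [(summable_term hs u).tsum_add (summable_term hs v)]
  abel

lemma That_smul {s : I → L1 (I × I)} (hs : ∀ k, ‖s k‖ ≤ 1) (c : ℂ) (u : L1 (I × I)) :
    That s (c • u) = c • That s u := by
  unfold That
  have : ∀ k, (c • u) (k, k) • (s k - delta (k, k)) =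
      c • (u (k, k) • (s k - delta (k, k))) := by
    intro k
    rw [← mul_smul]; rfl
  simp_rw [this]
  rw [(summable_term hs u).tsum_const_smul, smul_add]

lemma norm_That_le {s : I → L1 (I × I)} (hs : ∀ k, ‖s k‖ ≤ 1) (u : L1 (I × I)) :
    ‖That s u‖ ≤ 3 * ‖u‖ := by
  unfold That
  have h1 : ‖∑' k, u (k, k) • (s k - delta (k, k))‖ ≤ ∑' k, 2 * ‖u (k, k)‖ :=
    tsum_of_norm_bounded ((L1.summable_comp u diag_inj).mul_left 2).hasSum (norm_term_le hs u)
  rw [tsum_mul_left] at h1
  have h2 := L1.tsum_comp_le u (diag_inj (I := I))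
  calc _ ≤ ‖u‖ + ‖∑' k, u (k, k) • (s k - delta (k, k))‖ := norm_add_le _ _
    _ ≤ 3 * ‖u‖ := by linarith

/-- `That` as a linear map. -/
noncomputable def ThatL {s : I → L1 (I × I)} (hs : ∀ k, ‖s k‖ ≤ 1) :
    L1 (I × I) →ₗ[ℂ] L1 (I × I) where
  toFun := That s
  map_add' := That_add hs
  map_smul' := That_smul hs

lemma That_apply {s : I → L1 (I × I)} (hs : ∀ k, ‖s k‖ ≤ 1) (u : L1 (I × I)) (x : I × I) :
    That s u x = u x + ∑' k, u (k, k) * (s k x - delta (k, k) x) := by
  unfold That
  rw [lp.coeFn_add, Pi.add_apply, L1.tsum_apply (summable_term hs u)]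
  rfl

lemma That_delta (s : I → L1 (I × I)) (k : I) : That s (delta (k, k)) = s k := by
  unfold That
  rw [tsum_eq_single k]
  · simp [delta_self]
  · intro j hj
    rw [delta_ne (fun h => hj (diag_inj h)), zero_smul]

/-- Finite rank matrices. -/
noncomputable def FR (I : Type) : Submodule ℂ (L1 (I × I)) :=
  Submodule.span ℂ {u | ∃ a b, u = tens a b}

lemma tens_mem_FR (a b : L1 I) : tens a b ∈ FR I := Submodule.subset_span ⟨a, b, rfl⟩

lemma exists_rep {u : L1 (I × I)} (hu : u ∈ FR I) :
    ∃ (n : ℕ) (a b : Fin n → L1 I), u = ∑ l, tens (a l) (b l) := by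
  obtain ⟨n, f, g, h⟩ := Submodule.mem_span_set'.1 hu
  choose a b hab using fun l => (g l).2
  refine ⟨n, fun l => f l • a l, b, ?_⟩
  rw [← h]
  refine Finset.sum_congr rfl fun l _ => ?_
  rw [tens_smul_left, ← hab l]

lemma rows_bound {u : L1 (I × I)} (hu : u ∈ FR I) :
    ∃ (ι : Type) (_ : Fintype ι) (P : ι → I) (γ : I → ℝ),
      (∀ p, ∃ j, u (P p, j) ≠ 0) ∧ Tendsto γ cofinite (𝓝 0) ∧
      ∀ k j, ‖u (k, j)‖ ≤ γ k * ∑ p, ‖u (P p, j)‖ := by
  classical
  obtain ⟨n, a, b, hab⟩ := exists_rep hu
  let α : I → (Fin n → ℂ) := fun k l => a l k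
  have hu' : ∀ k j, u (k, j) = ∑ l, α k l * b l j := by
    intro k j
    rw [hab, lp.coeFn_sum, Finset.sum_apply]
    rfl
  let S : Set I := {k | ∃ j, u (k, j) ≠ 0}
  obtain ⟨B, hBS, hspan, hli⟩ := exists_linearIndependent ℂ (α '' S)
  have hfin : B.Finite := hli.setFinite
  have : Fintype B := hfin.fintype
  choose σ hσS hσ using fun v : B => hBS v.2
  let Φ : (B → ℂ) →ₗ[ℂ] (Fin n → ℂ) := Fintype.linearCombination ℂ (fun v : B => (v : Fin n → ℂ))
  have hΦ : LinearMap.ker Φ = ⊥ := by
    rw [LinearMap.ker_eq_bot]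
    exact linearIndependent_iff_injective_fintypeLinearCombination.1 hli
  obtain ⟨K, hK, hanti⟩ := Φ.exists_antilipschitzWith hΦ
  refine ⟨B, inferInstance, σ, fun k => K * ‖α k‖, hσS, ?_, ?_⟩
  · have h1 : Tendsto α cofinite (𝓝 0) := by
      rw [tendsto_pi_nhds]
      intro l
      exact (Summable.of_norm (L1.summable_norm (a l))).tendsto_cofinite_zero
    simpa using (h1.norm).const_mul (K : ℝ)
  · intro k j
    by_cases hk : k ∈ S
    · have hmem : α k ∈ Submodule.span ℂ (Set.range fun v : B => (v : Fin n → ℂ)) := by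
        rw [Subtype.range_coe, hspan]
        exact Submodule.subset_span ⟨k, hk, rfl⟩
      obtain ⟨c, hc⟩ := (Submodule.mem_span_range_iff_exists_fun ℂ).1 hmem
      have hΦc : Φ c = α k := by
        rw [← hc]; simp [Φ, Fintype.linearCombination_apply]
      have hcn : ‖c‖ ≤ K * ‖α k‖ := by
        have := hanti.le_mul_dist c 0
        simpa [hΦc] using this
      have hrow : u (k, j) = ∑ p : B, c p * u (σ p, j) := by
        rw [hu', ← hc]
        simp only [Finset.sum_apply, Pi.smul_apply, smul_eq_mul, Finset.sum_mul]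
        rw [Finset.sum_comm]
        refine Finset.sum_congr rfl fun p _ => ?_
        rw [hu', Finset.mul_sum, hσ p]
        refine Finset.sum_congr rfl fun l _ => ?_
        ring
      rw [hrow, Finset.mul_sum]
      refine (norm_sum_le _ _).trans (Finset.sum_le_sum fun p _ => ?_)
      rw [norm_mul]
      gcongr
      exact (norm_le_pi_norm c p).trans hcn
    · have h0 : u (k, j) = 0 := by
        by_contra h; exact hk ⟨j, h⟩
      rw [h0, norm_zero]
      positivity

variable [LinearOrder I]

/-- The image of the finite rank matrices supported below `i`. -/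
def Ybelow (s : I → L1 (I × I)) (i : I) : Set (L1 (I × I)) :=
  {z | ∃ u ∈ FR I, (∀ x, u x ≠ 0 → x.1 < i ∧ x.2 < i) ∧ z = That s u}

lemma Ybelow_smul {s : I → L1 (I × I)} (hs : ∀ k, ‖s k‖ ≤ 1) {i : I} {z : L1 (I × I)}
    (hz : z ∈ Ybelow s i) (c : ℂ) : c • z ∈ Ybelow s i := by
  obtain ⟨u, hu, hsupp, rfl⟩ := hz
  refine ⟨c • u, (FR I).smul_mem c hu, ?_, (That_smul hs c u).symm⟩
  intro x hx
  apply hsupp x
  intro h
  apply hx
  simp [h]

lemma Ybelow_congr {s t : I → L1 (I × I)} {i : I} (h : ∀ k < i, s k = t k) :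
    Ybelow s i = Ybelow t i := by
  have key : ∀ u : L1 (I × I), (∀ x, u x ≠ 0 → x.1 < i ∧ x.2 < i) → That s u = That t u := by
    intro u hu
    unfold That
    congr 1
    refine tsum_congr fun k => ?_
    by_cases hk : u (k, k) = 0
    · simp [hk]
    · rw [h k (hu _ hk).1]
  ext z
  constructor
  · rintro ⟨u, hu, hsupp, rfl⟩
    exact ⟨u, hu, hsupp, key u hsupp⟩
  · rintro ⟨u, hu, hsupp, rfl⟩
    exact ⟨u, hu, hsupp, (key u hsupp).symm⟩

lemma tail_zero {s : I → L1 (I × I)} (hs : ∀ k, ‖s k‖ ≤ 1)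
    (hsupp : ∀ k x, s k x ≠ 0 → x = (k, k) ∨ (x.1 < k ∧ x.2 < k))
    {u : L1 (I × I)} (h0 : That s u = 0) {ι : Type} [Fintype ι] (P : ι → I) (α : I) (c : ℝ)
    (hc : 0 ≤ c) (hcard : c * Fintype.card ι ≤ 1 / 2) (hP : ∀ p, P p < α)
    (hrow : ∀ k, α ≤ k → ‖u (k, k)‖ ≤ c * ∑ p, ‖u (P p, k)‖) :
    ∀ x, u x ≠ 0 → x.1 < α ∧ x.2 < α := by
  classical
  let g : I → ℂ := fun k => if α ≤ k then u (k, k) else 0
  have hg_le : ∀ k, ‖g k‖ ≤ ‖u (k, k)‖ := by
    intro k; simp only [g]; split_ifs <;> simp
  have hgsum : Summable fun k => ‖g k‖ :=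
    Summable.of_nonneg_of_le (fun _ => norm_nonneg _) hg_le (L1.summable_comp u diag_inj)
  have hterm : ∀ k, ‖g k • s k‖ ≤ ‖g k‖ := by
    intro k
    rw [norm_smul]
    exact mul_le_of_le_one_right (norm_nonneg _) (hs k)
  have hwsum : Summable fun k => g k • s k := Summable.of_norm_bounded hgsum hterm
  set w : L1 (I × I) := ∑' k, g k • s k with hw
  set d : ℝ := ∑' k, ‖g k‖ with hd
  have hd0 : 0 ≤ d := tsum_nonneg fun _ => norm_nonneg _
  have hwd : ‖w‖ ≤ d := tsum_of_norm_bounded hgsum.hasSum hterm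
  have hoff : ∀ x : I × I, x.1 ≠ x.2 → (α ≤ x.1 ∨ α ≤ x.2) → u x = - w x := by
    intro x hx hα
    have h1 := That_apply hs u x
    rw [h0] at h1
    have h2 : w x = ∑' k, u (k, k) * (s k x - delta (k, k) x) := by
      rw [hw, L1.tsum_apply hwsum]
      refine tsum_congr fun k => ?_
      have hne : x ≠ (k, k) := by
        rintro rfl; exact hx rfl
      rw [delta_ne hne, sub_zero]
      simp only [g]
      split_ifs with hk
      · rfl
      · have : s k x = 0 := by
          by_contra hcon
          rcases hsupp k x hcon with h | h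
          · exact hne h
          · rcases hα with h' | h'
            · exact hk (h'.trans h.1.le)
            · exact hk (h'.trans h.2.le)
        simp [this]
    rw [h2]
    have h3 : (0 : L1 (I × I)) x = 0 := rfl
    rw [h3] at h1
    linear_combination -h1
  have hinj : ∀ p, Function.Injective (fun k : I => (P p, k)) := fun p _ _ h => (Prod.mk.inj h).2
  have hgb : ∀ k, ‖g k‖ ≤ c * ∑ p, ‖w (P p, k)‖ := by
    intro k
    simp only [g]
    split_ifs with hk
    · refine (hrow k hk).trans (le_of_eq ?_)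
      congr 1
      refine Finset.sum_congr rfl fun p _ => ?_
      rw [hoff (P p, k) (ne_of_lt ((hP p).trans_le hk)) (Or.inr hk), norm_neg]
    · rw [norm_zero]; positivity
  have hs2 : Summable fun k => ∑ p, ‖w (P p, k)‖ :=
    summable_sum fun p _ => L1.summable_comp w (hinj p)
  have hdle : d ≤ c * (Fintype.card ι * d) := by
    calc d ≤ ∑' k, c * ∑ p, ‖w (P p, k)‖ := hgsum.tsum_le_tsum hgb (hs2.mul_left c)
      _ = c * ∑ p, ∑' k, ‖w (P p, k)‖ := by
        rw [tsum_mul_left, Summable.tsum_finsetSum fun p _ => L1.summable_comp w (hinj p)]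
      _ ≤ c * ∑ _p : ι, d := by
        gcongr with p
        exact (L1.tsum_comp_le w (hinj p)).trans hwd
      _ = c * (Fintype.card ι * d) := by simp
  have hdz : d = 0 := by nlinarith
  have hwz : w = 0 := norm_le_zero_iff.1 (hdz ▸ hwd)
  have hgz : ∀ k, g k = 0 := by
    intro k
    have := hgsum.le_tsum k (fun _ _ => norm_nonneg _)
    rw [← hd, hdz] at this
    exact norm_le_zero_iff.1 this
  intro x hx
  by_contra hcon
  have hα : α ≤ x.1 ∨ α ≤ x.2 := by
    by_contra h
    push Not at h
    exact hcon h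
  by_cases hxx : x.1 = x.2
  · obtain ⟨i, j⟩ := x
    simp only at hxx hα
    subst hxx
    have := hgz i
    simp only [g] at this
    rw [if_pos (hα.elim id id)] at this
    exact hx this
  · apply hx
    rw [hoff x hxx hα, hwz]
    simp

theorem That_inj {s : I → L1 (I × I)} (hs : ∀ k, ‖s k‖ ≤ 1)
    (hsupp : ∀ k x, s k x ≠ 0 → x = (k, k) ∨ (x.1 < k ∧ x.2 < k))
    (hfresh : ∀ i, s i ∉ Ybelow s i) {u : L1 (I × I)} (hu : u ∈ FR I) (h0 : That s u = 0) :
    u = 0 := by
  classical
  by_contra hne
  let L : Set I := {m | ∃ x, u x ≠ 0 ∧ m = max x.1 x.2}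
  have hL : L.Nonempty := by
    by_contra h
    apply hne
    ext x
    by_contra hx
    exact h ⟨_, x, hx, rfl⟩
  by_cases hmax : ∃ m ∈ L, ∀ m' ∈ L, m' ≤ m
  · obtain ⟨m, ⟨y, hy, hym⟩, hm⟩ := hmax
    have hle : ∀ x, u x ≠ 0 → x.1 ≤ m ∧ x.2 ≤ m := fun x hx =>
      max_le_iff.1 (hm _ ⟨x, hx, rfl⟩)
    have hoff : ∀ x : I × I, x.1 ≠ x.2 → (m ≤ x.1 ∨ m ≤ x.2) → u x = 0 := by
      intro x hx hα
      have h1 := That_apply hs u x
      rw [h0] at h1
      have h2 : ∑' k, u (k, k) * (s k x - delta (k, k) x) = 0 := by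
        refine Eq.trans (tsum_congr fun k => ?_) tsum_zero
        have hne : x ≠ (k, k) := by
          rintro rfl; exact hx rfl
        rw [delta_ne hne, sub_zero]
        by_cases hk : u (k, k) = 0
        · simp [hk]
        · have hkm := (hle _ hk).1
          have : s k x = 0 := by
            by_contra hcon
            rcases hsupp k x hcon with h | h
            · exact hne h
            · rcases hα with h' | h'
              · exact absurd (h.1.trans_le (hkm.trans h')) (lt_irrefl _)
              · exact absurd (h.2.trans_le (hkm.trans h')) (lt_irrefl _)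
          simp [this]
      have h3 : (0 : L1 (I × I)) x = 0 := rfl
      rw [h3, h2, add_zero] at h1
      exact h1.symm
    have hymm : y = (m, m) := by
      by_cases hyy : y.1 = y.2
      · obtain ⟨i, j⟩ := y
        simp only at hyy hym
        subst hyy
        rw [max_self] at hym
        rw [hym]
      · exfalso
        apply hy
        apply hoff y hyy
        rw [hym]
        rcases le_total y.1 y.2 with h | h
        · right; rw [max_eq_right h]
        · left; rw [max_eq_left h]
    subst hymm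
    set c := u (m, m) with hc
    apply hfresh m
    have hmem : That s (u - c • delta (m, m)) ∈ Ybelow s m := by
      refine ⟨u - c • delta (m, m), (FR I).sub_mem hu ((FR I).smul_mem c ?_), ?_, rfl⟩
      · rw [← tens_delta]; exact tens_mem_FR _ _
      · intro x hx
        have hxm : x ≠ (m, m) := by
          rintro rfl
          apply hx
          change u (m, m) - c * delta (m, m) (m, m) = 0
          simp [delta_self, hc]
        have hux : u x ≠ 0 := by
          intro h
          apply hx
          change u x - c * delta (m, m) x = 0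
          simp [delta_ne hxm, h]
        obtain ⟨h1, h2⟩ := hle x hux
        by_contra hcon
        have hα : m ≤ x.1 ∨ m ≤ x.2 := by
          by_contra h
          push Not at h
          exact hcon h
        by_cases hxx : x.1 = x.2
        · apply hxm
          have : x.1 = m := le_antisymm h1 (hα.elim id (fun h => hxx ▸ h))
          exact Prod.ext this (hxx ▸ this)
        · exact hux (hoff x hxx hα)
    have heq : That s (u - c • delta (m, m)) = (-c) • s m := by
      have := (ThatL hs).map_sub u (c • delta (m, m))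
      rw [map_smul] at this
      change That s _ = That s u - c • That s _ at this
      rw [this, h0, That_delta]
      simp
    rw [heq] at hmem
    have := Ybelow_smul hs hmem (-c)⁻¹
    rwa [smul_smul, inv_mul_cancel₀ (neg_ne_zero.2 hy), one_smul] at this
  · push Not at hmax
    obtain ⟨ι, _, P, γ, hPS, hγ, hrow⟩ := rows_bound hu
    let c : ℝ := 1 / (2 * (Fintype.card ι + 1))
    have hc : 0 < c := by positivity
    have hfin : {k | c ≤ γ k}.Finite := by
      have := (hγ.eventually (gt_mem_nhds hc))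
      rw [eventually_cofinite] at this
      simpa using this
    have hbd : ∀ B : Set I, B.Finite → (∀ k ∈ B, ∃ j, u (k, j) ≠ 0) →
        ∃ α ∈ L, ∀ k ∈ B, k < α := by
      intro B hB
      induction B, hB using Set.Finite.induction_on with
      | empty => intro _; obtain ⟨m, hm⟩ := hL; exact ⟨m, hm, by simp⟩
      | @insert k B _ _ ih =>
        intro h
        obtain ⟨α, hαL, hα⟩ := ih fun k' hk' => h k' (Or.inr hk')
        obtain ⟨j, hj⟩ := h k (Or.inl rfl)
        obtain ⟨β, hβL, hβ⟩ := hmax _ ⟨(k, j), hj, rfl⟩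
        have hkβ : k < β := (le_max_left k j).trans_lt hβ
        rcases le_total α β with h' | h'
        · refine ⟨β, hβL, ?_⟩
          rintro k' (rfl | hk')
          · exact hkβ
          · exact (hα k' hk').trans_le h'
        · refine ⟨α, hαL, ?_⟩
          rintro k' (rfl | hk')
          · exact hkβ.trans_le h'
          · exact hα k' hk'
    obtain ⟨α, ⟨x, hx, hxα⟩, hα⟩ := hbd
      (({k | c ≤ γ k} ∩ {k | ∃ j, u (k, j) ≠ 0}) ∪ Set.range P)
      ((hfin.inter_of_left _).union (Set.finite_range P)) (by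
        rintro k (hk | ⟨p, rfl⟩)
        · exact hk.2
        · exact hPS p)
    have hcard : c * Fintype.card ι ≤ 1 / 2 := by
      simp only [c]
      rw [div_mul_eq_mul_div, div_le_div_iff₀ (by positivity) (by positivity)]
      linarith
    have := tail_zero hs hsupp h0 P α c hc.le hcard (fun p => hα _ (Or.inr ⟨p, rfl⟩)) (by
      intro k hk
      by_cases hkk : u (k, k) = 0
      · rw [hkk, norm_zero]; positivity
      · have hγk : γ k ≤ c := by
          by_contra h
          exact absurd (hα k (Or.inl ⟨(not_le.1 h).le, k, hkk⟩)) (not_lt.2 hk)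
        refine (hrow k k).trans ?_
        gcongr) x hx
    exact absurd (max_lt this.1 this.2) (by rw [← hxα]; exact lt_irrefl _)

end Pool.Agent.P.MP_0279ce_an
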