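import Pool.Agent.P.MP_0279ce_an.CNF

/-! An infinite sum of squares that is not a finite sum of products. -/

namespace Pool.Agent.P.MP_0279ce_an.Comm

open MvPolynomial Filter
open scoped Topology

section Coef

variable {V : Type}

open Classical in
/-- The coefficient of a monomial. -/
noncomputable def cf (μ : V →₀ ℕ) : Pw V →L[ℂ] ℂ := lin fun m => if m = μ then 1 else 0

open Classical in
lemma cf_mon (μ m : V →₀ ℕ) : cf μ (mon m) = if m = μ then 1 else 0 :=
  lin_mon (C := 1) (fun m => by split_ifs <;> simp) m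

lemma norm_cf_le (μ : V →₀ ℕ) (x : Pw V) : ‖cf μ x‖ ≤ ‖x‖ := by
  have := Pw.norm_le (cf μ) (C := 1) (fun m => by rw [cf_mon]; split_ifs <;> simp) x
  rwa [one_mul] at this

lemma cf_mul_mon (μ : V →₀ ℕ) (x : Pw V) : cf μ (x * mon μ) = phi x := by
  have : (cf μ).comp ((ContinuousLinearMap.mul ℂ _).flip (mon μ)) = phi.toContinuousLinearMap :=
    Pw.ext fun m => by
      change cf μ (mon m * mon μ) = phi (mon m)
      rw [← mon_add, cf_mon]
      by_cases hm : m = 0
      · rw [hm, zero_add, if_pos rfl, mon_zero, map_one]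
      · rw [if_neg (by simpa using hm), phi_mon hm]
  exact DFunLike.congr_fun this x

lemma norm_ev_mon_le {b : V → Bl ℂ} {t : ℝ} (h : ∀ v, ‖(b v : ℂ)‖ ≤ t) (m : V →₀ ℕ) :
    ‖ev b (mon m)‖ ≤ t ^ m.degree := by
  rw [ev_mon, Finsupp.prod, norm_prod, Finsupp.degree_apply, ← Finset.prod_pow_eq_pow_sum]
  exact Finset.prod_le_prod (fun _ _ => norm_nonneg _) fun v _ => by
    rw [norm_pow]; exact pow_le_pow_left₀ (norm_nonneg _) (h v) _

lemma first_order {b : V → Bl ℂ} {t : ℝ} (ht0 : 0 ≤ t) (ht : t ≤ 1) (h : ∀ v, ‖(b v : ℂ)‖ ≤ t)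
    (x : Pw V) : ‖ev b x - phi x‖ ≤ t * ‖x‖ := by
  refine Pw.norm_le ((ev b).toContinuousLinearMap - phi.toContinuousLinearMap) (fun m => ?_) x
  change ‖ev b (mon m) - phi (mon m)‖ ≤ t
  by_cases hm : m = 0
  · rw [hm, mon_zero, map_one, map_one, sub_self, norm_zero]; exact ht0
  · rw [phi_mon hm, sub_zero]
    refine (norm_ev_mon_le h m).trans (pow_le_of_le_one ht0 ht ?_)
    rwa [Ne, Finsupp.degree_eq_zero_iff]

lemma second_order {b : V → Bl ℂ} {t : ℝ} (ht0 : 0 ≤ t) (ht : t ≤ 1) (h : ∀ v, ‖(b v : ℂ)‖ ≤ t)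
    {F : Finset V} (hF : ∀ v ∉ F, (b v : ℂ) = 0) (x : Pw V) :
    ‖ev b x - phi x - ∑ v ∈ F, (b v : ℂ) * cf (Finsupp.single v 1) x‖ ≤ t ^ 2 * ‖x‖ := by
  classical
  have h1 := Pw.norm_le ((ev b).toContinuousLinearMap - phi.toContinuousLinearMap -
    ∑ v ∈ F, (b v : ℂ) • cf (Finsupp.single v 1)) (C := t ^ 2) (fun m => ?_) x
  · simpa [ContinuousLinearMap.sum_apply] using h1
  have h2 : ((ev b).toContinuousLinearMap - phi.toContinuousLinearMap -
      ∑ v ∈ F, (b v : ℂ) • cf (Finsupp.single v 1) : Pw V →L[ℂ] ℂ) (mon m) = ev b (mon m) - phi (mon m) -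
      ∑ v ∈ F, (b v : ℂ) * (if m = Finsupp.single v 1 then 1 else 0) := by
    simp [ContinuousLinearMap.sum_apply, cf_mon]
  rw [h2]
  by_cases hm : m = 0
  · rw [hm, mon_zero, map_one, map_one, sub_self, Finset.sum_eq_zero fun v _ => by
      rw [if_neg (Finsupp.single_ne_zero.2 one_ne_zero).symm, mul_zero]]
    simpa using sq_nonneg t
  rw [phi_mon hm, sub_zero]
  by_cases hm1 : ∃ v, m = Finsupp.single v 1
  · obtain ⟨v, rfl⟩ := hm1
    have h3 : ∑ w ∈ F, (b w : ℂ) * (if Finsupp.single v 1 = Finsupp.single w 1 then 1 else 0) =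
        b v := by
      simp only [Finsupp.single_left_inj (one_ne_zero), mul_ite, mul_one, mul_zero,
        Finset.sum_ite_eq]
      split_ifs with hv
      · rfl
      · exact (hF v hv).symm
    rw [h3, ← var_eq, ev_var, sub_self, norm_zero]
    exact sq_nonneg t
  · rw [Finset.sum_eq_zero fun v _ => by rw [if_neg fun h => hm1 ⟨v, h⟩, mul_zero], sub_zero]
    refine (norm_ev_mon_le h m).trans (pow_le_pow_of_le_one ht0 ht ?_)
    have h3 : m.degree ≠ 0 := by rwa [Ne, Finsupp.degree_eq_zero_iff]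
    have h4 : m.degree ≠ 1 := fun h => hm1 ((Finsupp.sum_eq_one_iff m).1 h)
    omega

end Coef

variable {I : Type}

/-- The terms of the sum of squares. -/
noncomputable def zt (I : Type) (n : ℕ) : Pw (VI I) :=
  ((1 / 4 : ℂ) ^ (n + 1)) • (var (Sum.inl n) * var (Sum.inl n))

lemma norm_zt_le (n : ℕ) : ‖zt I n‖ ≤ (1 / 4) * (1 / 4) ^ n := by
  rw [zt, norm_smul, norm_pow, pow_succ']
  have h1 : ‖(var (Sum.inl n) * var (Sum.inl n) : Pw (VI I))‖ ≤ 1 :=
    (norm_mul_le _ _).trans (by rw [norm_var, one_mul])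
  have h2 : ‖(1 / 4 : ℂ)‖ = 1 / 4 := by simp
  rw [h2]
  exact mul_le_of_le_one_right (by positivity) h1

lemma hasSum_quarter : HasSum (fun n : ℕ => (1 / 4 : ℝ) * (1 / 4) ^ n) (1 / 3) := by
  have := (hasSum_geometric_of_lt_one (r := (1 / 4 : ℝ)) (by norm_num) (by norm_num)).mul_left
    (1 / 4)
  rwa [show (1 / 4 : ℝ) * (1 - 1 / 4)⁻¹ = 1 / 3 by norm_num] at this

lemma summable_zt : Summable (zt I) :=
  Summable.of_norm_bounded hasSum_quarter.summable norm_zt_le

/-- The sum of squares. -/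
noncomputable def zz (I : Type) : Pw (VI I) := ∑' n, zt I n

lemma norm_zz_le : ‖zz I‖ ≤ 1 / 3 := tsum_of_norm_bounded hasSum_quarter norm_zt_le

lemma map_zz {A : Type} [NormedCommRing A] [NormedAlgebra ℂ A] (f : Pw (VI I) →A[ℂ] A) :
    f (zz I) = ∑' n, f (zt I n) := f.toContinuousLinearMap.map_tsum summable_zt

lemma On_zt (n : ℕ) : On (Set.range Sum.inl) (zt I n) := by
  rw [On, zt, map_smul, map_mul, rho_var_of_mem (Set.mem_range_self n)]

lemma On_zz : On (Set.range Sum.inl) (zz I) := by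
  rw [On, map_zz]
  exact tsum_congr On_zt

lemma phi_zt (n : ℕ) : phi (zt I n) = 0 := by
  rw [zt, map_smul, map_mul, phi_var, zero_mul, smul_zero]

lemma phi_zz : phi (zz I) = 0 := by
  rw [map_zz]; simp [phi_zt]

lemma zt_mem (n : ℕ) : zt I n ∈ Wsp _ :=
  Submodule.smul_mem _ _ (mul_mem_Wsp (phi_var _) (phi_var _))

theorem zz_notMem : zz I ∉ Wsp _ := by
  classical
  intro h
  obtain ⟨m, a, b, ha, hb, hz⟩ := exists_of_mem_Wsp h
  let N := 2 * m + 1
  let L : (Fin N → ℝ) →ₗ[ℝ] (Fin m → ℂ) :=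
    { toFun := fun ξ i => ∑ n, (ξ n : ℂ) * cf (Finsupp.single (Sum.inl n.1) 1) (a i)
      map_add' := fun ξ η => by ext i; simp [add_mul, Finset.sum_add_distrib]
      map_smul' := fun c ξ => by ext i; simp [Finset.mul_sum, mul_assoc] }
  obtain ⟨ξ0, hξ0, hne0⟩ := Submodule.exists_mem_ne_zero_of_ne_bot
    (L.ker_ne_bot_of_finrank_lt (by simp [N, Module.finrank_pi_fintype, mul_comm]))
  obtain ⟨ξ, hξ, hne, hle⟩ : ∃ ξ : Fin N → ℝ, L ξ = 0 ∧ ξ ≠ 0 ∧ ‖ξ‖ ≤ 1 := by
    have h1 : ‖ξ0‖ ≠ 0 := norm_ne_zero_iff.2 hne0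
    refine ⟨‖ξ0‖⁻¹ • ξ0, by rw [map_smul, LinearMap.mem_ker.1 hξ0, smul_zero],
      smul_ne_zero (inv_ne_zero h1) hne0, ?_⟩
    rw [norm_smul, norm_inv, norm_norm, inv_mul_cancel₀ h1]
  let c : ℝ := ∑ n : Fin N, (1 / 4) ^ (n.1 + 1) * ξ n ^ 2
  have hc : 0 < c := by
    obtain ⟨n, hn⟩ := Function.ne_iff.1 hne
    have hn' : ξ n ≠ 0 := hn
    exact Finset.sum_pos' (fun _ _ => by positivity) ⟨n, Finset.mem_univ _, by positivity⟩
  let C : ℝ := ∑ i, ‖a i‖ * ‖b i‖
  have hC : 0 ≤ C := Finset.sum_nonneg fun _ _ => by positivity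
  have key : ∀ t : ℝ, 0 < t → t ≤ 1 → c ≤ t * C := by
    intro t ht0 ht
    have hb1 : ∀ n, ‖((t * ξ n : ℝ) : ℂ)‖ ≤ t := fun n => by
      rw [Complex.norm_real, norm_mul, Real.norm_of_nonneg ht0.le]
      exact mul_le_of_le_one_right ht0.le ((norm_le_pi_norm ξ n).trans hle)
    let p : VI I → Bl ℂ := fun v =>
      match v with
      | Sum.inl n => if h : n < N then ⟨_, (hb1 ⟨n, h⟩).trans ht⟩ else zB ℂ
      | Sum.inr _ => zB ℂ
    have hp1 : ∀ n : Fin N, (p (Sum.inl n) : ℂ) = ((t * ξ n : ℝ) : ℂ) := fun n => by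
      simp only [p]; rw [dif_pos n.2]
    have hp2 : ∀ n, ¬ n < N → (p (Sum.inl n) : ℂ) = 0 := fun n hn => by
      simp only [p]; rw [dif_neg hn]; rfl
    have hp : ∀ v, ‖(p v : ℂ)‖ ≤ t := by
      rintro (n | v)
      · by_cases hn : n < N
        · rw [hp1 ⟨n, hn⟩]; exact hb1 _
        · rw [hp2 n hn, norm_zero]; exact ht0.le
      · change ‖(0 : ℂ)‖ ≤ t
        rw [norm_zero]; exact ht0.le
    have h1 : ∀ i, ‖ev p (a i)‖ ≤ t ^ 2 * ‖a i‖ := fun i => by
      have h2 := second_order ht0.le ht hp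
        (F := Finset.univ.image fun n : Fin N => (Sum.inl n : VI I)) (by
          rintro (n | v) hv
          · exact hp2 n fun hn => hv (Finset.mem_image.2 ⟨⟨n, hn⟩, Finset.mem_univ _, rfl⟩)
          · rfl) (a i)
      rw [Finset.sum_image fun x _ y _ h => Fin.ext (Sum.inl.inj h), ha, sub_zero] at h2
      have h3 : ∑ n : Fin N, (p (Sum.inl n) : ℂ) * cf (Finsupp.single (Sum.inl n.1) 1) (a i) =
          t * L ξ i := by
        change _ = (t : ℂ) * ∑ n, _
        rw [Finset.mul_sum]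
        exact Finset.sum_congr rfl fun n _ => by rw [hp1]; push_cast; ring
      rwa [h3, hξ, Pi.zero_apply, mul_zero, sub_zero] at h2
    have h2 : ∀ i, ‖ev p (b i)‖ ≤ t * ‖b i‖ := fun i => by
      have := first_order ht0.le ht hp (b i)
      rwa [hb, sub_zero] at this
    have h3 : ev p (zz I) = ((t ^ 2 * c : ℝ) : ℂ) := by
      rw [map_zz, tsum_eq_sum (s := Finset.range N) fun n hn => by
        rw [zt, map_smul, map_mul, ev_var, hp2 n (by simpa using hn), mul_zero, smul_zero],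
        Finset.sum_range]
      simp only [c]
      push_cast
      rw [Finset.mul_sum]
      refine Finset.sum_congr rfl fun n _ => ?_
      rw [zt, map_smul, map_mul, ev_var, hp1, smul_eq_mul]
      push_cast; ring
    have h4 : t ^ 2 * c ≤ t ^ 2 * (t * C) := by
      calc t ^ 2 * c = ‖ev p (zz I)‖ := by
            rw [h3, Complex.norm_real, Real.norm_of_nonneg (by positivity)]
        _ ≤ ∑ i, (t ^ 2 * ‖a i‖) * (t * ‖b i‖) := by
            rw [hz, map_sum]
            refine norm_sum_le_of_le _ fun i _ => ?_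
            rw [map_mul, norm_mul]
            exact mul_le_mul (h1 i) (h2 i) (norm_nonneg _) (by positivity)
        _ = _ := by
            simp only [C, Finset.mul_sum]
            exact Finset.sum_congr rfl fun i _ => by ring
    exact le_of_mul_le_mul_left h4 (by positivity)
  have h1 := key (min 1 (c / (C + 1))) (lt_min one_pos (by positivity)) (min_le_left _ _)
  have h2 : min 1 (c / (C + 1)) * C ≤ c / (C + 1) * C := by gcongr; exact min_le_right _ _
  have h3 : c / (C + 1) * C < c := by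
    rw [div_mul_eq_mul_div, div_lt_iff₀ (by positivity)]
    nlinarith
  linarith

end Pool.Agent.P.MP_0279ce_an.Comm
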