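import Pool.Agent.P.MP_0279ce_an.CPow

/-! Dependence on variables, the constant term, sums of products. -/

namespace Pool.Agent.P.MP_0279ce_an.Comm

open MvPolynomial Filter
open scoped Topology

lemma exists_fix {α β : Type} [Nonempty β] {r : α → α → Prop} (wf : WellFounded r)
    (G : (α → β) → α → β) (hG : ∀ a f f', (∀ a', r a' a → f a' = f' a') → G f a = G f' a) :
    ∃ f : α → β, ∀ a, f a = G f a := by
  classical
  let d : β := Classical.arbitrary β
  refine ⟨wf.fix fun a ih => G (fun a' => if h : r a' a then ih a' h else d) a, fun a => ?_⟩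
  rw [wf.fix_eq]
  exact hG _ _ _ fun a' h => by rw [dif_pos h]

variable {V : Type}

/-- Zero as an element of the unit ball. -/
def zB (A : Type) [NormedCommRing A] : Bl A := ⟨0, by simp⟩

instance (A : Type) [NormedCommRing A] : Nonempty (Bl A) := ⟨zB A⟩

/-- A variable as an element of the unit ball. -/
noncomputable def varB (v : V) : Bl (Pw V) := ⟨var v, (norm_var v).le⟩

lemma ev_varB (x : Pw V) : ev varB x = x := by
  have : ev (varB (V := V)) = ContinuousAlgHom.id ℂ (Pw V) := hom_ext fun v => ev_var _ v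
  rw [this]; rfl

lemma mon_eq_prod (m : V →₀ ℕ) : mon m = m.prod fun v k => var v ^ k := by
  rw [← ev_varB (mon m), ev_mon]; rfl

open Classical in
/-- Killing the variables outside `S`. -/
noncomputable def rho (S : Set V) : Pw V →A[ℂ] Pw V :=
  ev fun v => if v ∈ S then varB v else zB _

lemma rho_var_of_mem {S : Set V} {v : V} (h : v ∈ S) : rho S (var v) = var v := by
  rw [rho, ev_var, if_pos h]; rfl

lemma rho_var_of_notMem {S : Set V} {v : V} (h : v ∉ S) : rho S (var v) = 0 := by
  rw [rho, ev_var, if_neg h]; rfl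

lemma norm_rho_le (S : Set V) (x : Pw V) : ‖rho S x‖ ≤ ‖x‖ := norm_ev_le _ x

/-- The series involves only variables from `S`. -/
def On (S : Set V) (x : Pw V) : Prop := rho S x = x

lemma On.congr {A : Type} [NormedCommRing A] [NormedAlgebra ℂ A] {S : Set V} {x : Pw V}
    (hx : On S x) {f g : Pw V →A[ℂ] A} (h : ∀ v ∈ S, f (var v) = g (var v)) : f x = g x := by
  have h1 : f.comp (rho S) = g.comp (rho S) := hom_ext fun v => by
    change f (rho S (var v)) = g (rho S (var v))
    by_cases hv : v ∈ S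
    · rw [rho_var_of_mem hv, h v hv]
    · rw [rho_var_of_notMem hv, map_zero, map_zero]
  have h2 := DFunLike.congr_fun h1 x
  change f (rho S x) = g (rho S x) at h2
  rwa [hx] at h2

lemma On.fix {S : Set V} {x : Pw V} (hx : On S x) {f : Pw V →A[ℂ] Pw V}
    (h : ∀ v ∈ S, f (var v) = var v) : f x = x :=
  hx.congr (g := ContinuousAlgHom.id ℂ (Pw V)) h

lemma On.mono {S S' : Set V} {x : Pw V} (hx : On S x) (h : S ⊆ S') : On S' x :=
  hx.fix fun _ hv => rho_var_of_mem (h hv)

lemma rho_rho (S S' : Set V) (x : Pw V) : rho S (rho S' x) = rho (S ∩ S') x := by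
  have h1 : (rho S).comp (rho S') = rho (S ∩ S') := hom_ext fun v => by
    change rho S (rho S' (var v)) = _
    by_cases hv' : v ∈ S'
    · rw [rho_var_of_mem hv']
      by_cases hv : v ∈ S
      · rw [rho_var_of_mem hv, rho_var_of_mem (Set.mem_inter hv hv')]
      · rw [rho_var_of_notMem hv, rho_var_of_notMem fun h => hv h.1]
    · rw [rho_var_of_notMem hv', map_zero, rho_var_of_notMem fun h => hv' h.2]
  exact DFunLike.congr_fun h1 x

lemma On_rho (S : Set V) (x : Pw V) : On S (rho S x) := by
  rw [On, rho_rho, Set.inter_self]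

lemma On.inter {S S' : Set V} {x : Pw V} (hx : On S x) (hx' : On S' x) : On (S ∩ S') x := by
  rw [On, ← rho_rho, hx', hx]

lemma On.smul {S : Set V} {x : Pw V} (hx : On S x) (c : ℂ) : On S (c • x) := by
  rw [On, map_smul, hx]

lemma On_zero (S : Set V) : On S (0 : Pw V) := map_zero _

lemma exists_countable (x : Pw V) : ∃ S : Set V, S.Countable ∧ On S x := by
  let M : Submodule ℂ (Pw V) :=
    { carrier := {x | ∃ S : Set V, S.Countable ∧ On S x}
      add_mem' := by
        rintro a b ⟨S, hS, ha⟩ ⟨S', hS', hb⟩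
        refine ⟨S ∪ S', hS.union hS', ?_⟩
        rw [On, map_add, ha.mono Set.subset_union_left, hb.mono Set.subset_union_right]
      zero_mem' := ⟨∅, Set.countable_empty, On_zero _⟩
      smul_mem' := by
        rintro c a ⟨S, hS, ha⟩
        exact ⟨S, hS, ha.smul c⟩ }
  refine Pw.ind M ?_ (fun m => ⟨m.support, m.support.countable_toSet, ?_⟩) x
  · refine isClosed_of_closure_subset fun y hy => ?_
    obtain ⟨w, hw, hlim⟩ := mem_closure_iff_seq_limit.1 hy
    choose S hS hw using hw
    refine ⟨⋃ n, S n, Set.countable_iUnion hS, ?_⟩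
    have h1 : Tendsto (fun n => rho (⋃ n, S n) (w n)) atTop (𝓝 (rho (⋃ n, S n) y)) :=
      ((rho _).continuous.tendsto y).comp hlim
    have h2 : (fun n => rho (⋃ n, S n) (w n)) = w :=
      funext fun n => (hw n).mono (Set.subset_iUnion S n)
    rw [h2] at h1
    exact tendsto_nhds_unique h1 hlim
  · rw [On, mon_eq_prod, Finsupp.prod, map_prod]
    exact Finset.prod_congr rfl fun v hv => by rw [map_pow, rho_var_of_mem hv]

/-- The constant term. -/
noncomputable def phi : Pw V →A[ℂ] ℂ := ev fun _ => zB ℂ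

lemma phi_var (v : V) : phi (var v) = 0 := ev_var _ v

lemma phi_rho (S : Set V) (x : Pw V) : phi (rho S x) = phi x := by
  have h1 : phi.comp (rho S) = phi := hom_ext fun v => by
    change phi (rho S (var v)) = _
    by_cases hv : v ∈ S
    · rw [rho_var_of_mem hv]
    · rw [rho_var_of_notMem hv, map_zero, phi_var]
  exact DFunLike.congr_fun h1 x

lemma phi_mon {m : V →₀ ℕ} (hm : m ≠ 0) : phi (mon m) = 0 := by
  obtain ⟨v, hv⟩ := Finsupp.support_nonempty_iff.2 hm
  rw [mon_eq_prod, Finsupp.prod, map_prod]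
  exact Finset.prod_eq_zero hv (by
    rw [map_pow, phi_var, zero_pow (Finsupp.mem_support_iff.1 hv)])

/-- Scalars as a continuous homomorphism. -/
noncomputable def cst (A : Type) [NormedCommRing A] [NormedAlgebra ℂ A] : ℂ →A[ℂ] A :=
  ⟨Algebra.ofId ℂ A, continuous_algebraMap ℂ A⟩

lemma cst_apply {A : Type} [NormedCommRing A] [NormedAlgebra ℂ A] (c : ℂ) :
    cst A c = algebraMap ℂ A c := rfl

/-- Scalars of the unit disc in the unit ball. -/
noncomputable def cstB (A : Type) [NormedCommRing A] [NormedAlgebra ℂ A] [NormOneClass A]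
    (c : Bl ℂ) : Bl A := ⟨algebraMap ℂ A c, by rw [norm_algebraMap']; exact c.2⟩

/-- Sums of products of series without constant term. -/
noncomputable def Wsp (V : Type) : Submodule ℂ (Pw V) :=
  Submodule.span ℂ {x | ∃ a b : Pw V, phi a = 0 ∧ phi b = 0 ∧ x = a * b}

lemma mul_mem_Wsp {a b : Pw V} (ha : phi a = 0) (hb : phi b = 0) : a * b ∈ Wsp V :=
  Submodule.subset_span ⟨a, b, ha, hb, rfl⟩

lemma exists_of_mem_Wsp {x : Pw V} (hx : x ∈ Wsp V) : ∃ (n : ℕ) (a b : Fin n → Pw V),
    (∀ i, phi (a i) = 0) ∧ (∀ i, phi (b i) = 0) ∧ x = ∑ i, a i * b i := by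
  obtain ⟨n, f, g, h⟩ := Submodule.mem_span_set'.1 hx
  have h1 := fun i => (g i).2
  choose a b ha hb hg using h1
  refine ⟨n, fun i => f i • a i, b, fun i => by rw [map_smul, ha, smul_zero], hb, ?_⟩
  rw [← h]
  exact Finset.sum_congr rfl fun i _ => by rw [hg, smul_mul_assoc]

/-- A multiple of a series without constant term, modulo products. -/
lemma mul_sub_mem_Wsp (r : Pw V) {x : Pw V} (hx : phi x = 0) : r * x - phi r • x ∈ Wsp V := by
  have : r * x - phi r • x = (r - algebraMap ℂ _ (phi r)) * x := by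
    rw [sub_mul, Algebra.smul_def]
  rw [this]
  exact mul_mem_Wsp (by rw [map_sub, AlgHomClass.commutes]; simp) hx

end Pool.Agent.P.MP_0279ce_an.Comm
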