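import Pool.Agent.P.MP_0279ce_an.CLift
import Pool.Agent.P.MP_0279ce_an.CBase

/-! The characters vanishing on the relations separate the points of the quotient. -/

namespace Pool.Agent.P.MP_0279ce_an.Comm

open MvPolynomial Filter
open scoped Topology

lemma avg {G ι : Type} [AddCommGroup G] (S : Finset ι) (h : ι → G → ℂ) (c : ℂ) {ε : ℝ}
    (hh : ∀ i ∈ S, ∃ γ, ∀ θ, h i (γ + θ) = - h i θ) (hb : ∀ θ, ‖c + ∑ i ∈ S, h i θ‖ ≤ ε) :
    ‖c‖ ≤ ε := by
  classical
  induction S using Finset.induction_on generalizing h with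
  | empty => simpa using hb 0
  | insert a S ha ih =>
    obtain ⟨γ, hγ⟩ := hh a (Finset.mem_insert_self a S)
    refine ih (fun i θ => (h i θ + h i (γ + θ)) / 2) (fun i hi => ?_) fun θ => ?_
    · obtain ⟨δ, hδ⟩ := hh i (Finset.mem_insert_of_mem hi)
      exact ⟨δ, fun θ => by rw [add_left_comm, hδ, hδ]; ring⟩
    · have h1 := hb θ
      have h2 := hb (γ + θ)
      rw [Finset.sum_insert ha] at h1 h2
      rw [hγ] at h2
      have h3 : c + ∑ i ∈ S, (h i θ + h i (γ + θ)) / 2 = ((c + (h a θ + ∑ i ∈ S, h i θ)) +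
          (c + (- h a θ + ∑ i ∈ S, h i (γ + θ)))) / 2 := by
        rw [← Finset.sum_div, Finset.sum_add_distrib]; ring
      rw [h3, norm_div, Complex.norm_two]
      linarith [norm_add_le (c + (h a θ + ∑ i ∈ S, h i θ)) (c + (- h a θ + ∑ i ∈ S, h i (γ + θ)))]

section

variable {V : Type}

lemma exists_finset_approx (x : Pw V) {ε : ℝ} (hε : 0 < ε) : ∃ S0 : Finset (V →₀ ℕ),
    ∀ S : Finset (V →₀ ℕ), S0 ⊆ S → ‖x - ∑ ν ∈ S, cf ν x • mon ν‖ ≤ ε := by
  classical
  obtain ⟨p, hp⟩ := exists_approx x hε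
  refine ⟨p.support, fun S hS => ?_⟩
  let T : Pw V →L[ℂ] Pw V := ContinuousLinearMap.id ℂ _ - ∑ ν ∈ S, (cf ν).smulRight (mon ν)
  have hT : ∀ y, T y = y - ∑ ν ∈ S, cf ν y • mon ν := fun y => by
    simp [T, ContinuousLinearMap.sum_apply]
  have hTm : ∀ m, T (mon m) = if m ∈ S then 0 else mon m := fun m => by
    rw [hT]
    simp only [cf_mon, ite_smul, one_smul, zero_smul, Finset.sum_ite_eq]
    split_ifs <;> simp
  have h1 : T (toP p) = 0 := by
    rw [p.as_sum, map_sum, map_sum]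
    refine Finset.sum_eq_zero fun m hm => ?_
    rw [show monomial m (coeff m p) = coeff m p • monomial m (1 : ℂ) by
      rw [smul_monomial, smul_eq_mul, mul_one], map_smul, map_smul]
    change _ • T (mon m) = 0
    rw [hTm, if_pos (hS hm), smul_zero]
  have h2 := Pw.norm_le T (C := 1) (fun m => by rw [hTm]; split_ifs <;> simp [norm_mon]) (x - toP p)
  rw [map_sub, h1, sub_zero, hT] at h2
  linarith

lemma eq_zero_of_cf {x : Pw V} (h : ∀ ν, cf ν x = 0) : x = 0 := by
  refine norm_le_zero_iff.1 (le_of_forall_pos_le_add fun ε hε => ?_)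
  obtain ⟨S, hS⟩ := exists_finset_approx x hε
  simpa [h] using hS S subset_rfl

lemma ev_mon_twist {b b' : V → Bl ℂ} {m : V →₀ ℕ} {v w : V} (hvw : v ≠ w) {ω : ℂ}
    (hv : (b' v : ℂ) = ω * b v) (hw : m w ≠ 0 → (b' w : ℂ) = ω⁻¹ * b w)
    (h : ∀ x, m x ≠ 0 → x ≠ v → x ≠ w → (b' x : ℂ) = b x) :
    ev b' (mon m) = ω ^ m v * ω⁻¹ ^ m w * ev b (mon m) := by
  classical
  let c : V → ℂ := fun x => if x = v then ω else if x = w then ω⁻¹ else 1
  have h1 : ∏ x ∈ m.support, c x ^ m x = ω ^ m v * ω⁻¹ ^ m w := by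
    rw [Finset.prod_eq_mul v w hvw (fun x _ hx => by simp [c, hx.1, hx.2])
      (fun hx => by rw [Finsupp.notMem_support_iff.1 hx, pow_zero])
      (fun hx => by rw [Finsupp.notMem_support_iff.1 hx, pow_zero])]
    simp [c, hvw.symm]
  rw [ev_mon, ev_mon, Finsupp.prod, Finsupp.prod, ← h1, ← Finset.prod_mul_distrib]
  refine Finset.prod_congr rfl fun x hx => ?_
  rw [← mul_pow]
  congr 1
  have hx' := Finsupp.mem_support_iff.1 hx
  simp only [c]
  split_ifs with h2 h3
  · rw [h2, hv]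
  · rw [h3] at hx' ⊢; exact hw hx'
  · rw [h x hx' h2 h3, one_mul]

end

/-- A point of the unit circle. -/
noncomputable def cis (t : ℝ) : Bl ℂ :=
  ⟨Complex.exp (t * Complex.I), (Complex.norm_exp_ofReal_mul_I t).le⟩

lemma norm_cis (t : ℝ) : ‖(cis t : ℂ)‖ = 1 := Complex.norm_exp_ofReal_mul_I t

lemma cis_ne (t : ℝ) : (cis t : ℂ) ≠ 0 := Complex.exp_ne_zero _

lemma cis_add (a t : ℝ) : (cis (a + t) : ℂ) = cis a * cis t := by
  simp [cis, add_mul, Complex.exp_add]

lemma exists_cis {a b c : ℕ} (h : a ≠ b + c) :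
    ∃ t : ℝ, (cis t : ℂ) ^ a * (cis t : ℂ)⁻¹ ^ b = - (cis t : ℂ) ^ c := by
  have hd : ((a : ℝ) - b - c) ≠ 0 := fun h1 => h (by
    have : (a : ℝ) = b + c := by linarith
    exact_mod_cast this)
  refine ⟨Real.pi / ((a : ℝ) - b - c), ?_⟩
  generalize ht : Real.pi / ((a : ℝ) - b - c) = t
  have h1 : (a : ℂ) * (t * Complex.I) + b * -(t * Complex.I) =
      c * (t * Complex.I) + Real.pi * Complex.I := by
    have h2 : ((a : ℝ) - b - c) * t = Real.pi := by rw [← ht]; field_simp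
    rw [← h2]; push_cast; ring
  simp only [cis]
  rw [← Complex.exp_neg, ← Complex.exp_nat_mul, ← Complex.exp_nat_mul, ← Complex.exp_nat_mul,
    ← Complex.exp_add, h1, Complex.exp_add, Complex.exp_pi_mul_I]
  ring

variable {I : Type} [LinearOrder I] [WellFoundedLT I] {s : I → Pw (VI I)}

theorem Tow.semisimple [Nonempty I] (hs : Tow s) {y : Pw (VI I)}
    (h : ∀ χ : Pw (VI I) →A[ℂ] ℂ, (∀ k, χ (rel s k) = 0) → χ y = 0) : y ∈ JJ s Set.univ := by
  classical
  obtain ⟨N, -, hN, hy⟩ := exists_NF hs.norm_le Set.univ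
  obtain ⟨r, -, hr⟩ := hy (Classical.arbitrary I) y
  have h1 : y - N y ∈ JJ s Set.univ := by
    simpa using Ideal.add_mem _ (JJ_mono (Set.subset_univ _) hr)
      (Ideal.mul_mem_left _ r (rel_mem_JJ (Set.mem_univ (Classical.arbitrary I))))
  have h2 : ∀ χ : Pw (VI I) →A[ℂ] ℂ, (∀ k, χ (rel s k) = 0) → χ (N y) = 0 := fun χ hχ => by
    have := map_JJ_zero χ (fun k _ => hχ k) h1
    rwa [map_sub, h χ hχ, zero_sub, neg_eq_zero] at this
  have h3 : ∀ ν, ¬ Red Set.univ ν → cf ν (N y) = 0 := fun ν hν => by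
    have : (cf ν).comp (PiR Set.univ) = 0 := Pw.ext fun m => by
      rw [ContinuousLinearMap.comp_apply, PiR_mon]
      split_ifs with hm
      · rw [cf_mon, if_neg (by rintro rfl; exact hν hm)]; rfl
      · simp
    rw [← hN]
    exact DFunLike.congr_fun this (N y)
  suffices h4 : N y = 0 by rwa [h4, sub_zero] at h1
  generalize N y = x at h2 h3
  have hred : ∀ ν : VI I →₀ ℕ, Red Set.univ ν → ∀ k c, ν (Sum.inr (k, c)) ≠ 0 →
      ν (Sum.inr (k, !c)) = 0 := by
    intro ν hν k c hc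
    by_contra hc'
    refine hν ⟨k, trivial, pr_le_iff.2 ?_⟩
    cases c
    · exact ⟨Nat.one_le_iff_ne_zero.2 hc', Nat.one_le_iff_ne_zero.2 hc⟩
    · exact ⟨Nat.one_le_iff_ne_zero.2 hc, Nat.one_le_iff_ne_zero.2 hc'⟩
  refine eq_zero_of_cf fun μ => ?_
  by_cases hμ : ¬ Red Set.univ μ
  · exact h3 μ hμ
  push Not at hμ
  have hπ : ∀ k, ∃ c, μ (Sum.inr (k, !c)) = 0 := fun k => by
    by_cases hk : μ (Sum.inr (k, true)) = 0
    · exact ⟨false, hk⟩
    · exact ⟨true, hred μ hμ k true hk⟩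
  choose π hπ using hπ
  have hq := fun θ : VI I → ℝ => hs.exists_lift Set.univ π (fun k => cis (θ (Sum.inr (k, π k))))
    (fun k _ => norm_cis _) fun v => cis (θ v)
  choose q hq1 hq2 using hq
  have hne : ∀ k j, (Sum.inr (k, π k) : VI I) ≠ Sum.inr (j, !π j) := fun k j h => by
    obtain ⟨rfl, h⟩ := Prod.mk.inj (Sum.inr.inj h)
    simp at h
  have hqr : ∀ θ k, ev (q θ) (rel s k) = 0 := fun θ k => by
    rw [rel_eq' k (π k), map_sub, map_mul, ev_var, ev_var, hq2 θ k trivial,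
      hq1 θ _ fun j _ => hne k j, smul_eq_mul, mul_inv_cancel_left₀ (cis_ne _), sub_self]
  have hw : ∀ θ, ‖ev (q θ) (mon μ)‖ = 1 := fun θ => by
    rw [ev_mon, Finsupp.prod, norm_prod]
    refine Finset.prod_eq_one fun v hv => ?_
    rw [hq1 θ v, norm_pow, norm_cis, one_pow]
    rintro k - rfl
    exact Finsupp.mem_support_iff.1 hv (hπ k)
  have hrot : ∀ ν, Red Set.univ ν → ν ≠ μ → ∃ γ : VI I → ℝ, ∀ θ,
      ev (q (γ + θ)) (mon ν) / ev (q (γ + θ)) (mon μ) =
        - (ev (q θ) (mon ν) / ev (q θ) (mon μ)) := by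
    intro ν hν hνμ
    obtain ⟨v0, hv0, hmax⟩ := Finset.exists_max_image
      ((ν.support ∪ μ.support).filter fun v => ν v ≠ μ v) lev (by
        obtain ⟨v, hv⟩ := DFunLike.ne_iff.1 hνμ
        refine ⟨v, Finset.mem_filter.2 ⟨?_, hv⟩⟩
        simp only [Finset.mem_union, Finsupp.mem_support_iff]
        omega)
    have hv0' := (Finset.mem_filter.1 hv0).2
    have hmax' : ∀ v, lev v0 < lev v → ν v = μ v := fun v hv => by
      by_contra hcon
      refine absurd (hmax v (Finset.mem_filter.2 ⟨?_, hcon⟩)) (not_le.2 hv)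
      simp only [Finset.mem_union, Finsupp.mem_support_iff]
      omega
    have key : ∃ v w : VI I, (∀ k, v ≠ Sum.inr (k, !π k)) ∧ (∃ k, w = Sum.inr (k, !π k)) ∧
        ν v ≠ ν w + μ v ∧ ∀ (t : ℝ) θ, (ν w ≠ 0 → (q (Pi.single v t + θ) w : ℂ) =
          (cis t : ℂ)⁻¹ * q θ w) ∧ ∀ k, ν (Sum.inr (k, !π k)) ≠ 0 → Sum.inr (k, !π k) ≠ w →
          (q (Pi.single v t + θ) (Sum.inr (k, !π k)) : ℂ) = q θ (Sum.inr (k, !π k)) := by
      rcases v0 with n | ⟨k0, c⟩
      · have h5 : ∀ k, ν (Sum.inr (k, !π k)) = 0 := fun k => by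
          rw [hmax' (Sum.inr (k, !π k)) (WithBot.bot_lt_coe k), hπ]
        exact ⟨Sum.inl n, Sum.inr (Classical.arbitrary I, _), by simp, ⟨_, rfl⟩,
          by rwa [h5, zero_add], fun t θ => ⟨fun h => absurd (h5 _) h, fun k h => absurd (h5 _) h⟩⟩
      · refine ⟨Sum.inr (k0, π k0), Sum.inr (k0, !π k0), hne k0, ⟨_, rfl⟩, ?_, fun t θ => ?_⟩
        · by_cases h5 : ν (Sum.inr (k0, !π k0)) = 0
          · rw [h5, zero_add]
            by_cases hc : c = π k0
            · rwa [← hc]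
            · rw [Bool.eq_not.2 hc, h5, hπ] at hv0'
              exact absurd rfl hv0'
          · have := hred ν hν k0 _ h5
            rw [Bool.not_not] at this
            omega
        · have h5 : ∀ v ∈ bel k0, (Pi.single (Sum.inr (k0, π k0)) t + θ : VI I → ℝ) v = θ v := by
            intro v hv
            rw [Pi.add_apply, Pi.single_eq_of_ne, zero_add]
            rintro rfl
            exact lt_irrefl _ (inr_mem_bel.1 hv)
          have h6 := hs.agree (f := ev (q (Pi.single (Sum.inr (k0, π k0)) t + θ))) (g := ev (q θ))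
            (S := bel k0) (fun k c hk => bel_mono (inr_mem_bel.1 hk).le) (fun v hv => by
              by_cases h7 : ∀ k ∈ Set.univ, v ≠ Sum.inr (k, !π k)
              · left
                rw [ev_var, ev_var, hq1 _ v h7, hq1 _ v h7, h5 v hv]
              · right
                push Not at h7
                obtain ⟨k, -, rfl⟩ := h7
                refine ⟨k, _, (cis (θ (Sum.inr (k, π k))) : ℂ)⁻¹, rfl, ?_, ?_⟩
                · rw [ev_var, hq2 _ k trivial, h5 _ (inr_mem_bel.2 (inr_mem_bel.1 hv))]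
                · rw [ev_var, hq2 _ k trivial])
          refine ⟨fun _ => ?_, fun k hk hk' => ?_⟩
          · rw [hq2 _ k0 trivial, hq2 _ k0 trivial, (hs.on k0).congr h6, Pi.add_apply,
              Pi.single_eq_same, cis_add, mul_inv, smul_eq_mul, smul_eq_mul, mul_assoc]
          · rcases lt_trichotomy k k0 with h7 | h7 | h7
            · have := h6 _ (inr_mem_bel.2 h7 : Sum.inr (k, !π k) ∈ _)
              rwa [ev_var, ev_var] at this
            · exact absurd (by rw [h7]) hk'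
            · rw [hmax' (Sum.inr (k, !π k)) (WithBot.coe_lt_coe.2 h7), hπ] at hk
              exact absurd rfl hk
    obtain ⟨v, w, hv, ⟨j, rfl⟩, hd, hk⟩ := key
    obtain ⟨t, ht⟩ := exists_cis hd
    refine ⟨Pi.single v t, fun θ => ?_⟩
    have h5 : (q (Pi.single v t + θ) v : ℂ) = cis t * q θ v := by
      rw [hq1 _ v fun k _ => hv k, hq1 _ v fun k _ => hv k, Pi.add_apply, Pi.single_eq_same, cis_add]
    have h6 : ∀ x, x ≠ v → (∀ k ∈ Set.univ, x ≠ Sum.inr (k, !π k)) →
        (q (Pi.single v t + θ) x : ℂ) = q θ x := fun x hx hx' => by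
      rw [hq1 _ x hx', hq1 _ x hx', Pi.add_apply, Pi.single_eq_of_ne hx, zero_add]
    rw [ev_mon_twist (m := ν) (hv j) h5 (hk t θ).1 (fun x h7 h8 h9 => by
        by_cases h10 : ∀ k ∈ Set.univ, x ≠ Sum.inr (k, !π k)
        · exact h6 x h8 h10
        · push Not at h10
          obtain ⟨k, -, rfl⟩ := h10
          exact (hk t θ).2 k h7 h9),
      ev_mon_twist (m := μ) (hv j) h5 (fun h7 => absurd (hπ j) h7) (fun x h7 h8 _ =>
        h6 x h8 (by rintro k - rfl; exact h7 (hπ k))), ht, hπ, pow_zero, mul_one, neg_mul,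
      neg_div, mul_div_mul_left _ _ (pow_ne_zero _ (cis_ne t))]
  refine norm_le_zero_iff.1 (le_of_forall_pos_le_add fun ε hε => ?_)
  rw [zero_add]
  obtain ⟨S, hS⟩ := exists_finset_approx x hε
  refine avg (G := VI I → ℝ) (S.erase μ)
    (fun ν θ => cf ν x * (ev (q θ) (mon ν) / ev (q θ) (mon μ))) _ (fun ν hν => ?_) fun θ => ?_
  · by_cases h5 : Red Set.univ ν
    · obtain ⟨γ, hγ⟩ := hrot ν h5 (Finset.ne_of_mem_erase hν)
      exact ⟨γ, fun θ => by rw [hγ, mul_neg]⟩
    · exact ⟨0, fun θ => by simp [h3 ν h5]⟩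
  · have h5 := (norm_ev_le (q θ) _).trans (hS (insert μ (S.erase μ)) 
      (Finset.subset_insert_iff.2 subset_rfl))
    have h6 : ev (q θ) (mon μ) ≠ 0 := fun h => by simpa [h] using hw θ
    rw [map_sub, h2 _ (hqr θ), zero_sub, norm_neg, Finset.sum_insert (Finset.notMem_erase _ _),
      map_add, map_sum, ← div_one ‖_‖, ← hw θ, ← norm_div, add_div, Finset.sum_div] at h5
    simpa only [map_smul, smul_eq_mul, mul_div_assoc, div_self h6, mul_one] using h5

end Pool.Agent.P.MP_0279ce_an.Comm
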