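import Mathlib

/-! Basic tools for the space of absolutely summable complex families. -/

namespace Pool.Agent.P.MP_0279ce_an

open scoped Topology
open Filter

abbrev L1 (J : Type) : Type := lp (fun _ : J => ℂ) 1

variable {J : Type}

lemma L1.summable_norm (u : L1 J) : Summable fun j => ‖u j‖ := by
  simpa using (lp.memℓp u).summable (by simp)

lemma L1.norm_eq (u : L1 J) : ‖u‖ = ∑' j, ‖u j‖ := by
  simpa using lp.norm_eq_tsum_rpow (by simp) u

noncomputable def L1.mk (f : J → ℂ) (hf : Summable fun j => ‖f j‖) : L1 J :=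
  ⟨f, memℓp_gen (by simpa using hf)⟩

@[simp] lemma L1.mk_apply (f : J → ℂ) (hf : Summable fun j => ‖f j‖) (j : J) :
    L1.mk f hf j = f j := rfl

lemma L1.countable_support (u : L1 J) : {j | u j ≠ 0}.Countable := by
  have h := (L1.summable_norm u).countable_support
  refine h.mono ?_
  intro j hj
  simpa using hj

lemma L1.summable_comp {K : Type} (u : L1 J) {ι : K → J} (hι : Function.Injective ι) :
    Summable fun k => ‖u (ι k)‖ :=
  (L1.summable_norm u).comp_injective hι

lemma L1.tsum_comp_le {K : Type} (u : L1 J) {ι : K → J} (hι : Function.Injective ι) :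
    ∑' k, ‖u (ι k)‖ ≤ ‖u‖ := by
  rw [L1.norm_eq]
  exact tsum_comp_le_tsum_of_inj (L1.summable_norm u) (fun _ => norm_nonneg _) hι

lemma L1.tsum_apply {K : Type} {f : K → L1 J} (hf : Summable f) (j : J) :
    (∑' k, f k) j = ∑' k, f k j :=
  (lp.evalCLM (𝕜 := ℂ) (E := fun _ : J => ℂ) (p := 1) j).map_tsum hf

open Classical in
/-- Point mass. -/
noncomputable def delta (j : J) : L1 J := lp.single 1 j (1 : ℂ)

lemma delta_self (j : J) : delta j j = 1 := by
  simp [delta]

lemma delta_ne {j k : J} (h : k ≠ j) : delta j k = 0 := by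
  classical
  unfold delta
  exact lp.single_apply_ne _ _ _ h

lemma norm_delta (j : J) : ‖delta j‖ = 1 := by
  classical
  unfold delta
  rw [lp.norm_single (by simp)]
  simp

/-- Elementary tensor. -/
noncomputable def tens (a b : L1 J) : L1 (J × J) :=
  L1.mk (fun x => a x.1 * b x.2) (by
    have := Summable.mul_norm (f := fun j => a j) (g := fun j => b j)
      (L1.summable_norm a) (L1.summable_norm b)
    exact this)

@[simp] lemma tens_apply (a b : L1 J) (x : J × J) : tens a b x = a x.1 * b x.2 := rfl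

lemma norm_tens (a b : L1 J) : ‖tens a b‖ = ‖a‖ * ‖b‖ := by
  rw [L1.norm_eq, L1.norm_eq, L1.norm_eq,
    tsum_mul_tsum_of_summable_norm (by simpa using L1.summable_norm a)
      (by simpa using L1.summable_norm b)]
  simp

lemma tens_add_left (a a' b : L1 J) : tens (a + a') b = tens a b + tens a' b := by
  ext x; simp [add_mul]

lemma tens_add_right (a b b' : L1 J) : tens a (b + b') = tens a b + tens a b' := by
  ext x; simp [mul_add]

lemma tens_smul_left (c : ℂ) (a b : L1 J) : tens (c • a) b = c • tens a b := by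
  ext x; simp [mul_assoc]

lemma tens_smul_right (c : ℂ) (a b : L1 J) : tens a (c • b) = c • tens a b := by
  ext x; simp [mul_left_comm]

lemma tens_delta (k : J) : tens (delta k) (delta k) = delta (k, k) := by
  ext ⟨i, j⟩
  by_cases h : (i, j) = (k, k)
  · obtain ⟨rfl, rfl⟩ := Prod.mk.inj h
    simp [delta_self]
  · rw [delta_ne h, tens_apply]
    by_cases hi : i = k
    · have hj : j ≠ k := fun hj => h (by rw [hi, hj])
      simp [delta_ne hj]
    · simp [delta_ne hi]

open Cardinal in
lemma mk_L1_le (hJ : #J ≤ 𝔠) [Nonempty J] : #(L1 J) ≤ 𝔠 := by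
  have h : ∀ u : L1 J, ∃ g : ℕ → J, {j | u j ≠ 0} ⊆ Set.range g := fun u =>
    Set.countable_iff_exists_subset_range.1 (L1.countable_support u)
  choose g hg using h
  have hinj : Function.Injective (fun u : L1 J => (fun n => (g u n, u (g u n)) : ℕ → J × ℂ)) := by
    intro u v huv
    have h1 : g u = g v := funext fun n => congrArg Prod.fst (congrFun huv n)
    have h2 : ∀ n, u (g u n) = v (g v n) := fun n => congrArg Prod.snd (congrFun huv n)
    ext j
    by_cases hj : j ∈ Set.range (g u)
    · obtain ⟨n, rfl⟩ := hj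
      rw [h2 n, h1]
    · have hu : u j = 0 := by
        by_contra h; exact hj (hg u h)
      have hv : v j = 0 := by
        by_contra h; exact hj (h1 ▸ hg v h)
      rw [hu, hv]
  refine (mk_le_of_injective hinj).trans ?_
  rw [mk_arrow]
  simp only [mk_prod, lift_id, mk_complex, mk_nat]
  calc (#J * 𝔠) ^ ℵ₀ ≤ (𝔠 * 𝔠) ^ ℵ₀ := power_le_power_right (by gcongr)
    _ = 𝔠 := by simp

/-- The index set: the initial ordinal of the continuum. -/
abbrev Idx : Type := (Cardinal.continuum.{0}).ord.ToType

open Cardinal in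
lemma mk_Idx : #Idx = 𝔠 := mk_ord_toType _

instance : Infinite Idx := by
  rw [Cardinal.infinite_iff, mk_Idx]; exact Cardinal.aleph0_le_continuum

open Cardinal in
lemma Idx.exists_gt {S : Set Idx} (hS : S.Countable) : ∃ a : Idx, ∀ b ∈ S, b < a := by
  by_contra hcon
  push Not at hcon
  have hcof : IsCofinal S := fun a => by
    obtain ⟨b, hb, hab⟩ := hcon a
    exact ⟨b, hb, hab⟩
  have h1 : Order.cof Idx ≤ ℵ₀ := (Order.cof_le hcof).trans (le_aleph0_iff_set_countable.2 hS)
  have h2 : ℵ₀ < (𝔠 : Cardinal.{0}).ord.cof := by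
    have := lt_cof_ord_power (a := ℵ₀) (b := 2) le_rfl (by norm_num)
    simpa using this
  have h3 : (𝔠 : Cardinal.{0}).ord.cof = Order.cof Idx := by
    simp
  rw [h3] at h2
  exact absurd h1 (not_le.2 h2)

open Cardinal in
/-- An enumeration of any type of size at most continuum in which every point occurs
cofinally often. -/
lemma Idx.exists_enum {W : Type} [Nonempty W] (hW : #W ≤ 𝔠) :
    ∃ e : Idx → W, ∀ (z : W) (a : Idx), ∃ i, a ≤ i ∧ e i = z := by
  have h : #(W × Idx) ≤ #Idx := by
    rw [mk_prod, mk_Idx]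
    simp only [lift_id]
    calc #W * 𝔠 ≤ 𝔠 * 𝔠 := by gcongr
      _ = 𝔠 := by simp
  obtain ⟨f⟩ := (Cardinal.le_def _ _).1 h
  refine ⟨fun i => (Function.invFun f i).1, fun z a => ?_⟩
  by_contra hcon
  push Not at hcon
  have hlt : ∀ k : Idx, f (z, k) < a := by
    intro k
    by_contra h'
    apply hcon _ (not_lt.1 h')
    simp only [Function.leftInverse_invFun f.injective (z, k)]
  have hinj : Function.Injective (fun k : Idx => (⟨f (z, k), hlt k⟩ : Set.Iio a)) := by
    intro k l hkl
    have := f.injective (congrArg Subtype.val hkl)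
    exact (Prod.mk.inj this).2
  have h1 := mk_le_of_injective hinj
  have h2 : #(Set.Iio a) < #Idx := mk_Iio_lt a (by simp)
  exact absurd h1 (not_le.2 h2)

end Pool.Agent.P.MP_0279ce_an
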