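import Pool.Agent.P.MP_0279ce_an.CRec
import Pool.Agent.P.MP_0279ce_an.CSemi
import Pool.Agent.P.MP_0279ce_an.L1

/-! The maximal ideal of the quotient algebra is the required example. -/

namespace Pool.Agent.P.MP_0279ce_an.Comm

open MvPolynomial Filter
open scoped Topology

section Abstract

variable {P : Type} [NormedCommRing P] [NormedAlgebra ℂ P] (φ : P →A[ℂ] ℂ) (J : Ideal P)

/-- The image of the kernel of a character in a quotient. -/
noncomputable def KerQ : NonUnitalSubalgebra ℂ (P ⧸ J) where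
  carrier := {x | ∃ y, φ y = 0 ∧ Ideal.Quotient.mk J y = x}
  add_mem' := by
    rintro _ _ ⟨a, ha, rfl⟩ ⟨b, hb, rfl⟩
    exact ⟨a + b, by rw [map_add, ha, hb, add_zero], rfl⟩
  zero_mem' := ⟨0, map_zero _, rfl⟩
  mul_mem' := by
    rintro _ _ ⟨a, ha, rfl⟩ ⟨b, -, rfl⟩
    exact ⟨a * b, by rw [map_mul, ha, zero_mul], rfl⟩
  smul_mem' := by
    rintro c _ ⟨a, ha, rfl⟩
    exact ⟨c • a, by rw [map_smul, ha, smul_zero], rfl⟩

variable {φ J}

lemma mk_mem_KerQ (hφ : ∀ j ∈ J, φ j = 0) {y : P} :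
    Ideal.Quotient.mk J y ∈ KerQ φ J ↔ φ y = 0 := by
  refine ⟨?_, fun h => ⟨y, h, rfl⟩⟩
  rintro ⟨a, ha, h⟩
  have := hφ _ (Ideal.Quotient.eq.1 h)
  rwa [map_sub, ha, zero_sub, neg_eq_zero] at this

theorem abstract [CompleteSpace P] (hJ : IsClosed (J : Set P)) (hφ : ∀ j ∈ J, φ j = 0)
    (hsemi : ∀ y, (∀ χ : P →A[ℂ] ℂ, (∀ j ∈ J, χ j = 0) → χ y = 0) → y ∈ J)
    {W : Submodule ℂ P} (hW : W = Submodule.span ℂ {x | ∃ a b, φ a = 0 ∧ φ b = 0 ∧ x = a * b})
    {u v : P} (hu : φ u = 0) (hv : φ v = 0)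
    (hcod : ∀ x, φ x = 0 → ∃ c d : ℂ, x - c • u - d • v ∈ W ⊔ J.restrictScalars ℂ)
    (hS : ∀ ε : ℝ, 0 < ε → ∃ x, φ x = 0 ∧ x ∈ W ⊔ J.restrictScalars ℂ ∧ ‖x‖ ≤ ε ∧
      ∀ (n : ℕ) (a b : Fin n → P), (∀ i, φ (a i) = 0) → (∀ i, φ (b i) = 0) →
        x - ∑ i, a i * b i ∈ J → 1 ≤ ∑ i, ‖a i‖ * ‖b i‖) :
    ∃ (A : Type) (_ : NonUnitalNormedCommRing A) (_ : NormedSpace ℂ A)
      (_ : IsScalarTower ℂ A A) (_ : SMulCommClass ℂ A A) (_ : CompleteSpace A),
      Ring.jacobson (Unitization ℂ A) = ⊥ ∧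
      FiniteDimensional ℂ (A ⧸ Submodule.span ℂ {x : A | ∃ a b : A, x = a * b}) ∧
      ¬ ∃ C : ℝ, ∀ x ∈ Submodule.span ℂ {x : A | ∃ a b : A, x = a * b},
        ∃ (n : ℕ) (a b : Fin n → A), x = ∑ i, a i * b i ∧ ∑ i, ‖a i‖ * ‖b i‖ ≤ C * ‖x‖ := by
  have hcl : IsClosed (KerQ φ J : Set (P ⧸ J)) := by
    rw [← (QuotientRing.isOpenQuotientMap_mk J).isQuotientMap.isClosed_preimage]
    have : Ideal.Quotient.mk J ⁻¹' (KerQ φ J : Set (P ⧸ J)) = {y | φ y = 0} :=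
      Set.ext fun y => mk_mem_KerQ hφ
    rw [this]
    exact isClosed_eq φ.continuous continuous_const
  have hmem : ∀ (x : P) (y : KerQ φ J), x ∈ W ⊔ J.restrictScalars ℂ →
      (y : P ⧸ J) = Ideal.Quotient.mk J x →
      y ∈ Submodule.span ℂ {x : KerQ φ J | ∃ a b : KerQ φ J, x = a * b} := by
    intro x y hx hy
    obtain ⟨w, hw, j, hj, rfl⟩ := Submodule.mem_sup.1 hx
    rw [map_add, Ideal.Quotient.eq_zero_iff_mem.2 hj, add_zero] at hy
    rw [hW] at hw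
    have key : ∃ y' ∈ Submodule.span ℂ {x : KerQ φ J | ∃ a b : KerQ φ J, x = a * b},
        (y' : P ⧸ J) = Ideal.Quotient.mk J w := by
      clear hy hx
      induction hw using Submodule.span_induction with
      | mem x hx =>
        obtain ⟨a, b, ha, hb, rfl⟩ := hx
        exact ⟨(⟨_, a, ha, rfl⟩ : KerQ φ J) * ⟨_, b, hb, rfl⟩,
          Submodule.subset_span ⟨_, _, rfl⟩, rfl⟩
      | zero => exact ⟨0, Submodule.zero_mem _, rfl⟩
      | add x y _ _ hx hy =>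
        obtain ⟨x', h1, h2⟩ := hx
        obtain ⟨y', h3, h4⟩ := hy
        exact ⟨x' + y', Submodule.add_mem _ h1 h3, by rw [map_add, ← h2, ← h4]; rfl⟩
      | smul c x _ hx =>
        obtain ⟨x', h1, h2⟩ := hx
        exact ⟨c • x', Submodule.smul_mem _ _ h1, by
          change c • (x' : P ⧸ J) = c • Ideal.Quotient.mk J x
          rw [h2]⟩
    obtain ⟨y', h1, h2⟩ := key
    rwa [show y = y' from Subtype.ext (hy.trans h2.symm)]
  refine ⟨KerQ φ J, inferInstance, ⟨fun c x => norm_smul_le c (x : P ⧸ J)⟩, inferInstance,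
    inferInstance, hcl.completeSpace_coe, ?_, ?_, ?_⟩
  · rw [eq_bot_iff]
    intro x hx
    have h1 : ∀ f : Unitization ℂ (KerQ φ J) →ₐ[ℂ] ℂ, f x = 0 := fun f => by
      haveI := RingHom.ker_isMaximal_of_surjective f.toRingHom fun c => ⟨_, f.commutes c⟩
      exact Ring.jacobson_le_of_isMaximal (RingHom.ker f.toRingHom) hx
    have h2 : x.fst = 0 := h1 (Unitization.fstHom ℂ _)
    obtain ⟨y, hy0, hy⟩ := x.snd.2
    have h3 : y ∈ J := hsemi y fun χ hχ => by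
      have := h1 (Unitization.lift ((Ideal.Quotient.liftₐ J χ.toAlgHom hχ : (P ⧸ J) →ₙₐ[ℂ] ℂ).comp
        (NonUnitalSubalgebraClass.subtype (KerQ φ J))))
      change algebraMap ℂ ℂ x.fst + Ideal.Quotient.liftₐ J χ.toAlgHom hχ (x.snd : P ⧸ J) = 0 at this
      rwa [h2, map_zero, zero_add, ← hy] at this
    have h4 : x.snd = 0 := Subtype.ext (hy.symm.trans (Ideal.Quotient.eq_zero_iff_mem.2 h3))
    exact Unitization.ext h2 h4
  · let u' : KerQ φ J := ⟨_, u, hu, rfl⟩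
    let v' : KerQ φ J := ⟨_, v, hv, rfl⟩
    refine Module.Finite.of_surjective ((Submodule.mkQ _).comp
      ((LinearMap.toSpanSingleton ℂ _ u').coprod (LinearMap.toSpanSingleton ℂ _ v'))) fun x => ?_
    obtain ⟨x, rfl⟩ := Submodule.Quotient.mk_surjective _ x
    obtain ⟨y, hy0, hy⟩ := x.2
    obtain ⟨c, d, h⟩ := hcod y hy0
    refine ⟨(c, d), ((Submodule.Quotient.eq _).2 (hmem _ _ h ?_)).symm⟩
    change (x : P ⧸ J) - (c • Ideal.Quotient.mk J u + d • Ideal.Quotient.mk J v) = _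
    rw [← hy, sub_sub]; rfl
  · rintro ⟨C, hC⟩
    obtain ⟨x, hx0, hxW, hxε, hx⟩ := hS (1 / (2 * (|C| + 1))) (by positivity)
    obtain ⟨n, a, b, h1, h2⟩ := hC ⟨_, x, hx0, rfl⟩ (hmem x _ hxW rfl)
    have h3 : ∀ δ : ℝ, 0 < δ → 1 ≤ ∑ i, (‖a i‖ + δ) * (‖b i‖ + δ) := by
      intro δ hδ
      choose a' ha ha' using fun i => Ideal.Quotient.norm_mk_lt (a i : P ⧸ J) hδ
      choose b' hb hb' using fun i => Ideal.Quotient.norm_mk_lt (b i : P ⧸ J) hδ
      refine (hx n a' b' (fun i => (mk_mem_KerQ hφ).1 (ha i ▸ (a i).2))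
        (fun i => (mk_mem_KerQ hφ).1 (hb i ▸ (b i).2)) ?_).trans
        (Finset.sum_le_sum fun i _ => mul_le_mul (ha' i).le (hb' i).le (norm_nonneg _)
          (by positivity))
      rw [← Ideal.Quotient.eq, map_sum]
      have h4 := congrArg (NonUnitalSubalgebraClass.subtype (KerQ φ J)) h1
      rw [map_sum] at h4
      refine h4.trans (Finset.sum_congr rfl fun i _ => ?_)
      rw [map_mul, map_mul, ha, hb]; rfl
    have h4 : 1 ≤ ∑ i, ‖a i‖ * ‖b i‖ := by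
      have h5 : Continuous fun δ : ℝ => ∑ i, (‖a i‖ + δ) * (‖b i‖ + δ) := by fun_prop
      have h6 := ge_of_tendsto ((h5.tendsto 0).mono_left (nhdsWithin_le_nhds (s := Set.Ioi 0)))
        (eventually_nhdsWithin_of_forall h3)
      simpa using h6
    have h5 : ‖(⟨_, x, hx0, rfl⟩ : KerQ φ J)‖ ≤ 1 / (2 * (|C| + 1)) :=
      (Ideal.Quotient.norm_mk_le J x).trans hxε
    have h6 : C * ‖(⟨_, x, hx0, rfl⟩ : KerQ φ J)‖ ≤ (|C| + 1) * (1 / (2 * (|C| + 1))) :=
      mul_le_mul (by linarith [le_abs_self C]) h5 (norm_nonneg _) (by positivity)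
    have h7 : (|C| + 1) * (1 / (2 * (|C| + 1))) = 1 / 2 := by field_simp
    linarith

end Abstract

lemma exists_div_var {V : Type} (v : V) (x : Pw V) : ∃ p, x - rho {v}ᶜ x = p * var v := by
  classical
  let R : Pw V →L[ℂ] Pw V := lin fun m => if m v = 0 then 0 else mon (m - Finsupp.single v 1)
  have hR : ∀ m, R (mon m) = if m v = 0 then 0 else mon (m - Finsupp.single v 1) :=
    lin_mon (C := 1) fun m => by split_ifs <;> simp [norm_mon]
  have : ContinuousLinearMap.id ℂ _ - (rho {v}ᶜ).toContinuousLinearMap =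
      ((ContinuousLinearMap.mul ℂ _).flip (var v)).comp R := Pw.ext fun m => by
    change mon m - rho {v}ᶜ (mon m) = R (mon m) * var v
    rw [hR]
    split_ifs with h
    · rw [zero_mul, sub_eq_zero, mon_eq_prod, Finsupp.prod, map_prod]
      refine Finset.prod_congr rfl fun w hw => ?_
      rw [map_pow, rho_var_of_mem]
      rintro rfl
      exact Finsupp.mem_support_iff.1 hw h
    · have h1 : mon m = mon (m - Finsupp.single v 1) * var v := by
        rw [var_eq, ← mon_add, tsub_add_cancel_of_le]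
        exact Finsupp.single_le_iff.2 (Nat.one_le_iff_ne_zero.2 h)
      rw [← h1, sub_eq_self, h1, map_mul, rho_var_of_notMem (by simp), mul_zero]
  exact ⟨R x, DFunLike.congr_fun this x⟩

theorem of_tower {I : Type} [LinearOrder I] [WellFoundedLT I] [OrderTop I] {s : I → Pw (VI I)}
    (hs : Tow s) (hs1 : s ⊤ = zz I) (hH : zz I ∉ WJ s (Set.Iio ⊤))
    (hall : ∀ x, phi x = 0 → On (bel ⊤) x → x ∈ WJ s Set.univ) :
    ∃ (A : Type) (_ : NonUnitalNormedCommRing A) (_ : NormedSpace ℂ A)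
      (_ : IsScalarTower ℂ A A) (_ : SMulCommClass ℂ A A) (_ : CompleteSpace A),
      Ring.jacobson (Unitization ℂ A) = ⊥ ∧
      FiniteDimensional ℂ (A ⧸ Submodule.span ℂ {x : A | ∃ a b : A, x = a * b}) ∧
      ¬ ∃ C : ℝ, ∀ x ∈ Submodule.span ℂ {x : A | ∃ a b : A, x = a * b},
        ∃ (n : ℕ) (a b : Fin n → A), x = ∑ i, a i * b i ∧ ∑ i, ‖a i‖ * ‖b i‖ ≤ C * ‖x‖ := by
  haveI : Nonempty I := ⟨⊤⟩
  refine abstract (φ := phi) (J := JJ s Set.univ) isClosed_JJ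
    (fun j hj => map_JJ_zero phi (fun k _ => hs.phi_rel k) hj)
    (fun y hy => hs.semisimple fun χ hχ => hy χ fun j hj => map_JJ_zero χ (fun k _ => hχ k) hj)
    (W := Wsp _) rfl (phi_var (Sum.inr (⊤, true))) (phi_var (Sum.inr (⊤, false)))
    (fun x hx => ?_) fun ε hε => ?_
  · obtain ⟨p, hp⟩ := exists_div_var (Sum.inr (⊤, true)) x
    obtain ⟨q, hq⟩ := exists_div_var (Sum.inr (⊤, false)) (rho {Sum.inr (⊤, true)}ᶜ x)
    rw [rho_rho] at hq
    have h1 := hall _ ((phi_rho _ x).trans hx)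
      ((On_rho ({Sum.inr (⊤, false)}ᶜ ∩ {Sum.inr (⊤, true)}ᶜ) x).mono (by
        rintro (n | ⟨k, c⟩) ⟨h1, h2⟩
        · exact inl_mem_bel n _
        · refine inr_mem_bel.2 (lt_top_iff_ne_top.2 ?_)
          rintro rfl
          cases c
          · exact h1 rfl
          · exact h2 rfl))
    have h2 := mul_sub_mem_Wsp p (phi_var (Sum.inr ((⊤ : I), true)))
    have h3 := mul_sub_mem_Wsp q (phi_var (Sum.inr ((⊤ : I), false)))
    rw [mul_comm, mul_comm (var _), ← hp] at h2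
    rw [← hq] at h3
    refine ⟨phi p, phi q, ?_⟩
    have h4 := Submodule.add_mem _ h1 (mem_WJ_of_Wsp (Submodule.add_mem _ h2 h3))
    change _ ∈ WJ s Set.univ
    convert h4 using 1
    ring
  · have h1 : Tendsto (fun N => zz I - ∑ n ∈ Finset.range N, zt I n) atTop (𝓝 0) := by
      simpa [zz] using (summable_zt (I := I)).hasSum.tendsto_sum_nat.const_sub (zz I)
    obtain ⟨N, hN⟩ := ((Metric.tendsto_nhds.1 h1) ε hε).exists
    have h2 : ∑ n ∈ Finset.range N, zt I n ∈ Wsp _ := Submodule.sum_mem _ fun n _ => zt_mem n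
    have h3 : phi (∑ n ∈ Finset.range N, zt I n) = 0 := by rw [map_sum]; simp [phi_zt]
    have h4 : On (Set.range Sum.inl) (∑ n ∈ Finset.range N, zt I n) := by
      rw [On, map_sum]
      exact Finset.sum_congr rfl fun n _ => On_zt n
    generalize ∑ n ∈ Finset.range N, zt I n = y at hN h2 h3 h4
    refine ⟨zz I - y, by rw [map_sub, phi_zz, h3, sub_zero],
      Submodule.sub_mem (WJ s Set.univ) (hs1 ▸ s_mem_WJ (Set.mem_univ ⊤)) (mem_WJ_of_Wsp h2),
      by simpa using hN.le, fun n a b ha hb hj => ?_⟩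
    obtain ⟨r, hr⟩ := JJ_decomp_one hs.norm_le ⊤ hj
    have h5 : Set.univ \ {⊤} = Set.Iio (⊤ : I) := by
      ext; simp [lt_top_iff_ne_top]
    rw [h5] at hr
    have h6 : ∑ i, a i * b i ∈ Wsp _ := Submodule.sum_mem _ fun i _ => mul_mem_Wsp (ha i) (hb i)
    have h7 : phi r = -1 := by
      by_contra hcon
      refine hH ?_
      rw [← Submodule.smul_mem_iff _ (fun h => hcon (eq_neg_of_add_eq_zero_right h) :
        1 + phi r ≠ 0)]
      have h8 : (1 + phi r) • zz I = (zz I - y - ∑ i, a i * b i - r * rel s ⊤) +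
          (y + ∑ i, a i * b i + (r * var (Sum.inr (⊤, true))) * var (Sum.inr (⊤, false)) -
            (r * zz I - phi r • zz I)) := by
        rw [rel_eq, hs1, add_smul, one_smul]; ring
      rw [h8]
      refine Submodule.add_mem _ (mem_WJ_of_JJ hr) (mem_WJ_of_Wsp (Submodule.sub_mem _
        (Submodule.add_mem _ (Submodule.add_mem _ h2 h6) (mul_mem_Wsp ?_ (phi_var _)))
        (mul_sub_mem_Wsp r phi_zz)))
      rw [map_mul, phi_var, mul_zero]
    have h8 : ∀ v ∈ bel (⊤ : I), rho (bel ⊤)ᶜ (var v) = ((cst _).comp phi) (var v) := fun v hv => by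
      rw [rho_var_of_notMem (Set.notMem_compl_iff.2 hv)]
      change _ = cst _ (phi _)
      rw [phi_var, map_zero]
    have h9 : ∀ x, On (Set.range Sum.inl) x → phi x = 0 → rho (bel (⊤ : I))ᶜ x = 0 :=
      fun x hx hx0 => by
        rw [hx.congr (g := (cst _).comp phi)
          (by rintro _ ⟨m, rfl⟩; exact h8 _ (inl_mem_bel m _))]
        change cst _ (phi _) = _
        rw [hx0, map_zero]
    have h10 := map_JJ_zero (rho (bel ⊤)ᶜ) (fun k hk => by
      rw [hs.congr_rel hk h8]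
      change cst _ (phi _) = _
      rw [hs.phi_rel, map_zero]) hr
    have h11 : rho (bel ⊤)ᶜ (rel s ⊤) = mon (pr ⊤) := by
      have h11 : ∀ c, Sum.inr (⊤, c) ∈ (bel (⊤ : I))ᶜ := fun c h => lt_irrefl _ (inr_mem_bel.1 h)
      rw [rel_eq, hs1, map_sub, map_mul, h9 _ On_zz phi_zz, sub_zero, mon_pr,
        rho_var_of_mem (h11 _), rho_var_of_mem (h11 _)]
    rw [map_sub, map_sub, map_sub, h9 _ On_zz phi_zz, h9 _ h4 h3, map_mul, h11] at h10
    have h12 := congrArg (cf (pr ⊤)) h10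
    rw [map_sub, cf_mul_mon, phi_rho, h7, sub_zero, zero_sub, map_neg, map_zero] at h12
    calc (1 : ℝ) = ‖cf (pr ⊤) (rho (bel ⊤)ᶜ (∑ i, a i * b i))‖ := by
          rw [show cf (pr ⊤) (rho (bel ⊤)ᶜ (∑ i, a i * b i)) = 1 by linear_combination -h12,
            norm_one]
      _ ≤ ‖∑ i, a i * b i‖ := (norm_cf_le _ _).trans (norm_rho_le _ _)
      _ ≤ _ := norm_sum_le_of_le _ fun i _ => norm_mul_le _ _

open Cardinal in
lemma mk_VI_le {α : Type} (h : #α = 𝔠) : #(VI (WithTop α)) ≤ 𝔠 := by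
  have h1 : #(WithTop α) = 𝔠 := by
    change #(Option α) = 𝔠
    rw [mk_option, h, add_one_eq aleph0_le_continuum]
  simp [h1]

open Cardinal in
theorem of_index {α : Type} [LinearOrder α] [WellFoundedLT α]
    (hgt : ∀ S : Set α, S.Countable → ∃ a, ∀ b ∈ S, b < a)
    (e : α → Pw (VI (WithTop α))) (he : ∀ x a, ∃ i, a ≤ i ∧ e i = x) :
    ∃ (A : Type) (_ : NonUnitalNormedCommRing A) (_ : NormedSpace ℂ A)
      (_ : IsScalarTower ℂ A A) (_ : SMulCommClass ℂ A A) (_ : CompleteSpace A),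
      Ring.jacobson (Unitization ℂ A) = ⊥ ∧
      FiniteDimensional ℂ (A ⧸ Submodule.span ℂ {x : A | ∃ a b : A, x = a * b}) ∧
      ¬ ∃ C : ℝ, ∀ x ∈ Submodule.span ℂ {x : A | ∃ a b : A, x = a * b},
        ∃ (n : ℕ) (a b : Fin n → A), x = ∑ i, a i * b i ∧ ∑ i, ‖a i‖ * ‖b i‖ ≤ C * ‖x‖ := by
  obtain ⟨s, h1, h2, h3, h4⟩ := exists_tower (I := WithTop α) (fun S hS hS' => by
      obtain ⟨a, ha⟩ := hgt _ (hS.preimage WithTop.coe_injective)
      refine ⟨a, WithTop.coe_lt_top a, fun k hk => ?_⟩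
      obtain ⟨i, rfl⟩ := WithTop.ne_top_iff_exists.1 (hS' k hk).ne
      exact WithTop.coe_lt_coe.2 (ha i hk))
    (fun k => WithTop.recTopCoe 0 e k) (fun x a ha => by
      obtain ⟨a, rfl⟩ := WithTop.ne_top_iff_exists.1 ha.ne
      obtain ⟨i, h1, h2⟩ := he x a
      exact ⟨i, WithTop.coe_le_coe.2 h1, WithTop.coe_lt_top i, h2⟩)
  exact of_tower h1 h2 h3 h4

theorem main : ∃ (A : Type) (_ : NonUnitalNormedCommRing A) (_ : NormedSpace ℂ A)
      (_ : IsScalarTower ℂ A A) (_ : SMulCommClass ℂ A A) (_ : CompleteSpace A),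
      Ring.jacobson (Unitization ℂ A) = ⊥ ∧
      FiniteDimensional ℂ (A ⧸ Submodule.span ℂ {x : A | ∃ a b : A, x = a * b}) ∧
      ¬ ∃ C : ℝ, ∀ x ∈ Submodule.span ℂ {x : A | ∃ a b : A, x = a * b},
        ∃ (n : ℕ) (a b : Fin n → A), x = ∑ i, a i * b i ∧ ∑ i, ‖a i‖ * ‖b i‖ ≤ C * ‖x‖ := by
  obtain ⟨e, he⟩ := Idx.exists_enum (mk_Pw_le (mk_VI_le mk_Idx))
  exact of_index (fun S hS => Idx.exists_gt hS) e he

end Pool.Agent.P.MP_0279ce_an.Comm
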