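import Pool.Agent.P.MP_0279ce_an.CNC

/-! Points of a tower of hypersurfaces `u v = s` with almost all levels on a face and no node. -/

namespace Pool.Agent.P.MP_0279ce_an.Comm

open MvPolynomial Filter
open scoped Topology

lemma exists_mem_all {X A : Type} [TopologicalSpace X] [T2Space X] [Preorder A]
    [IsDirected A (· ≤ ·)] [Nonempty A] {K : Set X} (hK : IsCompact K) (C : A → Set X)
    (hC : ∀ a, IsClosed (C a)) (hanti : ∀ a b, a ≤ b → C b ⊆ C a)
    (hne : ∀ a, (K ∩ C a).Nonempty) : ∃ x ∈ K, ∀ a, x ∈ C a := by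
  have := IsCompact.nonempty_iInter_of_directed_nonempty_isCompact_isClosed (fun a => K ∩ C a)
    (directed_of_isDirected_le fun a b hab => Set.inter_subset_inter_right _ (hanti a b hab))
    hne (fun a => hK.inter_right (hC a)) (fun a => hK.isClosed.inter (hC a))
  obtain ⟨x, hx⟩ := this
  rw [Set.mem_iInter] at hx
  exact ⟨x, (hx (Classical.arbitrary A)).1, fun a => (hx a).2⟩

lemma exists_mem_all2 {X ι : Type} [TopologicalSpace X] [T2Space X] {K : Set X}
    (hK : IsCompact K) (C : Finset ι → ℕ → Set X) (hC : ∀ F n, IsClosed (C F n))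
    (hanti : ∀ F F' n n', F ⊆ F' → n ≤ n' → C F' n' ⊆ C F n)
    (hne : ∀ F n, (K ∩ C F n).Nonempty) : ∃ x ∈ K, ∀ F n, x ∈ C F n := by
  classical
  obtain ⟨x, hx, h⟩ := exists_mem_all (A := Finset ι × ℕ) hK (fun a => C a.1 a.2)
    (fun a => hC a.1 a.2)
    (fun a b hab => hanti _ _ _ _ (Prod.le_def.1 hab).1 (Prod.le_def.1 hab).2)
    (fun a => hne a.1 a.2)
  exact ⟨x, hx, fun F n => h (F, n)⟩

lemma eq_zero_of_forall_le {x : ℂ} {c : ℝ} (h : ∀ n : ℕ, ‖x‖ ≤ c / ((n : ℝ) + 1)) : x = 0 := by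
  have h1 : Tendsto (fun n : ℕ => c / ((n : ℝ) + 1)) atTop (𝓝 0) := by
    simpa [div_eq_mul_inv] using
      (tendsto_one_div_add_atTop_nhds_zero_nat (𝕜 := ℝ)).const_mul c
  exact norm_le_zero_iff.1 (ge_of_tendsto' h1 h)

lemma div_succ_anti {c : ℝ} (hc : 0 ≤ c) {m n : ℕ} (h : m ≤ n) :
    c / ((n : ℝ) + 1) ≤ c / ((m : ℝ) + 1) := by
  gcongr

variable {ι : Type}

/-- The polydisc with radii `ρ`. -/
def Om (ρ : ι → ℝ) : Set (ι × Bool → ℂ) := {q | ∀ v, ‖q v‖ ≤ ρ v.1}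

lemma isCompact_Om (ρ : ι → ℝ) : IsCompact (Om ρ) := by
  have : Om ρ = Set.univ.pi fun v : ι × Bool => Metric.closedBall (0 : ℂ) (ρ v.1) := by
    ext; simp [Om]
  rw [this]
  exact isCompact_univ_pi fun v => isCompact_closedBall _ _

/-- Uniform limits of polynomials on the unit polydisc. -/
def Approx (f : (ι × Bool → ℂ) → ℂ) : Prop :=
  ∀ ε : ℝ, 0 < ε → ∃ g : MvPolynomial (ι × Bool) ℂ, ∀ q ∈ Om (fun _ : ι => (1 : ℝ)),
    ‖f q - eval q g‖ ≤ ε

/-- At most `r` levels of `B` are off the faces. -/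
def Few (ρ : ι → ℝ) (B : Set ι) (r : ℕ) : Set (ι × Bool → ℂ) :=
  {q | ∀ S : Finset ι, (∀ k ∈ S, k ∈ B ∧ ∀ b, ‖q (k, b)‖ < ρ k) → S.card ≤ r}

lemma isClosed_Few (ρ : ι → ℝ) (B : Set ι) (r : ℕ) : IsClosed (Few ρ B r) := by
  rw [← isOpen_compl_iff, isOpen_iff_mem_nhds]
  intro q hq
  simp only [Few, Set.mem_compl_iff, Set.mem_setOf_eq, not_forall] at hq
  obtain ⟨S, hS, hcard⟩ := hq
  have : ∀ᶠ x in 𝓝 q, ∀ k ∈ S, ∀ b, ‖x (k, b)‖ < ρ k := by
    rw [eventually_all_finset]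
    intro k hk
    rw [eventually_all]
    intro b
    exact (isOpen_lt (continuous_apply (k, b)).norm continuous_const).mem_nhds ((hS k hk).2 b)
  filter_upwards [this] with x hx hx'
  exact hcard (hx' S fun k hk => ⟨(hS k hk).1, hx k hk⟩)

lemma Few.mono {ρ : ι → ℝ} {B B' : Set ι} (h : B ⊆ B') (r : ℕ) : Few ρ B' r ⊆ Few ρ B r :=
  fun _ hq S hS => hq S fun k hk => ⟨h (hS k hk).1, (hS k hk).2⟩

lemma Few.finite {ρ : ι → ℝ} {B : Set ι} {r : ℕ} {q : ι × Bool → ℂ} (hq : q ∈ Few ρ B r) :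
    {k | k ∈ B ∧ ∀ b, ‖q (k, b)‖ < ρ k}.Finite := by
  by_contra hinf
  obtain ⟨S, hS, hcard⟩ := Set.Infinite.exists_subset_card_eq hinf (r + 1)
  have := hq S fun k hk => hS hk
  omega

lemma Few.of_finset {ρ : ι → ℝ} {B : Set ι} {r : ℕ} {q : ι × Bool → ℂ}
    (h : ∀ T : Finset ι, q ∈ Few ρ (B ∩ T) r) : q ∈ Few ρ B r :=
  fun S hS => h S S fun k hk => ⟨⟨(hS k hk).1, hk⟩, (hS k hk).2⟩

/-- The points satisfying all relations. -/
def Sig (s : ι → (ι × Bool → ℂ) → ℂ) : Set (ι × Bool → ℂ) :=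
  {q | q ∈ Om (fun _ : ι => (1 : ℝ)) ∧ ∀ k, q (k, true) * q (k, false) = s k q}

/-- Admissible radii. -/
structure Adm (s : ι → (ι × Bool → ℂ) → ℂ) (ρ : ι → ℝ) : Prop where
  pos : ∀ k, 0 < ρ k
  le_one : ∀ k, ρ k ≤ 1
  fin : {k | ρ k ≠ 1}.Finite
  slack : ∀ k, ∀ q ∈ Om ρ, ‖s k q‖ ≤ ρ k ^ 2 / 2

lemma Om_mono {ρ ρ' : ι → ℝ} (h : ∀ k, ρ k ≤ ρ' k) : Om ρ ⊆ Om ρ' :=
  fun _ hq v => (hq v).trans (h _)

variable {s : ι → (ι × Bool → ℂ) → ℂ}

lemma Adm.min {ρ ρ' : ι → ℝ} (h : Adm s ρ) (h' : Adm s ρ') : Adm s (fun k => min (ρ k) (ρ' k)) where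
  pos k := lt_min (h.pos k) (h'.pos k)
  le_one k := (min_le_left _ _).trans (h.le_one k)
  fin := (h.fin.union h'.fin).subset fun k hk => by
    by_contra hcon
    simp only [Set.mem_union, Set.mem_setOf_eq, not_or, not_not] at hcon
    apply hk
    simp [hcon.1, hcon.2]
  slack k q hq := by
    rcases min_choice (ρ k) (ρ' k) with h1 | h1
    · rw [h1]; exact h.slack k q (Om_mono (fun _ => min_le_left _ _) hq)
    · rw [h1]; exact h'.slack k q (Om_mono (fun _ => min_le_right _ _) hq)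

lemma adm_one (hsb : ∀ k, ∀ q ∈ Om (fun _ : ι => (1 : ℝ)), ‖s k q‖ ≤ 1 / 2) :
    Adm s (fun _ => 1) where
  pos _ := one_pos
  le_one _ := le_rfl
  fin := by simp
  slack k q hq := by simpa using hsb k q hq

theorem base (hsc : ∀ k, Continuous (s k)) (hsa : ∀ k, Approx (s k)) {κ : Type} [Fintype κ]
    (g : κ → (ι × Bool → ℂ) → ℂ) (hgc : ∀ i, Continuous (g i)) (hga : ∀ i, Approx (g i))
    {ρ : ι → ℝ} (hρ : Adm s ρ) {p : ι × Bool → ℂ} (hp : p ∈ Sig s) (hpρ : p ∈ Om ρ)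
    (hg : ∀ i, g i p = 0) :
    ∃ q ∈ Sig s, q ∈ Om ρ ∧ (∀ i, g i q = 0) ∧ q ∈ Few ρ Set.univ (Fintype.card κ) := by
  classical
  have hsub : Om ρ ⊆ Om (fun _ : ι => (1 : ℝ)) := Om_mono hρ.le_one
  obtain ⟨q, hq, hall⟩ := exists_mem_all2 (isCompact_Om ρ)
    (fun (F : Finset ι) n =>
      {q | ∀ k ∈ F, ‖q (k, true) * q (k, false) - s k q‖ ≤ 2 / ((n : ℝ) + 1)} ∩
      ({q | ∀ i, ‖g i q‖ ≤ 2 / ((n : ℝ) + 1)} ∩ Few ρ (Set.univ ∩ F) (Fintype.card κ)))
    (fun F n => by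
      refine IsClosed.inter ?_ (IsClosed.inter ?_ (isClosed_Few _ _ _))
      · simp only [Set.setOf_forall]
        exact isClosed_iInter fun k => isClosed_iInter fun _ => isClosed_le
          (((continuous_apply (k, true)).mul (continuous_apply (k, false))).sub (hsc k)).norm
          continuous_const
      · simp only [Set.setOf_forall]
        exact isClosed_iInter fun i => isClosed_le (hgc i).norm continuous_const)
    (fun F F' n n' h1 h2 q hq =>
      ⟨fun k hk => (hq.1 k (h1 hk)).trans (div_succ_anti (by norm_num) h2),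
      fun i => (hq.2.1 i).trans (div_succ_anti (by norm_num) h2),
      Few.mono (Set.inter_subset_inter_right _ (Finset.coe_subset.2 h1)) _ hq.2.2⟩)
    (by
      intro F n
      obtain ⟨ε, hε, hε1, hε2⟩ : ∃ ε : ℝ, 0 < ε ∧ ε ≤ 1 / ((n : ℝ) + 1) ∧
          ∀ k ∈ F, ε ≤ ρ k ^ 2 / 8 := by
        obtain ⟨ε, hε⟩ : ∃ ε ∈ Set.Ioi (0 : ℝ), ε ≤ 1 / ((n : ℝ) + 1) ∧
            ∀ k ∈ F, ε ≤ ρ k ^ 2 / 8 := by
          have h1 : ∀ᶠ ε in 𝓝[>] (0 : ℝ), ε ≤ 1 / ((n : ℝ) + 1) :=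
            nhdsWithin_le_nhds (Iic_mem_nhds (by positivity))
          have h2 : ∀ᶠ ε in 𝓝[>] (0 : ℝ), ∀ k ∈ F, ε ≤ ρ k ^ 2 / 8 := by
            rw [eventually_all_finset]
            intro k _
            have := hρ.pos k
            exact nhdsWithin_le_nhds (Iic_mem_nhds (by positivity))
          exact ((h1.and h2).and self_mem_nhdsWithin).exists.imp fun ε h => ⟨h.2, h.1⟩
        exact ⟨ε, hε.1, hε.2⟩
      choose S hS using fun k => hsa k ε hε
      choose G hG using fun i => hga i ε hε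
      let ex : (F × Bool → ℂ) → (ι × Bool → ℂ) :=
        fun x v => if h : v.1 ∈ F then x (⟨v.1, h⟩, v.2) else p v
      let sub : MvPolynomial (ι × Bool) ℂ →ₐ[ℂ] MvPolynomial (F × Bool) ℂ :=
        aeval fun v => if h : v.1 ∈ F then X (⟨v.1, h⟩, v.2) else C (p v)
      have hsubev : ∀ x f, eval x (sub f) = eval (ex x) f := by
        intro x f
        induction f using MvPolynomial.induction_on with
        | C c => simp [sub]
        | add a b ha hb => simp [ha, hb]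
        | mul_X a v ha =>
          rw [map_mul, map_mul, ha, map_mul]
          congr 1
          by_cases hv : v.1 ∈ F <;> simp [sub, ex, hv]
      have hexρ : ∀ x : F × Bool → ℂ, (∀ v, ‖x v‖ ≤ ρ v.1) → ex x ∈ Om ρ := by
        intro x hx v
        by_cases hv : v.1 ∈ F
        · simpa [ex, hv] using hx (⟨v.1, hv⟩, v.2)
        · simpa [ex, hv] using hpρ v
      have hexF : ∀ x (k : F) b, ex x (k, b) = x (k, b) := by
        intro x k b; simp [ex]
      let w : F ⊕ κ → MvPolynomial (ι × Bool) ℂ :=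
        Sum.elim (fun k => X (k.1, true) * X (k.1, false) - S k) G
      let h : F ⊕ κ → MvPolynomial (F × Bool) ℂ := fun j => sub (w j) - C (eval p (w j))
      have hh : ∀ x j, eval x (h j) = 0 ↔ eval (ex x) (w j) = eval p (w j) := by
        intro x j
        simp only [h, map_sub, hsubev, eval_C, sub_eq_zero]
      have hrel : ∀ x : F × Bool → ℂ, (∀ j, eval x (h j) = 0) → (∀ v, ‖x v‖ ≤ ρ v.1) →
          ∀ k : F, ‖x (k, true) * x (k, false) - s k (ex x)‖ ≤ 2 * ε := by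
        intro x hx hxρ k
        have h1 := (hh x (Sum.inl k)).1 (hx _)
        simp only [w, Sum.elim_inl, map_sub, map_mul, eval_X, hexF] at h1
        have h2 := hS k _ (hsub (hexρ x hxρ))
        have h3 := hS k _ hp.1
        rw [hp.2 k] at h1
        have h4 : x (k, true) * x (k, false) - s k (ex x) =
            (s k p - eval p (S k)) - (s k (ex x) - eval (ex x) (S k)) := by
          linear_combination h1
        rw [h4]
        exact (norm_sub_le _ _).trans (by linarith)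
      have hpex : ex (fun v => p (v.1.1, v.2)) = p := by
        funext v
        by_cases hv : v.1 ∈ F <;> simp [ex, hv]
      obtain ⟨x, hx, hxρ, hfew⟩ := walk h (Fintype.card κ) (by simp) (fun k : F => ρ k)
        (fun x hx hxρ k => by
          by_contra hcon
          push Not at hcon
          have h1 := hrel x hx hxρ k
          have h2 := hρ.slack k _ (hexρ x hxρ)
          have h3 := hε2 k k.2
          have h4 : ‖x (k, true) * x (k, false)‖ ≤ 2 * ε + ρ k ^ 2 / 2 := by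
            have := norm_add_le (x (k, true) * x (k, false) - s k (ex x)) (s k (ex x))
            rw [sub_add_cancel] at this
            linarith
          have h5 : ρ k * ρ k ≤ ‖x (k, true) * x (k, false)‖ := by
            rw [norm_mul]
            exact mul_le_mul hcon.1 hcon.2 (hρ.pos k).le (norm_nonneg _)
          have := hρ.pos k
          nlinarith)
        (p := fun v => p (v.1.1, v.2)) (fun j => by rw [hh, hpex]) (fun v => hpρ (v.1.1, v.2))
      have h2ε : 2 * ε ≤ 2 / ((n : ℝ) + 1) := by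
        rw [div_eq_mul_one_div]; linarith
      refine ⟨ex x, hexρ x hxρ, fun k hk => ?_, fun i => ?_, fun T hT => ?_⟩
      · have := hrel x hx hxρ ⟨k, hk⟩
        rw [← hexF x ⟨k, hk⟩ true, ← hexF x ⟨k, hk⟩ false] at this
        exact this.trans h2ε
      · have h1 := (hh x (Sum.inr i)).1 (hx _)
        simp only [w, Sum.elim_inr] at h1
        have h2 := hG i _ (hsub (hexρ x hxρ))
        have h3 := hG i _ hp.1
        rw [hg i] at h3
        have h4 : g i (ex x) = (g i (ex x) - eval (ex x) (G i)) - (0 - eval p (G i)) := by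
          rw [h1]; ring
        rw [h4]
        exact ((norm_sub_le _ _).trans (by linarith)).trans h2ε
      · have := hfew (T.subtype (· ∈ F)) (fun k hk b => by
          rw [← hexF x k b]
          exact (hT k (Finset.mem_subtype.1 hk)).2 b)
        rwa [Finset.card_subtype, Finset.filter_true_of_mem
          (fun k hk => Finset.mem_coe.1 (hT k hk).1.2)] at this)
  refine ⟨q, ⟨hsub hq, fun k => ?_⟩, hq, fun i => ?_, Few.of_finset fun T => (hall T 0).2.2⟩
  · exact sub_eq_zero.1 (eq_zero_of_forall_le fun n => (hall {k} n).1 k (by simp))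
  · exact eq_zero_of_forall_le fun n => (hall ∅ n).2.1 i

variable [LinearOrder ι] [WellFoundedLT ι]

lemma exists_adm (hsb : ∀ k, ∀ q ∈ Om (fun _ : ι => (1 : ℝ)), ‖s k q‖ ≤ 1 / 2)
    (hloc : ∀ k (ε : ℝ), 0 < ε → ∃ L : Finset ι, (∀ j ∈ L, j < k) ∧ ∃ δ : ℝ, 0 < δ ∧
      ∀ q ∈ Om (fun _ : ι => (1 : ℝ)), (∀ j ∈ L, ∀ b, ‖q (j, b)‖ ≤ δ) → ‖s k q‖ ≤ ε)
    (γ : ι) (L : Finset ι) (hL : ∀ j ∈ L, j < γ) (δ : ℝ) (hδ : 0 < δ) :
    ∃ ρ, Adm s ρ ∧ (∀ j ∈ L, ρ j ≤ δ) ∧ ∀ k, γ ≤ k → ρ k = 1 := by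
  classical
  induction γ using WellFoundedLT.induction generalizing L δ with
  | ind γ ih =>
  induction L using Finset.induction_on with
  | empty => exact ⟨fun _ => 1, adm_one hsb, by simp, fun _ _ => rfl⟩
  | insert j L hj ihL =>
    obtain ⟨ρ1, hρ1, h1, h1'⟩ := ihL fun i hi => hL i (Finset.mem_insert_of_mem hi)
    have hjγ : j < γ := hL j (Finset.mem_insert_self _ _)
    set δ' := min δ 1 with hδ'
    have hδ'0 : 0 < δ' := lt_min hδ one_pos
    obtain ⟨L', hL', η, hη, hs⟩ := hloc j (δ' ^ 2 / 2) (by positivity)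
    obtain ⟨ρ2, hρ2, h2, h2'⟩ := ih j hjγ L' hL' η hη
    have hle : ∀ k, Function.update ρ2 j δ' k ≤ ρ2 k := by
      intro k
      by_cases hk : k = j
      · subst hk; rw [Function.update_self, h2' k le_rfl]; exact min_le_right _ _
      · rw [Function.update_of_ne hk]
    have hρ3 : Adm s (Function.update ρ2 j δ') := by
      refine ⟨fun k => ?_, fun k => (hle k).trans (hρ2.le_one k), ?_, fun k q hq => ?_⟩
      · by_cases hk : k = j
        · subst hk; rwa [Function.update_self]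
        · rw [Function.update_of_ne hk]; exact hρ2.pos k
      · refine (hρ2.fin.insert j).subset fun k hk => ?_
        by_cases hkj : k = j
        · exact Or.inl hkj
        · right; simpa [Function.update_of_ne hkj] using hk
      · have hq2 : q ∈ Om ρ2 := Om_mono hle hq
        by_cases hk : k = j
        · subst hk
          rw [Function.update_self]
          exact hs q (Om_mono hρ2.le_one hq2) fun i hi b => (hq2 (i, b)).trans (h2 i hi)
        · rw [Function.update_of_ne hk]; exact hρ2.slack k q hq2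
    refine ⟨_, hρ1.min hρ3, fun i hi => ?_, fun k hk => ?_⟩
    · rcases Finset.mem_insert.1 hi with rfl | hi
      · refine (min_le_right _ _).trans ?_
        rw [Function.update_self]; exact min_le_left _ _
      · exact (min_le_left _ _).trans (h1 i hi)
    · have hkj : j < k := hjγ.trans_le hk
      simp [h1' k hk, Function.update_of_ne hkj.ne', h2' k hkj.le]

/-- The maximum principle relative to points with few levels off the faces. -/
def PA (s : ι → (ι × Bool → ℂ) → ℂ) (K : Set (ι × Bool → ℂ)) (β : ι) (r : ℕ) : Prop :=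
  ∀ ρ, Adm s ρ → ∀ f : MvPolynomial (ι × Bool) ℂ, ∀ p ∈ K, (∀ v, ρ v.1 < 1 → ‖p v‖ < ρ v.1) →
    ∃ q ∈ K, q ∈ Om ρ ∧ q ∈ Few ρ (Set.Ici β) r ∧ ‖eval p f‖ ≤ ‖eval q f‖

lemma node_of_few {Z : Set (ι × Bool → ℂ)}
    (hno : ∀ β, ∀ q ∈ Z, (∀ k < β, ∀ b, q (k, b) = 0) →
      {k | β ≤ k ∧ ∀ b, ‖q (k, b)‖ < 1}.Finite → ∃ k, β ≤ k ∧ ∀ b, q (k, b) = 0)
    {ρ : ι → ℝ} (hρ : Adm s ρ) {β : ι} {r : ℕ} {q : ι × Bool → ℂ} (hq : q ∈ Z)
    (h0 : ∀ k < β, ∀ b, q (k, b) = 0) (hf : q ∈ Few ρ (Set.Ici β) r) :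
    ∃ k, β ≤ k ∧ ∀ b, q (k, b) = 0 := by
  refine hno β q hq h0 (((Few.finite hf).union hρ.fin).subset fun k hk => ?_)
  by_cases h1 : ρ k = 1
  · left; exact ⟨hk.1, fun b => by rw [h1]; exact hk.2 b⟩
  · right; exact h1

lemma few_insert {ρ : ι → ℝ} (hρ : ∀ k, 0 < ρ k) {B B' : Set ι} {r : ℕ} {q : ι × Bool → ℂ}
    (hf : q ∈ Few ρ B (r + 1)) {k : ι} (hk : k ∈ B) (hk' : k ∉ B') (hB : B' ⊆ B)
    (h0 : ∀ b, q (k, b) = 0) : q ∈ Few ρ B' r := by
  classical
  intro S hS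
  have hkS : k ∉ S := fun h => hk' (hS k h).1
  have := hf (insert k S) (fun j hj => by
    rcases Finset.mem_insert.1 hj with rfl | hj
    · exact ⟨hk, fun b => by rw [h0 b, norm_zero]; exact hρ j⟩
    · exact ⟨hB (hS j hj).1, (hS j hj).2⟩)
  rw [Finset.card_insert_of_notMem hkS] at this
  omega

lemma caseA [NoMaxOrder ι] (hsb : ∀ k, ∀ q ∈ Om (fun _ : ι => (1 : ℝ)), ‖s k q‖ ≤ 1 / 2)
    (hloc : ∀ k (ε : ℝ), 0 < ε → ∃ L : Finset ι, (∀ j ∈ L, j < k) ∧ ∃ δ : ℝ, 0 < δ ∧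
      ∀ q ∈ Om (fun _ : ι => (1 : ℝ)), (∀ j ∈ L, ∀ b, ‖q (j, b)‖ ≤ δ) → ‖s k q‖ ≤ ε)
    {K : Set (ι × Bool → ℂ)} (hK : IsClosed K) {β : ι} {r : ℕ} (hPA : PA s K β (r + 1))
    {T : Finset ι} (hT : ∀ k ∈ T, β ≤ k)
    (h0 : (0 : ι × Bool → ℂ) ∉ closure {q ∈ K | ∀ k ∈ T, ∃ b, q (k, b) ≠ 0}) :
    ∃ β', PA s {q ∈ K | ∀ k < β', ∀ b, q (k, b) = 0} β' r := by
  classical
  rw [mem_closure_iff_nhds] at h0
  push Not at h0
  obtain ⟨N, hN, hNK⟩ := h0
  rw [nhds_pi, Filter.mem_pi'] at hN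
  obtain ⟨I, t, ht, htN⟩ := hN
  obtain ⟨δ1, hδ1, hδt⟩ : ∃ δ1 : ℝ, 0 < δ1 ∧ ∀ v ∈ I, Metric.closedBall (0 : ℂ) δ1 ⊆ t v := by
    have h2 : ∀ᶠ ε in 𝓝[>] (0 : ℝ), ∀ v ∈ I, Metric.closedBall (0 : ℂ) ε ⊆ t v := by
      rw [eventually_all_finset]
      intro v _
      exact nhdsWithin_le_nhds (eventually_closedBall_subset (ht v))
    exact (h2.and self_mem_nhdsWithin).exists.imp fun ε h => ⟨h.2, h.1⟩
  haveI : Nonempty ι := ⟨β⟩
  obtain ⟨β0, hβ0⟩ := (insert β (T ∪ I.image Prod.fst)).bddAbove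
  obtain ⟨β', hβ'⟩ := exists_gt β0
  have hlt : ∀ k ∈ insert β (T ∪ I.image Prod.fst), k < β' := fun k hk =>
    (hβ0 (Finset.mem_coe.2 hk)).trans_lt hβ'
  refine ⟨β', fun ρ hρ f p hp hpρ => ?_⟩
  obtain ⟨q, hq, hall⟩ := exists_mem_all2 ((isCompact_Om ρ).inter_left hK)
    (fun (L : Finset ι) n => {q | ∀ k ∈ L, k < β' → ∀ b, ‖q (k, b)‖ ≤ 1 / ((n : ℝ) + 1)} ∩
      (Few ρ (Set.Ici β') r ∩ {q | ‖eval p f‖ ≤ ‖eval q f‖}))
    (fun L n => by
      refine IsClosed.inter ?_ (IsClosed.inter (isClosed_Few _ _ _) ?_)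
      · simp only [Set.setOf_forall]
        exact isClosed_iInter fun k => isClosed_iInter fun _ => isClosed_iInter fun _ =>
          isClosed_iInter fun b => isClosed_le (continuous_apply (k, b)).norm continuous_const
      · exact isClosed_le continuous_const (MvPolynomial.continuous_eval f).norm)
    (fun L L' n n' h1 h2 q hq => ⟨fun k hk hk' c =>
      (hq.1 k (h1 hk) hk' c).trans (div_succ_anti (by norm_num) h2), hq.2⟩)
    (by
      intro L n
      obtain ⟨ρ1, hρ1, h1, h1'⟩ := exists_adm hsb hloc β'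
        (L.filter (· < β') ∪ I.image Prod.fst) (fun j hj => by
          rcases Finset.mem_union.1 hj with hj | hj
          · exact (Finset.mem_filter.1 hj).2
          · exact hlt j (by simp [hj])) (min δ1 (1 / ((n : ℝ) + 1))) (by positivity)
      have hadm := hρ.min hρ1
      have heq : ∀ k, β' ≤ k → min (ρ k) (ρ1 k) = ρ k := fun k hk => by
        rw [h1' k hk]; exact min_eq_left (hρ.le_one k)
      obtain ⟨q, hqK, hqρ, hfew, hf⟩ := hPA _ hadm f p hp.1 (fun v hv => by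
        by_cases hvβ : v.1 < β'
        · rw [show p v = 0 from hp.2 v.1 hvβ v.2, norm_zero]; exact hadm.pos _
        · rw [heq _ (not_lt.1 hvβ)] at hv ⊢
          exact hpρ v hv)
      have hqN : q ∈ N := by
        refine htN fun v hv => hδt v hv ?_
        rw [mem_closedBall_zero_iff]
        exact (hqρ v).trans ((min_le_right _ _).trans ((h1 _ (by
          simp only [Finset.mem_union, Finset.mem_image]
          exact Or.inr ⟨v, hv, rfl⟩)).trans (min_le_left _ _)))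
      have hnode : ∃ k ∈ T, ∀ b, q (k, b) = 0 := by
        by_contra hcon
        push Not at hcon
        have : q ∈ N ∩ {q ∈ K | ∀ k ∈ T, ∃ b, q (k, b) ≠ 0} := ⟨hqN, hqK, hcon⟩
        rw [hNK] at this
        exact this
      obtain ⟨k, hkT, hk0⟩ := hnode
      refine ⟨q, ⟨hqK, Om_mono (fun _ => min_le_left _ _) hqρ⟩, fun j hj hj' b => ?_, ?_, hf⟩
      · exact (hqρ (j, b)).trans ((min_le_right _ _).trans
          ((h1 _ (by simp [hj, hj'])).trans (min_le_right _ _)))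
      · have := few_insert hadm.pos hfew (B' := Set.Ici β') (hT k hkT)
          (not_le.2 (hlt k (by simp [hkT])))
          (Set.Ici_subset_Ici.2 (hlt β (by simp)).le) hk0
        intro S hS
        exact this S fun j hj => ⟨(hS j hj).1, fun b => by
          exact ((hS j hj).2 b).trans_eq (heq j (hS j hj).1).symm⟩)
  refine ⟨q, ⟨hq.1, fun k hk b => ?_⟩, hq.2, (hall ∅ 0).2.1, (hall ∅ 0).2.2⟩
  exact eq_zero_of_forall_le fun n => (hall {k} n).1 k (by simp) hk b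

lemma caseB {Z : Set (ι × Bool → ℂ)}
    (hno : ∀ β, ∀ q ∈ Z, (∀ k < β, ∀ b, q (k, b) = 0) →
      {k | β ≤ k ∧ ∀ b, ‖q (k, b)‖ < 1}.Finite → ∃ k, β ≤ k ∧ ∀ b, q (k, b) = 0)
    {K : Set (ι × Bool → ℂ)} (hK : IsClosed K) (hKZ : K ⊆ Z) {β : ι}
    (hKβ : ∀ q ∈ K, ∀ k < β, ∀ b, q (k, b) = 0) {r : ℕ} (hPA : PA s K β (r + 1)) :
    PA s (⋂ T : Finset ι, closure {q ∈ K | ∀ k ∈ T, β ≤ k → ∃ b, q (k, b) ≠ 0}) β r := by
  classical
  have key : ∀ ρ, Adm s ρ → ∀ f : MvPolynomial (ι × Bool) ℂ,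
      ∀ p ∈ ⋂ T : Finset ι, closure {q ∈ K | ∀ k ∈ T, β ≤ k → ∃ b, q (k, b) ≠ 0},
      (∀ v, ρ v.1 < 1 → ‖p v‖ < ρ v.1) → eval p f ≠ 0 →
      ∃ q ∈ ⋂ T : Finset ι, closure {q ∈ K | ∀ k ∈ T, β ≤ k → ∃ b, q (k, b) ≠ 0},
        q ∈ Om ρ ∧ q ∈ Few ρ (Set.Ici β) r ∧ ‖eval p f‖ ≤ ‖eval q f‖ := by
    intro ρ hρ f p hp hpρ hf0
    obtain ⟨q, hq, hall⟩ := exists_mem_all2 (isCompact_Om ρ)
      (fun (T : Finset ι) n => closure {q ∈ K | ∀ k ∈ T, β ≤ k → ∃ b, q (k, b) ≠ 0} ∩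
        (Few ρ (Set.Ici β ∩ T) r ∩
          {q | ‖eval p f‖ - ‖eval p f‖ / ((n : ℝ) + 1) ≤ ‖eval q f‖}))
      (fun T n => isClosed_closure.inter ((isClosed_Few _ _ _).inter
        (isClosed_le continuous_const (MvPolynomial.continuous_eval f).norm)))
      (fun T T' n n' h1 h2 q hq => by
        refine ⟨closure_mono ?_ hq.1,
          Few.mono (Set.inter_subset_inter_right _ (Finset.coe_subset.2 h1)) _ hq.2.1, ?_⟩
        · exact fun x hx => ⟨hx.1, fun k hk => hx.2 k (h1 hk)⟩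
        · have h3 := div_succ_anti (norm_nonneg (eval p f)) h2
          have h4 := hq.2.2
          simp only [Set.mem_setOf_eq] at h4 ⊢
          linarith)
      (by
        intro T n
        set c := ‖eval p f‖ - ‖eval p f‖ / ((n : ℝ) + 1) with hc
        have hfp : 0 < ‖eval p f‖ := norm_pos_iff.2 hf0
        have hc0 : 0 ≤ c := by
          have := div_succ_anti hfp.le (Nat.zero_le n)
          simp only [CharP.cast_eq_zero, zero_add, div_one] at this
          linarith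
        have hc1 : c < ‖eval p f‖ := by
          have : 0 < ‖eval p f‖ / ((n : ℝ) + 1) := by positivity
          linarith
        have hN : {x : ι × Bool → ℂ | c < ‖eval x f‖} ∩
            {x | ∀ v : ι × Bool, ρ v.1 < 1 → ‖x v‖ < ρ v.1} ∈ 𝓝 p := by
          refine inter_mem ((isOpen_lt continuous_const
            (MvPolynomial.continuous_eval f).norm).mem_nhds hc1) ?_
          have hfin : {v : ι × Bool | ρ v.1 < 1}.Finite :=
            (hρ.fin.prod (Set.finite_univ (α := Bool))).subset fun v hv => ⟨ne_of_lt hv, trivial⟩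
          have := (eventually_all_finite (l := 𝓝 p) hfin
            (p := fun v (x : ι × Bool → ℂ) => ‖x v‖ < ρ v.1)).2 fun v hv =>
              (isOpen_lt (continuous_apply v).norm continuous_const).mem_nhds (hpρ v hv)
          exact this
        obtain ⟨p', ⟨hp1, hp2⟩, hp3, hp4⟩ := mem_closure_iff_nhds.1 (Set.mem_iInter.1 hp T) _ hN
        choose! b hb using hp4
        let w : MvPolynomial (ι × Bool) ℂ := ∏ k ∈ T.filter (β ≤ ·), X (k, b k)
        have hw : ∀ x, ‖eval x w‖ = ∏ k ∈ T.filter (β ≤ ·), ‖x (k, b k)‖ := by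
          intro x; simp [w, map_prod]
        have hw0 : 0 < ‖eval p' w‖ := by
          rw [hw]
          refine Finset.prod_pos fun k hk => norm_pos_iff.2 ?_
          exact hb k (Finset.mem_filter.1 hk).1 (Finset.mem_filter.1 hk).2
        have hp1' : c < ‖eval p' f‖ := hp1
        have hp0 : 0 < ‖eval p' f‖ := hc0.trans_lt hp1'
        obtain ⟨N, hNc⟩ := exists_pow_lt_of_lt_one hw0 ((div_lt_one hp0).2 hp1')
        obtain ⟨q, hqK, hqρ, hfew, hf⟩ := hPA ρ hρ (f ^ N * w) p' hp3 hp2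
        simp only [map_mul, map_pow, norm_mul, norm_pow] at hf
        have hw1 : ‖eval q w‖ ≤ 1 := by
          rw [hw]
          exact Finset.prod_le_one (fun _ _ => norm_nonneg _)
            fun k _ => (hqρ _).trans (hρ.le_one _)
        have hwq : 0 < ‖eval q w‖ := by
          by_contra hcon
          have h1 : ‖eval q w‖ = 0 := le_antisymm (not_lt.1 hcon) (norm_nonneg _)
          rw [h1, mul_zero] at hf
          have : 0 < ‖eval p' f‖ ^ N * ‖eval p' w‖ := by positivity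
          linarith
        have hqT : ∀ k ∈ T, β ≤ k → q (k, b k) ≠ 0 := by
          intro k hk hk' h0
          rw [hw, Finset.prod_eq_zero (i := k) (by simp [hk, hk']) (by simp [h0])] at hwq
          exact lt_irrefl _ hwq
        obtain ⟨k, hk, hk0⟩ := node_of_few hno hρ (hKZ hqK) (hKβ q hqK) hfew
        refine ⟨q, hqρ, subset_closure ⟨hqK, fun k hk hk' => ⟨b k, hqT k hk hk'⟩⟩,
          few_insert hρ.pos hfew hk (fun h => hqT k h.2 hk (hk0 _)) Set.inter_subset_left hk0, ?_⟩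
        have h1 : c ^ N < ‖eval p' f‖ ^ N * ‖eval p' w‖ := by
          rw [div_pow, div_lt_iff₀ (by positivity)] at hNc
          linarith
        have h2 : ‖eval q f‖ ^ N * ‖eval q w‖ ≤ ‖eval q f‖ ^ N :=
          mul_le_of_le_one_right (by positivity) hw1
        exact (lt_of_pow_lt_pow_left₀ N (norm_nonneg _) (h1.trans_le (hf.trans h2))).le)
    refine ⟨q, Set.mem_iInter.2 fun T => (hall T 0).1, hq,
      Few.of_finset fun T => (hall T 0).2.1, ?_⟩
    have h1 : Tendsto (fun n : ℕ => ‖eval p f‖ - ‖eval p f‖ / ((n : ℝ) + 1)) atTop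
        (𝓝 (‖eval p f‖ - 0)) := by
      refine tendsto_const_nhds.sub ?_
      simpa [div_eq_mul_inv] using
        (tendsto_one_div_add_atTop_nhds_zero_nat (𝕜 := ℝ)).const_mul ‖eval p f‖
    rw [sub_zero] at h1
    exact le_of_tendsto' h1 fun n => (hall ∅ n).2.2
  intro ρ hρ f p hp hpρ
  by_cases hf0 : eval p f = 0
  · obtain ⟨q, h1, h2, h3, -⟩ := key ρ hρ 1 p hp hpρ (by simp)
    exact ⟨q, h1, h2, h3, by rw [hf0, norm_zero]; exact norm_nonneg _⟩
  · exact key ρ hρ f p hp hpρ hf0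

lemma no_PA [NoMaxOrder ι] (hsb : ∀ k, ∀ q ∈ Om (fun _ : ι => (1 : ℝ)), ‖s k q‖ ≤ 1 / 2)
    (hloc : ∀ k (ε : ℝ), 0 < ε → ∃ L : Finset ι, (∀ j ∈ L, j < k) ∧ ∃ δ : ℝ, 0 < δ ∧
      ∀ q ∈ Om (fun _ : ι => (1 : ℝ)), (∀ j ∈ L, ∀ b, ‖q (j, b)‖ ≤ δ) → ‖s k q‖ ≤ ε)
    {Z : Set (ι × Bool → ℂ)}
    (hno : ∀ β, ∀ q ∈ Z, (∀ k < β, ∀ b, q (k, b) = 0) →
      {k | β ≤ k ∧ ∀ b, ‖q (k, b)‖ < 1}.Finite → ∃ k, β ≤ k ∧ ∀ b, q (k, b) = 0)
    (hZ : Z ⊆ Om (fun _ : ι => (1 : ℝ))) (r : ℕ) :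
    ∀ (K : Set (ι × Bool → ℂ)) (β : ι), IsClosed K → K ⊆ Z → 0 ∈ K →
      (∀ q ∈ K, ∀ k < β, ∀ b, q (k, b) = 0) → ¬ PA s K β r := by
  classical
  induction r with
  | zero =>
    intro K β _ hKZ h0 hKβ hPA
    obtain ⟨q, hqK, -, hfew, -⟩ := hPA _ (adm_one hsb) 1 0 h0 (fun v hv => absurd hv (lt_irrefl _))
    obtain ⟨k, hk, hk0⟩ := node_of_few hno (adm_one hsb) (hKZ hqK) (hKβ q hqK) hfew
    have := hfew {k} (fun j hj => by
      rw [Finset.mem_singleton.1 hj]
      exact ⟨hk, fun b => by rw [hk0 b]; simp⟩)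
    simp at this
  | succ r ih =>
    intro K β hK hKZ h0 hKβ hPA
    by_cases hcase : ∀ T : Finset ι,
        (0 : ι × Bool → ℂ) ∈ closure {q ∈ K | ∀ k ∈ T, β ≤ k → ∃ b, q (k, b) ≠ 0}
    · have hsub : (⋂ T : Finset ι, closure {q ∈ K | ∀ k ∈ T, β ≤ k → ∃ b, q (k, b) ≠ 0}) ⊆ K :=
        (Set.iInter_subset _ ∅).trans (closure_minimal (fun q hq => hq.1) hK)
      exact ih _ β (isClosed_iInter fun _ => isClosed_closure) (hsub.trans hKZ)
        (Set.mem_iInter.2 hcase) (fun q hq => hKβ q (hsub hq)) (caseB hno hK hKZ hKβ hPA)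
    · push Not at hcase
      obtain ⟨T, hT⟩ := hcase
      obtain ⟨β', hβ'⟩ := caseA hsb hloc hK hPA (T := T.filter (β ≤ ·))
        (fun k hk => (Finset.mem_filter.1 hk).2) (by
          intro h
          refine hT (closure_mono ?_ h)
          exact fun q hq => ⟨hq.1, fun k hk hk' => hq.2 k (by simp [hk, hk'])⟩)
      refine ih {q ∈ K | ∀ k < β', ∀ b, q (k, b) = 0} β' ?_ (fun q hq => hKZ hq.1)
        ⟨h0, fun _ _ _ => rfl⟩ (fun q hq => hq.2) hβ'
      have : IsClosed {q : ι × Bool → ℂ | ∀ k < β', ∀ b, q (k, b) = 0} := by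
        simp only [Set.setOf_forall]
        exact isClosed_iInter fun k => isClosed_iInter fun _ => isClosed_iInter fun b =>
          isClosed_eq (continuous_apply (k, b)) continuous_const
      exact hK.inter this

theorem exists_good [NoMaxOrder ι] [Nonempty ι]
    (hsc : ∀ k, Continuous (s k)) (hsa : ∀ k, Approx (s k))
    (hsb : ∀ k, ∀ q ∈ Om (fun _ : ι => (1 : ℝ)), ‖s k q‖ ≤ 1 / 2)
    (hloc : ∀ k (ε : ℝ), 0 < ε → ∃ L : Finset ι, (∀ j ∈ L, j < k) ∧ ∃ δ : ℝ, 0 < δ ∧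
      ∀ q ∈ Om (fun _ : ι => (1 : ℝ)), (∀ j ∈ L, ∀ b, ‖q (j, b)‖ ≤ δ) → ‖s k q‖ ≤ ε)
    {κ : Type} [Fintype κ] (c : κ → (ι × Bool → ℂ) → ℂ) (hcc : ∀ i, Continuous (c i))
    (hca : ∀ i, Approx (c i)) (hc0 : ∀ i, c i 0 = 0) :
    ∃ β, ∃ q ∈ Sig s, (∀ i, c i q = 0) ∧ (∀ k < β, ∀ b, q (k, b) = 0) ∧
      {k | β ≤ k ∧ ∀ b, ‖q (k, b)‖ < 1}.Finite ∧ ∀ k, β ≤ k → ∃ b, q (k, b) ≠ 0 := by
  by_contra hcon
  let Z : Set (ι × Bool → ℂ) := Sig s ∩ {q | ∀ i, c i q = 0}
  have hZc : IsClosed Z := by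
    have h1 : IsClosed {q : ι × Bool → ℂ | ∀ k, q (k, true) * q (k, false) = s k q} := by
      simp only [Set.setOf_forall]
      exact isClosed_iInter fun k =>
        isClosed_eq ((continuous_apply (k, true)).mul (continuous_apply (k, false))) (hsc k)
    refine IsClosed.inter ((isCompact_Om _).isClosed.inter h1) ?_
    · simp only [Set.setOf_forall]
      exact isClosed_iInter fun i => isClosed_eq (hcc i) continuous_const
  obtain ⟨β, -, hβ⟩ := (wellFounded_lt (α := ι)).has_min Set.univ Set.univ_nonempty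
  refine no_PA hsb hloc (Z := Z) (fun β q hq h0 hfin => ?_) (fun q hq => hq.1.1)
    (Fintype.card (Option κ)) Z β hZc le_rfl ⟨⟨fun v => by simp, fun k => ?_⟩, hc0⟩
    (fun _ _ k hk => absurd hk (hβ k trivial)) ?_
  · by_contra hcon'
    push Not at hcon'
    exact hcon ⟨β, q, hq.1, hq.2, h0, hfin, hcon'⟩
  · simp only [Pi.zero_apply, mul_zero]
    symm
    refine eq_zero_of_forall_le (c := 1) fun n => ?_
    obtain ⟨L, -, δ, hδ, h⟩ := hloc k (1 / ((n : ℝ) + 1)) (by positivity)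
    exact h 0 (fun v => by simp) fun j _ b => by simpa using hδ.le
  · intro ρ hρ f p hp hpρ
    obtain ⟨q, hq, hqρ, hg, hfew⟩ := base hsc hsa
      (fun i : Option κ => i.elim (fun q => eval q f - eval p f) c)
      (by
        rintro (_ | i)
        · exact (MvPolynomial.continuous_eval f).sub continuous_const
        · exact hcc i)
      (by
        rintro (_ | i)
        · exact fun ε hε => ⟨f - C (eval p f), fun q _ => by simpa using hε.le⟩
        · exact hca i)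
      hρ hp.1 (fun v => by
        rcases (hρ.le_one v.1).lt_or_eq with h | h
        · exact (hpρ v h).le
        · rw [h]; exact hp.1.1 v)
      (by
        rintro (_ | i)
        · exact sub_self _
        · exact hp.2 i)
    refine ⟨q, ⟨hq, fun i => hg (some i)⟩, hqρ, Few.mono (Set.subset_univ _) _ hfew, ?_⟩
    have : eval q f - eval p f = 0 := hg none
    rw [sub_eq_zero.1 this]

end Pool.Agent.P.MP_0279ce_an.Comm
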