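import Pool.Agent.P.MP_0279ce_an.CNF
import Pool.Agent.P.MP_0279ce_an.CGeo

/-! Lifting along faces, and the choice of a good point. -/

namespace Pool.Agent.P.MP_0279ce_an.Comm

open MvPolynomial Filter
open scoped Topology

variable {I : Type} [LinearOrder I]

/-- The level of a variable. -/
def lev : VI I → WithBot I
  | Sum.inl _ => ⊥
  | Sum.inr p => (p.1 : WithBot I)

/-- The variables below a level. -/
def bel (k : I) : Set (VI I) := {v | lev v < (k : WithBot I)}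

lemma inl_mem_bel (n : ℕ) (k : I) : Sum.inl n ∈ bel k := WithBot.bot_lt_coe k

lemma inr_mem_bel {j k : I} {c : Bool} : Sum.inr (j, c) ∈ bel k ↔ j < k := WithBot.coe_lt_coe

lemma bel_mono {j k : I} (h : j ≤ k) : bel j ⊆ bel k :=
  fun _ hv => lt_of_lt_of_le hv (WithBot.coe_le_coe.2 h)

/-- Admissible right hand sides. -/
structure Tow (s : I → Pw (VI I)) : Prop where
  norm_le : ∀ k, ‖s k‖ ≤ 1 / 3
  phi_eq : ∀ k, phi (s k) = 0
  on : ∀ k, On (bel k) (s k)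

variable {s : I → Pw (VI I)}

lemma rel_eq (k : I) : rel s k = var (Sum.inr (k, true)) * var (Sum.inr (k, false)) - s k := by
  rw [rel, mon_pr]

lemma rel_eq' (k : I) (c : Bool) :
    rel s k = var (Sum.inr (k, c)) * var (Sum.inr (k, !c)) - s k := by
  cases c
  · rw [rel_eq, mul_comm]; rfl
  · rw [rel_eq]; rfl

lemma Tow.phi_rel (hs : Tow s) (k : I) : phi (rel s k) = 0 := by
  rw [rel_eq, map_sub, map_mul, phi_var, zero_mul, hs.phi_eq, sub_zero]

lemma Tow.congr_rel (hs : Tow s) {A : Type} [NormedCommRing A] [NormedAlgebra ℂ A]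
    {f g : Pw (VI I) →A[ℂ] A} {j k : I} (hjk : j < k)
    (h : ∀ v ∈ bel k, f (var v) = g (var v)) : f (rel s j) = g (rel s j) := by
  rw [rel_eq, map_sub, map_sub, map_mul, map_mul, h _ (inr_mem_bel.2 hjk), h _ (inr_mem_bel.2 hjk),
    (hs.on j).congr fun v hv => h v (bel_mono hjk.le hv)]

variable [WellFoundedLT I]

lemma wf_lev : WellFounded fun v w : VI I => lev v < lev w :=
  InvImage.wf lev wellFounded_lt

lemma Tow.agree (hs : Tow s) {A : Type} [NormedCommRing A] [NormedAlgebra ℂ A]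
    {f g : Pw (VI I) →A[ℂ] A} {S : Set (VI I)} (hS : ∀ k c, Sum.inr (k, c) ∈ S → bel k ⊆ S)
    (h : ∀ v ∈ S, f (var v) = g (var v) ∨ ∃ (k : I) (c : Bool) (t : ℂ), v = Sum.inr (k, c) ∧
      f (var v) = t • f (s k) ∧ g (var v) = t • g (s k)) :
    ∀ v ∈ S, f (var v) = g (var v) := by
  intro v
  induction v using (wf_lev (I := I)).induction with
  | _ v ih =>
    intro hv
    rcases h v hv with h1 | ⟨k, c, t, rfl, h1, h2⟩
    · exact h1
    · rw [h1, h2, (hs.on k).congr fun w hw => ih w hw (hS k c hv hw)]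

variable {A : Type} [NormedCommRing A] [NormedAlgebra ℂ A] [NormOneClass A] [CompleteSpace A]

lemma Tow.exists_lift (hs : Tow s) (F : Set I) (π : I → Bool) (θ : I → ℂ)
    (hθ : ∀ k ∈ F, ‖θ k‖ = 1) (b0 : VI I → Bl A) :
    ∃ b : VI I → Bl A, (∀ v, (∀ k ∈ F, v ≠ Sum.inr (k, !π k)) → b v = b0 v) ∧
      ∀ k ∈ F, (b (Sum.inr (k, !π k)) : A) = (θ k)⁻¹ • ev b (s k) := by
  classical
  have hb : ∀ (b : VI I → Bl A) k, k ∈ F → ‖(θ k)⁻¹ • ev b (s k)‖ ≤ 1 := by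
    intro b k hk
    rw [norm_smul, norm_inv, hθ k hk, inv_one, one_mul]
    linarith [norm_ev_le b (s k), hs.norm_le k]
  let G : (VI I → Bl A) → VI I → Bl A := fun b v =>
    match v with
    | Sum.inl n => b0 (Sum.inl n)
    | Sum.inr p => if h : p.1 ∈ F ∧ p.2 = !π p.1 then ⟨_, hb b p.1 h.1⟩ else b0 (Sum.inr p)
  obtain ⟨b, hb'⟩ := exists_fix wf_lev G (by
    rintro (n | ⟨k, c⟩) b b' h
    · rfl
    · simp only [G]
      split_ifs with h1
      · refine Subtype.ext ?_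
        change (θ k)⁻¹ • ev b (s k) = (θ k)⁻¹ • ev b' (s k)
        rw [(hs.on k).congr (f := ev b) (g := ev b') fun w hw => by rw [ev_var, ev_var, h w hw]]
      · rfl)
  refine ⟨b, ?_, fun k hk => ?_⟩
  · rintro (n | ⟨k, c⟩) hv
    · exact hb' _
    · rw [hb']
      simp only [G]
      rw [dif_neg]
      rintro ⟨h1, h2⟩
      exact hv k h1 (by rw [h2])
  · rw [hb']
    simp only [G]
    rw [dif_pos ⟨hk, trivial⟩]

lemma Tow.lift_point (hs : Tow s) (F : Set I) (π : I → Bool) (Q : VI I → Bl ℂ)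
    (hQ : ∀ k ∈ F, ‖(Q (Sum.inr (k, π k)) : ℂ)‖ = 1 ∧ ev Q (rel s k) = 0)
    (ψ : A →A[ℂ] ℂ) (b0 : VI I → Bl A) (hb0 : ∀ v, ψ (b0 v) = Q v)
    (hF : ∀ k ∈ F, b0 (Sum.inr (k, π k)) = cstB A (Q (Sum.inr (k, π k)))) :
    ∃ f : Pw (VI I) →A[ℂ] A, (∀ v, (∀ k ∈ F, v ≠ Sum.inr (k, !π k)) → f (var v) = b0 v) ∧
      (∀ x, ψ (f x) = ev Q x) ∧ ∀ k ∈ F, f (rel s k) = 0 := by
  obtain ⟨b, h1, h2⟩ := hs.exists_lift F π (fun k => Q (Sum.inr (k, π k))) (fun k hk => (hQ k hk).1) b0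
  have hne : ∀ k ∈ F, (Q (Sum.inr (k, π k)) : ℂ) ≠ 0 := fun k hk h => by
    have := (hQ k hk).1
    rw [h, norm_zero] at this
    exact zero_ne_one this
  refine ⟨ev b, fun v hv => by rw [ev_var, h1 v hv], fun x => ?_, fun k hk => ?_⟩
  · have h3 := hs.agree (f := ψ.comp (ev b)) (g := ev Q) (S := Set.univ)
      (fun _ _ _ => Set.subset_univ _) (fun v _ => by
        by_cases hv : ∀ k ∈ F, v ≠ Sum.inr (k, !π k)
        · left
          change ψ (ev b (var v)) = _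
          rw [ev_var, ev_var, h1 v hv, hb0]
        · right
          push Not at hv
          obtain ⟨k, hk, rfl⟩ := hv
          refine ⟨k, _, (Q (Sum.inr (k, π k)) : ℂ)⁻¹, rfl, ?_, ?_⟩
          · change ψ (ev b (var _)) = _ • ψ (ev b (s k))
            rw [ev_var, h2 k hk, map_smul]
          · have h4 := (hQ k hk).2
            rw [rel_eq' k (π k), map_sub, map_mul, sub_eq_zero, ev_var] at h4
            rw [← h4, smul_eq_mul, inv_mul_cancel_left₀ (hne k hk)])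
    exact DFunLike.congr_fun (hom_ext fun v => h3 v trivial) x
  · rw [rel_eq' k (π k), map_sub, map_mul, ev_var, ev_var, h2 k hk, h1, hF k hk]
    · change algebraMap ℂ A _ * _ - _ = 0
      rw [← Algebra.smul_def, smul_smul, mul_inv_cancel₀ (hne k hk), one_smul, sub_self]
    · intro j _ hj
      obtain ⟨rfl, h⟩ := Prod.mk.inj (Sum.inr.inj hj)
      simp at h

/-- Retraction of the plane onto the unit disc. -/
noncomputable def clamp (x : ℂ) : Bl ℂ :=
  ⟨((max 1 ‖x‖ : ℝ) : ℂ)⁻¹ * x, by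
    have h : (0 : ℝ) < max 1 ‖x‖ := lt_max_of_lt_left one_pos
    rw [norm_mul, norm_inv, Complex.norm_real, Real.norm_of_nonneg h.le, inv_mul_le_iff₀ h, mul_one]
    exact le_max_right _ _⟩

lemma clamp_of_le {x : ℂ} (h : ‖x‖ ≤ 1) : (clamp x : ℂ) = x := by
  simp [clamp, max_eq_left h]

lemma continuous_clamp : Continuous fun x => (clamp x : ℂ) := by
  refine Continuous.mul (Continuous.inv₀ (by fun_prop) fun x => ?_) continuous_id
  exact_mod_cast (lt_max_of_lt_left one_pos : (0 : ℝ) < max 1 ‖x‖).ne'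

lemma exists_approx {V : Type} (x : Pw V) {ε : ℝ} (hε : 0 < ε) :
    ∃ p : MvPolynomial V ℂ, ‖x - toP p‖ ≤ ε := by
  obtain ⟨p, hp⟩ := Metric.denseRange_iff.1 denseRange_toP x ε hε
  exact ⟨p, by rw [← dist_eq_norm]; exact hp.le⟩

lemma continuous_ev {V X : Type} [TopologicalSpace X] {b : X → V → Bl ℂ}
    (hb : ∀ v, Continuous fun t => (b t v : ℂ)) (x : Pw V) : Continuous fun t => ev (b t) x := by
  refine continuous_of_uniform_approx_of_continuous fun u hu => ?_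
  obtain ⟨ε, hε, hu⟩ := Metric.mem_uniformity_dist.1 hu
  obtain ⟨p, hp⟩ := exists_approx x (half_pos hε)
  refine ⟨fun t => ev (b t) (toP p), ?_, fun t => hu ?_⟩
  · simp only [ev_toP]
    exact (MvPolynomial.continuous_eval p).comp (continuous_pi hb)
  · rw [dist_eq_norm, ← map_sub]
    linarith [norm_ev_le (b t) (x - toP p)]

lemma exists_finset_of_continuous {α : Type} {f : (α → ℂ) → ℂ} (hf : Continuous f) (h0 : f 0 = 0)
    {ε : ℝ} (hε : 0 < ε) : ∃ L : Finset α, ∃ δ : ℝ, 0 < δ ∧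
      ∀ q : α → ℂ, (∀ a ∈ L, ‖q a‖ ≤ δ) → ‖f q‖ ≤ ε := by
  have h1 : f ⁻¹' Metric.closedBall 0 ε ∈ 𝓝 (0 : α → ℂ) :=
    hf.continuousAt.preimage_mem_nhds (by rw [h0]; exact Metric.closedBall_mem_nhds _ hε)
  rw [nhds_pi, Filter.mem_pi'] at h1
  obtain ⟨L, t, ht, h⟩ := h1
  have h2 : ∀ᶠ δ in 𝓝[>] (0 : ℝ), ∀ a ∈ L, Metric.closedBall (0 : ℂ) δ ⊆ t a :=
    (Filter.eventually_all_finset L).2 fun a _ =>
      (eventually_closedBall_subset (ht a)).filter_mono nhdsWithin_le_nhds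
  obtain ⟨δ, hδ, hδ0⟩ := (h2.and self_mem_nhdsWithin).exists
  refine ⟨L, δ, hδ0, fun q hq => ?_⟩
  have : q ∈ (L : Set α).pi t := fun a ha => hδ a ha (by simpa using hq a ha)
  simpa using h this

open Classical in
/-- A point with coordinates given on the levels of `Λ`. -/
noncomputable def extQ (Λ : Set I) (q : Λ × Bool → ℂ) : VI I → Bl ℂ
  | Sum.inl _ => zB ℂ
  | Sum.inr p => if h : p.1 ∈ Λ then clamp (q (⟨p.1, h⟩, p.2)) else zB ℂ

omit [LinearOrder I] [WellFoundedLT I] in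
lemma extQ_mem {Λ : Set I} (q : Λ × Bool → ℂ) (k : Λ) (c : Bool) :
    extQ Λ q (Sum.inr (k, c)) = clamp (q (k, c)) := dif_pos k.2

omit [LinearOrder I] [WellFoundedLT I] in
lemma extQ_notMem {Λ : Set I} (q : Λ × Bool → ℂ) {k : I} (hk : k ∉ Λ) (c : Bool) :
    extQ Λ q (Sum.inr (k, c)) = zB ℂ := dif_neg hk

omit [LinearOrder I] [WellFoundedLT I] in
lemma continuous_extQ (Λ : Set I) (x : Pw (VI I)) : Continuous fun q => ev (extQ Λ q) x := by
  refine continuous_ev ?_ x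
  rintro (n | ⟨k, c⟩)
  · exact continuous_const
  · by_cases hk : k ∈ Λ
    · simp only [extQ_mem _ ⟨k, hk⟩]
      exact continuous_clamp.comp (continuous_apply _)
    · simp only [extQ_notMem _ hk]
      exact continuous_const

omit [LinearOrder I] [WellFoundedLT I] in
lemma extQ_zero (Λ : Set I) (x : Pw (VI I)) : ev (extQ Λ 0) x = phi x := by
  have : extQ Λ 0 = fun _ => zB ℂ := by
    funext v
    rcases v with n | ⟨k, c⟩
    · rfl
    · by_cases hk : k ∈ Λ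
      · rw [extQ_mem _ ⟨k, hk⟩]
        exact Subtype.ext (clamp_of_le (by simp))
      · exact extQ_notMem _ hk c
  rw [this]; rfl

omit [LinearOrder I] [WellFoundedLT I] in
lemma approx_extQ (Λ : Set I) (x : Pw (VI I)) : Approx fun q => ev (extQ Λ q) x := by
  classical
  intro ε hε
  obtain ⟨p, hp⟩ := exists_approx x hε
  let g : VI I → MvPolynomial (Λ × Bool) ℂ := fun v =>
    match v with
    | Sum.inl _ => 0
    | Sum.inr p => if h : p.1 ∈ Λ then X (⟨p.1, h⟩, p.2) else 0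
  refine ⟨aeval g p, fun q hq => ?_⟩
  have h1 : eval q (aeval g p) = ev (extQ Λ q) (toP p) := by
    rw [ev_toP, ← coe_aeval_eq_eval]
    change aeval q (aeval g p) = _
    rw [← AlgHom.comp_apply, comp_aeval]
    congr 2
    funext v
    rcases v with n | ⟨k, c⟩
    · simp [g, extQ, zB]
    · by_cases hk : k ∈ Λ
      · rw [extQ_mem _ ⟨k, hk⟩, clamp_of_le (hq _)]
        simp [g, hk]
      · rw [extQ_notMem _ hk]
        simp [g, hk, zB]
  rw [h1, ← map_sub]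
  exact (norm_ev_le _ _).trans hp

theorem Tow.exists_point (hs : Tow s) {Λ : Set I} (hne : Λ.Nonempty)
    (hmax : ∀ k ∈ Λ, ∃ j ∈ Λ, k < j) {κ : Type} [Fintype κ] (x : κ → Pw (VI I))
    (hx : ∀ i, phi (x i) = 0) :
    ∃ β ∈ Λ, ∃ Q : VI I → Bl ℂ, (∀ n, (Q (Sum.inl n) : ℂ) = 0) ∧
      (∀ k ∈ Λ, ev Q (rel s k) = 0) ∧ (∀ i, ev Q (x i) = 0) ∧
      (∀ k < β, ∀ c, (Q (Sum.inr (k, c)) : ℂ) = 0) ∧
      {k | k ∈ Λ ∧ β ≤ k ∧ ∀ c, ‖(Q (Sum.inr (k, c)) : ℂ)‖ < 1}.Finite ∧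
      ∀ k ∈ Λ, β ≤ k → ∃ c, (Q (Sum.inr (k, c)) : ℂ) ≠ 0 := by
  classical
  haveI : Nonempty Λ := hne.to_subtype
  haveI : NoMaxOrder Λ := ⟨fun k => by
    obtain ⟨j, hj, h⟩ := hmax k k.2
    exact ⟨⟨j, hj⟩, h⟩⟩
  obtain ⟨β, q, hq, h1, h2, h3, h4⟩ := exists_good (ι := Λ)
    (s := fun k q => ev (extQ Λ q) (s k)) (fun k => continuous_extQ Λ _)
    (fun k => approx_extQ Λ _)
    (fun k q _ => by linarith [norm_ev_le (extQ Λ q) (s k), hs.norm_le k])
    (fun k ε hε => by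
      obtain ⟨L, δ, hδ, hL⟩ := exists_finset_of_continuous (continuous_extQ Λ (s k))
        (by rw [extQ_zero, hs.phi_eq]) hε
      refine ⟨(L.image Prod.fst).filter (· < k), fun j hj => (Finset.mem_filter.1 hj).2, δ, hδ,
        fun q _ hq => ?_⟩
      have h5 := hL (fun a => if a.1 < k then q a else 0) fun a ha => by
        split_ifs with h
        · exact hq a.1 (Finset.mem_filter.2 ⟨Finset.mem_image_of_mem _ ha, h⟩) a.2
        · simpa using hδ.le
      rwa [(hs.on k).congr (g := ev (extQ Λ q))] at h5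
      rintro (n | ⟨j, c⟩) hv
      · rw [ev_var, ev_var]; rfl
      · rw [ev_var, ev_var]
        by_cases hj : j ∈ Λ
        · rw [extQ_mem _ ⟨j, hj⟩, extQ_mem _ ⟨j, hj⟩,
            if_pos (show (⟨j, hj⟩ : Λ) < k from (inr_mem_bel (j := j) (k := (k : I))).1 hv)]
        · rw [extQ_notMem _ hj, extQ_notMem _ hj])
    (fun i q => ev (extQ Λ q) (x i)) (fun i => continuous_extQ Λ _) (fun i => approx_extQ Λ _)
    (fun i => by rw [extQ_zero, hx])
  have hQ : ∀ (k : Λ) c, (extQ Λ q (Sum.inr (k, c)) : ℂ) = q (k, c) := fun k c => by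
    rw [extQ_mem, clamp_of_le (hq.1 _)]
  refine ⟨β, β.2, extQ Λ q, fun n => rfl, fun k hk => ?_, h1, fun k hk c => ?_, ?_,
    fun k hk hβ => ?_⟩
  · rw [rel_eq, map_sub, map_mul, ev_var, ev_var, hQ ⟨k, hk⟩, hQ ⟨k, hk⟩, hq.2, sub_self]
  · by_cases hkΛ : k ∈ Λ
    · rw [hQ ⟨k, hkΛ⟩, h2 ⟨k, hkΛ⟩ hk]
    · rw [extQ_notMem _ hkΛ]; rfl
  · refine (h3.image Subtype.val).subset ?_
    rintro k ⟨hk, h5, h6⟩
    exact ⟨⟨k, hk⟩, ⟨h5, fun c => by rw [← hQ]; exact h6 c⟩, rfl⟩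
  · obtain ⟨c, hc⟩ := h4 ⟨k, hk⟩ hβ
    exact ⟨c, by rw [hQ ⟨k, hk⟩]; exact hc⟩

end Pool.Agent.P.MP_0279ce_an.Comm
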