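import Pool.Agent.P.MP_0279ce_an.CLift

/-! The limit step. -/

namespace Pool.Agent.P.MP_0279ce_an.Comm

open MvPolynomial Filter
open scoped Topology

variable {I : Type}

/-- Sums of products modulo the relations of the levels in `Λ`. -/
noncomputable def WJ (s : I → Pw (VI I)) (Λ : Set I) : Submodule ℂ (Pw (VI I)) :=
  Wsp _ ⊔ (JJ s Λ).restrictScalars ℂ

variable {s : I → Pw (VI I)} {Λ : Set I}

lemma mem_WJ_of_Wsp {x : Pw (VI I)} (h : x ∈ Wsp _) : x ∈ WJ s Λ := Submodule.mem_sup_left h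

lemma mem_WJ_of_JJ {x : Pw (VI I)} (h : x ∈ JJ s Λ) : x ∈ WJ s Λ := Submodule.mem_sup_right h

lemma WJ_mono {Λ' : Set I} (h : Λ ⊆ Λ') : WJ s Λ ≤ WJ s Λ' :=
  sup_le_sup_left (fun _ hx => JJ_mono h hx) _

lemma WJ_congr {s' : I → Pw (VI I)} (h : ∀ k ∈ Λ, s k = s' k) : WJ s Λ = WJ s' Λ := by
  rw [WJ, WJ, JJ_congr h]

/-- The dual numbers. -/
abbrev DN : Type := TrivSqZeroExt ℂ ℂ

/-- The constant part of a dual number. -/
noncomputable def fstA : DN →A[ℂ] ℂ := ⟨TrivSqZeroExt.fstHom ℂ ℂ ℂ, TrivSqZeroExt.continuous_fst⟩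

lemma DN.mul_eq_zero {a b : DN} (ha : fstA a = 0) (hb : fstA b = 0) : a * b = 0 := by
  change a.fst = 0 at ha
  change b.fst = 0 at hb
  ext <;> simp [ha, hb]

variable [LinearOrder I] [WellFoundedLT I]

theorem Tow.limit (hs : Tow s) (hne : Λ.Nonempty)
    (hmax : ∀ k ∈ Λ, ∃ j ∈ Λ, k < j) {z : Pw (VI I)} (hz : On (Set.range Sum.inl) z)
    (hz0 : phi z = 0) (h : z ∈ WJ s Λ) : ∃ β ∈ Λ, z ∈ WJ s (Set.Iio β) := by
  classical
  haveI : Nonempty I := ⟨hne.some⟩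
  obtain ⟨w, hw, j, hj, hwj⟩ := Submodule.mem_sup.1 h
  obtain ⟨n, a, b, ha, hb, rfl⟩ := exists_of_mem_Wsp hw
  obtain ⟨β, hβ, Q, hQ0, hQr, hQx, hQb, hQf, hQn⟩ := hs.exists_point hne hmax
    (Sum.elim a b) (by rintro (i | i); exacts [ha i, hb i])
  have hQa : ∀ i, ev Q (a i) = 0 := fun i => hQx (Sum.inl i)
  have hQb' : ∀ i, ev Q (b i) = 0 := fun i => hQx (Sum.inr i)
  let E := hQf.toFinset
  have hE : ∀ k, k ∈ E ↔ k ∈ Λ ∧ β ≤ k ∧ ∀ c, ‖(Q (Sum.inr (k, c)) : ℂ)‖ < 1 := fun k =>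
    hQf.mem_toFinset
  have hπ : ∀ k, ∃ c, k ∈ Λ → β ≤ k → k ∉ E → ‖(Q (Sum.inr (k, c)) : ℂ)‖ = 1 := by
    intro k
    by_cases hk : ∀ c, ‖(Q (Sum.inr (k, c)) : ℂ)‖ < 1
    · exact ⟨true, fun h1 h2 h3 => absurd ((hE k).2 ⟨h1, h2, hk⟩) h3⟩
    · push Not at hk
      obtain ⟨c, hc⟩ := hk
      exact ⟨c, fun _ _ _ => le_antisymm (Q _).2 hc⟩
  choose π hπ using hπ
  obtain ⟨r, hr⟩ := JJ_decomp hs.norm_le E hj
  have hzeq : z = ∑ i, a i * b i + (j - ∑ k ∈ E, r k * rel s k) + ∑ k ∈ E, r k * rel s k := by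
    rw [← hwj]; ring
  generalize j - ∑ k ∈ E, r k * rel s k = j' at hr hzeq
  have hr0 : ∀ k ∈ E, ev Q (r k) = 0 := by
    by_contra hcon
    push Not at hcon
    obtain ⟨k, hk, hkmax⟩ := Finset.exists_max_image (E.filter fun k => ev Q (r k) ≠ 0) id
      (by obtain ⟨k, h1, h2⟩ := hcon; exact ⟨k, Finset.mem_filter.2 ⟨h1, h2⟩⟩)
    obtain ⟨hkE, hk0⟩ := Finset.mem_filter.1 hk
    obtain ⟨hkΛ, hkβ, hk1⟩ := (hE k).1 hkE
    obtain ⟨c, hc⟩ := hQn k hkΛ hkβ
    let t : ℝ := 1 - ‖(Q (Sum.inr (k, !c)) : ℂ)‖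
    have ht : 0 < t := sub_pos.2 (hk1 _)
    let e : Bl DN := ⟨TrivSqZeroExt.inl (Q (Sum.inr (k, !c)) : ℂ) + TrivSqZeroExt.inr (t : ℂ), by
      rw [TrivSqZeroExt.norm_def, TrivSqZeroExt.fst_add, TrivSqZeroExt.snd_add,
        TrivSqZeroExt.fst_inl, TrivSqZeroExt.snd_inl, TrivSqZeroExt.fst_inr, TrivSqZeroExt.snd_inr,
        add_zero, zero_add, Complex.norm_real, Real.norm_of_nonneg ht.le]
      simp [t]⟩
    have he1 : (e : DN).fst = Q (Sum.inr (k, !c)) := by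
      simp only [e, TrivSqZeroExt.fst_add, TrivSqZeroExt.fst_inl, TrivSqZeroExt.fst_inr, add_zero]
    have he2 : (e : DN).snd = t := by
      simp only [e, TrivSqZeroExt.snd_add, TrivSqZeroExt.snd_inl, TrivSqZeroExt.snd_inr, zero_add]
    let b0 : VI I → Bl DN := fun v => if v = Sum.inr (k, !c) then e else cstB DN (Q v)
    obtain ⟨f, hf1, hf2, hf3⟩ := hs.lift_point {i | i ∈ Λ ∧ k < i ∧ i ∉ E} π Q
      (fun i hi => ⟨hπ i hi.1 (hkβ.trans hi.2.1.le) hi.2.2, hQr i hi.1⟩) fstA b0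
      (fun v => by
        simp only [b0]
        split_ifs with hv
        · rw [hv]; exact he1
        · exact fstA.toAlgHom.commutes _)
      (fun i hi => by
        simp only [b0]
        rw [if_neg]
        intro h1
        exact hi.2.1.ne' (Prod.mk.inj (Sum.inr.inj h1)).1)
    have hf4 : ∀ v, lev v ≤ (k : WithBot I) → f (var v) = b0 v := fun v hv => hf1 v fun i hi h1 => by
      rw [h1] at hv
      exact absurd (WithBot.coe_le_coe.1 hv) (not_le.2 hi.2.1)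
    have hf5 : ∀ v ∈ bel k, f (var v) = ((cst DN).comp (ev Q)) (var v) := fun v hv => by
      rw [hf4 v (le_of_lt hv)]
      simp only [b0]
      rw [if_neg]
      · change _ = cst DN (ev Q (var v))
        rw [ev_var]; rfl
      · rintro rfl
        exact lt_irrefl _ (inr_mem_bel.1 hv)
    have hf6 : ∀ i ∈ Λ, i < k → f (rel s i) = 0 := fun i hi hik => by
      rw [hs.congr_rel hik hf5]
      change cst DN (ev Q _) = 0
      rw [hQr i hi, map_zero]
    have hfz : f z = 0 := by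
      rw [hz.congr (g := (cst DN).comp phi)]
      · change cst DN (phi z) = 0
        rw [hz0, map_zero]
      · rintro _ ⟨m, rfl⟩
        rw [hf5 _ (inl_mem_bel m k)]
        change cst DN (ev Q _) = cst DN (phi _)
        rw [ev_var, phi_var, hQ0]
    have hfj : f j' = 0 := map_JJ_zero f (fun i hi => by
      rcases lt_trichotomy i k with h1 | h1 | h1
      · exact hf6 i hi.1 h1
      · exact absurd (h1 ▸ hkE) hi.2
      · exact hf3 i ⟨hi.1, h1, hi.2⟩) hr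
    have h1 := congrArg f hzeq
    rw [hfz, map_add, map_add, hfj, map_sum, map_sum, Finset.sum_eq_zero (fun i _ => by
      rw [map_mul]; exact DN.mul_eq_zero (by rw [hf2, hQa]) (by rw [hf2, hQb'])),
      Finset.sum_eq_single k (fun i hi hik => by
        rw [map_mul]
        rcases lt_or_gt_of_ne hik with h1 | h1
        · rw [hf6 i ((hE i).1 hi).1 h1, mul_zero]
        · refine DN.mul_eq_zero ?_ (by rw [hf2, hQr i ((hE i).1 hi).1])
          rw [hf2]
          by_contra h2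
          exact absurd (hkmax i (Finset.mem_filter.2 ⟨hi, h2⟩)) (not_le.2 h1))
        (fun h => absurd hkE h), add_zero, zero_add, map_mul] at h1
    have h2 : (f (rel s k)).snd = (Q (Sum.inr (k, c)) : ℂ) * t := by
      rw [rel_eq' k c, map_sub, map_mul, (hs.on k).congr hf5, hf4 _ le_rfl, hf4 _ le_rfl]
      simp only [b0]
      rw [if_neg (by simp), if_pos trivial]
      change TrivSqZeroExt.snd (algebraMap ℂ DN _ * (e : DN) - algebraMap ℂ DN _) = _
      simp [TrivSqZeroExt.algebraMap_eq_inl, he2]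
    have h3 : (f (rel s k)).fst = 0 := by
      change fstA _ = 0
      rw [hf2, hQr k hkΛ]
    have h4 : (f (r k)).fst = ev Q (r k) := hf2 _
    have h5 := congrArg TrivSqZeroExt.snd h1
    rw [TrivSqZeroExt.snd_mul, h2, h3, h4] at h5
    simp [hk0, hc, ht.ne'] at h5
  let b0 : VI I → Bl (Pw (VI I)) := fun v => if v ∈ bel β then varB v else cstB _ (Q v)
  obtain ⟨f, hf1, hf2, hf3⟩ := hs.lift_point {i | i ∈ Λ ∧ β ≤ i ∧ i ∉ E} π Q
    (fun i hi => ⟨hπ i hi.1 hi.2.1 hi.2.2, hQr i hi.1⟩) phi b0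
    (fun v => by
      simp only [b0]
      split_ifs with hv
      · change phi (var v) = _
        rw [phi_var]
        rcases v with m | ⟨i, c⟩
        · exact (hQ0 m).symm
        · exact (hQb i (inr_mem_bel.1 hv) c).symm
      · exact phi.toAlgHom.commutes _)
    (fun i hi => by
      simp only [b0]
      rw [if_neg]
      exact fun h1 => absurd (inr_mem_bel.1 h1) (not_lt.2 hi.2.1))
  have hf4 : ∀ v ∈ bel β, f (var v) = var v := fun v hv => by
    rw [hf1 v fun i hi h1 => absurd (inr_mem_bel.1 (h1 ▸ hv)) (not_lt.2 hi.2.1)]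
    simp only [b0]
    rw [if_pos hv]; rfl
  have hfz : f z = z := hz.fix (by rintro _ ⟨m, rfl⟩; exact hf4 _ (inl_mem_bel m β))
  refine ⟨β, hβ, ?_⟩
  rw [← hfz, hzeq, map_add, map_add, map_sum, map_sum]
  refine Submodule.add_mem _ (Submodule.add_mem _ (Submodule.sum_mem _ fun i _ => ?_) ?_)
    (Submodule.sum_mem _ fun i hi => ?_)
  · rw [map_mul]
    exact mem_WJ_of_Wsp (mul_mem_Wsp (by rw [hf2, hQa]) (by rw [hf2, hQb']))
  · refine mem_WJ_of_JJ (map_JJ f isClosed_JJ (fun i hi => ?_) hr)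
    by_cases hiβ : i < β
    · rw [hs.congr_rel (g := ContinuousAlgHom.id ℂ _) hiβ hf4]
      exact rel_mem_JJ hiβ
    · rw [hf3 i ⟨hi.1, not_lt.1 hiβ, hi.2⟩]
      exact Ideal.zero_mem _
  · rw [map_mul]
    exact mem_WJ_of_Wsp (mul_mem_Wsp (by rw [hf2, hr0 i hi])
      (by rw [hf2, hQr i ((hE i).1 hi).1]))

omit [WellFoundedLT I] in
theorem Tow.succ (hs : Tow s) (k : I) {x : Pw (VI I)} (h : x ∈ WJ s Λ) :
    ∃ c : ℂ, x + c • s k ∈ WJ s (Λ \ {k}) := by
  haveI : Nonempty I := ⟨k⟩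
  obtain ⟨w, hw, j, hj, rfl⟩ := Submodule.mem_sup.1 h
  obtain ⟨r, hr⟩ := JJ_decomp_one hs.norm_le k hj
  refine ⟨phi r, ?_⟩
  have h1 : w + j + phi r • s k = (j - r * rel s k) + (w + (r * var (Sum.inr (k, true))) *
      var (Sum.inr (k, false)) - (r * s k - phi r • s k)) := by
    rw [rel_eq]; ring
  rw [h1]
  refine Submodule.add_mem _ (mem_WJ_of_JJ hr) (mem_WJ_of_Wsp (Submodule.sub_mem _
    (Submodule.add_mem _ hw (mul_mem_Wsp ?_ (phi_var _))) (mul_sub_mem_Wsp r (hs.phi_eq k))))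
  rw [map_mul, phi_var, mul_zero]

end Pool.Agent.P.MP_0279ce_an.Comm
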