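import Mathlib

/-! An affine variety cut out by fewer equations than variables has no nonempty compact open
subset; consequence for polydiscs. -/

namespace Pool.Agent.P.MP_0279ce_an.Comm

open MvPolynomial Filter
open scoped Topology

section Height

variable {σ : Type} [DecidableEq σ]

/-- Substitute the coordinates of `p` for the variables in `S`. -/
noncomputable def subS (p : σ → ℂ) (S : Finset σ) : MvPolynomial σ ℂ →ₐ[ℂ] MvPolynomial σ ℂ :=
  aeval (fun i => if i ∈ S then C (p i) else X i)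

lemma subS_comp (p : σ → ℂ) {S T : Finset σ} (h : S ⊆ T) (f : MvPolynomial σ ℂ) :
    subS p T (subS p S f) = subS p T f := by
  have : (subS p T).comp (subS p S) = subS p T := by
    apply MvPolynomial.algHom_ext
    intro i
    simp only [subS, AlgHom.comp_apply, aeval_X]
    by_cases hi : i ∈ S
    · simp [hi, h hi]
    · simp [hi]
  exact DFunLike.congr_fun this f

lemma height_ker_subS (p : σ → ℂ) (S : Finset σ) :
    (S.card : ℕ∞) ≤ (RingHom.ker (subS p S)).height := by
  induction S using Finset.induction_on with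
  | empty => simp
  | insert a S ha ih =>
    haveI : (RingHom.ker (subS p S)).IsPrime := RingHom.ker_isPrime _
    haveI : (RingHom.ker (subS p (insert a S))).IsPrime := RingHom.ker_isPrime _
    have hlt : RingHom.ker (subS p S) < RingHom.ker (subS p (insert a S)) := by
      refine lt_of_le_of_ne ?_ ?_
      · intro f hf
        rw [RingHom.mem_ker] at hf ⊢
        rw [← subS_comp p (Finset.subset_insert a S), hf, map_zero]
      · intro h
        have h1 : X a - C (p a) ∈ RingHom.ker (subS p (insert a S)) := by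
          rw [RingHom.mem_ker]; simp [subS]
        rw [← h, RingHom.mem_ker] at h1
        simp only [subS, map_sub, aeval_X, ha, if_false, algHom_C, algebraMap_eq] at h1
        have h2 := congrArg (eval (fun _ => p a + 1)) h1
        simp at h2
    have := Ideal.height_add_one_le_of_lt_of_isPrime hlt
    rw [Finset.card_insert_of_notMem ha]
    push_cast
    exact le_trans (by gcongr) this

lemma height_ker_eval [Fintype σ] (p : σ → ℂ) :
    (Fintype.card σ : ℕ∞) ≤ (RingHom.ker (eval p : MvPolynomial σ ℂ →+* ℂ)).height := by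
  have h : RingHom.ker (subS p Finset.univ) = RingHom.ker (eval p : MvPolynomial σ ℂ →+* ℂ) := by
    have h1 : ∀ f, subS p Finset.univ f = C (eval p f) := by
      intro f
      induction f using MvPolynomial.induction_on with
      | C a => simp [subS]
      | add f g hf hg => simp [hf, hg]
      | mul_X f i hf => rw [map_mul, hf]; simp [subS]
    ext f
    simp [RingHom.mem_ker, h1]
  rw [← h]
  exact height_ker_subS p Finset.univ

end Height

lemma exists_small_root {q : Polynomial ℂ} (hq : q.Monic) {ε : ℝ} (hε : 0 < ε)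
    (h : ‖q.eval 0‖ < ε ^ q.natDegree) : ∃ r, q.IsRoot r ∧ ‖r‖ < ε := by
  by_contra hcon
  push Not at hcon
  have hs := IsAlgClosed.splits q
  have h1 := hs.eval_eq_prod_roots_of_monic hq 0
  have hc : q.roots.card = q.natDegree := hs.natDegree_eq_card_roots.symm
  have key : ∀ s : Multiset ℂ, (∀ r ∈ s, ε ≤ ‖r‖) →
      ε ^ s.card ≤ ‖(s.map (fun a => 0 - a)).prod‖ := by
    intro s
    induction s using Multiset.induction_on with
    | empty => simp
    | cons a s ih =>
      intro hs
      rw [Multiset.map_cons, Multiset.prod_cons, norm_mul, Multiset.card_cons, pow_succ']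
      refine mul_le_mul ?_ (ih fun r hr => hs r (Multiset.mem_cons_of_mem hr)) (by positivity)
        (norm_nonneg _)
      simpa using hs a (Multiset.mem_cons_self _ _)
  have h2 := key q.roots (fun r hr => hcon r (Polynomial.isRoot_of_mem_roots hr))
  rw [hc, ← h1] at h2
  linarith

lemma root_bound {q : Polynomial ℂ} (hq : q.Monic) {r : ℂ} (hr : q.IsRoot r) {B : ℝ}
    (hB : ∀ i, ‖q.coeff i‖ ≤ B) : ‖r‖ ≤ B + 1 := by
  have h := hr.norm_lt_cauchyBound hq.ne_zero
  have hB0 : 0 ≤ B := (norm_nonneg _).trans (hB 0)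
  obtain ⟨B', rfl⟩ : ∃ B' : NNReal, (B' : ℝ) = B := ⟨⟨B, hB0⟩, rfl⟩
  have h2 : q.cauchyBound ≤ B' + 1 := by
    unfold Polynomial.cauchyBound
    rw [hq.leadingCoeff, nnnorm_one, div_one]
    gcongr
    refine Finset.sup_le fun i _ => ?_
    exact hB i
  have h3 : (‖r‖₊ : ℝ) ≤ (B' + 1 : NNReal) := by exact_mod_cast (h.le.trans h2)
  simpa using h3

theorem prime_no_compact {σ : Type} [Fintype σ] (P : Ideal (MvPolynomial σ ℂ)) [hP : P.IsPrime]
    (hPm : ¬ P.IsMaximal) {U : Set (σ → ℂ)} (hU : IsOpen U)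
    (hK : IsCompact ({x | ∀ f ∈ P, eval x f = 0} ∩ U)) :
    {x | ∀ f ∈ P, eval x f = 0} ∩ U = ∅ := by
  classical
  set V : Set (σ → ℂ) := {x | ∀ f ∈ P, eval x f = 0} with hV
  by_contra hne
  obtain ⟨p, hp⟩ := Set.nonempty_iff_ne_empty.2 hne
  haveI : Nontrivial (MvPolynomial σ ℂ ⧸ P) := Ideal.Quotient.nontrivial_iff.2 hP.ne_top
  obtain ⟨s, g, hginj, hgint⟩ := exists_integral_inj_algHom_of_fg ℂ (MvPolynomial σ ℂ ⧸ P)
  letI : Algebra (MvPolynomial (Fin s) ℂ) (MvPolynomial σ ℂ ⧸ P) := g.toRingHom.toAlgebra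
  have halg : ∀ a, algebraMap (MvPolynomial (Fin s) ℂ) (MvPolynomial σ ℂ ⧸ P) a = g a :=
    fun _ => rfl
  haveI : Algebra.IsIntegral (MvPolynomial (Fin s) ℂ) (MvPolynomial σ ℂ ⧸ P) := ⟨hgint⟩
  haveI : FaithfulSMul (MvPolynomial (Fin s) ℂ) (MvPolynomial σ ℂ ⧸ P) :=
    (faithfulSMul_iff_algebraMap_injective _ _).2 hginj
  have hs : s ≠ 0 := by
    rintro rfl
    apply hPm
    rw [Ideal.Quotient.maximal_ideal_iff_isField_quotient]
    refine (Algebra.IsIntegral.isField_iff_isField (R := MvPolynomial (Fin 0) ℂ) hginj).1 ?_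
    exact (MvPolynomial.isEmptyRingEquiv ℂ (Fin 0)).toMulEquiv.isField (Field.toIsField ℂ)
  choose G hG using fun i : Fin s => Ideal.Quotient.mk_surjective (I := P) (g (X i))
  let t : (σ → ℂ) → (Fin s → ℂ) := fun y i => eval y (G i)
  have ht : Continuous t := continuous_pi fun i => MvPolynomial.continuous_eval (G i)
  let ev : ∀ y ∈ V, (MvPolynomial σ ℂ ⧸ P) →+* ℂ := fun y hy => Ideal.Quotient.lift P (eval y) hy
  have hev : ∀ y (hy : y ∈ V) f, ev y hy (Ideal.Quotient.mk P f) = eval y f := fun _ _ _ => rfl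
  have hevg : ∀ y (hy : y ∈ V) a, ev y hy (g a) = eval (t y) a := by
    intro y hy a
    induction a using MvPolynomial.induction_on with
    | C c =>
      have : g (C c) = Ideal.Quotient.mk P (C c) := g.commutes c
      rw [this, hev]; simp
    | add a b ha hb => simp [ha, hb]
    | mul_X a i ha => rw [map_mul, map_mul, ha, ← hG, hev]; simp [t]
  let μ : MvPolynomial σ ℂ → Polynomial (MvPolynomial (Fin s) ℂ) :=
    fun f => minpoly (MvPolynomial (Fin s) ℂ) (Ideal.Quotient.mk P f)
  have hμm : ∀ f, (μ f).Monic := fun f => minpoly.monic (Algebra.IsIntegral.isIntegral _)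
  have hroot1 : ∀ f, ∀ y ∈ V, ((μ f).map (eval (t y))).IsRoot (eval y f) := by
    intro f y hy
    have h1 := congrArg (ev y hy) (minpoly.aeval (MvPolynomial (Fin s) ℂ) (Ideal.Quotient.mk P f))
    rw [map_zero, Polynomial.aeval_def, Polynomial.hom_eval₂, hev] at h1
    rw [Polynomial.IsRoot, Polynomial.eval_map, ← h1]
    congr 1
    ext1
    · ext c
      simp only [RingHom.coe_comp, Function.comp_apply, halg, hevg]
    · simp only [RingHom.coe_comp, Function.comp_apply, halg, hevg]
  have hroot2 : ∀ f τ r, ((μ f).map (eval τ)).IsRoot r → ∃ y ∈ V, t y = τ ∧ eval y f = r := by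
    intro f τ r hr
    let ε : Polynomial (MvPolynomial (Fin s) ℂ) →+* ℂ := Polynomial.eval₂RingHom (eval τ) r
    let α : Polynomial (MvPolynomial (Fin s) ℂ) →ₐ[MvPolynomial (Fin s) ℂ] (MvPolynomial σ ℂ ⧸ P) :=
      Polynomial.aeval (Ideal.Quotient.mk P f)
    have hαint : α.toRingHom.IsIntegral := by
      refine RingHom.IsIntegral.tower_top (algebraMap (MvPolynomial (Fin s) ℂ) _) _ ?_
      have : α.toRingHom.comp (algebraMap (MvPolynomial (Fin s) ℂ) _) = g.toRingHom := by
        refine RingHom.ext fun a => ?_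
        exact α.commutes a
      rw [this]; exact hgint
    have hεs : Function.Surjective ε := fun c => ⟨Polynomial.C (C c), by simp [ε]⟩
    haveI hmax : (RingHom.ker ε).IsMaximal := RingHom.ker_isMaximal_of_surjective ε hεs
    letI : Algebra (Polynomial (MvPolynomial (Fin s) ℂ)) (MvPolynomial σ ℂ ⧸ P) :=
      α.toRingHom.toAlgebra
    haveI : Algebra.IsIntegral (Polynomial (MvPolynomial (Fin s) ℂ)) (MvPolynomial σ ℂ ⧸ P) :=
      ⟨hαint⟩
    obtain ⟨Q, -, hQp, hQ⟩ := Ideal.exists_ideal_over_prime_of_isIntegral (RingHom.ker ε)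
      (⊥ : Ideal (MvPolynomial σ ℂ ⧸ P)) (by
        intro a ha
        rw [Ideal.mem_comap, Ideal.mem_bot] at ha
        obtain ⟨b, rfl⟩ := minpoly.isIntegrallyClosed_dvd
          (Algebra.IsIntegral.isIntegral (R := MvPolynomial (Fin s) ℂ) (Ideal.Quotient.mk P f)) ha
        rw [RingHom.mem_ker, map_mul]
        have : ε (μ f) = 0 := by
          rw [Polynomial.IsRoot, Polynomial.eval_map] at hr
          exact hr
        exact mul_eq_zero_of_left this _)
    haveI hQm : Q.IsMaximal := Ideal.isMaximal_of_isIntegral_of_isMaximal_comap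
      (R := Polynomial (MvPolynomial (Fin s) ℂ)) Q (by rw [hQ]; exact hmax)
    have hQm' : (Q.comap (Ideal.Quotient.mk P)).IsMaximal :=
      Ideal.comap_isMaximal_of_surjective _ Ideal.Quotient.mk_surjective
    obtain ⟨y, hy⟩ := isMaximal_iff_eq_vanishingIdeal_singleton.1 hQm'
    have hmem : ∀ a, Ideal.Quotient.mk P a ∈ Q → eval y a = 0 := by
      intro a ha
      have : a ∈ Q.comap (Ideal.Quotient.mk P) := ha
      rw [hy, mem_vanishingIdeal_singleton_iff] at this
      rwa [MvPolynomial.aeval_eq_eval] at this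
    have hyV : y ∈ V := fun a ha => hmem a (by
      rw [Ideal.Quotient.eq_zero_iff_mem.2 ha]; exact Q.zero_mem)
    have hq : ∀ a, ε a = 0 → α a ∈ Q := by
      intro a ha
      have : a ∈ Q.comap (algebraMap (Polynomial (MvPolynomial (Fin s) ℂ))
        (MvPolynomial σ ℂ ⧸ P)) := by rw [hQ]; exact ha
      exact this
    refine ⟨y, hyV, ?_, ?_⟩
    · funext i
      have h1 := hq (Polynomial.C (X i - C (τ i))) (by simp [ε])
      have h2 : α (Polynomial.C (X i - C (τ i))) = Ideal.Quotient.mk P (G i - C (τ i)) := by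
        have h3 : g (C (τ i)) = Ideal.Quotient.mk P (C (τ i)) := g.commutes _
        simp only [α, Polynomial.aeval_C, halg, map_sub, hG, h3]
      rw [h2] at h1
      have := hmem _ h1
      simpa [sub_eq_zero] using this
    · have h1 := hq (Polynomial.X - Polynomial.C (C r)) (by simp [ε])
      have h2 : α (Polynomial.X - Polynomial.C (C r)) = Ideal.Quotient.mk P (f - C r) := by
        have h3 : g (C r) = Ideal.Quotient.mk P (C r) := g.commutes _
        simp only [α, Polynomial.aeval_C, Polynomial.aeval_X, halg, map_sub, h3]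
      rw [h2] at h1
      have := hmem _ h1
      simpa [sub_eq_zero] using this
  have hVc : IsClosed V := by
    have : V = ⋂ f ∈ P, {x | eval x f = 0} := by ext; simp [hV]
    rw [this]
    exact isClosed_biInter fun f _ => isClosed_eq (MvPolynomial.continuous_eval f) continuous_const
  -- finite fibres
  have hfin : ∀ τ, {y ∈ V | t y = τ}.Finite := by
    intro τ
    refine (Set.Finite.pi' (fun i => ((μ (X i)).map (eval τ)).roots.toFinset.finite_toSet)).subset ?_
    rintro y ⟨hy, rfl⟩ i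
    have := hroot1 (X i) y hy
    simp only [eval_X] at this
    simp only [Finset.mem_coe, Multiset.mem_toFinset]
    exact (Polynomial.mem_roots ((hμm _).map _).ne_zero).2 this
  -- closed images
  have hclosed : ∀ f, IsClosed ((fun y => (t y, eval y f)) '' (V \ U)) := by
    intro f
    refine isSeqClosed_iff_isClosed.1 ?_
    intro w w0 hw hlim
    choose y hy hyw using hw
    have hτ : Tendsto (fun n => t (y n)) atTop (𝓝 w0.1) := by
      have := (continuous_fst.tendsto w0).comp hlim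
      refine this.congr fun n => ?_
      simp [← hyw n]
    have hbd : Bornology.IsBounded (Set.range y) := by
      have h1 : ∀ i, ∃ B, ∀ n, ‖y n i‖ ≤ B := by
        intro i
        have h2 : ∀ j, ∃ B, ∀ n, ‖eval (t (y n)) ((μ (X i)).coeff j)‖ ≤ B := by
          intro j
          have := (((MvPolynomial.continuous_eval ((μ (X i)).coeff j)).tendsto _).comp hτ).norm
          obtain ⟨B, hB⟩ := this.bddAbove_range
          exact ⟨B, fun n => hB ⟨n, rfl⟩⟩
        choose B hB using h2
        refine ⟨∑ j ∈ Finset.range ((μ (X i)).natDegree + 1), B j + 1, fun n => ?_⟩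
        have h3 := hroot1 (X i) (y n) (hy n).1
        simp only [eval_X] at h3
        refine root_bound ((hμm _).map _) h3 fun j => ?_
        have hB0 : ∀ j, 0 ≤ B j := fun j => (norm_nonneg _).trans (hB j 0)
        rw [Polynomial.coeff_map]
        by_cases hj : j < (μ (X i)).natDegree + 1
        · exact (hB j n).trans (Finset.single_le_sum (fun j _ => hB0 j) (Finset.mem_range.2 hj))
        · rw [Polynomial.coeff_eq_zero_of_natDegree_lt (by omega)]
          simpa using Finset.sum_nonneg fun j _ => hB0 j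
      choose B hB using h1
      rw [isBounded_iff_forall_norm_le]
      refine ⟨∑ i, |B i|, ?_⟩
      rintro _ ⟨n, rfl⟩
      refine (pi_norm_le_iff_of_nonneg (Finset.sum_nonneg fun i _ => abs_nonneg _)).2 fun i => ?_
      exact ((hB i n).trans (le_abs_self _)).trans
        (Finset.single_le_sum (f := fun i => |B i|) (fun j _ => abs_nonneg _) (Finset.mem_univ i))
    obtain ⟨y0, -, φ, hφ, hy0⟩ := tendsto_subseq_of_bounded hbd (fun n => Set.mem_range_self n)
    have hy0m : y0 ∈ V \ U := (hVc.sdiff hU).mem_of_tendsto hy0 (Eventually.of_forall fun n => hy _)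
    refine ⟨y0, hy0m, ?_⟩
    have hc : Continuous (fun y : σ → ℂ => (t y, eval y f)) :=
      ht.prodMk (MvPolynomial.continuous_eval f)
    have h1 := (hc.tendsto y0).comp hy0
    have h2 := hlim.comp hφ.tendsto_atTop
    refine tendsto_nhds_unique h1 (h2.congr fun n => ?_)
    simp [← hyw]
  -- the image of the compact set is open
  have hTc : IsCompact (t '' (V ∩ U)) := hK.image ht
  have hTo : IsOpen (t '' (V ∩ U)) := by
    rw [← isClosed_compl_iff, ← closure_subset_iff_isClosed]
    rintro τ0 hτ0 ⟨y0, hy0, rfl⟩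
    have hF : {y ∈ V \ U | t y = t y0}.Finite :=
      (hfin (t y0)).subset (fun y hy => ⟨hy.1.1, hy.2⟩)
    have hsep : ∀ y ∈ hF.toFinset, ∃ l : MvPolynomial σ ℂ, eval y0 l = 1 ∧ eval y l = 0 := by
      intro y hy
      rw [Set.Finite.mem_toFinset] at hy
      have : ∃ i, y i ≠ y0 i := by
        by_contra hcon
        push Not at hcon
        exact hy.1.2 ((funext hcon : y = y0) ▸ hy0.2)
      obtain ⟨i, hi⟩ := this
      refine ⟨C ((y0 i - y i)⁻¹) * (X i - C (y i)), ?_, by simp⟩
      simp only [map_sub, map_mul, eval_C, eval_X]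
      exact inv_mul_cancel₀ (sub_ne_zero.2 hi.symm)
    choose! l hl using hsep
    let f : MvPolynomial σ ℂ := 1 - ∏ y ∈ hF.toFinset, l y
    have hf0 : eval y0 f = 0 := by
      simp only [f, map_sub, map_one, map_prod]
      rw [Finset.prod_eq_one, sub_self]
      intro y hy
      exact (hl y hy).1
    have hf1 : ∀ y ∈ V \ U, t y = t y0 → eval y f = 1 := by
      intro y hy hty
      have hm : y ∈ hF.toFinset := by rw [Set.Finite.mem_toFinset]; exact ⟨hy, hty⟩
      simp only [f, map_sub, map_one, map_prod]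
      rw [Finset.prod_eq_zero hm (hl y hm).2, sub_zero]
    have hmem : (t y0, (0 : ℂ)) ∈ (fun y => (t y, eval y f)) '' (V \ U) := by
      rw [← (hclosed f).closure_eq, Metric.mem_closure_iff]
      intro ε hε
      have hc : Continuous fun τ : Fin s → ℂ => ‖eval τ ((μ f).coeff 0)‖ :=
        (MvPolynomial.continuous_eval _).norm
      have h0 : ‖eval (t y0) ((μ f).coeff 0)‖ < ε ^ (μ f).natDegree := by
        have := hroot1 f y0 hy0.1
        rw [hf0, Polynomial.IsRoot, ← Polynomial.coeff_zero_eq_eval_zero, Polynomial.coeff_map]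
          at this
        rw [this, norm_zero]; positivity
      have hN : {τ | ‖eval τ ((μ f).coeff 0)‖ < ε ^ (μ f).natDegree} ∩ Metric.ball (t y0) ε ∈
          𝓝 (t y0) :=
        inter_mem ((isOpen_lt hc continuous_const).mem_nhds h0) (Metric.ball_mem_nhds _ hε)
      obtain ⟨τ, ⟨hτ1, hτ2⟩, hτ3⟩ := mem_closure_iff_nhds.1 hτ0 _ hN
      obtain ⟨r, hr, hrε⟩ := exists_small_root ((hμm f).map (eval τ)) hε (by
        rw [← Polynomial.coeff_zero_eq_eval_zero, Polynomial.coeff_map, (hμm f).natDegree_map]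
        exact hτ1)
      obtain ⟨y, hyV, hyt, hyf⟩ := hroot2 f τ r hr
      refine ⟨(τ, r), ⟨y, ⟨hyV, fun hyU => hτ3 ⟨y, ⟨hyV, hyU⟩, hyt⟩⟩, by simp [hyt, hyf]⟩, ?_⟩
      rw [Prod.dist_eq, max_lt_iff]
      refine ⟨Metric.mem_ball'.1 hτ2, by simpa using hrε⟩
    obtain ⟨y, hy, hy'⟩ := hmem
    have h1 := hf1 y hy (congrArg Prod.fst hy')
    have h2 : eval y f = 0 := congrArg Prod.snd hy'
    rw [h1] at h2
    exact one_ne_zero h2
  have huniv : t '' (V ∩ U) = Set.univ :=
    IsClopen.eq_univ ⟨hTc.isClosed, hTo⟩ ⟨t p, p, hp, rfl⟩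
  rw [huniv] at hTc
  haveI : Nonempty (Fin s) := ⟨⟨0, Nat.pos_of_ne_zero hs⟩⟩
  exact noncompact_univ (Fin s → ℂ) hTc

theorem no_compact_open {σ κ : Type} [Fintype σ] [Fintype κ] (h : κ → MvPolynomial σ ℂ)
    (hcard : Fintype.card κ < Fintype.card σ) {U : Set (σ → ℂ)} (hU : IsOpen U)
    (hK : IsCompact ({x | ∀ j, eval x (h j) = 0} ∩ U)) :
    {x | ∀ j, eval x (h j) = 0} ∩ U = ∅ := by
  classical
  by_contra hne
  obtain ⟨p, hp, hpU⟩ := Set.nonempty_iff_ne_empty.2 hne
  haveI : (RingHom.ker (eval p : MvPolynomial σ ℂ →+* ℂ)).IsPrime := RingHom.ker_isPrime _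
  have hle : Ideal.span ((Finset.univ.image h : Finset _) : Set (MvPolynomial σ ℂ)) ≤
      RingHom.ker (eval p : MvPolynomial σ ℂ →+* ℂ) := by
    rw [Ideal.span_le]
    intro f hf
    simp only [Finset.coe_image, Finset.coe_univ, Set.image_univ, Set.mem_range] at hf
    obtain ⟨j, rfl⟩ := hf
    exact hp j
  obtain ⟨P, hP, hPle⟩ := Ideal.exists_minimalPrimes_le hle
  haveI hPp : P.IsPrime := hP.1.1
  have hh : ∀ j, h j ∈ P := fun j => hP.1.2 (Ideal.subset_span (by simp))
  have hPm : ¬ P.IsMaximal := by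
    intro hm
    have h1 := hm.eq_of_le (Ideal.IsPrime.ne_top inferInstance) hPle
    have h2 := Ideal.height_le_card_of_mem_minimalPrimes_span_finset hP
    have h3 := height_ker_eval p
    rw [← h1] at h3
    have h4 : (Finset.univ.image h).card ≤ Fintype.card κ := Finset.card_image_le
    have h5 : Fintype.card σ ≤ (Finset.univ.image h).card := by exact_mod_cast h3.trans h2
    omega
  have hVc : IsClosed {x : σ → ℂ | ∀ f ∈ P, eval x f = 0} := by
    have : {x : σ → ℂ | ∀ f ∈ P, eval x f = 0} = ⋂ f ∈ P, {x | eval x f = 0} := by ext; simp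
    rw [this]
    exact isClosed_biInter fun f _ => isClosed_eq (MvPolynomial.continuous_eval f) continuous_const
  have h1 := prime_no_compact P hPm hU (by
    have : {x : σ → ℂ | ∀ f ∈ P, eval x f = 0} ∩ U =
        ({x | ∀ j, eval x (h j) = 0} ∩ U) ∩ {x : σ → ℂ | ∀ f ∈ P, eval x f = 0} := by
      ext x
      constructor
      · rintro ⟨h1, h2⟩; exact ⟨⟨fun j => h1 _ (hh j), h2⟩, h1⟩
      · rintro ⟨⟨_, h2⟩, h3⟩; exact ⟨h3, h2⟩
    rw [this]
    exact hK.inter_right hVc)
  have h2 : p ∈ {x : σ → ℂ | ∀ f ∈ P, eval x f = 0} ∩ U := ⟨fun f hf => hPle hf, hpU⟩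
  rw [h1] at h2
  exact h2

theorem walk {J κ : Type} [Fintype J] [Fintype κ] (h : κ → MvPolynomial (J × Bool) ℂ) (e : ℕ)
    (hcard : Fintype.card κ ≤ Fintype.card J + e) (ρ : J → ℝ)
    (hslack : ∀ x : J × Bool → ℂ, (∀ j, eval x (h j) = 0) → (∀ v, ‖x v‖ ≤ ρ v.1) →
      ∀ k, ‖x (k, true)‖ < ρ k ∨ ‖x (k, false)‖ < ρ k)
    {p : J × Bool → ℂ} (hp : ∀ j, eval p (h j) = 0) (hpρ : ∀ v, ‖p v‖ ≤ ρ v.1) :
    ∃ q : J × Bool → ℂ, (∀ j, eval q (h j) = 0) ∧ (∀ v, ‖q v‖ ≤ ρ v.1) ∧
      ∀ S : Finset J, (∀ k ∈ S, ∀ b, ‖q (k, b)‖ < ρ k) → S.card ≤ e := by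
  classical
  let Exc : (J × Bool → ℂ) → Finset J := fun q => Finset.univ.filter fun k => ∀ b, ‖q (k, b)‖ < ρ k
  have hex : ∃ n, ∃ q : J × Bool → ℂ, ((∀ j, eval q (h j) = 0) ∧ (∀ v, ‖q v‖ ≤ ρ v.1)) ∧
      (Exc q).card = n := ⟨_, p, ⟨hp, hpρ⟩, rfl⟩
  obtain ⟨q, ⟨hq, hqρ⟩, hqn⟩ := Nat.find_spec hex
  have hmin : ∀ x : J × Bool → ℂ, (∀ j, eval x (h j) = 0) → (∀ v, ‖x v‖ ≤ ρ v.1) →
      (Exc q).card ≤ (Exc x).card := by
    intro x hx hxρ
    rw [hqn]
    exact Nat.find_min' hex ⟨x, ⟨hx, hxρ⟩, rfl⟩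
  refine ⟨q, hq, hqρ, fun S hS => ?_⟩
  have hSE : S ⊆ Exc q := fun k hk => by simpa [Exc] using hS k hk
  refine (Finset.card_le_card hSE).trans ?_
  by_contra hlt
  push Not at hlt
  have hside : ∀ k, k ∉ Exc q → ∃ b, ‖q (k, b)‖ = ρ k := by
    intro k hk
    simp only [Exc, Finset.mem_filter, Finset.mem_univ, true_and, not_forall, not_lt] at hk
    obtain ⟨b, hb⟩ := hk
    exact ⟨b, le_antisymm (hqρ (k, b)) hb⟩
  choose! β hβ using hside
  let h' : κ ⊕ {k // k ∉ Exc q} → MvPolynomial (J × Bool) ℂ :=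
    Sum.elim h fun k => X (k.1, β k.1) - C (q (k.1, β k.1))
  have hh' : ∀ x : J × Bool → ℂ, (∀ j, eval x (h' j) = 0) ↔
      (∀ j, eval x (h j) = 0) ∧ ∀ k, k ∉ Exc q → x (k, β k) = q (k, β k) := by
    intro x
    simp [h', Sum.forall, sub_eq_zero]
  let U : Set (J × Bool → ℂ) := {x | ∀ v : J × Bool, (v.1 ∈ Exc q ∨ v.2 ≠ β v.1) → ‖x v‖ < ρ v.1}
  have hU : IsOpen U := by
    have : U = ⋂ v ∈ {v : J × Bool | v.1 ∈ Exc q ∨ v.2 ≠ β v.1}, {x | ‖x v‖ < ρ v.1} := by
      ext; simp [U]
    rw [this]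
    exact (Set.toFinite _).isOpen_biInter fun v _ =>
      isOpen_lt (continuous_apply v).norm continuous_const
  have hKeq : {x | ∀ j, eval x (h' j) = 0} ∩ U =
      {x | ∀ j, eval x (h' j) = 0} ∩ {x | ∀ v, ‖x v‖ ≤ ρ v.1} := by
    ext x
    simp only [Set.mem_inter_iff, Set.mem_setOf_eq, and_congr_right_iff]
    intro hx
    obtain ⟨hx1, hx2⟩ := (hh' x).1 hx
    constructor
    · rintro hxU ⟨k, b⟩
      by_cases hv : k ∈ Exc q ∨ b ≠ β k
      · exact (hxU (k, b) hv).le
      · push Not at hv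
        obtain ⟨hk, rfl⟩ := hv
        rw [hx2 k hk]; exact hqρ _
    · rintro hxρ ⟨k, b⟩ hv
      have hsub : Exc x ⊆ Exc q := by
        intro k hk
        by_contra hk'
        have := (Finset.mem_filter.1 hk).2 (β k)
        rw [hx2 k hk', hβ k hk'] at this
        exact lt_irrefl _ this
      have heq : Exc x = Exc q := Finset.eq_of_subset_of_card_le hsub (hmin x hx1 hxρ)
      by_cases hk : k ∈ Exc q
      · rw [← heq] at hk
        exact (Finset.mem_filter.1 hk).2 b
      · have hb : b ≠ β k := hv.resolve_left hk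
        have h1 : ‖x (k, β k)‖ = ρ k := by rw [hx2 k hk, hβ k hk]
        have h2 := hslack x hx1 hxρ k
        cases b <;> cases hβk : β k <;> simp_all
  have hcard' : Fintype.card (κ ⊕ {k // k ∉ Exc q}) < Fintype.card (J × Bool) := by
    have h1 : Fintype.card {k // k ∉ Exc q} = Fintype.card J - (Exc q).card := by
      rw [Fintype.card_subtype_compl]; simp
    have h2 : (Exc q).card ≤ Fintype.card J := Finset.card_le_univ _
    rw [Fintype.card_sum, h1, Fintype.card_prod, Fintype.card_bool]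
    omega
  have hK : IsCompact ({x | ∀ j, eval x (h' j) = 0} ∩ U) := by
    rw [hKeq]
    refine IsCompact.inter_left ?_ ?_
    · have : {x : J × Bool → ℂ | ∀ v, ‖x v‖ ≤ ρ v.1} =
          Set.univ.pi fun v => Metric.closedBall (0 : ℂ) (ρ v.1) := by
        ext; simp
      rw [this]
      exact isCompact_univ_pi fun v => isCompact_closedBall _ _
    · have : {x : J × Bool → ℂ | ∀ j, eval x (h' j) = 0} = ⋂ j, {x | eval x (h' j) = 0} := by
        ext; simp
      rw [this]
      exact isClosed_iInter fun j => isClosed_eq (MvPolynomial.continuous_eval _) continuous_const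
  have h0 := no_compact_open h' hcard' hU hK
  rw [hKeq] at h0
  have : q ∈ {x | ∀ j, eval x (h' j) = 0} ∩ {x | ∀ v, ‖x v‖ ≤ ρ v.1} :=
    ⟨(hh' q).2 ⟨hq, fun _ _ => rfl⟩, hqρ⟩
  rw [h0] at this
  exact this

end Pool.Agent.P.MP_0279ce_an.Comm
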