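import Pool.Agent.P.MP_0279ce_an.CDep

/-! Normal forms modulo the relations `u_k v_k = s_k`. -/

namespace Pool.Agent.P.MP_0279ce_an.Comm

open MvPolynomial Filter
open scoped Topology

/-- Variables: a sequence of base variables and two variables for each level. -/
abbrev VI (I : Type) : Type := ℕ ⊕ (I × Bool)

variable {I : Type}

/-- The exponent of `u_k v_k`. -/
noncomputable def pr (k : I) : VI I →₀ ℕ :=
  Finsupp.single (Sum.inr (k, true)) 1 + Finsupp.single (Sum.inr (k, false)) 1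

lemma mon_pr (k : I) : mon (pr k) = var (Sum.inr (k, true)) * var (Sum.inr (k, false)) := by
  rw [pr, mon_add, var_eq, var_eq]

lemma pr_le_iff {k : I} {m : VI I →₀ ℕ} :
    pr k ≤ m ↔ 1 ≤ m (Sum.inr (k, true)) ∧ 1 ≤ m (Sum.inr (k, false)) := by
  classical
  constructor
  · intro h
    exact ⟨by simpa [pr] using h (Sum.inr (k, true)), by simpa [pr] using h (Sum.inr (k, false))⟩
  · rintro ⟨h1, h2⟩ v
    rw [pr, Finsupp.add_apply, Finsupp.single_apply, Finsupp.single_apply]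
    split_ifs with h3 h4 h4
    · rw [← h3] at h4; simp at h4
    · rw [← h3]; simpa using h1
    · rw [← h4]; simpa using h2
    · simp

lemma pr_le_of_ne {j k : I} (hjk : j ≠ k) {m : VI I →₀ ℕ} (h : pr j ≤ m + pr k) : pr j ≤ m := by
  classical
  rw [pr_le_iff] at h ⊢
  simpa [pr, hjk, hjk.symm] using h

/-- The relation of level `k`. -/
noncomputable def rel (s : I → Pw (VI I)) (k : I) : Pw (VI I) := mon (pr k) - s k

/-- The closed ideal generated by the relations of the levels in `Λ`. -/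
noncomputable def JJ (s : I → Pw (VI I)) (Λ : Set I) : Ideal (Pw (VI I)) :=
  (Ideal.span (rel s '' Λ)).closure

variable {s : I → Pw (VI I)} {Λ : Set I}

lemma isClosed_JJ : IsClosed (JJ s Λ : Set (Pw (VI I))) := isClosed_closure

lemma rel_mem_JJ {k : I} (hk : k ∈ Λ) : rel s k ∈ JJ s Λ :=
  subset_closure (Ideal.subset_span ⟨k, hk, rfl⟩)

lemma JJ_le {K : Ideal (Pw (VI I))} (hK : IsClosed (K : Set (Pw (VI I))))
    (h : ∀ k ∈ Λ, rel s k ∈ K) : JJ s Λ ≤ K := by
  have h1 : Ideal.span (rel s '' Λ) ≤ K := Ideal.span_le.2 (by rintro _ ⟨k, hk, rfl⟩; exact h k hk)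
  exact closure_minimal h1 hK

lemma JJ_mono {Λ' : Set I} (h : Λ ⊆ Λ') : JJ s Λ ≤ JJ s Λ' :=
  JJ_le isClosed_JJ fun _ hk => rel_mem_JJ (h hk)

lemma JJ_congr {s' : I → Pw (VI I)} (h : ∀ k ∈ Λ, s k = s' k) : JJ s Λ = JJ s' Λ := by
  have : rel s '' Λ = rel s' '' Λ := Set.image_congr fun k hk => by rw [rel, rel, h k hk]
  rw [JJ, JJ, this]

lemma map_JJ {A : Type} [NormedCommRing A] [NormedAlgebra ℂ A] (f : Pw (VI I) →A[ℂ] A)
    {K : Ideal A} (hK : IsClosed (K : Set A)) (h : ∀ k ∈ Λ, f (rel s k) ∈ K) {j : Pw (VI I)}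
    (hj : j ∈ JJ s Λ) : f j ∈ K :=
  JJ_le (K := K.comap f) (hK.preimage f.continuous) h hj

lemma map_JJ_zero {A : Type} [NormedCommRing A] [NormedAlgebra ℂ A] (f : Pw (VI I) →A[ℂ] A)
    (h : ∀ k ∈ Λ, f (rel s k) = 0) {j : Pw (VI I)} (hj : j ∈ JJ s Λ) : f j = 0 :=
  map_JJ f (K := ⊥) isClosed_singleton h hj

/-- Reduced exponents. -/
def Red (Λ : Set I) (m : VI I →₀ ℕ) : Prop := ¬ ∃ k ∈ Λ, pr k ≤ m

open Classical in
/-- The projection onto the reduced monomials. -/
noncomputable def PiR (Λ : Set I) : Pw (VI I) →L[ℂ] Pw (VI I) :=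
  lin fun m => if Red Λ m then mon m else 0

open Classical in
lemma PiR_mon (m : VI I →₀ ℕ) : PiR Λ (mon m) = if Red Λ m then mon m else 0 :=
  lin_mon (C := 1) (fun m => by split_ifs <;> simp [norm_mon]) m

lemma norm_PiR_le (x : Pw (VI I)) : ‖PiR Λ x‖ ≤ ‖x‖ := by
  have := Pw.norm_le (PiR Λ) (C := 1) (fun m => by
    rw [PiR_mon]; split_ifs <;> simp [norm_mon]) x
  rwa [one_mul] at this

lemma PiR_PiR (x : Pw (VI I)) : PiR Λ (PiR Λ x) = PiR Λ x := by
  have : (PiR Λ).comp (PiR Λ) = PiR Λ := Pw.ext fun m => by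
    rw [ContinuousLinearMap.comp_apply, PiR_mon]
    split_ifs with h
    · rw [PiR_mon, if_pos h]
    · rw [map_zero]
  exact DFunLike.congr_fun this x

theorem exists_NF [Nonempty I] (hs : ∀ k, ‖s k‖ ≤ 1 / 3) (Λ : Set I) :
    ∃ N : Pw (VI I) →L[ℂ] Pw (VI I), (∀ j ∈ JJ s Λ, N j = 0) ∧ (∀ x, PiR Λ (N x) = N x) ∧
      ∀ k x, ∃ r, (k ∉ Λ → r = 0) ∧ x - N x - r * rel s k ∈ JJ s (Λ \ {k}) := by
  classical
  have hκ : ∀ m : VI I →₀ ℕ, ∃ k : I, ¬ Red Λ m → k ∈ Λ ∧ pr k ≤ m := by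
    intro m
    by_cases h : Red Λ m
    · exact ⟨Classical.arbitrary I, fun h' => absurd h h'⟩
    · obtain ⟨k, hk⟩ := not_not.1 h
      exact ⟨k, fun _ => hk⟩
  choose κ hκ using hκ
  let T : Pw (VI I) →L[ℂ] Pw (VI I) :=
    lin fun m => if Red Λ m then 0 else mon (m - pr (κ m)) * s (κ m)
  have hTb : ∀ m : VI I →₀ ℕ,
      ‖(if Red Λ m then 0 else mon (m - pr (κ m)) * s (κ m) : Pw (VI I))‖ ≤ 1 / 3 := by
    intro m
    split_ifs
    · simp
    · refine (norm_mul_le _ _).trans ?_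
      rw [norm_mon, one_mul]; exact hs _
  have hT : ∀ m, T (mon m) = if Red Λ m then 0 else mon (m - pr (κ m)) * s (κ m) :=
    lin_mon hTb
  have hTn : ‖T‖ < 1 := by
    have : ‖T‖ ≤ 1 / 3 := T.opNorm_le_bound (by norm_num)
      (Pw.norm_le T fun m => by rw [hT]; exact hTb m)
    linarith
  let U : Pw (VI I) →L[ℂ] Pw (VI I) := ↑(Units.oneSub T hTn)⁻¹
  have hU1 : ∀ x, U x - T (U x) = x := fun x =>
    DFunLike.congr_fun (Units.oneSub T hTn).mul_inv x
  have hU2 : ∀ x, U (x - T x) = x := fun x =>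
    DFunLike.congr_fun (Units.oneSub T hTn).inv_mul x
  let N : Pw (VI I) →L[ℂ] Pw (VI I) := (PiR Λ).comp U
  have hN : ∀ x, N x = PiR Λ x + N (T x) := fun x => by
    have : N (x - T x) = PiR Λ x := by
      change PiR Λ (U (x - T x)) = _
      rw [hU2]
    rw [← this, map_sub, sub_add_cancel]
  have hNm : ∀ m, ¬ Red Λ m → N (mon m) = N (mon (m - pr (κ m)) * s (κ m)) := fun m hm => by
    rw [hN, PiR_mon, hT, if_neg hm, if_neg hm, zero_add]
  have hrel : ∀ k, ‖rel s k‖ ≤ 4 / 3 := fun k => by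
    have := norm_sub_le (mon (pr k)) (s k)
    rw [norm_mon] at this
    rw [rel]
    linarith [hs k, this]
  have hbd : ∀ n : ℕ, ∀ k ∈ Λ, ∀ x, ‖N (x * rel s k)‖ ≤ (‖N‖ * (4 / 3) * (2 / 3) ^ n) * ‖x‖ := by
    intro n
    induction n with
    | zero =>
      intro k _ x
      calc ‖N (x * rel s k)‖ ≤ ‖N‖ * (‖x‖ * (4 / 3)) :=
            (N.le_opNorm _).trans (by
              gcongr
              exact (norm_mul_le _ _).trans (by gcongr; exact hrel k))
        _ = _ := by ring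
    | succ n ih =>
      intro k hk x
      refine Pw.norm_le (N.comp ((ContinuousLinearMap.mul ℂ _).flip (rel s k))) (fun m => ?_) x
      change ‖N (mon m * rel s k)‖ ≤ _
      have hM : ¬ Red Λ (m + pr k) := not_not.2 ⟨k, hk, le_add_self⟩
      obtain ⟨hj, hjle⟩ := hκ _ hM
      have h1 : N (mon m * rel s k) =
          N (mon (m + pr k - pr (κ (m + pr k))) * s (κ (m + pr k))) - N (mon m * s k) := by
        rw [rel, mul_sub, map_sub, ← mon_add, hNm _ hM]
      generalize κ (m + pr k) = j at hj hjle h1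
      by_cases hjk : j = k
      · subst hjk
        rw [h1, add_tsub_cancel_right, sub_self, norm_zero]
        positivity
      · obtain ⟨m', rfl⟩ := exists_add_of_le (pr_le_of_ne hjk hjle)
        have h2 : pr j + m' + pr k - pr j = m' + pr k := by
          rw [add_assoc, add_tsub_cancel_left]
        have h3 : N (mon (pr j + m') * rel s k) =
            N (mon m' * s j * rel s k) - N (mon m' * s k * rel s j) := by
          rw [h1, h2, ← map_sub, ← map_sub, mon_add, mon_add, rel, rel]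
          congr 1
          ring
        have h4 : ∀ i, ‖mon m' * s i‖ ≤ 1 / 3 := fun i =>
          (norm_mul_le _ _).trans (by rw [norm_mon, one_mul]; exact hs i)
        have h5 := ih k hk (mon m' * s j)
        have h6 := ih j hj (mon m' * s k)
        have h7 : 0 ≤ ‖N‖ * (4 / 3) * (2 / 3 : ℝ) ^ n := by positivity
        rw [h3]
        refine (norm_sub_le _ _).trans ?_
        have h8 := mul_le_mul_of_nonneg_left (h4 j) h7
        have h9 := mul_le_mul_of_nonneg_left (h4 k) h7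
        calc _ ≤ ‖N‖ * (4 / 3) * (2 / 3) ^ n * (1 / 3) + ‖N‖ * (4 / 3) * (2 / 3) ^ n * (1 / 3) := by
              linarith
          _ = _ := by ring
  have hN0 : ∀ k ∈ Λ, ∀ x, N (x * rel s k) = 0 := by
    intro k hk x
    have h1 : Tendsto (fun n : ℕ => (‖N‖ * (4 / 3) * (2 / 3) ^ n) * ‖x‖) atTop (𝓝 0) := by
      simpa using ((tendsto_pow_atTop_nhds_zero_of_lt_one (r := (2 / 3 : ℝ)) (by norm_num)
        (by norm_num)).const_mul (‖N‖ * (4 / 3))).mul_const ‖x‖
    exact norm_le_zero_iff.1 (ge_of_tendsto' h1 fun n => hbd n k hk x)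
  refine ⟨N, fun j hj => ?_, fun x => PiR_PiR _, fun k x => ?_⟩
  · let K : Ideal (Pw (VI I)) :=
      { carrier := {j | ∀ x, N (x * j) = 0}
        add_mem' := fun ha hb x => by rw [mul_add, map_add, ha, hb, add_zero]
        zero_mem' := fun x => by simp
        smul_mem' := fun c a ha x => by rw [smul_eq_mul, ← mul_assoc]; exact ha _ }
    have hK : IsClosed (K : Set (Pw (VI I))) := by
      change IsClosed {j | ∀ x, N (x * j) = 0}
      simp only [Set.setOf_forall]
      exact isClosed_iInter fun x => isClosed_eq (by fun_prop) continuous_const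
    simpa using JJ_le hK hN0 hj 1
  · let R : Pw (VI I) →L[ℂ] Pw (VI I) :=
      lin fun m => if ¬ Red Λ m ∧ κ m = k then mon (m - pr k) else 0
    have hR : ∀ m, R (mon m) = if ¬ Red Λ m ∧ κ m = k then mon (m - pr k) else 0 :=
      lin_mon (C := 1) fun m => by split_ifs <;> simp [norm_mon]
    let L : Pw (VI I) →L[ℂ] Pw (VI I) := ContinuousLinearMap.id ℂ _ - T - PiR Λ -
      ((ContinuousLinearMap.mul ℂ _).flip (rel s k)).comp R
    have hL : ∀ y, L y = y - T y - PiR Λ y - R y * rel s k := fun y => rfl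
    have hA : ∀ y, L y ∈ JJ s (Λ \ {k}) := by
      refine Pw.ind (((JJ s (Λ \ {k})).restrictScalars ℂ).comap L.toLinearMap)
        (isClosed_JJ.preimage L.continuous) fun m => ?_
      change L (mon m) ∈ JJ s (Λ \ {k})
      rw [hL, hT, PiR_mon, hR]
      by_cases hm : Red Λ m
      · simp [hm]
      · obtain ⟨hj, hjle⟩ := hκ _ hm
        have h1 : mon m = mon (m - pr (κ m)) * mon (pr (κ m)) := by
          rw [← mon_add, tsub_add_cancel_of_le hjle]
        rw [if_neg hm, if_neg hm]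
        by_cases hjk : κ m = k
        · rw [if_pos ⟨hm, hjk⟩, h1, hjk, rel]
          convert Ideal.zero_mem _ using 1
          ring
        · rw [if_neg fun h => hjk h.2]
          convert Ideal.mul_mem_left _ (mon (m - pr (κ m)))
            (rel_mem_JJ (s := s) (Λ := Λ \ {k}) ⟨hj, hjk⟩) using 1
          rw [zero_mul, rel, mul_sub, ← h1]
          ring
    refine ⟨R (U x), fun hk => ?_, ?_⟩
    · have : R = 0 := Pw.ext fun m => by
        rw [hR, if_neg]
        · rfl
        · rintro ⟨h1, h2⟩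
          exact hk (h2 ▸ (hκ _ h1).1)
      rw [this]; rfl
    · have := hA (U x)
      rwa [hL, hU1] at this

theorem JJ_decomp [Nonempty I] (hs : ∀ k, ‖s k‖ ≤ 1 / 3) (E : Finset I) {j : Pw (VI I)}
    (hj : j ∈ JJ s Λ) : ∃ r : I → Pw (VI I), j - ∑ k ∈ E, r k * rel s k ∈ JJ s (Λ \ E) := by
  classical
  induction E using Finset.induction_on with
  | empty => exact ⟨0, by simpa using hj⟩
  | insert a E ha ih =>
    obtain ⟨r, hr⟩ := ih
    obtain ⟨N, hN, -, h⟩ := exists_NF hs (Λ \ E)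
    obtain ⟨r', -, hr'⟩ := h a (j - ∑ k ∈ E, r k * rel s k)
    rw [hN _ hr, sub_zero] at hr'
    refine ⟨Function.update r a r', ?_⟩
    rw [Finset.sum_insert ha, Function.update_self,
      Finset.sum_congr rfl fun k hk => by
        rw [Function.update_of_ne (ne_of_mem_of_not_mem hk ha)]]
    have h1 : Λ \ ((insert a E : Finset I) : Set I) = (Λ \ E) \ {a} := by
      ext; simp; tauto
    rw [h1]
    convert hr' using 1
    ring

theorem JJ_decomp_one [Nonempty I] (hs : ∀ k, ‖s k‖ ≤ 1 / 3) (k : I) {j : Pw (VI I)}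
    (hj : j ∈ JJ s Λ) : ∃ r : Pw (VI I), j - r * rel s k ∈ JJ s (Λ \ {k}) := by
  obtain ⟨r, hr⟩ := JJ_decomp hs {k} hj
  exact ⟨r k, by simpa using hr⟩

end Pool.Agent.P.MP_0279ce_an.Comm
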