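import Mathlib

/-! The Banach algebra of absolutely summable power series in a set of commuting variables. -/

namespace Pool.Agent.P.MP_0279ce_an.Comm

open MvPolynomial Filter
open scoped Topology

variable {V : Type}

/-- The sum of the moduli of the coefficients. -/
noncomputable def nrm (p : MvPolynomial V ℂ) : ℝ := ∑ m ∈ p.support, ‖coeff m p‖

lemma nrm_eq {p : MvPolynomial V ℂ} {S : Finset (V →₀ ℕ)} (h : p.support ⊆ S) :
    nrm p = ∑ m ∈ S, ‖coeff m p‖ :=
  Finset.sum_subset h fun m _ hm => by rw [notMem_support_iff.1 hm, norm_zero]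

lemma nrm_add_le (p q : MvPolynomial V ℂ) : nrm (p + q) ≤ nrm p + nrm q := by
  classical
  rw [nrm_eq (p := p + q) (S := p.support ∪ q.support) support_add,
    nrm_eq (p := p) (S := p.support ∪ q.support) Finset.subset_union_left,
    nrm_eq (p := q) (S := p.support ∪ q.support) Finset.subset_union_right,
    ← Finset.sum_add_distrib]
  exact Finset.sum_le_sum fun m _ => by rw [coeff_add]; exact norm_add_le _ _

lemma nrm_smul (c : ℂ) (p : MvPolynomial V ℂ) : nrm (c • p) = ‖c‖ * nrm p := by
  rw [nrm_eq (p := c • p) (S := p.support) support_smul, nrm, Finset.mul_sum]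
  exact Finset.sum_congr rfl fun m _ => by rw [coeff_smul, norm_smul]

lemma nrm_neg (p : MvPolynomial V ℂ) : nrm (-p) = nrm p := by
  rw [← neg_one_smul ℂ p, nrm_smul]; simp

lemma nrm_monomial (m : V →₀ ℕ) : nrm (monomial m (1 : ℂ)) = 1 := by
  classical
  rw [nrm_eq (S := {m}) support_monomial_subset]
  simp

lemma bound_of_monomial {Y : Type} [SeminormedAddCommGroup Y] [NormedSpace ℂ Y]
    (T : MvPolynomial V ℂ →ₗ[ℂ] Y) {C : ℝ} (h : ∀ m, ‖T (monomial m 1)‖ ≤ C)
    (p : MvPolynomial V ℂ) : ‖T p‖ ≤ C * nrm p := by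
  conv_lhs => rw [p.as_sum]
  rw [map_sum, nrm, Finset.mul_sum]
  refine norm_sum_le_of_le _ fun m _ => ?_
  rw [show monomial m (coeff m p) = coeff m p • monomial m (1 : ℂ) by
    rw [smul_monomial, smul_eq_mul, mul_one], map_smul, norm_smul, mul_comm]
  exact mul_le_mul_of_nonneg_right (h m) (norm_nonneg _)

/-- Polynomials with the norm `nrm`. -/
def L1P (V : Type) : Type := MvPolynomial V ℂ

noncomputable instance : CommRing (L1P V) := inferInstanceAs (CommRing (MvPolynomial V ℂ))
noncomputable instance : Algebra ℂ (L1P V) := inferInstanceAs (Algebra ℂ (MvPolynomial V ℂ))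

/-- The norm as a group seminorm. -/
noncomputable def nrmS : AddGroupSeminorm (L1P V) where
  toFun := nrm
  map_zero' := by
    change nrm (0 : MvPolynomial V ℂ) = 0
    simp [nrm]
  add_le' := nrm_add_le
  neg' p := nrm_neg p

noncomputable instance : SeminormedAddCommGroup (L1P V) := nrmS.toSeminormedAddCommGroup

noncomputable instance : NormedSpace ℂ (L1P V) where
  norm_smul_le c p := (nrm_smul c p).le

lemma nrm_mul_le (p q : MvPolynomial V ℂ) : nrm (p * q) ≤ nrm p * nrm q := by
  have h1 : ∀ m, nrm (monomial m (1 : ℂ) * q) ≤ nrm q := by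
    intro m
    have := bound_of_monomial (Y := L1P V) (LinearMap.mulLeft ℂ (monomial m (1 : ℂ))) (C := 1)
      (fun m' => by
        change nrm (monomial m (1 : ℂ) * monomial m' 1) ≤ 1
        rw [monomial_mul, mul_one, nrm_monomial]) q
    rw [one_mul] at this
    exact this
  have := bound_of_monomial (Y := L1P V) (LinearMap.mulRight ℂ q) h1 p
  rw [mul_comm (nrm q)] at this
  exact this

noncomputable instance : SeminormedCommRing (L1P V) where
  __ : SeminormedAddCommGroup (L1P V) := inferInstance
  __ : CommRing (L1P V) := inferInstance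
  norm_mul_le := nrm_mul_le

noncomputable instance : NormedAlgebra ℂ (L1P V) where
  norm_smul_le c p := (nrm_smul c p).le

/-- Absolutely summable power series. -/
def Pw (V : Type) : Type := UniformSpace.Completion (L1P V)

noncomputable instance : NormedCommRing (Pw V) :=
  inferInstanceAs (NormedCommRing (UniformSpace.Completion (L1P V)))
noncomputable instance : NormedAlgebra ℂ (Pw V) :=
  inferInstanceAs (NormedAlgebra ℂ (UniformSpace.Completion (L1P V)))
instance : CompleteSpace (Pw V) :=
  inferInstanceAs (CompleteSpace (UniformSpace.Completion (L1P V)))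

/-- Polynomials as power series. -/
noncomputable def toP : MvPolynomial V ℂ →ₐ[ℂ] Pw V where
  toRingHom := (UniformSpace.Completion.coeRingHom : L1P V →+* UniformSpace.Completion (L1P V))
  commutes' _ := rfl

lemma norm_toP (p : MvPolynomial V ℂ) : ‖toP p‖ = nrm p :=
  UniformSpace.Completion.norm_coe (E := L1P V) p

lemma denseRange_toP : DenseRange (toP : MvPolynomial V ℂ → Pw V) :=
  UniformSpace.Completion.denseRange_coe (α := L1P V)

/-- Monomials. -/
noncomputable def mon (m : V →₀ ℕ) : Pw V := toP (monomial m 1)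

/-- Variables. -/
noncomputable def var (v : V) : Pw V := toP (X v)

lemma var_eq (v : V) : var v = mon (Finsupp.single v 1) := rfl

lemma mon_add (m m' : V →₀ ℕ) : mon (m + m') = mon m * mon m' := by
  rw [mon, mon, mon, ← map_mul, monomial_mul, mul_one]

lemma mon_zero : mon (0 : V →₀ ℕ) = 1 := by
  rw [mon]; exact map_one _

lemma norm_mon (m : V →₀ ℕ) : ‖mon m‖ = 1 := by rw [mon, norm_toP, nrm_monomial]

lemma norm_var (v : V) : ‖var v‖ = 1 := norm_mon _

instance : NormOneClass (Pw V) := ⟨by rw [← mon_zero, norm_mon]⟩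

lemma Pw.ind (S : Submodule ℂ (Pw V)) (hS : IsClosed (S : Set (Pw V))) (h : ∀ m, mon m ∈ S)
    (x : Pw V) : x ∈ S := by
  refine denseRange_toP.induction_on (p := fun x => x ∈ S) x hS fun p => ?_
  rw [p.as_sum, map_sum]
  refine S.sum_mem fun m _ => ?_
  rw [show monomial m (coeff m p) = coeff m p • monomial m (1 : ℂ) by
    rw [smul_monomial, smul_eq_mul, mul_one], map_smul]
  exact S.smul_mem _ (h m)

section Lin

variable {Y : Type} [NormedAddCommGroup Y] [NormedSpace ℂ Y]

lemma Pw.norm_le (T : Pw V →L[ℂ] Y) {C : ℝ} (h : ∀ m, ‖T (mon m)‖ ≤ C) (x : Pw V) :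
    ‖T x‖ ≤ C * ‖x‖ := by
  refine denseRange_toP.induction_on (p := fun x => ‖T x‖ ≤ C * ‖x‖) x
    (isClosed_le T.continuous.norm (continuous_const.mul continuous_norm)) fun p => ?_
  rw [norm_toP]
  exact bound_of_monomial (T.toLinearMap ∘ₗ toP.toLinearMap) h p

lemma Pw.ext {T T' : Pw V →L[ℂ] Y} (h : ∀ m, T (mon m) = T' (mon m)) : T = T' := by
  ext x
  have := Pw.norm_le (T - T') (C := 0) (fun m => by simp [h m]) x
  rw [zero_mul, norm_le_zero_iff] at this
  exact sub_eq_zero.1 this

variable [CompleteSpace Y]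

/-- The bounded operator with prescribed values on monomials. -/
noncomputable def lin (y : (V →₀ ℕ) → Y) : Pw V →L[ℂ] Y :=
  ((basisMonomials V ℂ).constr ℂ y).extendOfNorm toP.toLinearMap

lemma lin_mon {y : (V →₀ ℕ) → Y} {C : ℝ} (h : ∀ m, ‖y m‖ ≤ C) (m : V →₀ ℕ) :
    lin y (mon m) = y m := by
  have h1 : ∀ m, (basisMonomials V ℂ).constr ℂ y (monomial m 1) = y m := fun m => by
    have := (basisMonomials V ℂ).constr_basis ℂ y m
    rwa [coe_basisMonomials] at this
  have := LinearMap.extendOfNorm_eq (f := (basisMonomials V ℂ).constr ℂ y)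
    (e := toP.toLinearMap) denseRange_toP ⟨C, fun p => by
      change _ ≤ C * ‖toP p‖
      rw [norm_toP]
      exact bound_of_monomial _ (fun m => by rw [h1]; exact h m) p⟩ (monomial m 1)
  rw [h1] at this
  exact this

end Lin

/-- The closed unit ball. -/
abbrev Bl (A : Type) [NormedCommRing A] : Type := {x : A // ‖x‖ ≤ 1}

section Ev

variable {A : Type} [NormedCommRing A] [NormedAlgebra ℂ A] [NormOneClass A] [CompleteSpace A]

omit [CompleteSpace A] in
lemma norm_aeval_monomial (b : V → Bl A) (m : V →₀ ℕ) :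
    ‖aeval (fun v => (b v : A)) (monomial m (1 : ℂ))‖ ≤ 1 := by
  rw [aeval_monomial, map_one, one_mul, Finsupp.prod]
  refine (Finset.norm_prod_le _ _).trans (Finset.prod_le_one (fun _ _ => norm_nonneg _) ?_)
  exact fun v _ => (norm_pow_le _ _).trans (pow_le_one₀ (norm_nonneg _) (b v).2)

lemma lin_aeval (b : V → Bl A) (p : MvPolynomial V ℂ) :
    lin (fun m => aeval (fun v => (b v : A)) (monomial m (1 : ℂ))) (toP p) =
      aeval (fun v => (b v : A)) p := by
  conv_lhs => rw [p.as_sum]
  conv_rhs => rw [p.as_sum]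
  rw [map_sum, map_sum, map_sum]
  refine Finset.sum_congr rfl fun m _ => ?_
  rw [show monomial m (coeff m p) = coeff m p • monomial m (1 : ℂ) by
    rw [smul_monomial, smul_eq_mul, mul_one], map_smul, map_smul, map_smul]
  congr 1
  exact lin_mon (norm_aeval_monomial b) m

/-- Evaluation at a family of elements of the unit ball. -/
noncomputable def ev (b : V → Bl A) : Pw V →A[ℂ] A where
  toAlgHom := AlgHom.ofLinearMap
    (lin (fun m => aeval (fun v => (b v : A)) (monomial m (1 : ℂ)))).toLinearMap
    (by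
      change lin _ 1 = 1
      rw [← map_one (toP (V := V)), lin_aeval, map_one])
    (fun x y => by
      change lin _ (x * y) = lin _ x * lin _ y
      refine denseRange_toP.induction_on₂ (p := fun x y =>
        lin (fun m => aeval (fun v => (b v : A)) (monomial m (1 : ℂ))) (x * y) =
          lin (fun m => aeval (fun v => (b v : A)) (monomial m (1 : ℂ))) x *
          lin (fun m => aeval (fun v => (b v : A)) (monomial m (1 : ℂ))) y)
        (isClosed_eq (by fun_prop) (by fun_prop)) (fun p q => ?_) x y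
      rw [← map_mul, lin_aeval, lin_aeval, lin_aeval, map_mul])
  cont := (lin _).continuous

lemma ev_toP (b : V → Bl A) (p : MvPolynomial V ℂ) :
    ev b (toP p) = aeval (fun v => (b v : A)) p := lin_aeval b p

lemma ev_var (b : V → Bl A) (v : V) : ev b (var v) = b v := by
  rw [var, ev_toP, aeval_X]

lemma ev_mon (b : V → Bl A) (m : V →₀ ℕ) : ev b (mon m) = m.prod fun v k => (b v : A) ^ k := by
  rw [mon, ev_toP, aeval_monomial, map_one, one_mul]

lemma norm_ev_le (b : V → Bl A) (x : Pw V) : ‖ev b x‖ ≤ ‖x‖ := by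
  have := Pw.norm_le (ev b).toContinuousLinearMap (C := 1) (fun m => by
    change ‖ev b (toP _)‖ ≤ 1
    rw [ev_toP]; exact norm_aeval_monomial b m) x
  rw [one_mul] at this
  exact this

end Ev

lemma hom_ext {A : Type} [NormedCommRing A] [NormedAlgebra ℂ A] {f g : Pw V →A[ℂ] A}
    (h : ∀ v, f (var v) = g (var v)) : f = g := by
  have h1 : f.toAlgHom.comp toP = g.toAlgHom.comp toP := MvPolynomial.algHom_ext h
  ext x
  exact denseRange_toP.induction_on (p := fun x => f x = g x) x
    (isClosed_eq f.continuous g.continuous) fun p => DFunLike.congr_fun h1 p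

open Cardinal in
lemma mk_Pw_le (hV : #V ≤ 𝔠) : #(Pw V) ≤ 𝔠 := by
  have h1 : #(MvPolynomial V ℂ) ≤ 𝔠 := by
    refine MvPolynomial.cardinalMk_le_max.trans ?_
    simp [hV, aleph0_le_continuum]
  have h2 : ∀ x : Pw V, ∃ u : ℕ → MvPolynomial V ℂ, Tendsto (fun n => toP (u n)) atTop (𝓝 x) := by
    intro x
    obtain ⟨w, hw, hlim⟩ := mem_closure_iff_seq_limit.1 (denseRange_toP x)
    choose u hu using hw
    exact ⟨u, by simpa [hu] using hlim⟩
  choose u hu using h2
  have hinj : Function.Injective u := fun x y hxy =>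
    tendsto_nhds_unique (hu x) (hxy ▸ hu y)
  refine (mk_le_of_injective hinj).trans ?_
  rw [mk_arrow]
  simp only [lift_id, mk_nat]
  calc #(MvPolynomial V ℂ) ^ ℵ₀ ≤ 𝔠 ^ ℵ₀ := power_le_power_right h1
    _ = 𝔠 := by simp

end Pool.Agent.P.MP_0279ce_an.Comm
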