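import Pool.Agent.P.MP_0279ce_an.CLim
import Pool.Agent.P.MP_0279ce_an.CBase

/-! The transfinite construction of the relations. -/

namespace Pool.Agent.P.MP_0279ce_an.Comm

open MvPolynomial Filter
open scoped Topology

variable {I : Type}

lemma s_mem_WJ {s : I → Pw (VI I)} {Λ : Set I} {k : I} (hk : k ∈ Λ) : s k ∈ WJ s Λ := by
  have : s k = mon (pr k) - rel s k := by rw [rel]; ring
  rw [this, mon_pr]
  exact Submodule.sub_mem _ (mem_WJ_of_Wsp (mul_mem_Wsp (phi_var _) (phi_var _)))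
    (mem_WJ_of_JJ (rel_mem_JJ hk))

theorem exists_tower [LinearOrder I] [WellFoundedLT I] [OrderTop I]
    (hcof : ∀ S : Set I, S.Countable → (∀ k ∈ S, k < ⊤) → ∃ a < ⊤, ∀ k ∈ S, k < a)
    (e : I → Pw (VI I)) (he : ∀ x, ∀ a < ⊤, ∃ i, a ≤ i ∧ i < ⊤ ∧ e i = x) :
    ∃ s : I → Pw (VI I), Tow s ∧ s ⊤ = zz I ∧
      zz I ∉ WJ s (Set.Iio ⊤) ∧ ∀ x, phi x = 0 → On (bel ⊤) x → x ∈ WJ s Set.univ := by
  classical
  let Cd : (I → Pw (VI I)) → I → Prop := fun s i => ‖e i‖ ≤ 1 / 3 ∧ phi (e i) = 0 ∧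
    On (bel i) (e i) ∧ ∀ c : ℂ, zz I + c • e i ∉ WJ s (Set.Iio i)
  obtain ⟨s, hs⟩ := exists_fix (wellFounded_lt (α := I))
    (fun s k => if k = ⊤ then zz I else if Cd s k then e k else 0) (by
    intro k s s' h
    have h1 : Cd s k ↔ Cd s' k := by
      simp only [Cd]
      rw [WJ_congr (Λ := Set.Iio k) h]
    simp only [h1])
  have hs1 : s ⊤ = zz I := by rw [hs, if_pos rfl]
  have hs2 : ∀ i < ⊤, s i = if Cd s i then e i else 0 := fun i hi => by rw [hs, if_neg hi.ne]
  have hT : Tow s := by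
    have : ∀ k, ‖s k‖ ≤ 1 / 3 ∧ phi (s k) = 0 ∧ On (bel k) (s k) := by
      intro k
      rcases eq_or_lt_of_le (le_top (a := k)) with rfl | hk
      · rw [hs1]
        exact ⟨norm_zz_le, phi_zz, On_zz.mono (by rintro _ ⟨n, rfl⟩; exact inl_mem_bel n _)⟩
      · rw [hs2 k hk]
        split_ifs with h
        · exact ⟨h.1, h.2.1, h.2.2.1⟩
        · exact ⟨by simp, map_zero _, On_zero _⟩
    exact ⟨fun k => (this k).1, fun k => (this k).2.1, fun k => (this k).2.2⟩
  have hH : ∀ k : I, zz I ∉ WJ s (Set.Iio k) := by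
    intro k
    induction k using WellFoundedLT.induction with
    | _ k ih =>
      intro hz
      by_cases hne : (Set.Iio k).Nonempty
      · by_cases hmax : ∀ j ∈ Set.Iio k, ∃ i ∈ Set.Iio k, j < i
        · obtain ⟨β, hβ, h⟩ := hT.limit hne hmax On_zz phi_zz hz
          exact ih β hβ h
        · push Not at hmax
          obtain ⟨j, hj, hjmax⟩ := hmax
          have hj' : j < k := hj
          obtain ⟨c, hc⟩ := hT.succ j hz
          have h1 : Set.Iio k \ {j} = Set.Iio j := by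
            ext i
            exact ⟨fun h => lt_of_le_of_ne (hjmax i h.1) h.2,
              fun h => ⟨lt_trans (show i < j from h) hj', ne_of_lt h⟩⟩
          rw [h1, hs2 j (hj'.trans_le le_top)] at hc
          split_ifs at hc with h
          · exact h.2.2.2 c hc
          · rw [smul_zero, add_zero] at hc
            exact ih _ hj hc
      · rw [Set.not_nonempty_iff_eq_empty.1 hne] at hz
        obtain ⟨w, hw, j, hj, h⟩ := Submodule.mem_sup.1 hz
        have h1 : j = 0 := map_JJ_zero (ContinuousAlgHom.id ℂ _) (fun _ h => h.elim) hj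
        rw [h1, add_zero] at h
        exact zz_notMem (h ▸ hw)
  refine ⟨s, hT, hs1, hH ⊤, fun x hx0 hx => ?_⟩
  obtain ⟨S, hS, hxS⟩ := exists_countable x
  obtain ⟨a, haT, ha⟩ := hcof {i | i < ⊤ ∧ ∃ c, Sum.inr (i, c) ∈ S} (by
    have h1 : ∀ c, {i : I | Sum.inr (i, c) ∈ S}.Countable := fun c =>
      hS.preimage_of_injOn (f := fun i : I => (Sum.inr (i, c) : VI I))
        fun i _ j _ h => (Prod.mk.inj (Sum.inr.inj h)).1
    refine (Set.countable_iUnion h1).mono ?_
    rintro i ⟨-, c, hc⟩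
    exact Set.mem_iUnion.2 ⟨c, hc⟩) fun k hk => hk.1
  have hxa : On (bel a) x := (hxS.inter hx).mono (by
    rintro (n | ⟨k, c⟩) ⟨h1, h2⟩
    · exact inl_mem_bel n _
    · exact inr_mem_bel.2 (ha k ⟨inr_mem_bel.1 h2, c, h1⟩))
  let t : ℝ := (3 * (‖x‖ + 1))⁻¹
  have ht : 0 < t := by positivity
  have ht' : (t : ℂ) ≠ 0 := by exact_mod_cast ht.ne'
  obtain ⟨i, hai, hiT, hi⟩ := he ((t : ℂ) • x) a haT
  rw [← Submodule.smul_mem_iff _ ht', ← hi]
  by_cases hC : Cd s i
  · have := s_mem_WJ (s := s) (Set.mem_univ i)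
    rwa [hs2 i hiT, if_pos hC] at this
  · have h1 : ∃ c : ℂ, zz I + c • e i ∈ WJ s (Set.Iio i) := by
      by_contra hcon
      push Not at hcon
      refine hC ⟨?_, by rw [hi, map_smul, hx0, smul_zero], ?_, hcon⟩
      · rw [hi, norm_smul, Complex.norm_real, Real.norm_of_nonneg ht.le,
          inv_mul_le_iff₀ (by positivity)]
        linarith
      · rw [hi]
        exact (hxa.mono (bel_mono hai)).smul _
    obtain ⟨c, hc⟩ := h1
    have hc0 : c ≠ 0 := by
      rintro rfl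
      rw [zero_smul, add_zero] at hc
      exact hH _ hc
    have h2 := s_mem_WJ (s := s) (Set.mem_univ ⊤)
    rw [hs1] at h2
    rw [← Submodule.smul_mem_iff _ hc0]
    simpa using Submodule.sub_mem _ (WJ_mono (Set.subset_univ _) hc) h2

end Pool.Agent.P.MP_0279ce_an.Comm
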