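import Pool.Agent.P.MP_0279ce_an.Tri

/-! Every Banach algebra is a quotient of a semisimple one by an ideal that factors. -/

namespace Pool.Agent.P.MP_0279ce_an

open scoped Topology BoundedContinuousFunction
open Filter

section Abstract

variable {A : Type} [NonUnitalNormedRing A] [NormedSpace ℂ A] [IsScalarTower ℂ A A]
  [SMulCommClass ℂ A A] {B : Type} [NormedRing B] [NormedAlgebra ℂ B]

/-- Pairs `(a, g)` with `g n → ρ a`. -/
noncomputable def Cover (ρ : A →ₙₐ[ℂ] B) : NonUnitalSubalgebra ℂ (A × (ℕ →ᵇ B)) where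
  carrier := {x | Tendsto (fun n => x.2 n) atTop (𝓝 (ρ x.1))}
  add_mem' := fun {x y} hx hy => by
    change Tendsto (fun n => x.2 n + y.2 n) atTop (𝓝 (ρ (x.1 + y.1)))
    rw [map_add]; exact hx.add hy
  zero_mem' := by
    change Tendsto (fun _ => (0 : B)) atTop (𝓝 (ρ (0 : A)))
    rw [map_zero]; exact tendsto_const_nhds
  mul_mem' := fun {x y} hx hy => by
    change Tendsto (fun n => x.2 n * y.2 n) atTop (𝓝 (ρ (x.1 * y.1)))
    rw [map_mul]; exact hx.mul hy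
  smul_mem' := fun c x hx => by
    change Tendsto (fun n => c • x.2 n) atTop (𝓝 (ρ (c • x.1)))
    rw [map_smul]; exact hx.const_smul c

variable {ρ : A →ₙₐ[ℂ] B}

omit [IsScalarTower ℂ A A] [SMulCommClass ℂ A A] in
lemma mem_Cover {x : A × (ℕ →ᵇ B)} :
    x ∈ Cover ρ ↔ Tendsto (fun n => x.2 n) atTop (𝓝 (ρ x.1)) := Iff.rfl

omit [IsScalarTower ℂ A A] [SMulCommClass ℂ A A] in
lemma isClosed_Cover (hρ : ∀ a, ‖ρ a‖ ≤ 2 * ‖a‖) :
    IsClosed (Cover ρ : Set (A × (ℕ →ᵇ B))) := by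
  refine isClosed_of_closure_subset fun x hx => ?_
  rw [SetLike.mem_coe, mem_Cover, Metric.tendsto_atTop]
  intro ε hε
  obtain ⟨y, hy, hxy⟩ := Metric.mem_closure_iff.1 hx (ε / 4) (by positivity)
  rw [SetLike.mem_coe, mem_Cover, Metric.tendsto_atTop] at hy
  obtain ⟨N, hN⟩ := hy (ε / 4) (by positivity)
  refine ⟨N, fun n hn => ?_⟩
  rw [Prod.dist_eq] at hxy
  have h1 : dist (x.2 n) (y.2 n) < ε / 4 :=
    (BoundedContinuousFunction.dist_coe_le_dist n).trans_lt ((le_max_right _ _).trans_lt hxy)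
  have h2 : dist (ρ y.1) (ρ x.1) ≤ 2 * (ε / 4) := by
    have h3 : dist x.1 y.1 < ε / 4 := (le_max_left _ _).trans_lt hxy
    rw [dist_eq_norm, ← map_sub]
    refine (hρ _).trans ?_
    rw [← dist_eq_norm, dist_comm]
    linarith
  have h5 := hN n hn
  calc dist (x.2 n) (ρ x.1) ≤ dist (x.2 n) (y.2 n) + dist (y.2 n) (ρ y.1) +
        dist (ρ y.1) (ρ x.1) := dist_triangle4 _ _ _ _
    _ < ε := by linarith

noncomputable instance : NonUnitalNormedRing (Cover ρ) :=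
  NonUnitalSubalgebra.nonUnitalNormedRing (Cover ρ)

noncomputable instance : NormedSpace ℂ (Cover ρ) :=
  Submodule.normedSpace (Cover ρ).toSubmodule

variable (ρ) in
/-- The constant section. -/
noncomputable def sec : A →ₗ[ℂ] Cover ρ where
  toFun a := ⟨(a, BoundedContinuousFunction.const ℕ (ρ a)), tendsto_const_nhds⟩
  map_add' a b := by
    refine Subtype.ext (Prod.ext rfl ?_)
    ext1 n
    exact map_add ρ a b
  map_smul' c a := by
    refine Subtype.ext (Prod.ext rfl ?_)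
    ext1 n
    exact map_smul ρ c a

omit [IsScalarTower ℂ A A] [SMulCommClass ℂ A A] in
lemma sec_mul (a b : A) : sec ρ (a * b) = sec ρ a * sec ρ b := by
  refine Subtype.ext (Prod.ext rfl ?_)
  ext1 n
  exact map_mul ρ a b

omit [IsScalarTower ℂ A A] [SMulCommClass ℂ A A] in
lemma norm_sec_le (hρ : ∀ a, ‖ρ a‖ ≤ 2 * ‖a‖) (a : A) : ‖sec ρ a‖ ≤ 2 * ‖a‖ := by
  change max ‖a‖ ‖BoundedContinuousFunction.const ℕ (ρ a)‖ ≤ _
  refine max_le (by linarith [norm_nonneg a]) ?_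
  exact (BoundedContinuousFunction.norm_const_le _).trans (hρ a)

variable (ρ) in
/-- A null sequence as an element of the cover. -/
noncomputable def ofNull (g : ℕ → B) (hg : Tendsto g atTop (𝓝 0)) : Cover ρ :=
  ⟨(0, BoundedContinuousFunction.ofNormedAddCommGroupDiscrete g
      (Classical.choose (hg.norm.bddAbove_range))
      (fun n => Classical.choose_spec (hg.norm.bddAbove_range) ⟨n, rfl⟩)), by
    rw [mem_Cover, map_zero]; exact hg⟩

omit [IsScalarTower ℂ A A] [SMulCommClass ℂ A A] in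
lemma ofNull_snd (g : ℕ → B) (hg : Tendsto g atTop (𝓝 0)) (n : ℕ) :
    (ofNull ρ g hg).1.2 n = g n := rfl

omit [IsScalarTower ℂ A A] [SMulCommClass ℂ A A] in
lemma null_factor (x : Cover ρ) (hx : x.1.1 = 0) : ∃ y z : Cover ρ, x = y * z := by
  have hg : Tendsto (fun n => x.1.2 n) atTop (𝓝 0) := by
    have := x.2
    rwa [mem_Cover, hx, map_zero] at this
  let t : ℕ → ℝ := fun n => Real.sqrt ‖x.1.2 n‖
  have ht : Tendsto t atTop (𝓝 0) := by
    have := (Real.continuous_sqrt.tendsto _).comp hg.norm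
    rw [norm_zero, Real.sqrt_zero] at this
    exact this
  have h1 : Tendsto (fun n => ((t n : ℝ) : ℂ) • (1 : B)) atTop (𝓝 0) := by
    have : Tendsto (fun n => ((t n : ℝ) : ℂ)) atTop (𝓝 0) :=
      (Complex.continuous_ofReal.tendsto 0).comp ht
    have h := this.smul_const (1 : B)
    rwa [zero_smul] at h
  have h2 : Tendsto (fun n => ((t n : ℝ) : ℂ)⁻¹ • x.1.2 n) atTop (𝓝 0) := by
    refine squeeze_zero_norm (fun n => le_of_eq ?_) ht
    rw [norm_smul, norm_inv, Complex.norm_real, Real.norm_of_nonneg (Real.sqrt_nonneg _)]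
    rw [inv_mul_eq_div]
    exact Real.div_sqrt
  refine ⟨ofNull ρ _ h1, ofNull ρ _ h2, Subtype.ext (Prod.ext ?_ ?_)⟩
  · change x.1.1 = (0 : A) * 0
    rw [hx, mul_zero]
  · ext1 n
    change x.1.2 n = (((t n : ℝ) : ℂ) • (1 : B)) * (((t n : ℝ) : ℂ)⁻¹ • x.1.2 n)
    by_cases h0 : x.1.2 n = 0
    · simp [h0]
    · have : ((t n : ℝ) : ℂ) ≠ 0 := by
        have : t n ≠ 0 := (Real.sqrt_pos.2 (norm_pos_iff.2 h0)).ne'
        exact_mod_cast this
      rw [smul_mul_smul_comm, mul_inv_cancel₀ this, one_mul, one_smul]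

omit [IsScalarTower ℂ A A] [SMulCommClass ℂ A A] in
lemma Cover.span_eq_top (h : Submodule.span ℂ {x : A | ∃ a b, x = a * b} = ⊤) :
    Submodule.span ℂ {x : Cover ρ | ∃ a b, x = a * b} = ⊤ := by
  rw [eq_top_iff]
  intro x _
  have h1 : x = sec ρ x.1.1 + (x - sec ρ x.1.1) := by abel
  rw [h1]
  refine Submodule.add_mem _ ?_ (Submodule.subset_span (null_factor _ (sub_self x.1.1)))
  have h2 := Submodule.mem_map_of_mem (f := sec ρ)
    (show x.1.1 ∈ Submodule.span ℂ {x : A | ∃ a b, x = a * b} by rw [h]; trivial)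
  rw [Submodule.map_span] at h2
  refine Submodule.span_mono ?_ h2
  rintro _ ⟨_, ⟨a, b, rfl⟩, rfl⟩
  exact ⟨sec ρ a, sec ρ b, sec_mul a b⟩

omit [IsScalarTower ℂ A A] [SMulCommClass ℂ A A] in
lemma Cover.not_S (hρ : ∀ a, ‖ρ a‖ ≤ 2 * ‖a‖)
    (hno : ∀ C : ℝ, ∃ x : A, ∀ (m : ℕ) (a b : Fin m → A), x = ∑ l, a l * b l →
      C * ‖x‖ < ∑ l, ‖a l‖ * ‖b l‖) (C : ℝ) :
    ∃ x : Cover ρ, ∀ (m : ℕ) (a b : Fin m → Cover ρ), x = ∑ l, a l * b l →
      C * ‖x‖ < ∑ l, ‖a l‖ * ‖b l‖ := by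
  obtain ⟨x, hx⟩ := hno (2 * |C|)
  refine ⟨sec ρ x, fun m a b hab => ?_⟩
  let π : Cover ρ →+ A :=
    { toFun := fun x => x.1.1
      map_zero' := rfl
      map_add' := fun _ _ => rfl }
  have h1 : x = ∑ l, (a l).1.1 * (b l).1.1 := by
    have := congrArg π hab
    rw [map_sum] at this
    exact this
  have h2 : C * ‖sec ρ x‖ ≤ 2 * |C| * ‖x‖ := by
    have := norm_sec_le hρ x
    calc C * ‖sec ρ x‖ ≤ |C| * ‖sec ρ x‖ := by gcongr; exact le_abs_self C
      _ ≤ |C| * (2 * ‖x‖) := by gcongr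
      _ = _ := by ring
  refine h2.trans_lt ((hx m _ _ h1).trans_le (Finset.sum_le_sum fun l _ => ?_))
  gcongr
  · exact norm_fst_le (a l).1
  · exact norm_fst_le (b l).1

variable (ρ) in
/-- Evaluation at the `n`-th coordinate. -/
noncomputable def evalAt (n : ℕ) : Cover ρ →ₙₐ[ℂ] B where
  toFun x := x.1.2 n
  map_smul' _ _ := rfl
  map_zero' := rfl
  map_add' _ _ := rfl
  map_mul' _ _ := rfl

theorem Cover.jacobson_eq_bot (hB : ∀ b : B, b ≠ 0 → ∃ R : B, ∀ z : B, z * R * b + z - 1 ≠ 0)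
    (hinj : ∀ (c : ℂ) (a : A), ρ a = - algebraMap ℂ B c → c = 0 ∧ a = 0) :
    Ring.jacobson (Unitization ℂ (Cover ρ)) = ⊥ := by
  rw [eq_bot_iff]
  intro u hu
  rw [← Ideal.jacobson_bot, Ideal.mem_jacobson_iff] at hu
  let ev : ℕ → Unitization ℂ (Cover ρ) →ₐ[ℂ] B := fun n => Unitization.lift (evalAt ρ n)
  have hev : ∀ n (v : Unitization ℂ (Cover ρ)),
      ev n v = algebraMap ℂ B v.fst + v.snd.1.2 n := fun n v => rfl
  have hz : ∀ n, ev n u = 0 := by
    intro n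
    by_contra hne
    obtain ⟨R, hR⟩ := hB _ hne
    have hnull : Tendsto (fun k => if k = n then R else 0) atTop (𝓝 0) := by
      refine tendsto_const_nhds.congr' ?_
      filter_upwards [eventually_gt_atTop n] with k hk
      rw [if_neg hk.ne']
    obtain ⟨z, hz⟩ := hu (Unitization.inr (ofNull ρ _ hnull))
    rw [Ideal.mem_bot] at hz
    have h1 := congrArg (ev n) hz
    have h2 : ev n (Unitization.inr (ofNull ρ _ hnull)) = R := by
      rw [hev]; simp [ofNull_snd]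
    rw [map_sub, map_add, map_mul, map_mul, h2, map_one, map_zero] at h1
    exact hR _ h1
  have hconst : ∀ n, u.snd.1.2 n = - algebraMap ℂ B u.fst := fun n => by
    have := hz n
    rw [hev] at this
    exact eq_neg_of_add_eq_zero_right this
  have hlim : ρ u.snd.1.1 = - algebraMap ℂ B u.fst := by
    have h := u.snd.2
    rw [mem_Cover] at h
    simp_rw [hconst] at h
    exact tendsto_nhds_unique h tendsto_const_nhds
  have h1 := hinj _ _ hlim
  rw [Ideal.mem_bot]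
  refine Unitization.ext h1.1 (Subtype.ext (Prod.ext h1.2 ?_))
  ext1 n
  rw [hconst n, h1.1]
  simp

end Abstract

section Concrete

lemma op_semisimple {X : Type} [NormedAddCommGroup X] [NormedSpace ℂ X] (b : X →L[ℂ] X)
    (hb : b ≠ 0) : ∃ R : X →L[ℂ] X, ∀ z : X →L[ℂ] X, z * R * b + z - 1 ≠ 0 := by
  obtain ⟨x, hx⟩ : ∃ x, b x ≠ 0 := by
    by_contra h
    push Not at h
    exact hb (ContinuousLinearMap.ext h)
  obtain ⟨φ, -, hφ⟩ := exists_dual_vector ℂ (b x) (norm_ne_zero_iff.2 hx)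
  have hn0 : ((‖b x‖ : ℝ) : ℂ) ≠ 0 := by exact_mod_cast norm_ne_zero_iff.2 hx
  let R : X →L[ℂ] X := φ.smulRight (-((‖b x‖ : ℝ) : ℂ)⁻¹ • x)
  have hR : R (b x) = -x := by
    change φ (b x) • (-((‖b x‖ : ℝ) : ℂ)⁻¹ • x) = -x
    rw [hφ, smul_smul]
    change (((‖b x‖ : ℝ) : ℂ) * _) • x = -x
    rw [mul_neg, mul_inv_cancel₀ hn0, neg_smul, one_smul]
  refine ⟨R, fun z hz => ?_⟩
  have h3 := congrArg (fun S : X →L[ℂ] X => S x) hz
  change z (R (b x)) + z x - x = 0 at h3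
  rw [hR, map_neg, neg_add_cancel, zero_sub, neg_eq_zero] at h3
  apply hx
  rw [h3, map_zero]

variable {A : Type} [NonUnitalNormedRing A] [NormedSpace ℂ A] [IsScalarTower ℂ A A]
  [SMulCommClass ℂ A A]

/-- The left regular representation on the unitization. -/
noncomputable def rhoFun (a : A) : (ℂ × A) →L[ℂ] (ℂ × A) :=
  (ContinuousLinearMap.inr ℂ ℂ A).comp
    ((ContinuousLinearMap.fst ℂ ℂ A).smulRight a +
      (ContinuousLinearMap.mul ℂ A a).comp (ContinuousLinearMap.snd ℂ ℂ A))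

lemma rhoFun_apply (a : A) (x : ℂ × A) : rhoFun a x = (0, x.1 • a + a * x.2) := rfl

variable (A) in
/-- The left regular representation as an algebra homomorphism. -/
noncomputable def rho : A →ₙₐ[ℂ] ((ℂ × A) →L[ℂ] (ℂ × A)) where
  toFun := rhoFun
  map_smul' c a := by
    refine ContinuousLinearMap.ext fun x => ?_
    change rhoFun (c • a) x = c • rhoFun a x
    simp [rhoFun_apply, smul_comm c x.1 a, smul_mul_assoc]
  map_zero' := by
    refine ContinuousLinearMap.ext fun x => ?_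
    simp [rhoFun_apply]
  map_add' a b := by
    refine ContinuousLinearMap.ext fun x => ?_
    change rhoFun (a + b) x = rhoFun a x + rhoFun b x
    simp only [rhoFun_apply, Prod.mk_add_mk, add_zero, smul_add, add_mul]
    congr 1
    abel
  map_mul' a b := by
    refine ContinuousLinearMap.ext fun x => ?_
    change rhoFun (a * b) x = rhoFun a (rhoFun b x)
    simp [rhoFun_apply, mul_add, mul_assoc, mul_smul_comm]

lemma norm_rho_le (a : A) : ‖rho A a‖ ≤ 2 * ‖a‖ := by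
  refine ContinuousLinearMap.opNorm_le_bound _ (by positivity) fun x => ?_
  change ‖rhoFun a x‖ ≤ _
  rw [rhoFun_apply, Prod.norm_mk, norm_zero, max_eq_right (norm_nonneg _)]
  have h1 : ‖x.1 • a‖ ≤ ‖x‖ * ‖a‖ := by
    rw [norm_smul]; gcongr; exact norm_fst_le x
  have h2 : ‖a * x.2‖ ≤ ‖a‖ * ‖x‖ := (norm_mul_le _ _).trans (by gcongr; exact norm_snd_le x)
  calc _ ≤ ‖x.1 • a‖ + ‖a * x.2‖ := norm_add_le _ _
    _ ≤ _ := by linarith

lemma rho_inj (c : ℂ) (a : A) (h : rho A a = - algebraMap ℂ ((ℂ × A) →L[ℂ] (ℂ × A)) c) :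
    c = 0 ∧ a = 0 := by
  have h1 := congrArg (fun S : (ℂ × A) →L[ℂ] (ℂ × A) => S (1, 0)) h
  change rhoFun a (1, 0) = -(c • ((1 : ℂ), (0 : A))) at h1
  simpa [rhoFun_apply] using h1

theorem exists_cover [CompleteSpace A]
    (htop : Submodule.span ℂ {x : A | ∃ a b, x = a * b} = ⊤)
    (hno : ∀ C : ℝ, ∃ x : A, ∀ (m : ℕ) (a b : Fin m → A), x = ∑ l, a l * b l →
      C * ‖x‖ < ∑ l, ‖a l‖ * ‖b l‖) :
    ∃ (A : Type) (_ : NonUnitalNormedRing A) (_ : NormedSpace ℂ A)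
    (_ : IsScalarTower ℂ A A) (_ : SMulCommClass ℂ A A) (_ : CompleteSpace A),
    Ring.jacobson (Unitization ℂ A) = ⊥ ∧
    Submodule.span ℂ {x : A | ∃ a b : A, x = a * b} = ⊤ ∧
    ¬ ∃ C : ℝ, ∀ x ∈ Submodule.span ℂ {x : A | ∃ a b : A, x = a * b},
      ∃ (n : ℕ) (a b : Fin n → A), x = ∑ i, a i * b i ∧ ∑ i, ‖a i‖ * ‖b i‖ ≤ C * ‖x‖ := by
  have htop' := Cover.span_eq_top (ρ := rho A) htop
  refine ⟨Cover (rho A), inferInstance, inferInstance, inferInstance, inferInstance,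
    (isClosed_Cover norm_rho_le).completeSpace_coe,
    Cover.jacobson_eq_bot op_semisimple rho_inj, htop', ?_⟩
  rintro ⟨C, hC⟩
  obtain ⟨x, hx⟩ := Cover.not_S (ρ := rho A) norm_rho_le hno C
  obtain ⟨n, a, b, h1, h2⟩ := hC x (by rw [htop']; trivial)
  exact absurd (hx n a b h1) (not_lt.2 h2)

end Concrete

theorem main : ∃ (A : Type) (_ : NonUnitalNormedRing A) (_ : NormedSpace ℂ A)
    (_ : IsScalarTower ℂ A A) (_ : SMulCommClass ℂ A A) (_ : CompleteSpace A),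
    Ring.jacobson (Unitization ℂ A) = ⊥ ∧
    Submodule.span ℂ {x : A | ∃ a b : A, x = a * b} = ⊤ ∧
    ¬ ∃ C : ℝ, ∀ x ∈ Submodule.span ℂ {x : A | ∃ a b : A, x = a * b},
      ∃ (n : ℕ) (a b : Fin n → A), x = ∑ i, a i * b i ∧ ∑ i, ‖a i‖ * ‖b i‖ ≤ C * ‖x‖ := by
  obtain ⟨T, hT, hsurj, hno⟩ := exists_bilin
  exact exists_cover (Tri.span_eq_top (hT := hT) hsurj) (Tri.not_S (hT := hT) hno)

end Pool.Agent.P.MP_0279ce_an
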