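import Pool.Agent.P.MP_0279ce_an.CFin

/-! A tower with the special relation at the bottom: every element of the quotient is a product. -/

namespace Pool.Agent.P.MP_0279ce_an.Comm

open MvPolynomial Filter
open scoped Topology

section Abstract

variable {P : Type} [NormedCommRing P] [NormedAlgebra ℂ P] {φ : P →A[ℂ] ℂ} {J : Ideal P}

theorem abstract' [CompleteSpace P] (hJ : IsClosed (J : Set P)) (hφ : ∀ j ∈ J, φ j = 0)
    (hsemi : ∀ y, (∀ χ : P →A[ℂ] ℂ, (∀ j ∈ J, χ j = 0) → χ y = 0) → y ∈ J)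
    (hfac : ∀ x, φ x = 0 → ∃ a b, φ a = 0 ∧ φ b = 0 ∧ x - a * b ∈ J) {K : ℝ} (hK : 0 ≤ K)
    (hS : ∀ ε : ℝ, 0 < ε → ∃ x, φ x = 0 ∧ ‖x‖ ≤ ε ∧
      ∀ (n : ℕ) (a b : Fin n → P), (∀ i, φ (a i) = 0) → (∀ i, φ (b i) = 0) →
        x - ∑ i, a i * b i ∈ J → 1 ≤ K * ∑ i, ‖a i‖ * ‖b i‖) :
    ∃ (A : Type) (_ : NonUnitalNormedCommRing A) (_ : NormedSpace ℂ A)
      (_ : IsScalarTower ℂ A A) (_ : SMulCommClass ℂ A A) (_ : CompleteSpace A),
      Ring.jacobson (Unitization ℂ A) = ⊥ ∧
      (∀ x : A, ∃ a b : A, x = a * b) ∧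
      ¬ ∃ C : ℝ, ∀ x ∈ Submodule.span ℂ {x : A | ∃ a b : A, x = a * b},
        ∃ (n : ℕ) (a b : Fin n → A), x = ∑ i, a i * b i ∧ ∑ i, ‖a i‖ * ‖b i‖ ≤ C * ‖x‖ := by
  have hcl : IsClosed (KerQ φ J : Set (P ⧸ J)) := by
    rw [← (QuotientRing.isOpenQuotientMap_mk J).isQuotientMap.isClosed_preimage]
    have : Ideal.Quotient.mk J ⁻¹' (KerQ φ J : Set (P ⧸ J)) = {y | φ y = 0} :=
      Set.ext fun y => mk_mem_KerQ hφ
    rw [this]
    exact isClosed_eq φ.continuous continuous_const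
  have hmem : ∀ y : KerQ φ J, ∃ a b : KerQ φ J, y = a * b := by
    rintro ⟨_, x, hx, rfl⟩
    obtain ⟨a, b, ha, hb, h⟩ := hfac x hx
    exact ⟨⟨_, a, ha, rfl⟩, ⟨_, b, hb, rfl⟩, Subtype.ext (Ideal.Quotient.eq.2 h)⟩
  refine ⟨KerQ φ J, inferInstance, ⟨fun c x => norm_smul_le c (x : P ⧸ J)⟩, inferInstance,
    inferInstance, hcl.completeSpace_coe, ?_, hmem, ?_⟩
  · rw [eq_bot_iff]
    intro x hx
    have h1 : ∀ f : Unitization ℂ (KerQ φ J) →ₐ[ℂ] ℂ, f x = 0 := fun f => by
      have := RingHom.ker_isMaximal_of_surjective f.toRingHom fun c => ⟨_, f.commutes c⟩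
      exact Ring.jacobson_le_of_isMaximal (RingHom.ker f.toRingHom) hx
    have h2 : x.fst = 0 := h1 (Unitization.fstHom ℂ _)
    obtain ⟨y, hy0, hy⟩ := x.snd.2
    have h3 : y ∈ J := hsemi y fun χ hχ => by
      have := h1 (Unitization.lift ((Ideal.Quotient.liftₐ J χ.toAlgHom hχ : (P ⧸ J) →ₙₐ[ℂ] ℂ).comp
        (NonUnitalSubalgebraClass.subtype (KerQ φ J))))
      change algebraMap ℂ ℂ x.fst + Ideal.Quotient.liftₐ J χ.toAlgHom hχ (x.snd : P ⧸ J) = 0 at this
      rwa [h2, map_zero, zero_add, ← hy] at this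
    have h4 : x.snd = 0 := Subtype.ext (hy.symm.trans (Ideal.Quotient.eq_zero_iff_mem.2 h3))
    exact Unitization.ext h2 h4
  · rintro ⟨C, hC⟩
    obtain ⟨x, hx0, hxε, hx⟩ := hS (1 / (2 * (K * |C| + 1))) (by positivity)
    obtain ⟨n, a, b, h1, h2⟩ := hC ⟨_, x, hx0, rfl⟩ (Submodule.subset_span (hmem _))
    have h3 : ∀ δ : ℝ, 0 < δ → 1 ≤ K * ∑ i, (‖a i‖ + δ) * (‖b i‖ + δ) := by
      intro δ hδ
      choose a' ha ha' using fun i => Ideal.Quotient.norm_mk_lt (a i : P ⧸ J) hδ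
      choose b' hb hb' using fun i => Ideal.Quotient.norm_mk_lt (b i : P ⧸ J) hδ
      refine (hx n a' b' (fun i => (mk_mem_KerQ hφ).1 (ha i ▸ (a i).2))
        (fun i => (mk_mem_KerQ hφ).1 (hb i ▸ (b i).2)) ?_).trans
        (mul_le_mul_of_nonneg_left (Finset.sum_le_sum fun i _ =>
          mul_le_mul (ha' i).le (hb' i).le (norm_nonneg _) (by positivity)) hK)
      rw [← Ideal.Quotient.eq, map_sum]
      have h4 := congrArg (NonUnitalSubalgebraClass.subtype (KerQ φ J)) h1
      rw [map_sum] at h4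
      refine h4.trans (Finset.sum_congr rfl fun i _ => ?_)
      rw [map_mul, map_mul, ha, hb]; rfl
    have h4 : 1 ≤ K * ∑ i, ‖a i‖ * ‖b i‖ := by
      have h5 : Continuous fun δ : ℝ => K * ∑ i, (‖a i‖ + δ) * (‖b i‖ + δ) := by fun_prop
      have h6 := ge_of_tendsto ((h5.tendsto 0).mono_left (nhdsWithin_le_nhds (s := Set.Ioi 0)))
        (eventually_nhdsWithin_of_forall h3)
      simpa using h6
    have h5 : ‖(⟨_, x, hx0, rfl⟩ : KerQ φ J)‖ ≤ 1 / (2 * (K * |C| + 1)) :=
      (Ideal.Quotient.norm_mk_le J x).trans hxε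
    have h6 : C * ‖(⟨_, x, hx0, rfl⟩ : KerQ φ J)‖ ≤ |C| * (1 / (2 * (K * |C| + 1))) :=
      mul_le_mul (le_abs_self C) h5 (norm_nonneg _) (abs_nonneg C)
    have h7 := h4.trans (mul_le_mul_of_nonneg_left (h2.trans h6) hK)
    rw [← mul_assoc, mul_one_div, le_div_iff₀ (by positivity)] at h7
    nlinarith [mul_nonneg hK (abs_nonneg C)]

end Abstract

variable {I : Type} {s : I → Pw (VI I)}

theorem exists_NF' [Nonempty I] (hs : ∀ k, ‖s k‖ ≤ 1 / 3) (Λ : Set I) :
    ∃ N : Pw (VI I) →L[ℂ] Pw (VI I), (∀ j ∈ JJ s Λ, N j = 0) ∧ ∀ x, N (PiR Λ x) = PiR Λ x := by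
  classical
  have hκ : ∀ m : VI I →₀ ℕ, ∃ k : I, ¬ Red Λ m → k ∈ Λ ∧ pr k ≤ m := by
    intro m
    by_cases h : Red Λ m
    · exact ⟨Classical.arbitrary I, fun h' => absurd h h'⟩
    · obtain ⟨k, hk⟩ := not_not.1 h
      exact ⟨k, fun _ => hk⟩
  choose κ hκ using hκ
  let T : Pw (VI I) →L[ℂ] Pw (VI I) :=
    lin fun m => if Red Λ m then 0 else mon (m - pr (κ m)) * s (κ m)
  have hTb : ∀ m : VI I →₀ ℕ,
      ‖(if Red Λ m then 0 else mon (m - pr (κ m)) * s (κ m) : Pw (VI I))‖ ≤ 1 / 3 := by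
    intro m
    split_ifs
    · simp
    · refine (norm_mul_le _ _).trans ?_
      rw [norm_mon, one_mul]; exact hs _
  have hT : ∀ m, T (mon m) = if Red Λ m then 0 else mon (m - pr (κ m)) * s (κ m) :=
    lin_mon hTb
  have hTn : ‖T‖ < 1 := by
    have : ‖T‖ ≤ 1 / 3 := T.opNorm_le_bound (by norm_num)
      (Pw.norm_le T fun m => by rw [hT]; exact hTb m)
    linarith
  let U : Pw (VI I) →L[ℂ] Pw (VI I) := ↑(Units.oneSub T hTn)⁻¹
  have hU1 : ∀ x, U x - T (U x) = x := fun x =>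
    DFunLike.congr_fun (Units.oneSub T hTn).mul_inv x
  have hU2 : ∀ x, U (x - T x) = x := fun x =>
    DFunLike.congr_fun (Units.oneSub T hTn).inv_mul x
  let N : Pw (VI I) →L[ℂ] Pw (VI I) := (PiR Λ).comp U
  have hN : ∀ x, N x = PiR Λ x + N (T x) := fun x => by
    have : N (x - T x) = PiR Λ x := by
      change PiR Λ (U (x - T x)) = _
      rw [hU2]
    rw [← this, map_sub, sub_add_cancel]
  have hNm : ∀ m, ¬ Red Λ m → N (mon m) = N (mon (m - pr (κ m)) * s (κ m)) := fun m hm => by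
    rw [hN, PiR_mon, hT, if_neg hm, if_neg hm, zero_add]
  have hrel : ∀ k, ‖rel s k‖ ≤ 4 / 3 := fun k => by
    have := norm_sub_le (mon (pr k)) (s k)
    rw [norm_mon] at this
    rw [rel]
    linarith [hs k, this]
  have hbd : ∀ n : ℕ, ∀ k ∈ Λ, ∀ x, ‖N (x * rel s k)‖ ≤ (‖N‖ * (4 / 3) * (2 / 3) ^ n) * ‖x‖ := by
    intro n
    induction n with
    | zero =>
      intro k _ x
      calc ‖N (x * rel s k)‖ ≤ ‖N‖ * (‖x‖ * (4 / 3)) :=
            (N.le_opNorm _).trans (by
              gcongr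
              exact (norm_mul_le _ _).trans (by gcongr; exact hrel k))
        _ = _ := by ring
    | succ n ih =>
      intro k hk x
      refine Pw.norm_le (N.comp ((ContinuousLinearMap.mul ℂ _).flip (rel s k))) (fun m => ?_) x
      change ‖N (mon m * rel s k)‖ ≤ _
      have hM : ¬ Red Λ (m + pr k) := not_not.2 ⟨k, hk, le_add_self⟩
      obtain ⟨hj, hjle⟩ := hκ _ hM
      have h1 : N (mon m * rel s k) =
          N (mon (m + pr k - pr (κ (m + pr k))) * s (κ (m + pr k))) - N (mon m * s k) := by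
        rw [rel, mul_sub, map_sub, ← mon_add, hNm _ hM]
      generalize κ (m + pr k) = j at hj hjle h1
      by_cases hjk : j = k
      · subst hjk
        rw [h1, add_tsub_cancel_right, sub_self, norm_zero]
        positivity
      · obtain ⟨m', rfl⟩ := exists_add_of_le (pr_le_of_ne hjk hjle)
        have h2 : pr j + m' + pr k - pr j = m' + pr k := by
          rw [add_assoc, add_tsub_cancel_left]
        have h3 : N (mon (pr j + m') * rel s k) =
            N (mon m' * s j * rel s k) - N (mon m' * s k * rel s j) := by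
          rw [h1, h2, ← map_sub, ← map_sub, mon_add, mon_add, rel, rel]
          congr 1
          ring
        have h4 : ∀ i, ‖mon m' * s i‖ ≤ 1 / 3 := fun i =>
          (norm_mul_le _ _).trans (by rw [norm_mon, one_mul]; exact hs i)
        have h5 := ih k hk (mon m' * s j)
        have h6 := ih j hj (mon m' * s k)
        have h7 : 0 ≤ ‖N‖ * (4 / 3) * (2 / 3 : ℝ) ^ n := by positivity
        rw [h3]
        refine (norm_sub_le _ _).trans ?_
        have h8 := mul_le_mul_of_nonneg_left (h4 j) h7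
        have h9 := mul_le_mul_of_nonneg_left (h4 k) h7
        calc _ ≤ ‖N‖ * (4 / 3) * (2 / 3) ^ n * (1 / 3) + ‖N‖ * (4 / 3) * (2 / 3) ^ n * (1 / 3) := by
              linarith
          _ = _ := by ring
  have hN0 : ∀ k ∈ Λ, ∀ x, N (x * rel s k) = 0 := by
    intro k hk x
    have h1 : Tendsto (fun n : ℕ => (‖N‖ * (4 / 3) * (2 / 3) ^ n) * ‖x‖) atTop (𝓝 0) := by
      simpa using ((tendsto_pow_atTop_nhds_zero_of_lt_one (r := (2 / 3 : ℝ)) (by norm_num)
        (by norm_num)).const_mul (‖N‖ * (4 / 3))).mul_const ‖x‖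
    exact norm_le_zero_iff.1 (ge_of_tendsto' h1 fun n => hbd n k hk x)
  refine ⟨N, fun j hj => ?_, fun x => ?_⟩
  · let K : Ideal (Pw (VI I)) :=
      { carrier := {j | ∀ x, N (x * j) = 0}
        add_mem' := fun ha hb x => by rw [mul_add, map_add, ha, hb, add_zero]
        zero_mem' := fun x => by simp
        smul_mem' := fun c a ha x => by rw [smul_eq_mul, ← mul_assoc]; exact ha _ }
    have hK : IsClosed (K : Set (Pw (VI I))) := by
      change IsClosed {j | ∀ x, N (x * j) = 0}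
      simp only [Set.ofPred_forall]
      exact isClosed_iInter fun x => isClosed_eq (by fun_prop) continuous_const
    simpa using JJ_le hK hN0 hj 1
  · have : T.comp (PiR Λ) = 0 := Pw.ext fun m => by
      rw [ContinuousLinearMap.comp_apply, PiR_mon]
      split_ifs with h
      · rw [hT, if_pos h]; rfl
      · rw [map_zero]; rfl
    rw [hN, PiR_PiR, show T (PiR Λ x) = 0 from DFunLike.congr_fun this x, map_zero, add_zero]

open Classical in
lemma rho_mon {V : Type} (S : Set V) (m : V →₀ ℕ) :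
    rho S (mon m) = if ∀ v ∈ m.support, v ∈ S then mon m else 0 := by
  conv_lhs => rw [mon_eq_prod, Finsupp.prod, map_prod]
  split_ifs with h
  · rw [mon_eq_prod, Finsupp.prod]
    exact Finset.prod_congr rfl fun v hv => by rw [map_pow, rho_var_of_mem (h v hv)]
  · push Not at h
    obtain ⟨v, hv, h⟩ := h
    exact Finset.prod_eq_zero hv (by
      rw [map_pow, rho_var_of_notMem h, zero_pow (Finsupp.mem_support_iff.1 hv)])

lemma cf_rho {V : Type} {S : Set V} {μ : V →₀ ℕ} (h : ∀ v ∈ μ.support, v ∈ S) (x : Pw V) :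
    cf μ (rho S x) = cf μ x := by
  have : (cf μ).comp (rho S).toContinuousLinearMap = cf μ := Pw.ext fun m => by
    change cf μ (rho S (mon m)) = _
    rw [rho_mon]
    split_ifs with h1
    · rfl
    · rw [map_zero, cf_mon, if_neg]
      rintro rfl
      exact h1 h
  exact DFunLike.congr_fun this x

lemma PiR_mul {Λ : Set I} {S : Set (VI I)} (hS : ∀ k ∈ Λ, ∀ c, Sum.inr (k, c) ∉ S)
    (p : Pw (VI I)) {q : Pw (VI I)} (hq : On S q) : PiR Λ (p * q) = PiR Λ p * q := by
  have h1 : ∀ μ : VI I →₀ ℕ, (∀ v ∈ μ.support, v ∈ S) →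
      PiR Λ (p * mon μ) = PiR Λ p * mon μ := fun μ hμ => by
    have : (PiR Λ).comp ((ContinuousLinearMap.mul ℂ _).flip (mon μ)) =
        ((ContinuousLinearMap.mul ℂ _).flip (mon μ)).comp (PiR Λ) := Pw.ext fun m => by
      change PiR Λ (mon m * mon μ) = PiR Λ (mon m) * mon μ
      have h2 : Red Λ (m + μ) ↔ Red Λ m := not_congr (exists_congr fun k =>
        and_congr_right fun hk => by
          have h3 : ∀ c, μ (Sum.inr (k, c)) = 0 := fun c =>
            Finsupp.notMem_support_iff.1 fun h => hS k hk c (hμ _ h)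
          simp only [pr_le_iff, Finsupp.add_apply, h3, add_zero])
      rw [← mon_add, PiR_mon, PiR_mon]
      by_cases h : Red Λ m
      · rw [if_pos h, if_pos (h2.2 h), mon_add]
      · rw [if_neg h, if_neg (mt h2.1 h), zero_mul]
    exact DFunLike.congr_fun this p
  have : ((PiR Λ).comp (ContinuousLinearMap.mul ℂ _ p)).comp (rho S).toContinuousLinearMap =
      (ContinuousLinearMap.mul ℂ _ (PiR Λ p)).comp (rho S).toContinuousLinearMap :=
    Pw.ext fun m => by
      change PiR Λ (p * rho S (mon m)) = PiR Λ p * rho S (mon m)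
      rw [rho_mon]
      split_ifs with h
      · exact h1 m h
      · simp
  have h2 : PiR Λ (p * rho S q) = PiR Λ p * rho S q := DFunLike.congr_fun this q
  rwa [hq] at h2

theorem exists_tower' [LinearOrder I] [WellFoundedLT I] (o : I)
    (hcof : ∀ S : Set I, S.Countable → ∃ a, ∀ k ∈ S, k < a)
    (e : I → Pw (VI I)) (he : ∀ x a, ∃ i, a ≤ i ∧ e i = x) :
    ∃ s : I → Pw (VI I), Tow s ∧ s o = 0 ∧ zz I ∉ WJ s Set.univ ∧ ∀ x, phi x = 0 →
      ∃ i, i ≠ o ∧ ∃ t d : ℂ, t ≠ 0 ∧ s i = t • (x + d • (mon (pr o) - zz I)) := by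
  classical
  let Gd : Submodule ℂ (Pw (VI I)) → I → Pw (VI I) → Prop := fun W i y => ‖y‖ ≤ 1 / 3 ∧
    phi y = 0 ∧ On (bel i) y ∧ (∀ c : ℂ, zz I + c • y ∉ W) ∧ i ≠ o ∧
      ∃ t d : ℂ, t ≠ 0 ∧ y = t • (e i + d • (mon (pr o) - zz I))
  let G : Submodule ℂ (Pw (VI I)) → I → Pw (VI I) := fun W i =>
    if h : ∃ y, Gd W i y then h.choose else 0
  obtain ⟨s, hs⟩ := exists_fix (wellFounded_lt (α := I)) (fun s k => G (WJ s (Set.Iio k)) k)
    (fun k s s' h => by rw [WJ_congr (Λ := Set.Iio k) h])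
  have hs1 : ∀ i, (∃ y, Gd (WJ s (Set.Iio i)) i y) → Gd (WJ s (Set.Iio i)) i (s i) := fun i h => by
    rw [hs i]
    simp only [G, dif_pos h]
    exact h.choose_spec
  have hs2 : ∀ i, Gd (WJ s (Set.Iio i)) i (s i) ∨ s i = 0 := fun i => by
    by_cases h : ∃ y, Gd (WJ s (Set.Iio i)) i y
    · exact Or.inl (hs1 i h)
    · exact Or.inr ((hs i).trans (dif_neg h))
  have hT : Tow s := by
    have : ∀ k, ‖s k‖ ≤ 1 / 3 ∧ phi (s k) = 0 ∧ On (bel k) (s k) := fun k => by
      rcases hs2 k with h | h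
      · exact ⟨h.1, h.2.1, h.2.2.1⟩
      · rw [h]
        exact ⟨by simp, map_zero _, On_zero _⟩
    exact ⟨fun k => (this k).1, fun k => (this k).2.1, fun k => (this k).2.2⟩
  have hH : ∀ k : I, zz I ∉ WJ s (Set.Iio k) := by
    intro k
    induction k using WellFoundedLT.induction with
    | _ k ih =>
      intro hz
      by_cases hne : (Set.Iio k).Nonempty
      · by_cases hmax : ∀ j ∈ Set.Iio k, ∃ i ∈ Set.Iio k, j < i
        · obtain ⟨β, hβ, h⟩ := hT.limit hne hmax On_zz phi_zz hz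
          exact ih β hβ h
        · push Not at hmax
          obtain ⟨j, hj, hjmax⟩ := hmax
          have hj' : j < k := hj
          obtain ⟨c, hc⟩ := hT.succ j hz
          have h1 : Set.Iio k \ {j} = Set.Iio j := by
            ext i
            exact ⟨fun h => lt_of_le_of_ne (hjmax i h.1) h.2,
              fun h => ⟨lt_trans (show i < j from h) hj', ne_of_lt h⟩⟩
          rw [h1] at hc
          rcases hs2 j with h | h
          · exact h.2.2.2.1 c hc
          · rw [h, smul_zero, add_zero] at hc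
            exact ih _ hj hc
      · rw [Set.not_nonempty_iff_eq_empty.1 hne] at hz
        obtain ⟨w, hw, j, hj, h⟩ := Submodule.mem_sup.1 hz
        have h1 : j = 0 := map_JJ_zero (ContinuousAlgHom.id ℂ _) (fun _ h => h.elim) hj
        rw [h1, add_zero] at h
        exact zz_notMem (h ▸ hw)
  refine ⟨s, hT, (hs2 o).resolve_left fun h => h.2.2.2.2.1 rfl, fun h => ?_, fun x hx0 => ?_⟩
  · obtain ⟨β, -, h1⟩ := hT.limit (Λ := Set.univ) ⟨o, trivial⟩ (fun k _ => by
      obtain ⟨a, ha⟩ := hcof {k} (Set.countable_singleton k)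
      exact ⟨a, trivial, ha k rfl⟩) On_zz phi_zz h
    exact hH β h1
  obtain ⟨S, hS, hxS⟩ := exists_countable x
  obtain ⟨a, ha⟩ := hcof (insert o {i | ∃ c, Sum.inr (i, c) ∈ S}) (by
    have h1 : ∀ c, {i : I | Sum.inr (i, c) ∈ S}.Countable := fun c =>
      hS.preimage_of_injOn (f := fun i : I => (Sum.inr (i, c) : VI I))
        fun i _ j _ h => (Prod.mk.inj (Sum.inr.inj h)).1
    refine ((Set.countable_iUnion h1).mono ?_).insert o
    rintro i ⟨c, hc⟩
    exact Set.mem_iUnion.2 ⟨c, hc⟩)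
  obtain ⟨i, hai, hi⟩ := he x a
  have hoi : o < i := (ha o (Set.mem_insert _ _)).trans_le hai
  have hxi : On (bel i) x := hxS.mono (by
    rintro (n | ⟨k, c⟩) h1
    · exact inl_mem_bel n _
    · exact inr_mem_bel.2 ((ha k (Set.mem_insert_of_mem _ ⟨c, h1⟩)).trans_le hai))
  have hm : mon (pr o) ∈ Wsp (VI I) := by
    rw [mon_pr]; exact mul_mem_Wsp (phi_var _) (phi_var _)
  obtain ⟨d, hd⟩ : ∃ d : ℂ, ∀ c : ℂ,
      zz I + c • (x + d • (mon (pr o) - zz I)) ∉ WJ s (Set.Iio i) := by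
    by_cases h : ∀ c : ℂ, zz I + c • x ∉ WJ s (Set.Iio i)
    · exact ⟨0, by simpa using h⟩
    · push Not at h
      obtain ⟨c, hc⟩ := h
      have hc0 : c ≠ 0 := by
        rintro rfl
        rw [zero_smul, add_zero] at hc
        exact hH _ hc
      refine ⟨-c⁻¹, fun c' h => hH i ?_⟩
      have h1 : x + -c⁻¹ • (mon (pr o) - zz I) = c⁻¹ • (zz I + c • x) - c⁻¹ • mon (pr o) := by
        rw [smul_add, inv_smul_smul₀ hc0]; module
      rw [h1] at h
      simpa using Submodule.sub_mem _ h (Submodule.smul_mem _ c' (Submodule.sub_mem _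
        (Submodule.smul_mem _ c⁻¹ hc) (Submodule.smul_mem _ c⁻¹ (mem_WJ_of_Wsp hm))))
  have h0 : phi (x + d • (mon (pr o) - zz I)) = 0 := by
    rw [map_add, map_smul, map_sub, hx0, phi_zz, mon_pr, map_mul, phi_var]; simp
  have hOn : On (bel i) (x + d • (mon (pr o) - zz I)) := by
    rw [On, map_add, map_smul, map_sub, hxi, On_zz.mono (S' := bel i)
      (by rintro _ ⟨n, rfl⟩; exact inl_mem_bel n _), mon_pr, map_mul,
      rho_var_of_mem (inr_mem_bel.2 hoi), rho_var_of_mem (inr_mem_bel.2 hoi)]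
  rw [← hi] at hd h0 hOn ⊢
  generalize hy : e i + d • (mon (pr o) - zz I) = y at hd h0 hOn
  let t : ℝ := (3 * (‖y‖ + 1))⁻¹
  have ht : 0 < t := by positivity
  exact ⟨i, (hs1 i ⟨(t : ℂ) • y, by
      rw [norm_smul, Complex.norm_real, Real.norm_of_nonneg ht.le, inv_mul_le_iff₀ (by positivity)]
      linarith, by rw [map_smul, h0, smul_zero], hOn.smul _,
    fun c => by rw [smul_smul]; exact hd _, hoi.ne', t, d, by exact_mod_cast ht.ne',
    by rw [hy]⟩).2.2.2.2⟩

theorem main_fact : ∃ (A : Type) (_ : NonUnitalNormedCommRing A) (_ : NormedSpace ℂ A)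
      (_ : IsScalarTower ℂ A A) (_ : SMulCommClass ℂ A A) (_ : CompleteSpace A),
      Ring.jacobson (Unitization ℂ A) = ⊥ ∧ (∀ x : A, ∃ a b : A, x = a * b) ∧
      ¬ ∃ C : ℝ, ∀ x ∈ Submodule.span ℂ {x : A | ∃ a b : A, x = a * b},
        ∃ (n : ℕ) (a b : Fin n → A), x = ∑ i, a i * b i ∧ ∑ i, ‖a i‖ * ‖b i‖ ≤ C * ‖x‖ := by
  classical
  obtain ⟨e, he⟩ := Idx.exists_enum (mk_Pw_le (V := VI Idx) (by simp))
  let o : Idx := Classical.arbitrary Idx
  obtain ⟨s0, h1, h2, h3, h4⟩ := exists_tower' o (fun S hS => Idx.exists_gt hS) e he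
  let s := Function.update s0 o (zz Idx)
  have hso : s o = zz Idx := Function.update_self ..
  have hsk : ∀ k, k ≠ o → s k = s0 k := fun k hk => Function.update_of_ne hk ..
  have hs : Tow s := by
    have : ∀ k, ‖s k‖ ≤ 1 / 3 ∧ phi (s k) = 0 ∧ On (bel k) (s k) := fun k => by
      by_cases hk : k = o
      · rw [hk, hso]
        exact ⟨norm_zz_le, phi_zz, On_zz.mono (by rintro _ ⟨n, rfl⟩; exact inl_mem_bel n _)⟩
      · rw [hsk k hk]
        exact ⟨h1.norm_le k, h1.phi_eq k, h1.on k⟩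
    exact ⟨fun k => (this k).1, fun k => (this k).2.1, fun k => (this k).2.2⟩
  have hH : zz Idx ∉ WJ s (Set.univ \ {o}) := fun h =>
    h3 (WJ_mono (Set.subset_univ _) (WJ_congr (Λ := Set.univ \ {o}) (fun k hk => hsk k hk.2) ▸ h))
  obtain ⟨N, hN1, hN2⟩ := exists_NF' hs.norm_le (Set.univ \ {o})
  obtain ⟨N', -, hN3, hN4⟩ := exists_NF hs.norm_le (Set.univ \ {o})
  refine abstract' (φ := phi) (J := JJ s Set.univ) isClosed_JJ
    (fun j hj => map_JJ_zero phi (fun k _ => hs.phi_rel k) hj)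
    (fun y hy => hs.semisimple fun χ hχ => hy χ fun j hj => map_JJ_zero χ (fun k _ => hχ k) hj)
    (fun x hx => ?_) (norm_nonneg N) fun ε hε => ?_
  · obtain ⟨i, hi, t, d, ht, h⟩ := h4 x hx
    refine ⟨t⁻¹ • var (Sum.inr (i, true)), var (Sum.inr (i, false)),
      by rw [map_smul, phi_var, smul_zero], phi_var _, ?_⟩
    have h5 : x - t⁻¹ • var (Sum.inr (i, true)) * var (Sum.inr (i, false)) =
        -(t⁻¹ • rel s i) - d • rel s o := by
      rw [rel_eq i, hsk i hi, h, rel, hso, smul_sub, inv_smul_smul₀ ht, smul_mul_assoc]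
      abel
    rw [h5]
    exact Submodule.sub_mem _ (Submodule.neg_mem _ (Submodule.smul_of_tower_mem _ _
      (rel_mem_JJ trivial))) (Submodule.smul_of_tower_mem _ _ (rel_mem_JJ trivial))
  · have h1 : Tendsto (fun N => zz Idx - ∑ n ∈ Finset.range N, zt Idx n) atTop (𝓝 0) := by
      simpa [zz] using (summable_zt (I := Idx)).hasSum.tendsto_sum_nat.const_sub (zz Idx)
    obtain ⟨M, hM⟩ := ((Metric.tendsto_nhds.1 h1) ε hε).exists
    have h2 : ∑ n ∈ Finset.range M, zt Idx n ∈ Wsp _ := Submodule.sum_mem _ fun n _ => zt_mem n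
    have h3 : phi (∑ n ∈ Finset.range M, zt Idx n) = 0 := by rw [map_sum]; simp [phi_zt]
    have h4 : On (Set.range Sum.inl) (∑ n ∈ Finset.range M, zt Idx n) := by
      rw [On, map_sum]
      exact Finset.sum_congr rfl fun n _ => On_zt n
    generalize ∑ n ∈ Finset.range M, zt Idx n = y at hM h2 h3 h4
    refine ⟨zz Idx - y, by rw [map_sub, phi_zz, h3, sub_zero], by simpa using hM.le,
      fun n a b ha hb hj => ?_⟩
    obtain ⟨r, hr⟩ := JJ_decomp_one hs.norm_le o hj
    have h6 : ∑ i, a i * b i ∈ Wsp _ := Submodule.sum_mem _ fun i _ => mul_mem_Wsp (ha i) (hb i)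
    have h7 : phi r = -1 := by
      by_contra hcon
      refine hH ?_
      rw [← Submodule.smul_mem_iff _ (fun h => hcon (eq_neg_of_add_eq_zero_right h) :
        1 + phi r ≠ 0)]
      have h8 : (1 + phi r) • zz Idx = (zz Idx - y - ∑ i, a i * b i - r * rel s o) +
          (y + ∑ i, a i * b i + (r * var (Sum.inr (o, true))) * var (Sum.inr (o, false)) -
            (r * zz Idx - phi r • zz Idx)) := by
        rw [rel_eq, hso, add_smul, one_smul]; ring
      rw [h8]
      refine Submodule.add_mem _ (mem_WJ_of_JJ hr) (mem_WJ_of_Wsp (Submodule.sub_mem _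
        (Submodule.add_mem _ (Submodule.add_mem _ h2 h6) (mul_mem_Wsp ?_ (phi_var _)))
        (mul_sub_mem_Wsp r phi_zz)))
      rw [map_mul, phi_var, mul_zero]
    obtain ⟨r', hr1, hr2⟩ := hN4 o r
    rw [hr1 fun h => h.2 rfl, zero_mul, sub_zero] at hr2
    have hr3 := JJ_mono Set.sdiff_subset hr2
    have hp : phi (N' r) = -1 := by
      have := map_JJ_zero phi (fun k _ => hs.phi_rel k) hr3
      rw [map_sub, h7] at this
      linear_combination -this
    have hred := hN3 r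
    generalize N' r = p at hr3 hp hred
    -- products of the reduced series with series in the base and bottom variables are reduced
    let S : Set (VI Idx) := {v | ∀ k, k ≠ o → ∀ c, v ≠ Sum.inr (k, c)}
    have hS : ∀ k ∈ Set.univ \ {o}, ∀ c, Sum.inr (k, c) ∉ S := fun k hk c h => h k hk.2 c rfl
    have hS1 : Set.range Sum.inl ⊆ S := by rintro _ ⟨n, rfl⟩ k _ c h; cases h
    have hS2 : ∀ c, Sum.inr (o, c) ∈ S := fun c k hk c' h =>
      hk (Prod.mk.inj (Sum.inr.inj h)).1.symm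
    have hfix : ∀ p q, PiR (Set.univ \ {o}) p = p → On S q → N (p * q) = p * q := fun p q hp hq => by
      have := hN2 (p * q)
      rwa [PiR_mul hS p hq, hp] at this
    have h1r : PiR (Set.univ \ {o}) (1 : Pw (VI Idx)) = 1 := by
      rw [← mon_zero, PiR_mon, if_pos]
      rintro ⟨k, -, h⟩
      simpa using (pr_le_iff.1 h).1
    have hz : ∀ p q, On (Set.range Sum.inl) q → phi q = 0 → cf (pr o) (p * q) = 0 :=
      fun p q hq hq0 => by
        rw [← cf_rho (S := (Set.range Sum.inl)ᶜ) (fun v hv => by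
          rintro ⟨n, rfl⟩
          simp [pr] at hv), map_mul, hq.congr (g := (cst _).comp phi) (by
            rintro _ ⟨m, rfl⟩
            rw [rho_var_of_notMem (Set.notMem_compl_iff.2 (Set.mem_range_self m))]
            change _ = cst _ (phi _)
            rw [phi_var, map_zero])]
        change cf _ (_ * cst _ (phi _)) = _
        rw [hq0, map_zero, mul_zero, map_zero]
    have h9 : N (1 * (zz Idx - y)) - N (∑ i, a i * b i) - N (p * rel s o) = 0 := by
      rw [← map_sub, ← map_sub]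
      refine hN1 _ ?_
      have := Ideal.add_mem _ hr (Ideal.mul_mem_right (rel s o) _ hr3)
      rwa [show zz Idx - y - ∑ i, a i * b i - r * rel s o + (r - p) * rel s o =
        1 * (zz Idx - y) - ∑ i, a i * b i - p * rel s o by ring] at this
    have hOn : On (Set.range Sum.inl) (zz Idx - y) := by rw [On, map_sub, On_zz, h4]
    rw [hfix _ _ h1r (hOn.mono hS1), hfix _ _ hred (by
      rw [On, rel_eq, hso, map_sub, map_mul, rho_var_of_mem (hS2 _), rho_var_of_mem (hS2 _),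
        On_zz.mono hS1])] at h9
    have h12 := congrArg (cf (pr o)) h9
    rw [map_sub, map_sub, hz _ _ hOn (by rw [map_sub, phi_zz, h3, sub_zero]), rel, hso, mul_sub,
      map_sub, cf_mul_mon, hp, hz _ _ On_zz phi_zz, map_zero] at h12
    calc (1 : ℝ) = ‖cf (pr o) (N (∑ i, a i * b i))‖ := by
          rw [show cf (pr o) (N (∑ i, a i * b i)) = 1 by linear_combination -h12, norm_one]
      _ ≤ ‖N‖ * ‖∑ i, a i * b i‖ := (norm_cf_le _ _).trans (N.le_opNorm _)
      _ ≤ _ := by gcongr; exact norm_sum_le_of_le _ fun i _ => norm_mul_le _ _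

end Pool.Agent.P.MP_0279ce_an.Comm
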