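import Pool.Agent.P.MP_0279ce_an.Bilin

/-! The transfinite recursion and the pathological bilinear map. -/

namespace Pool.Agent.P.MP_0279ce_an

open scoped Topology
open Filter

section Rec

variable {I : Type} [LinearOrder I] [WellFoundedLT I]

open Classical in
/-- One step of the recursion. -/
noncomputable def stepVal (e : I → L1 (I × I)) (n : I → ℕ) (i : I) (s : I → L1 (I × I)) :
    L1 (I × I) :=
  ((1 : ℂ) / ((n i : ℂ) + 1)) •
    (if ‖e i‖ ≤ 1 ∧ (∀ x, e i x ≠ 0 → x.1 < i ∧ x.2 < i) ∧ e i ∉ Ybelow s i then e i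
      else delta (i, i))

open Classical in
noncomputable def recVal (e : I → L1 (I × I)) (n : I → ℕ) : I → L1 (I × I) :=
  (wellFounded_lt (α := I)).fix fun i rec =>
    stepVal e n i (fun k => if h : k < i then rec k h else 0)

lemma recVal_eq (e : I → L1 (I × I)) (n : I → ℕ) (i : I) :
    recVal e n i = stepVal e n i (recVal e n) := by
  classical
  have h1 : recVal e n i = stepVal e n i (fun k => if _ : k < i then recVal e n k else 0) := by
    unfold recVal
    rw [WellFounded.fix_eq]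
  rw [h1]
  unfold stepVal
  rw [Ybelow_congr (t := recVal e n) (fun k hk => by simp [hk])]

omit [WellFoundedLT I] in
lemma norm_stepVal (e : I → L1 (I × I)) (n : I → ℕ) (i : I) (s : I → L1 (I × I)) :
    ‖stepVal e n i s‖ ≤ 1 / ((n i : ℝ) + 1) := by
  unfold stepVal
  rw [norm_smul]
  have h1 : ‖(1 : ℂ) / ((n i : ℂ) + 1)‖ = 1 / ((n i : ℝ) + 1) := by
    rw [norm_div, norm_one]
    congr 1
    exact_mod_cast Complex.norm_natCast (n i + 1)
  rw [h1]
  apply mul_le_of_le_one_right (by positivity)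
  split_ifs with h
  · exact h.1
  · rw [norm_delta]

theorem exists_family (e : I → L1 (I × I)) (n : I → ℕ) :
    ∃ s : I → L1 (I × I), (∀ k, ‖s k‖ ≤ 1 / ((n k : ℝ) + 1)) ∧
      (∀ k x, s k x ≠ 0 → x = (k, k) ∨ (x.1 < k ∧ x.2 < k)) ∧ (∀ i, s i ∉ Ybelow s i) ∧
      ∀ i, ‖e i‖ ≤ 1 → (∀ x, e i x ≠ 0 → x.1 < i ∧ x.2 < i) →
        e i ∈ Ybelow s i ∨ ∃ c : ℂ, e i = c • s i := by
  classical
  set s := recVal e n with hs_def
  have hs : ∀ i, s i = stepVal e n i s := recVal_eq e n
  have hn : ∀ k, ‖s k‖ ≤ 1 / ((n k : ℝ) + 1) := fun k => by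
    rw [hs k]; exact norm_stepVal e n k s
  have hn1 : ∀ k, ‖s k‖ ≤ 1 := fun k => (hn k).trans (by
    rw [div_le_one (by positivity)]; linarith [Nat.cast_nonneg (α := ℝ) (n k)])
  have hne : ∀ k, ((n k : ℂ) + 1) ≠ 0 := fun k => by exact_mod_cast Nat.succ_ne_zero (n k)
  have hsupp : ∀ k x, s k x ≠ 0 → x = (k, k) ∨ (x.1 < k ∧ x.2 < k) := by
    intro k x hx
    rw [hs k] at hx
    unfold stepVal at hx
    split_ifs at hx with h
    · right
      apply h.2.1
      intro h0
      apply hx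
      change _ * e k x = 0
      rw [h0, mul_zero]
    · left
      by_contra hcon
      apply hx
      change _ * delta (k, k) x = 0
      rw [delta_ne hcon, mul_zero]
  refine ⟨s, hn, hsupp, ?_, ?_⟩
  · intro i hi
    have h2 := Ybelow_smul hn1 hi ((n i : ℂ) + 1)
    rw [hs i] at h2
    unfold stepVal at h2
    rw [smul_smul, mul_one_div_cancel (hne i), one_smul] at h2
    split_ifs at h2 with h
    · exact h.2.2 h2
    · obtain ⟨u, _, hu, hue⟩ := h2
      have h3 := That_apply hn1 u (i, i)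
      rw [← hue, delta_self] at h3
      have h4 : u (i, i) = 0 := by
        by_contra h; exact absurd (hu _ h).1 (lt_irrefl _)
      have h5 : ∑' k, u (k, k) * (s k (i, i) - delta (k, k) (i, i)) = 0 := by
        refine Eq.trans (tsum_congr fun k => ?_) tsum_zero
        by_cases hk : u (k, k) = 0
        · simp [hk]
        · have hki : k < i := (hu _ hk).1
          have hne' : (i, i) ≠ (k, k) := fun h => absurd (diag_inj h) (ne_of_gt hki)
          have : s k (i, i) = 0 := by
            by_contra hcon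
            rcases hsupp k _ hcon with h | h
            · exact hne' h
            · exact absurd (h.1.trans hki) (lt_irrefl _)
          rw [this, delta_ne hne']
          simp
      rw [h4, h5] at h3
      simp at h3
  · intro i h1 h2
    by_cases h3 : e i ∈ Ybelow s i
    · exact Or.inl h3
    · right
      refine ⟨(n i : ℂ) + 1, ?_⟩
      rw [hs i]
      unfold stepVal
      rw [if_pos ⟨h1, h2, h3⟩, smul_smul, mul_one_div_cancel (hne i), one_smul]

end Rec

/-- A bounded bilinear map whose linearisation on the algebraic tensor product is onto but is not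
open for the projective norm. -/
theorem exists_bilin : ∃ T : L1 Idx →ₗ[ℂ] L1 Idx →ₗ[ℂ] L1 (Idx × Idx),
    (∀ a b, ‖T a b‖ ≤ ‖a‖ * ‖b‖) ∧
    (∀ z, z ∈ Submodule.span ℂ {w | ∃ a b, w = T a b}) ∧
    ∀ C : ℝ, ∃ z, ∀ (m : ℕ) (a b : Fin m → L1 Idx), z = ∑ l, T (a l) (b l) →
      C * ‖z‖ < ∑ l, ‖a l‖ * ‖b l‖ := by
  classical
  have hcard : Cardinal.mk (L1 (Idx × Idx)) ≤ Cardinal.continuum :=
    mk_L1_le (by simp)
  obtain ⟨e, he⟩ := Idx.exists_enum hcard
  let ν : ℕ ↪ Idx := Infinite.natEmbedding Idx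
  let n : Idx → ℕ := Function.invFun ν
  have hn : ∀ N, n (ν N) = N := Function.leftInverse_invFun ν.injective
  obtain ⟨s, hs, hsupp, hfresh, hcover⟩ := exists_family e n
  have hs1 : ∀ k, ‖s k‖ ≤ 1 := fun k => (hs k).trans (by
    rw [div_le_one (by positivity)]; linarith [Nat.cast_nonneg (α := ℝ) (n k)])
  let T : L1 Idx →ₗ[ℂ] L1 Idx →ₗ[ℂ] L1 (Idx × Idx) :=
    LinearMap.mk₂ ℂ (fun a b => (1 / 3 : ℂ) • ThatL hs1 (tens a b))
      (fun a a' b => by rw [tens_add_left, map_add, smul_add])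
      (fun c a b => by rw [tens_smul_left, map_smul, smul_comm])
      (fun a b b' => by rw [tens_add_right, map_add, smul_add])
      (fun c a b => by rw [tens_smul_right, map_smul, smul_comm])
  have hT : ∀ a b, T a b = (1 / 3 : ℂ) • ThatL hs1 (tens a b) := fun a b => rfl
  have hFR : ∀ u ∈ FR Idx, ThatL hs1 u ∈ Submodule.span ℂ {w | ∃ a b, w = T a b} := by
    intro u hu
    obtain ⟨m, a, b, rfl⟩ := exists_rep hu
    rw [map_sum]
    refine Submodule.sum_mem _ fun l _ => ?_
    have : ThatL hs1 (tens (a l) (b l)) = (3 : ℂ) • T (a l) (b l) := by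
      rw [hT, smul_smul]; norm_num
    rw [this]
    exact Submodule.smul_mem _ _ (Submodule.subset_span ⟨_, _, rfl⟩)
  refine ⟨T, ?_, ?_, ?_⟩
  · intro a b
    rw [hT, norm_smul, ← norm_tens]
    have := norm_That_le hs1 (tens a b)
    have h3 : ‖(1 / 3 : ℂ)‖ = 1 / 3 := by simp
    rw [h3]
    change 1 / 3 * ‖That s (tens a b)‖ ≤ _
    linarith
  · have key : ∀ z : L1 (Idx × Idx), ‖z‖ ≤ 1 → z ∈ Submodule.span ℂ {w | ∃ a b, w = T a b} := by
      intro z hz
      obtain ⟨α, hα⟩ := Idx.exists_gt (S := Prod.fst '' {x | z x ≠ 0} ∪ Prod.snd '' {x | z x ≠ 0})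
        (((L1.countable_support z).image _).union ((L1.countable_support z).image _))
      obtain ⟨i, hαi, hi⟩ := he z α
      rcases hcover i (hi ▸ hz) (fun x hx => by
        rw [hi] at hx
        exact ⟨(hα _ (Or.inl ⟨x, hx, rfl⟩)).trans_le hαi,
          (hα _ (Or.inr ⟨x, hx, rfl⟩)).trans_le hαi⟩) with ⟨u, hu, _, hue⟩ | ⟨c, hc⟩
      · rw [← hi, hue]
        exact hFR u hu
      · rw [← hi, hc, ← That_delta s i, ← tens_delta]
        exact Submodule.smul_mem _ _ (hFR _ (tens_mem_FR _ _))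
    intro z
    have h1 : ((‖z‖ + 1 : ℝ) : ℂ) ≠ 0 := by
      have : (‖z‖ + 1 : ℝ) ≠ 0 := by positivity
      exact_mod_cast this
    have h2 : z = ((‖z‖ + 1 : ℝ) : ℂ) • (((‖z‖ + 1 : ℝ) : ℂ)⁻¹ • z) := by
      rw [smul_smul, mul_inv_cancel₀ h1, one_smul]
    rw [h2]
    refine Submodule.smul_mem _ _ (key _ ?_)
    rw [norm_smul, norm_inv, Complex.norm_real, Real.norm_of_nonneg (by positivity),
      inv_mul_le_iff₀ (by positivity)]
    linarith
  · intro C
    obtain ⟨N, hN⟩ := exists_nat_gt C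
    refine ⟨s (ν N), fun m a b hab => ?_⟩
    set i := ν N with hi
    have h1 : ThatL hs1 (∑ l, tens (a l) (b l) - (3 : ℂ) • delta (i, i)) = 0 := by
      rw [map_sub, map_smul, map_sum]
      change _ - (3 : ℂ) • That s (delta (i, i)) = 0
      rw [That_delta, hab, Finset.smul_sum, sub_eq_zero]
      refine Finset.sum_congr rfl fun l _ => ?_
      rw [hT, smul_smul]; norm_num
    have h2 := That_inj hs1 hsupp hfresh
      ((FR Idx).sub_mem (Submodule.sum_mem _ fun l _ => tens_mem_FR _ _)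
        ((FR Idx).smul_mem _ (by rw [← tens_delta]; exact tens_mem_FR _ _))) h1
    rw [sub_eq_zero] at h2
    have h3 : (3 : ℝ) ≤ ∑ l, ‖a l‖ * ‖b l‖ := by
      calc (3 : ℝ) = ‖(3 : ℂ) • delta (i, i)‖ := by rw [norm_smul, norm_delta]; simp
        _ = ‖∑ l, tens (a l) (b l)‖ := by rw [h2]
        _ ≤ ∑ l, ‖tens (a l) (b l)‖ := norm_sum_le _ _
        _ = _ := by simp_rw [norm_tens]
    have h4 : ‖s i‖ ≤ 1 / ((N : ℝ) + 1) := by
      have := hs i
      rwa [hi, hn N] at this
    have h5 : (N : ℝ) * ‖s i‖ ≤ 1 := by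
      rw [le_div_iff₀ (by positivity)] at h4
      nlinarith [norm_nonneg (s i)]
    nlinarith [norm_nonneg (s i)]

end Pool.Agent.P.MP_0279ce_an
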