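import Mathlib

/-! Projections of closed relations modulo few nowhere dense sets, and property (S). -/

namespace Pool.Agent.P.MP_0279ce_an.Small

open Set Filter
open scoped Topology

universe u

section ideal

variable {X : Type} [TopologicalSpace X] {ι : Type u}

/-- Sets covered by a family of nowhere dense sets with a given index type. -/
def Sm (ι : Type u) (T : Set X) : Prop :=
  ∃ N : ι → Set X, (∀ i, IsNowhereDense (N i)) ∧ T ⊆ ⋃ i, N i

lemma Sm.mono {T T' : Set X} (h : Sm ι T) (hT : T' ⊆ T) : Sm ι T' :=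
  h.imp fun _ hN => ⟨hN.1, hT.trans hN.2⟩

lemma Sm.preimage {T : Set X} (h : Sm ι T) (e : X ≃ₜ X) : Sm ι (e ⁻¹' T) := by
  obtain ⟨N, h1, h2⟩ := h
  refine ⟨fun i => e ⁻¹' N i, fun i => ?_, by rw [← preimage_iUnion]; exact preimage_mono h2⟩
  rw [IsNowhereDense, ← e.preimage_closure, ← e.preimage_interior, h1 i, preimage_empty]

variable [Infinite ι]

lemma sm_nwd {T : Set X} (h : IsNowhereDense T) : Sm ι T :=
  ⟨fun _ => T, fun _ => h, subset_iUnion (fun _ : ι => T) (Classical.arbitrary ι)⟩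

lemma sm_frontier {T : Set X} (h : IsClosed T) : Sm ι (frontier T) :=
  sm_nwd (isClosed_frontier.isNowhereDense_iff.2 (interior_frontier h))

lemma emb_prod : Nonempty (ι × ι ↪ ι) := by
  rw [← Cardinal.le_def, Cardinal.mk_prod, Cardinal.lift_id, Cardinal.mul_eq_self
    (Cardinal.aleph0_le_mk ι)]

lemma emb_countable (J : Type*) [Countable J] : Nonempty (J ↪ ι) := by
  obtain ⟨f, hf⟩ := Countable.exists_injective_nat J
  exact ⟨(⟨f, hf⟩ : J ↪ ℕ).trans (Infinite.natEmbedding ι)⟩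

lemma emb_prod' {J J' : Type*} (h : Nonempty (J ↪ ι)) (h' : Nonempty (J' ↪ ι)) :
    Nonempty (J × J' ↪ ι) :=
  ⟨(h.some.prodMap h'.some).trans emb_prod.some⟩

lemma sm_iUnion {J : Type*} (hJ : Nonempty (J ↪ ι)) {T : J → Set X} (h : ∀ j, Sm ι (T j)) :
    Sm ι (⋃ j, T j) := by
  choose N h1 h2 using h
  obtain ⟨p⟩ := emb_prod' hJ ⟨Function.Embedding.refl ι⟩
  refine ⟨Function.extend p (fun jk => N jk.1 jk.2) fun _ => ∅, fun i => ?_,
    iUnion_subset fun j => (h2 j).trans (iUnion_subset fun k => ?_)⟩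
  · by_cases hi : ∃ jk, p jk = i
    · obtain ⟨jk, rfl⟩ := hi
      rw [p.injective.extend_apply]
      exact h1 _ _
    · rw [Function.extend_apply' _ _ _ hi]
      exact isNowhereDense_empty
  · refine subset_iUnion_of_subset (p (j, k)) ?_
    rw [p.injective.extend_apply]

lemma Sm.union {T T' : Set X} (h : Sm ι T) (h' : Sm ι T') : Sm ι (T ∪ T') := by
  rw [union_eq_iUnion]
  refine sm_iUnion (emb_countable Bool) fun b => ?_
  cases b
  exacts [h', h]

/-- The points at which a set is not locally small. -/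
def Hull (ι : Type u) (T : Set X) : Set X := {x | ∀ U, IsOpen U → x ∈ U → ¬ Sm ι (U ∩ T)}

omit [Infinite ι] in
lemma isClosed_hull (T : Set X) : IsClosed (Hull ι T) := by
  rw [← isOpen_compl_iff, isOpen_iff_forall_mem_open]
  intro x hx
  simp only [Hull, mem_compl_iff, mem_setOf_eq, not_forall, not_not] at hx
  obtain ⟨U, hU, hxU, h⟩ := hx
  exact ⟨U, fun y hy hy' => hy' U hU hy h, hU, hxU⟩

lemma hull_subset (T : Set X) : Hull ι T ⊆ closure T := fun _ hx =>
  mem_closure_iff.2 fun U hU hxU => nonempty_iff_ne_empty.2 fun h =>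
    hx U hU hxU (h ▸ sm_nwd isNowhereDense_empty)

variable [SecondCountableTopology X]

lemma sm_core (T : Set X) : Sm ι (T \ interior (Hull ι T)) := by
  have hc : Countable {b // b ∈ TopologicalSpace.countableBasis X ∧ Sm ι (b ∩ T)} :=
    ((TopologicalSpace.countable_countableBasis X).mono fun _ h => h.1).to_subtype
  refine ((sm_iUnion (emb_countable {b // b ∈ TopologicalSpace.countableBasis X ∧ Sm ι (b ∩ T)})
    fun b => b.2.2).union (sm_frontier (isClosed_hull (ι := ι) T))).mono fun x hx => ?_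
  by_cases h : x ∈ Hull ι T
  · exact Or.inr ⟨subset_closure h, hx.2⟩
  · simp only [Hull, mem_setOf_eq, not_forall, not_not] at h
    obtain ⟨U, hU, hxU, h⟩ := h
    obtain ⟨b, hb, hxb, hbU⟩ :=
      (TopologicalSpace.isBasis_countableBasis X).exists_subset_of_mem_open hxU hU
    exact Or.inl (mem_iUnion.2 ⟨⟨b, hb, h.mono (inter_subset_inter_left _ hbU)⟩, hxb, hx.1⟩)

theorem sus {Y : Type*} [MetricSpace Y] [CompleteSpace Y] {J : Type*} (hJ : Nonempty (J ↪ ι))
    {c : J → Y} (hc : DenseRange c) {R : Set (X × Y)} (hR : IsClosed R)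
    (hT : ¬ Sm ι {x | ∃ y, (x, y) ∈ R}) :
    ∃ U : Set X, IsOpen U ∧ U.Nonempty ∧ Sm ι (U \ {x | ∃ y, (x, y) ∈ R}) := by
  let T : J → ℕ → Set X := fun j n => {x | ∃ y, dist y (c j) < (1 / 2) ^ n ∧ (x, y) ∈ R}
  let U : J → ℕ → Set X := fun j n =>
    ⋃ j' : {j' // dist (c j) (c j') ≤ 2 * (1 / 2) ^ n}, interior (Hull ι (T j' (n + 1)))
  have hU : ∀ j n, IsOpen (U j n) := fun j n => isOpen_iUnion fun _ => isOpen_interior
  have h1 : ∀ j n, Hull ι (T j n) ⊆ closure (U j n) := fun j n x hx => by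
    by_contra hx'
    refine hx _ isClosed_closure.isOpen_compl hx' ((sm_iUnion
      (J := {j' // dist (c j) (c j') ≤ 2 * (1 / 2) ^ n})
      ⟨(Function.Embedding.subtype _).trans hJ.some⟩ fun j' => sm_core (T j' (n + 1))).mono ?_)
    rintro z ⟨hz, y, hy, hzy⟩
    obtain ⟨j', hj'⟩ := hc.exists_dist_lt y (ε := (1 / 2) ^ (n + 1)) (by positivity)
    have h2 : dist (c j) (c j') ≤ 2 * (1 / 2) ^ n := by
      have h3 := dist_triangle_left (c j) (c j') y
      have h4 : (0 : ℝ) < (1 / 2) ^ n := by positivity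
      rw [pow_succ] at hj'
      linarith
    exact mem_iUnion.2 ⟨⟨j', h2⟩, ⟨y, hj', hzy⟩, fun h =>
      hz (subset_closure (mem_iUnion.2 ⟨⟨j', h2⟩, h⟩))⟩
  obtain ⟨j0, hj0⟩ : ∃ j, ¬ Sm ι (T j 0) := by
    by_contra h
    push Not at h
    refine hT ((sm_iUnion hJ h).mono ?_)
    rintro x ⟨y, hy⟩
    obtain ⟨j, hj⟩ := hc.exists_dist_lt y one_pos
    exact mem_iUnion.2 ⟨j, y, by simpa using hj, hy⟩
  refine ⟨interior (Hull ι (T j0 0)), isOpen_interior, nonempty_iff_ne_empty.2 fun h => hj0 ?_,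
    (sm_iUnion (emb_prod' hJ (emb_countable ℕ)) fun jn : J × ℕ =>
      sm_frontier (hU jn.1 jn.2).isClosed_compl).mono ?_⟩
  · simpa [h] using sm_core (ι := ι) (T j0 0)
  · rintro x ⟨hx, hxT⟩
    by_contra hx'
    have step : ∀ n j, x ∈ Hull ι (T j n) →
        ∃ j', dist (c j) (c j') ≤ 2 * (1 / 2) ^ n ∧ x ∈ Hull ι (T j' (n + 1)) := fun n j h => by
      have h2 : x ∈ U j n := by
        by_contra h3
        refine hx' (mem_iUnion.2 ⟨(j, n), ?_⟩)
        rw [frontier_compl, (hU j n).frontier_eq]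
        exact ⟨h1 j n h, h3⟩
      obtain ⟨j', hj'⟩ := mem_iUnion.1 h2
      exact ⟨j', j'.2, interior_subset hj'⟩
    choose! nx hn1 hn2 using step
    let s : ℕ → J := fun n => Nat.rec j0 (fun n j => nx n j) n
    have hs : ∀ n, x ∈ Hull ι (T (s n) n) := fun n => by
      induction n with
      | zero => exact interior_subset hx
      | succ n ih => exact hn2 n _ ih
    obtain ⟨y, hy⟩ := cauchySeq_tendsto_of_complete (cauchySeq_of_le_geometric (1 / 2) 2
      (by norm_num) (f := fun n => c (s n)) fun n => hn1 n _ (hs n))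
    refine hxT ⟨y, hR.closure_subset (mem_closure_iff_nhds.2 fun W hW => ?_)⟩
    obtain ⟨W1, hW1, W2, hW2, hW3⟩ := mem_nhds_prod_iff.1 hW
    obtain ⟨η, hη, hW4⟩ := Metric.mem_nhds_iff.1 hW2
    obtain ⟨n, h2, h3⟩ := ((Metric.tendsto_nhds.1 hy _ (half_pos hη)).and
      ((tendsto_pow_atTop_nhds_zero_of_lt_one (r := (1 / 2 : ℝ)) (by norm_num)
        (by norm_num)).eventually (gt_mem_nhds (half_pos hη)))).exists
    obtain ⟨z, hz, y', hy', hzy⟩ := mem_closure_iff_nhds.1 (hull_subset _ (hs n)) _ hW1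
    refine ⟨(z, y'), hW3 ⟨hz, hW4 ?_⟩, hzy⟩
    have := dist_triangle y' (c (s n)) y
    rw [Metric.mem_ball]
    linarith

end ideal

/-- Adding a fixed sequence of bits. -/
def xr (t : ℕ → Bool) : (ℕ → Bool) ≃ₜ (ℕ → Bool) where
  toFun x i := xor (t i) (x i)
  invFun x i := xor (t i) (x i)
  left_inv x := by funext i; simp
  right_inv x := by funext i; simp
  continuous_toFun := continuous_pi fun i =>
    (continuous_of_discreteTopology (f := xor (t i))).comp (continuous_apply i)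
  continuous_invFun := continuous_pi fun i =>
    (continuous_of_discreteTopology (f := xor (t i))).comp (continuous_apply i)

lemma xr_apply (t x : ℕ → Bool) (i : ℕ) : xr t x i = xor (t i) (x i) := rfl

variable {ι : Type u} [Infinite ι]

lemma not_sm_cyl (h : ¬ Sm ι (univ : Set (ℕ → Bool))) (z : ℕ → Bool) (l : ℕ) :
    ¬ Sm ι (PiNat.cylinder (E := fun _ => Bool) z l) := fun hc => by
  refine h ((sm_iUnion (emb_countable (Fin l → Bool)) fun t =>
    hc.preimage (xr fun i => if hi : i < l then t ⟨i, hi⟩ else false)).mono fun y _ => ?_)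
  refine mem_iUnion.2 ⟨fun i => xor (z i) (y i), fun i hi => ?_⟩
  simp [xr_apply, hi]

lemma exists_flip (h : ¬ Sm ι (univ : Set (ℕ → Bool))) {U T : Set (ℕ → Bool)} (hU : IsOpen U)
    (hne : U.Nonempty) (hT : Sm ι (U \ T)) :
    ∃ l, ∀ k, l ≤ k → ∃ e ∈ T, xr (fun i => decide (i = k)) e ∈ T := by
  obtain ⟨x, hx⟩ := hne
  obtain ⟨_, ⟨z, l, rfl⟩, -, hz⟩ :=
    (PiNat.isTopologicalBasis_cylinders fun _ => Bool).exists_subset_of_mem_open hx hU
  refine ⟨l, fun k hk => ?_⟩
  by_contra hcon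
  push Not at hcon
  refine not_sm_cyl h z l ((hT.union (hT.preimage (xr fun i => decide (i = k)))).mono
    fun e he => ?_)
  by_cases heT : e ∈ T
  · refine Or.inr ⟨hz fun i hi => ?_, hcon e heT⟩
    rw [xr_apply, he i hi, decide_eq_false (hi.trans_le hk).ne, Bool.false_xor]
  · exact Or.inl ⟨hz he, heT⟩

theorem main {A : Type u} [NonUnitalNormedRing A] [NormedSpace ℂ A] [IsScalarTower ℂ A A]
    [CompleteSpace A] {d : ι → A} (hd : DenseRange d)
    (hcov : ¬ Sm ι (univ : Set (ℕ → Bool)))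
    (hfin : FiniteDimensional ℂ (A ⧸ Submodule.span ℂ {x : A | ∃ a b : A, x = a * b})) :
    ∃ C : ℝ, ∀ x ∈ Submodule.span ℂ {x : A | ∃ a b : A, x = a * b},
      ∃ (n : ℕ) (a b : Fin n → A), x = ∑ i, a i * b i ∧ ∑ i, ‖a i‖ * ‖b i‖ ≤ C * ‖x‖ := by
  by_contra hS
  set W := Submodule.span ℂ {x : A | ∃ a b : A, x = a * b} with hW
  have hWm : ∀ a b : A, a * b ∈ W := fun a b => Submodule.subset_span ⟨a, b, rfl⟩
  obtain ⟨F, hF⟩ := W.exists_isCompl
  have hFd : FiniteDimensional ℂ F := (W.quotientEquivOfIsCompl F hF).finiteDimensional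
  have hx : ∀ k : ℕ, ∃ x ∈ W, ‖x‖ = (1 / 2) ^ k ∧ ∀ (n : ℕ) (a b : Fin n → A),
      x = ∑ i, a i * b i → k < ∑ i, ‖a i‖ * ‖b i‖ := fun k => by
    push Not at hS
    obtain ⟨w, hw, h⟩ := hS (k * 2 ^ k)
    have h0 : 0 < ‖w‖ := norm_pos_iff.2 fun h0 => by
      simpa [h0] using h 0 Fin.elim0 Fin.elim0 (by simp [h0])
    have ht : (0 : ℝ) < 2 ^ k * ‖w‖ := by positivity
    have ht' : ((2 ^ k * ‖w‖ : ℝ) : ℂ) ≠ 0 := by exact_mod_cast ht.ne'
    refine ⟨((2 ^ k * ‖w‖ : ℝ) : ℂ)⁻¹ • w, W.smul_mem _ hw, ?_, fun n a b hab => ?_⟩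
    · rw [norm_smul, norm_inv, Complex.norm_real, Real.norm_of_nonneg ht.le, one_div, inv_pow]
      field_simp
    · have h1 := h n (fun i => ((2 ^ k * ‖w‖ : ℝ) : ℂ) • a i) b (by
        simp only [smul_mul_assoc]
        rw [← Finset.smul_sum, ← hab, smul_inv_smul₀ ht'])
      simp only [norm_smul, Complex.norm_real, Real.norm_of_nonneg ht.le, mul_assoc] at h1
      rw [← Finset.mul_sum, ← Finset.mul_sum, ← mul_assoc (2 ^ k : ℝ), mul_comm (k : ℝ)] at h1
      exact lt_of_mul_lt_mul_left h1 ht.le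
  choose x hxW hxn hxc using hx
  have hb : ∀ k (e : ℕ → Bool), ‖if e k then x k else 0‖ ≤ (1 / 2) ^ k := fun k e => by
    split_ifs
    · exact (hxn k).le
    · simp
  let g : (ℕ → Bool) → A := fun e => ∑' k, if e k then x k else 0
  have hg : Continuous g := continuous_tsum (fun k =>
    (continuous_of_discreteTopology (f := fun b : Bool => if b then x k else 0)).comp
      (continuous_apply k)) summable_geometric_two hb
  let R : (mn : ℕ × ℕ) → Set ((ℕ → Bool) × (Fin mn.1 → A) × (Fin mn.1 → A) × A) := fun mn =>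
    {p | p.2.2.2 ∈ F ∧ ∑ i, ‖p.2.1 i‖ * ‖p.2.2.1 i‖ ≤ mn.2 ∧
      g p.1 = ∑ i, p.2.1 i * p.2.2.1 i + p.2.2.2}
  obtain ⟨⟨m, n⟩, hmn⟩ : ∃ mn, ¬ Sm ι {e | ∃ y, (e, y) ∈ R mn} := by
    by_contra h
    push Not at h
    refine hcov ((sm_iUnion (emb_countable _) h).mono fun e _ => ?_)
    obtain ⟨w, hw, f, hf, h1⟩ := Submodule.mem_sup.1 (hF.sup_eq_top ▸ Submodule.mem_top (x := g e))
    obtain ⟨m, t, p, h2⟩ := Submodule.mem_span_set'.1 hw
    choose a b hab using fun i => (p i).2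
    obtain ⟨n, hn⟩ := exists_nat_ge (∑ i, ‖t i • a i‖ * ‖b i‖)
    refine mem_iUnion.2 ⟨(m, n), (fun i => t i • a i, b, f), hf, hn, ?_⟩
    simp only [smul_mul_assoc, ← hab, h2, h1]
  have hpi : Nonempty ((Fin m → ι) ↪ ι) := by
    rw [← Cardinal.le_def]
    simpa using Cardinal.power_nat_le (n := m) (Cardinal.aleph0_le_mk ι)
  have hdp : DenseRange (Pi.map fun _ : Fin m => d) := DenseRange.piMap fun _ => hd
  have hRc : IsClosed (R (m, n)) := by
    have h1 : IsClosed {p : (ℕ → Bool) × (Fin m → A) × (Fin m → A) × A | p.2.2.2 ∈ F} :=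
      F.closed_of_finiteDimensional.preimage (by fun_prop)
    have h2 : IsClosed {p : (ℕ → Bool) × (Fin m → A) × (Fin m → A) × A |
        ∑ i, ‖p.2.1 i‖ * ‖p.2.2.1 i‖ ≤ n} := isClosed_le (by fun_prop) continuous_const
    have h3 : IsClosed {p : (ℕ → Bool) × (Fin m → A) × (Fin m → A) × A |
        g p.1 = ∑ i, p.2.1 i * p.2.2.1 i + p.2.2.2} :=
      isClosed_eq (hg.comp continuous_fst) (by fun_prop)
    exact h1.inter (h2.inter h3)
  obtain ⟨U, hU, hne, hUT⟩ := sus
    (emb_prod' hpi (emb_prod' hpi ⟨Function.Embedding.refl ι⟩)) (hdp.prodMap (hdp.prodMap hd))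
    hRc hmn
  obtain ⟨l, hl⟩ := exists_flip hcov hU hne hUT
  obtain ⟨e, ⟨⟨a, b, f⟩, hf, h1, h2⟩, ⟨a', b', f'⟩, hf', h1', h2'⟩ := hl (l + 2 * n) le_self_add
  set k := l + 2 * n with hk
  obtain ⟨σ, hσ, h3⟩ : ∃ σ : ℂ, ‖σ‖ = 1 ∧
      x k = σ • (g e - g (xr (fun i => decide (i = k)) e)) := by
    have h4 : g e - g (xr (fun i => decide (i = k)) e) = if e k then x k else -x k := by
      rw [← (Summable.of_norm_bounded summable_geometric_two fun j => hb j _).tsum_sub
        (Summable.of_norm_bounded summable_geometric_two fun j => hb j _),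
        tsum_eq_single k fun j hj => by simp [xr_apply, hj]]
      cases h : e k <;> simp [xr_apply, h]
    cases h : e k
    · exact ⟨-1, by simp, by simp [h4, h]⟩
    · exact ⟨1, by simp, by simp [h4, h]⟩
  simp only at h1 h2 h1' h2' hf hf'
  have h4 : x k - σ • (∑ i, a i * b i - ∑ i, a' i * b' i) = σ • (f - f') := by
    rw [h3, h2, h2', ← smul_sub]
    congr 1
    abel
  have h5 : x k = σ • (∑ i, a i * b i - ∑ i, a' i * b' i) := by
    rw [← sub_eq_zero]
    refine (Submodule.disjoint_def.1 hF.disjoint) _ (W.sub_mem (hxW k) (W.smul_mem _ (W.sub_mem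
      (W.sum_mem fun i _ => hWm _ _) (W.sum_mem fun i _ => hWm _ _)))) ?_
    rw [h4]
    exact F.smul_mem _ (F.sub_mem hf hf')
  have h6 := hxc k (m + m) (Fin.append (fun i => σ • a i) fun i => -σ • a' i) (Fin.append b b') (by
    simp only [Fin.sum_univ_add, Fin.append_left, Fin.append_right, smul_mul_assoc, neg_smul,
      neg_mul, Finset.sum_neg_distrib, ← Finset.smul_sum]
    rw [h5, smul_sub, sub_eq_add_neg])
  simp only [Fin.sum_univ_add, Fin.append_left, Fin.append_right, norm_smul, norm_neg, hσ,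
    one_mul, hk] at h6
  push_cast at h6
  have : (0 : ℝ) ≤ l := Nat.cast_nonneg l
  linarith

end Pool.Agent.P.MP_0279ce_an.Small
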