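import Pool.Agent.P.MP_0279ce_an.Rec

/-! The triangular Banach algebra attached to a contractive bilinear map. -/

namespace Pool.Agent.P.MP_0279ce_an

variable {E Z : Type} [NormedAddCommGroup E] [NormedSpace ℂ E] [NormedAddCommGroup Z]
  [NormedSpace ℂ Z]

/-- Matrices with rows `(0, e, z)`, `(0, c, f)`, `(0, 0, 0)`. -/
@[nolint unusedArguments]
def Tri (T : E →ₗ[ℂ] E →ₗ[ℂ] Z) (_hT : ∀ a b, ‖T a b‖ ≤ ‖a‖ * ‖b‖) : Type := ℂ × E × E × Z

variable {T : E →ₗ[ℂ] E →ₗ[ℂ] Z} {hT : ∀ a b, ‖T a b‖ ≤ ‖a‖ * ‖b‖}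

noncomputable instance : NormedAddCommGroup (Tri T hT) :=
  inferInstanceAs (NormedAddCommGroup (ℂ × E × E × Z))

noncomputable instance : NormedSpace ℂ (Tri T hT) :=
  inferInstanceAs (NormedSpace ℂ (ℂ × E × E × Z))

instance [CompleteSpace E] [CompleteSpace Z] : CompleteSpace (Tri T hT) :=
  inferInstanceAs (CompleteSpace (ℂ × E × E × Z))

namespace Tri

/-- The underlying tuple. -/
def out (x : Tri T hT) : ℂ × E × E × Z := x

/-- Build from a tuple. -/
def mk (c : ℂ) (e f : E) (z : Z) : Tri T hT := (c, e, f, z)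

instance : Mul (Tri T hT) :=
  ⟨fun x y => mk (x.out.1 * y.out.1) (y.out.1 • x.out.2.1) (x.out.1 • y.out.2.2.1)
    (T x.out.2.1 y.out.2.2.1)⟩

lemma ext' {x y : Tri T hT} (h1 : x.out.1 = y.out.1) (h2 : x.out.2.1 = y.out.2.1)
    (h3 : x.out.2.2.1 = y.out.2.2.1) (h4 : x.out.2.2.2 = y.out.2.2.2) : x = y :=
  Prod.ext h1 (Prod.ext h2 (Prod.ext h3 h4))

@[simp] lemma out_mk (c : ℂ) (e f : E) (z : Z) : (mk c e f z : Tri T hT).out = (c, e, f, z) := rfl
@[simp] lemma out_mul (x y : Tri T hT) : (x * y).out =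
    (x.out.1 * y.out.1, y.out.1 • x.out.2.1, x.out.1 • y.out.2.2.1,
      T x.out.2.1 y.out.2.2.1) := rfl
@[simp] lemma out_add (x y : Tri T hT) : (x + y).out = x.out + y.out := rfl
@[simp] lemma out_zero : (0 : Tri T hT).out = 0 := rfl
@[simp] lemma out_smul (c : ℂ) (x : Tri T hT) : (c • x).out = c • x.out := rfl
lemma norm_out (x : Tri T hT) : ‖x.out‖ = ‖x‖ := rfl

lemma norm_c (x : Tri T hT) : ‖x.out.1‖ ≤ ‖x‖ := norm_fst_le x.out
lemma norm_e (x : Tri T hT) : ‖x.out.2.1‖ ≤ ‖x‖ := (norm_fst_le x.out.2).trans (norm_snd_le x.out)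
lemma norm_f (x : Tri T hT) : ‖x.out.2.2.1‖ ≤ ‖x‖ :=
  (norm_fst_le x.out.2.2).trans ((norm_snd_le x.out.2).trans (norm_snd_le x.out))

noncomputable instance : NonUnitalNormedRing (Tri T hT) :=
  { (inferInstance : NormedAddCommGroup (Tri T hT)), (inferInstance : Mul (Tri T hT)) with
    left_distrib := fun x y z => by apply ext' <;> simp [mul_add, add_smul]
    right_distrib := fun x y z => by apply ext' <;> simp [add_mul, add_smul]
    zero_mul := fun x => by apply ext' <;> simp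
    mul_zero := fun x => by apply ext' <;> simp
    mul_assoc := fun x y z => by
      apply ext' <;> simp [mul_assoc, smul_smul, mul_comm]
    norm_mul_le := fun x y => by
      rw [← norm_out, out_mul]
      simp only [Prod.norm_mk, max_le_iff, norm_mul, norm_smul]
      refine ⟨?_, ?_, ?_, (hT _ _).trans ?_⟩
      · gcongr <;> exact norm_c _
      · rw [mul_comm]; gcongr
        · exact norm_e _
        · exact norm_c _
      · gcongr
        · exact norm_c _
        · exact norm_f _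
      · gcongr
        · exact norm_e _
        · exact norm_f _ }

instance : IsScalarTower ℂ (Tri T hT) (Tri T hT) :=
  ⟨fun c x y => by
    change (c • x) * y = c • (x * y)
    apply ext' <;> simp [mul_assoc, smul_smul, mul_comm]⟩

instance : SMulCommClass ℂ (Tri T hT) (Tri T hT) :=
  ⟨fun c x y => by
    change c • (x * y) = x * (c • y)
    apply ext' <;> simp [mul_left_comm, smul_smul, mul_comm]⟩

/-- Inclusion of the corner. -/
def corner : Z →ₗ[ℂ] Tri T hT where
  toFun z := mk 0 0 0 z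
  map_add' z w := by apply ext' <;> simp
  map_smul' c z := by apply ext' <;> simp

lemma span_eq_top (hsurj : ∀ z, z ∈ Submodule.span ℂ {w | ∃ a b, w = T a b}) :
    Submodule.span ℂ {x : Tri T hT | ∃ a b, x = a * b} = ⊤ := by
  rw [eq_top_iff]
  intro x _
  have hx : x = mk x.out.1 x.out.2.1 0 0 * mk 1 0 0 0 + mk 1 0 0 0 * mk 0 0 x.out.2.2.1 0 +
      corner x.out.2.2.2 := by
    apply ext' <;> simp [corner]
  rw [hx]
  refine Submodule.add_mem _ (Submodule.add_mem _ (Submodule.subset_span ⟨_, _, rfl⟩)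
    (Submodule.subset_span ⟨_, _, rfl⟩)) ?_
  have h := Submodule.mem_map_of_mem (f := (corner : Z →ₗ[ℂ] Tri T hT)) (hsurj x.out.2.2.2)
  rw [Submodule.map_span] at h
  refine Submodule.span_mono ?_ h
  rintro _ ⟨_, ⟨a, b, rfl⟩, rfl⟩
  refine ⟨mk 0 a 0 0, mk 0 0 b 0, ?_⟩
  apply ext' <;> simp [corner]

lemma not_S (hno : ∀ C : ℝ, ∃ z, ∀ (m : ℕ) (a b : Fin m → E), z = ∑ l, T (a l) (b l) →
      C * ‖z‖ < ∑ l, ‖a l‖ * ‖b l‖) (C : ℝ) :
    ∃ x : Tri T hT, ∀ (m : ℕ) (a b : Fin m → Tri T hT), x = ∑ l, a l * b l →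
      C * ‖x‖ < ∑ l, ‖a l‖ * ‖b l‖ := by
  obtain ⟨z, hz⟩ := hno C
  refine ⟨corner z, fun m a b hab => ?_⟩
  have hnorm : ‖(corner z : Tri T hT)‖ = ‖z‖ := by
    rw [← norm_out]
    simp [corner]
  let π : Tri T hT →+ Z :=
    { toFun := fun x => x.out.2.2.2
      map_zero' := rfl
      map_add' := fun _ _ => rfl }
  have h1 : z = ∑ l, T (a l).out.2.1 (b l).out.2.2.1 := by
    have := congrArg π hab
    rw [map_sum] at this
    exact this
  rw [hnorm]
  refine (hz m _ _ h1).trans_le (Finset.sum_le_sum fun l _ => ?_)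
  gcongr
  · exact norm_e _
  · exact norm_f _

end Tri

end Pool.Agent.P.MP_0279ce_an
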