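import Mathlib

/-! Uniform limits of polynomials on subsets of a polydisc, and local sums of products. -/

namespace Pool.Agent.P.MP_0279ce_an.Unif

open MvPolynomial Filter
open scoped Topology

variable {V : Type}

/-- The closed unit polydisc. -/
def DD (V : Type) : Set (V → ℂ) := {q | ∀ v, ‖q v‖ ≤ 1}

/-- Uniform limits of polynomials on a set. -/
def Ap (S : Set (V → ℂ)) (f : (V → ℂ) → ℂ) : Prop :=
  ∀ ε : ℝ, 0 < ε → ∃ g : MvPolynomial V ℂ, ∀ q ∈ S, ‖f q - eval q g‖ ≤ ε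

/-- The radial retraction onto a closed disc. -/
noncomputable def cl (r : ℝ) (z : ℂ) : ℂ := ((r / max r ‖z‖ : ℝ) : ℂ) * z

/-- Functions that near the origin are finite sums of products of approximable functions
vanishing at the origin. -/
def WL (S : Set (V → ℂ)) (f : (V → ℂ) → ℂ) : Prop :=
  ∃ U ∈ 𝓝 (0 : V → ℂ), ∃ (κ : Type) (_ : Fintype κ) (a b : κ → (V → ℂ) → ℂ),
    (∀ i, Ap (S ∩ U) (a i)) ∧ (∀ i, Ap (S ∩ U) (b i)) ∧ (∀ i, a i 0 = 0) ∧ (∀ i, b i 0 = 0) ∧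
    ∀ q ∈ S ∩ U, f q = ∑ i, a i q * b i q

variable {S S' : Set (V → ℂ)} {f g : (V → ℂ) → ℂ}

lemma isCompact_DD : IsCompact (DD V) := by
  have : DD V = Set.univ.pi fun _ : V => Metric.closedBall (0 : ℂ) 1 := by
    ext; simp [DD]
  rw [this]
  exact isCompact_univ_pi fun v => isCompact_closedBall _ _

lemma zero_mem_DD : (0 : V → ℂ) ∈ DD V := fun v => by simp

lemma continuous_cl {r : ℝ} (hr : 0 < r) : Continuous (cl r) := by
  refine Continuous.mul (Complex.continuous_ofReal.comp ?_) continuous_id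
  exact continuous_const.div (continuous_const.max continuous_norm)
    fun z => (hr.trans_le (le_max_left _ _)).ne'

lemma norm_cl_le {r : ℝ} (hr : 0 < r) (z : ℂ) : ‖cl r z‖ ≤ r := by
  have h : 0 < max r ‖z‖ := hr.trans_le (le_max_left _ _)
  rw [cl, norm_mul, Complex.norm_real, Real.norm_of_nonneg (by positivity), div_mul_eq_mul_div,
    div_le_iff₀ h]
  exact mul_le_mul_of_nonneg_left (le_max_right _ _) hr.le

lemma cl_of_le {r : ℝ} (hr : 0 < r) {z : ℂ} (hz : ‖z‖ ≤ r) : cl r z = z := by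
  rw [cl, max_eq_left hz, div_self hr.ne', Complex.ofReal_one, one_mul]

lemma ap_poly (S : Set (V → ℂ)) (p : MvPolynomial V ℂ) : Ap S fun q => eval q p :=
  fun _ hε => ⟨p, fun q _ => by simpa using hε.le⟩

lemma ap_const (S : Set (V → ℂ)) (c : ℂ) : Ap S fun _ => c :=
  fun _ hε => ⟨C c, fun q _ => by simpa using hε.le⟩

lemma ap_coord (S : Set (V → ℂ)) (v : V) : Ap S fun q => q v :=
  fun _ hε => ⟨X v, fun q _ => by simpa using hε.le⟩

lemma Ap.mono (h : Ap S f) (hS : S' ⊆ S) : Ap S' f :=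
  fun ε hε => (h ε hε).imp fun _ hp q hq => hp q (hS hq)

lemma Ap.congr (h : Ap S f) (hg : ∀ q ∈ S, g q = f q) : Ap S g :=
  fun ε hε => (h ε hε).imp fun _ hp q hq => by rw [hg q hq]; exact hp q hq

lemma Ap.add (hf : Ap S f) (hg : Ap S g) : Ap S fun q => f q + g q := fun ε hε => by
  obtain ⟨p, hp⟩ := hf (ε / 2) (half_pos hε)
  obtain ⟨r, hr⟩ := hg (ε / 2) (half_pos hε)
  refine ⟨p + r, fun q hq => ?_⟩
  rw [map_add, add_sub_add_comm]
  exact (norm_add_le _ _).trans (by linarith [hp q hq, hr q hq])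

lemma Ap.const_mul (hf : Ap S f) (c : ℂ) : Ap S fun q => c * f q := fun ε hε => by
  obtain ⟨p, hp⟩ := hf (ε / (‖c‖ + 1)) (by positivity)
  refine ⟨C c * p, fun q hq => ?_⟩
  rw [map_mul, eval_C, ← mul_sub, norm_mul]
  have h1 := hp q hq
  rw [le_div_iff₀ (by positivity)] at h1
  nlinarith [norm_nonneg (f q - eval q p), norm_nonneg c]

lemma Ap.sub (hf : Ap S f) (hg : Ap S g) : Ap S fun q => f q - g q :=
  (hf.add (hg.const_mul (-1))).congr fun q _ => by ring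

lemma ap_sum {κ : Type} (T : Finset κ) {a : κ → (V → ℂ) → ℂ} (h : ∀ i ∈ T, Ap S (a i)) :
    Ap S fun q => ∑ i ∈ T, a i q := by
  classical
  induction T using Finset.induction_on with
  | empty => simpa using ap_const S 0
  | insert i T hi ih =>
    simp only [Finset.sum_insert hi]
    exact (h i (Finset.mem_insert_self _ _)).add (ih fun j hj => h j (Finset.mem_insert_of_mem hj))

lemma ap_lim (h : ∀ ε : ℝ, 0 < ε → ∃ g, Ap S g ∧ ∀ q ∈ S, ‖f q - g q‖ ≤ ε) : Ap S f := by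
  intro ε hε
  obtain ⟨g, hg, h1⟩ := h (ε / 2) (half_pos hε)
  obtain ⟨p, hp⟩ := hg (ε / 2) (half_pos hε)
  refine ⟨p, fun q hq => ?_⟩
  rw [← sub_add_sub_cancel _ (g q)]
  exact (norm_add_le _ _).trans (by linarith [hp q hq, h1 q hq])

lemma Ap.bdd (hS : S ⊆ DD V) (h : Ap S f) : ∃ M : ℝ, 0 < M ∧ ∀ q ∈ S, ‖f q‖ ≤ M := by
  obtain ⟨p, hp⟩ := h 1 one_pos
  obtain ⟨M, hM⟩ := isCompact_DD.exists_bound_of_continuousOn
    (MvPolynomial.continuous_eval p).continuousOn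
  refine ⟨|M| + 1, by positivity, fun q hq => ?_⟩
  have := norm_add_le (f q - eval q p) (eval q p)
  rw [sub_add_cancel] at this
  linarith [hp q hq, hM q (hS hq), le_abs_self M]

lemma Ap.mul (hS : S ⊆ DD V) (hf : Ap S f) (hg : Ap S g) : Ap S fun q => f q * g q := by
  obtain ⟨M, hM, h1⟩ := hf.bdd hS
  obtain ⟨N, hN, h2⟩ := hg.bdd hS
  intro ε hε
  obtain ⟨p, hp⟩ := hf (ε / (2 * N)) (by positivity)
  obtain ⟨K, hK, h3⟩ := (ap_poly S p).bdd hS
  obtain ⟨r, hr⟩ := hg (ε / (2 * K)) (by positivity)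
  refine ⟨p * r, fun q hq => ?_⟩
  have h4 : f q * g q - eval q (p * r) =
      (f q - eval q p) * g q + eval q p * (g q - eval q r) := by rw [map_mul]; ring
  rw [h4]
  refine (norm_add_le _ _).trans ?_
  rw [norm_mul, norm_mul]
  have h5 : ‖f q - eval q p‖ * ‖g q‖ ≤ ε / (2 * N) * N :=
    mul_le_mul (hp q hq) (h2 q hq) (norm_nonneg _) (by positivity)
  have h6 : ‖eval q p‖ * ‖g q - eval q r‖ ≤ K * (ε / (2 * K)) :=
    mul_le_mul (h3 q hq) (hr q hq) (norm_nonneg _) hK.le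
  have h7 : ε / (2 * N) * N = ε / 2 := by field_simp
  have h8 : K * (ε / (2 * K)) = ε / 2 := by field_simp
  linarith

lemma Ap.pow (hS : S ⊆ DD V) (hf : Ap S f) (n : ℕ) : Ap S fun q => f q ^ n := by
  induction n with
  | zero => simpa using ap_const S 1
  | succ n ih => simpa only [pow_succ] using ih.mul hS hf

lemma ap_tsum {a : ℕ → (V → ℂ) → ℂ} {c : ℕ → ℝ} (hc : Summable c) (h : ∀ n, Ap S (a n))
    (hb : ∀ n, ∀ q ∈ S, ‖a n q‖ ≤ c n) : Ap S fun q => ∑' n, a n q := by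
  refine ap_lim fun ε hε => ?_
  have h1 := Metric.tendstoUniformlyOn_iff.1 (tendstoUniformlyOn_tsum_nat hc hb) ε hε
  obtain ⟨N, hN⟩ := h1.exists
  exact ⟨_, ap_sum (Finset.range N) fun n _ => h n, fun q hq => by
    simpa [dist_eq_norm] using (hN q hq).le⟩

lemma Ap.comp {V' : Type} {T : Set (V' → ℂ)} (hT : T ⊆ DD V') (h : Ap S f)
    {φ : (V' → ℂ) → V → ℂ} (hφ : ∀ q ∈ T, φ q ∈ S) (hc : ∀ v, Ap T fun q => φ q v) :
    Ap T fun q => f (φ q) := by
  have h1 : ∀ p : MvPolynomial V ℂ, Ap T fun q => eval (φ q) p := fun p => by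
    induction p using MvPolynomial.induction_on with
    | C c => simpa using ap_const T c
    | add a b ha hb => simpa only [map_add] using ha.add hb
    | mul_X a v ha => simpa only [map_mul, eval_X] using ha.mul hT (hc v)
  refine ap_lim fun ε hε => ?_
  obtain ⟨p, hp⟩ := h ε hε
  exact ⟨_, h1 p, fun q hq => hp _ (hφ q hq)⟩

lemma Ap.exists_seq (h : Ap S f) : ∃ p : ℕ → MvPolynomial V ℂ,
    TendstoUniformlyOn (fun n q => eval q (p n)) f atTop S := by
  choose p hp using fun n : ℕ => h (1 / ((n : ℝ) + 1)) (by positivity)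
  refine ⟨p, Metric.tendstoUniformlyOn_iff.2 fun ε hε => ?_⟩
  filter_upwards [(tendsto_one_div_add_atTop_nhds_zero_nat (𝕜 := ℝ)).eventually
    (gt_mem_nhds hε)] with n hn q hq
  rw [dist_eq_norm]
  exact (hp n q hq).trans_lt hn

lemma Ap.continuousOn (h : Ap S f) : ContinuousOn f S := by
  obtain ⟨p, hp⟩ := h.exists_seq
  exact hp.continuousOn (Frequently.of_forall fun n =>
    (MvPolynomial.continuous_eval (p n)).continuousOn)

lemma Ap.tele (h : Ap S f) {M : ℝ} (hM : 0 < M) (hb : ∀ q ∈ S, ‖f q‖ ≤ M) :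
    ∃ r : ℕ → MvPolynomial V ℂ, (∀ n, ∀ q ∈ S, ‖eval q (r n)‖ ≤ 2 * M * (1 / 2) ^ n) ∧
      ∀ q ∈ S, HasSum (fun n => eval q (r n)) (f q) := by
  choose p hp using fun n : ℕ => h (M * (1 / 2) ^ (n + 1)) (by positivity)
  let P : ℕ → MvPolynomial V ℂ := fun n => Nat.casesOn n 0 p
  have hP : ∀ n, ∀ q ∈ S, ‖f q - eval q (P n)‖ ≤ M * (1 / 2) ^ n := by
    rintro (_ | n) q hq
    · simpa [P] using hb q hq
    · exact hp n q hq
  have h1 : ∀ n, ∀ q ∈ S, ‖eval q (P (n + 1) - P n)‖ ≤ 2 * M * (1 / 2) ^ n := fun n q hq => by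
    have h2 : eval q (P (n + 1) - P n) = (f q - eval q (P n)) - (f q - eval q (P (n + 1))) := by
      rw [map_sub]; ring
    rw [h2]
    refine (norm_sub_le _ _).trans ?_
    have h3 := hP n q hq
    have h4 := hP (n + 1) q hq
    have h5 : 0 < M * (1 / 2 : ℝ) ^ n := by positivity
    rw [pow_succ] at h4
    linarith
  refine ⟨fun n => P (n + 1) - P n, h1, fun q hq => ?_⟩
  have hs : Summable fun n => eval q (P (n + 1) - P n) :=
    Summable.of_norm_bounded (summable_geometric_two.mul_left (2 * M)) fun n => h1 n q hq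
  rw [hs.hasSum_iff_tendsto_nat]
  simp only [map_sub]
  simp only [Finset.sum_range_sub fun n => eval q (P n)]
  rw [tendsto_iff_norm_sub_tendsto_zero]
  refine squeeze_zero (fun _ => norm_nonneg _) (fun n => ?_)
    (by simpa using (tendsto_pow_atTop_nhds_zero_of_lt_one (r := (1 / 2 : ℝ)) (by norm_num)
      (by norm_num)).const_mul M)
  rw [norm_sub_rev]
  simpa [P] using hP n q hq

lemma Ap.exists_ext (h : Ap S f) {r : ℝ} (hr : 0 < r) (hb : ∀ q ∈ S, ‖f q‖ ≤ r) :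
    ∃ g : (V → ℂ) → ℂ, Continuous g ∧ (∀ q, ‖g q‖ ≤ r) ∧ ∀ q ∈ S, g q = f q := by
  obtain ⟨p, h1, h2⟩ := h.tele hr hb
  have h3 : ∀ n : ℕ, 0 < 2 * r * (1 / 2 : ℝ) ^ n := fun n => by positivity
  refine ⟨fun q => cl r (∑' n, cl (2 * r * (1 / 2) ^ n) (eval q (p n))),
    (continuous_cl hr).comp (continuous_tsum
      (fun n => (continuous_cl (h3 n)).comp (MvPolynomial.continuous_eval (p n)))
      (summable_geometric_two.mul_left (2 * r)) fun n q => norm_cl_le (h3 n) _),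
    fun q => norm_cl_le hr _, fun q hq => ?_⟩
  simp only [fun n => cl_of_le (h3 n) (h1 n q hq), (h2 q hq).tsum_eq, cl_of_le hr (hb q hq)]

lemma differentiable_eval {γ : ℂ → V → ℂ} (hγ : ∀ v, Differentiable ℂ fun t => γ t v)
    (p : MvPolynomial V ℂ) : Differentiable ℂ fun t => eval (γ t) p := by
  induction p using MvPolynomial.induction_on with
  | C c => simp
  | add a b ha hb => simpa only [map_add] using ha.fun_add hb
  | mul_X a v ha => simpa only [map_mul, eval_X] using ha.fun_mul (hγ v)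

lemma Ap.line (h : Ap S f) {γ : ℂ → V → ℂ} (hγ : ∀ v, Differentiable ℂ fun t => γ t v) {r : ℝ}
    (hr : 0 < r) (hS : ∀ t : ℂ, ‖t‖ ≤ r → γ t ∈ S) :
    DiffContOnCl ℂ (fun t => f (γ t)) (Metric.ball 0 r) := by
  obtain ⟨p, hp⟩ := h.exists_seq
  have h1 : TendstoUniformlyOn (fun n t => eval (γ t) (p n)) (fun t => f (γ t)) atTop
      (Metric.closedBall 0 r) :=
    (hp.comp γ).mono fun t ht => hS t (mem_closedBall_zero_iff.1 ht)
  refine ⟨(h1.mono Metric.ball_subset_closedBall).tendstoLocallyUniformlyOn.differentiableOn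
    (Eventually.of_forall fun n => (differentiable_eval hγ (p n)).differentiableOn)
    Metric.isOpen_ball, ?_⟩
  rw [closure_ball _ hr.ne']
  exact h1.continuousOn (Frequently.of_forall fun n =>
    (differentiable_eval hγ (p n)).continuous.continuousOn)

lemma exists_basic {U : Set (V → ℂ)} (hU : U ∈ 𝓝 (0 : V → ℂ)) :
    ∃ (F : Finset V) (δ : ℝ), 0 < δ ∧ δ ≤ 1 ∧ ∀ q : V → ℂ, (∀ w ∈ F, ‖q w‖ ≤ δ) → q ∈ U := by
  rw [nhds_pi, Filter.mem_pi'] at hU
  obtain ⟨F, t, ht, htU⟩ := hU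
  have h1 : ∀ᶠ ε in 𝓝[>] (0 : ℝ), ∀ v ∈ F, Metric.closedBall (0 : ℂ) ε ⊆ t v := by
    rw [eventually_all_finset]
    intro v _
    exact nhdsWithin_le_nhds (eventually_closedBall_subset (ht v))
  have h2 : ∀ᶠ ε in 𝓝[>] (0 : ℝ), ε ≤ 1 := nhdsWithin_le_nhds (Iic_mem_nhds one_pos)
  obtain ⟨δ, ⟨h3, h4⟩, h5⟩ := ((h1.and h2).and self_mem_nhdsWithin).exists
  exact ⟨F, δ, h5, h4, fun q hq => htU fun v hv => h3 v hv (mem_closedBall_zero_iff.2 (hq v hv))⟩

lemma basic_mem_nhds (F : Finset V) {δ : ℝ} {p : V → ℂ} (hp : ∀ w ∈ F, ‖p w‖ < δ) :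
    {q : V → ℂ | ∀ w ∈ F, ‖q w‖ ≤ δ} ∈ 𝓝 p := by
  have : ∀ᶠ q in 𝓝 p, ∀ w ∈ F, ‖q w‖ ≤ δ := by
    rw [eventually_all_finset]
    intro w hw
    have h1 : Continuous fun q : V → ℂ => ‖q w‖ := (continuous_apply w).norm
    exact ((h1.tendsto p).eventually (gt_mem_nhds (hp w hw))).mono fun q hq => hq.le
  exact this

lemma WL.congr (h : WL S f) (hg : ∀ q ∈ S, g q = f q) : WL S g := by
  obtain ⟨U, hU, κ, _, a, b, h1, h2, h3, h4, h5⟩ := h
  exact ⟨U, hU, κ, inferInstance, a, b, h1, h2, h3, h4, fun q hq => (hg q hq.1).trans (h5 q hq)⟩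

lemma WL.of_inter {U : Set (V → ℂ)} (hU : U ∈ 𝓝 (0 : V → ℂ)) (h : WL (S ∩ U) f) : WL S f := by
  obtain ⟨U', hU', κ, _, a, b, h1, h2, h3, h4, h5⟩ := h
  rw [Set.inter_assoc] at h1 h2 h5
  exact ⟨_, inter_mem hU hU', κ, inferInstance, a, b, h1, h2, h3, h4, h5⟩

lemma wl_sum_mul {κ : Type} [Fintype κ] {a b : κ → (V → ℂ) → ℂ} (ha : ∀ i, Ap S (a i))
    (hb : ∀ i, Ap S (b i)) (ha0 : ∀ i, a i 0 = 0) (hb0 : ∀ i, b i 0 = 0) :
    WL S fun q => ∑ i, a i q * b i q :=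
  ⟨Set.univ, univ_mem, κ, inferInstance, a, b, fun i => (ha i).mono Set.inter_subset_left,
    fun i => (hb i).mono Set.inter_subset_left, ha0, hb0, fun _ _ => rfl⟩

lemma wl_mul (hf : Ap S f) (hg : Ap S g) (hf0 : f 0 = 0) (hg0 : g 0 = 0) :
    WL S fun q => f q * g q :=
  (wl_sum_mul (κ := Unit) (a := fun _ => f) (b := fun _ => g) (fun _ => hf) (fun _ => hg)
    (fun _ => hf0) fun _ => hg0).congr fun q _ => by simp

lemma WL.add (hf : WL S f) (hg : WL S g) : WL S fun q => f q + g q := by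
  obtain ⟨U, hU, κ, _, a, b, h1, h2, h3, h4, h5⟩ := hf
  obtain ⟨U', hU', κ', _, a', b', h1', h2', h3', h4', h5'⟩ := hg
  have e1 : S ∩ (U ∩ U') ⊆ S ∩ U := fun q hq => ⟨hq.1, hq.2.1⟩
  have e2 : S ∩ (U ∩ U') ⊆ S ∩ U' := fun q hq => ⟨hq.1, hq.2.2⟩
  refine ⟨_, inter_mem hU hU', κ ⊕ κ', inferInstance, Sum.elim a a', Sum.elim b b', ?_, ?_, ?_, ?_,
    fun q hq => ?_⟩
  · rintro (i | i)
    exacts [(h1 i).mono e1, (h1' i).mono e2]
  · rintro (i | i)
    exacts [(h2 i).mono e1, (h2' i).mono e2]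
  · rintro (i | i)
    exacts [h3 i, h3' i]
  · rintro (i | i)
    exacts [h4 i, h4' i]
  · rw [Fintype.sum_sum_type]
    exact congrArg₂ (· + ·) (h5 q (e1 hq)) (h5' q (e2 hq))

lemma WL.const_mul (hf : WL S f) (c : ℂ) : WL S fun q => c * f q := by
  obtain ⟨U, hU, κ, _, a, b, h1, h2, h3, h4, h5⟩ := hf
  refine ⟨U, hU, κ, inferInstance, fun i q => c * a i q, b, fun i => (h1 i).const_mul c, h2,
    fun i => by simp only [h3, mul_zero], h4, fun q hq => ?_⟩
  simp only [h5 q hq, Finset.mul_sum, mul_assoc]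

end Pool.Agent.P.MP_0279ce_an.Unif
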