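import Pool.Agent.P.MP_0279ce_an.UTow

/-! The infinite sum of squares is not locally a finite sum of products. -/

namespace Pool.Agent.P.MP_0279ce_an.Unif

open MvPolynomial Filter
open scoped Topology

lemma base_lin {V : Type} (p : MvPolynomial V ℂ) : ∃ D : (V → ℂ) →ₗ[ℂ] ℂ,
    ∀ w, HasDerivAt (fun t : ℂ => eval (t • w) p) (D w) 0 := by
  induction p using MvPolynomial.induction_on with
  | C c => exact ⟨0, fun w => by simpa using hasDerivAt_const (0 : ℂ) c⟩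
  | add a b ha hb =>
    obtain ⟨D, hD⟩ := ha
    obtain ⟨E, hE⟩ := hb
    exact ⟨D + E, fun w => by simpa only [map_add, LinearMap.add_apply] using (hD w).fun_add (hE w)⟩
  | mul_X a v ha =>
    obtain ⟨D, hD⟩ := ha
    refine ⟨eval 0 a • LinearMap.proj v, fun w => ?_⟩
    have h1 := (hD w).fun_mul ((hasDerivAt_id' (0 : ℂ)).mul_const (w v))
    simpa using h1

lemma base_der {V : Type} {S : Set (V → ℂ)} {f : (V → ℂ) → ℂ} (h : Ap S f) :
    ∃ D : ℕ → (V → ℂ) →ₗ[ℂ] ℂ, ∀ (w : V → ℂ) (δ : ℝ), 0 < δ →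
      (∀ t : ℂ, ‖t‖ ≤ δ → t • w ∈ S) → ∃ l, HasDerivAt (fun t : ℂ => f (t • w)) l 0 ∧
      Tendsto (fun n => D n w) atTop (𝓝 l) := by
  obtain ⟨p, hp⟩ := h.exists_seq
  choose D hD using fun n => base_lin (p n)
  refine ⟨D, fun w δ hδ hS => ?_⟩
  have hγ : ∀ v, Differentiable ℂ fun t : ℂ => (t • w) v := fun v =>
    differentiable_id.mul_const (w v)
  have h0 : (0 : ℂ) ∈ Metric.ball (0 : ℂ) δ := Metric.mem_ball_self hδ
  have h1 : TendstoLocallyUniformlyOn (fun n (t : ℂ) => eval (t • w) (p n))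
      (fun t => f (t • w)) atTop (Metric.ball 0 δ) :=
    ((hp.comp fun t : ℂ => t • w).mono fun t ht =>
      hS t (mem_ball_zero_iff.1 ht).le).tendstoLocallyUniformlyOn
  have h2 := (h1.deriv (Eventually.of_forall fun n =>
    (differentiable_eval hγ (p n)).differentiableOn) Metric.isOpen_ball).tendsto_at h0
  refine ⟨_, (((h.line hγ hδ hS).differentiableOn.differentiableAt
    (Metric.isOpen_ball.mem_nhds h0))).hasDerivAt, ?_⟩
  exact h2.congr fun n => (hD n w).deriv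

/-- The direction with the given first coordinates. -/
noncomputable def base_w (I : Type) {N : ℕ} (ξ : Fin N → ℝ) : VI I → ℂ :=
  Sum.elim (fun n => if h : n < N then (ξ ⟨n, h⟩ : ℂ) else 0) fun _ => 0

lemma base_w_sum (I : Type) {N : ℕ} (ξ : Fin N → ℝ) :
    base_w I ξ = ∑ n, (ξ n : ℂ) • base_w I (Pi.single n 1) := by
  funext v
  rw [Finset.sum_apply]
  rcases v with m | v
  · by_cases h : m < N
    · simp only [base_w, Sum.elim_inl, Pi.smul_apply, dif_pos h, smul_eq_mul]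
      rw [Finset.sum_eq_single ⟨m, h⟩ (fun n _ hn => by simp [Pi.single_eq_of_ne hn.symm])
        (by simp)]
      simp
    · simp [base_w, h]
  · simp [base_w]

lemma base_w_le (I : Type) {N : ℕ} {ξ : Fin N → ℝ} (hξ : ‖ξ‖ ≤ 1) (t : ℂ) (v : VI I) :
    ‖(t • base_w I ξ) v‖ ≤ ‖t‖ := by
  rw [Pi.smul_apply, norm_smul]
  refine mul_le_of_le_one_right (norm_nonneg _) ?_
  rcases v with m | v
  · by_cases h : m < N
    · simp only [base_w, Sum.elim_inl, dif_pos h, Complex.norm_real]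
      exact (norm_le_pi_norm ξ _).trans hξ
    · simp [base_w, h]
  · simp [base_w]

lemma base_zz (I : Type) {N : ℕ} {ξ : Fin N → ℝ} {t : ℂ} (h : t • base_w I ξ ∈ DD (VI I)) :
    zz (t • base_w I ξ) = t ^ 2 * ((∑ n : Fin N, 1 / 32 * (1 / 2) ^ n.1 * ξ n ^ 2 : ℝ) : ℂ) := by
  rw [zz, tsum_eq_sum (s := Finset.range N) fun n hn => by
    rw [zt_eq n h]
    simp [base_w, show ¬ n < N by simpa using hn], Finset.sum_range]
  push_cast
  rw [Finset.mul_sum]
  refine Finset.sum_congr rfl fun n _ => ?_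
  rw [zt_eq _ h]
  simp only [base_w, Pi.smul_apply, Sum.elim_inl, dif_pos n.2, smul_eq_mul]
  ring

theorem not_WL_zz {I : Type} : ¬ WL (DD (VI I)) zz := by
  rintro ⟨U, hU, κ, _, a, b, ha, hb, ha0, hb0, hz⟩
  obtain ⟨F, δ, hδ, hδ1, hF⟩ := exists_basic hU
  obtain ⟨N, hN⟩ : ∃ N, N = 2 * Fintype.card κ + 1 := ⟨_, rfl⟩
  have hS : ∀ ξ : Fin N → ℝ, ‖ξ‖ ≤ 1 → ∀ t : ℂ, ‖t‖ ≤ δ → t • base_w I ξ ∈ DD (VI I) ∩ U :=
    fun ξ hξ t ht => ⟨fun v => (base_w_le I hξ t v).trans (ht.trans hδ1),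
      hF _ fun v _ => (base_w_le I hξ t v).trans ht⟩
  choose D hD using fun i => base_der (ha i)
  have he : ∀ n : Fin N, ‖(Pi.single n 1 : Fin N → ℝ)‖ ≤ 1 := fun n => by
    rw [Pi.norm_single, norm_one]
  choose l _ hl using fun i (n : Fin N) => hD i _ δ hδ (hS _ (he n))
  let L : (Fin N → ℝ) →ₗ[ℝ] (κ → ℂ) :=
    { toFun := fun ξ i => ∑ n, (ξ n : ℂ) * l i n
      map_add' := fun ξ η => by ext i; simp [add_mul, Finset.sum_add_distrib]
      map_smul' := fun c ξ => by ext i; simp [Finset.mul_sum, mul_assoc] }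
  obtain ⟨ξ0, hξ0, hne0⟩ := Submodule.exists_mem_ne_zero_of_ne_bot
    (L.ker_ne_bot_of_finrank_lt (by simp [hN, Module.finrank_pi_fintype, mul_comm]))
  obtain ⟨ξ, hξ, hne, hle⟩ : ∃ ξ : Fin N → ℝ, L ξ = 0 ∧ ξ ≠ 0 ∧ ‖ξ‖ ≤ 1 := by
    have h1 : ‖ξ0‖ ≠ 0 := norm_ne_zero_iff.2 hne0
    refine ⟨‖ξ0‖⁻¹ • ξ0, by rw [map_smul, LinearMap.mem_ker.1 hξ0, smul_zero],
      smul_ne_zero (inv_ne_zero h1) hne0, ?_⟩
    rw [norm_smul, norm_inv, norm_norm, inv_mul_cancel₀ h1]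
  obtain ⟨c, hc⟩ : ∃ c : ℝ, c = ∑ n : Fin N, 1 / 32 * (1 / 2) ^ n.1 * ξ n ^ 2 := ⟨_, rfl⟩
  have hc0 : 0 < c := by
    obtain ⟨n, hn⟩ := Function.ne_iff.1 hne
    have hn' : ξ n ≠ 0 := hn
    rw [hc]
    exact Finset.sum_pos' (fun _ _ => by positivity) ⟨n, Finset.mem_univ _, by positivity⟩
  have h1 : ∀ i, HasDerivAt (fun t : ℂ => a i (t • base_w I ξ)) 0 0 := by
    intro i
    obtain ⟨m, h2, h3⟩ := hD i _ δ hδ (hS ξ hle)
    have h4 : Tendsto (fun k => D i k (base_w I ξ)) atTop (𝓝 (L ξ i)) := by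
      refine (tendsto_finsetSum Finset.univ fun n _ => (hl i n).const_mul (ξ n : ℂ)).congr
        fun k => ?_
      rw [base_w_sum I ξ, map_sum]
      exact Finset.sum_congr rfl fun n _ => by rw [map_smul, smul_eq_mul]
    rw [hξ] at h4
    have h5 : m = 0 := tendsto_nhds_unique h3 h4
    rwa [h5] at h2
  have h2 : ∀ i, ∃ m, HasDerivAt (fun t : ℂ => b i (t • base_w I ξ)) m 0 := fun i => by
    obtain ⟨E, hE⟩ := base_der (hb i)
    exact (hE _ δ hδ (hS ξ hle)).imp fun _ h => h.1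
  choose m hm using h2
  have h3 := tendsto_finsetSum Finset.univ fun i _ =>
    (hasDerivAt_iff_tendsto_slope_zero.1 (h1 i)).mul (hasDerivAt_iff_tendsto_slope_zero.1 (hm i))
  have h4 : Tendsto (fun _ : ℂ => (c : ℂ)) (𝓝[≠] (0 : ℂ)) (𝓝 (∑ i, 0 * m i)) := by
    refine h3.congr' ?_
    filter_upwards [self_mem_nhdsWithin,
      nhdsWithin_le_nhds (Metric.closedBall_mem_nhds (0 : ℂ) hδ)] with t ht0 ht
    have ht1 : t ≠ 0 := ht0
    have h5 := hS ξ hle t (mem_closedBall_zero_iff.1 ht)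
    have h6 := hz _ h5
    rw [base_zz I h5.1, ← hc] at h6
    simp only [zero_add, zero_smul, ha0, hb0, sub_zero, smul_eq_mul]
    have h7 : (c : ℂ) = t⁻¹ * t⁻¹ * (t ^ 2 * c) := by field_simp
    rw [h7, h6, Finset.mul_sum]
    exact Finset.sum_congr rfl fun i _ => by ring
  have h5 := tendsto_nhds_unique tendsto_const_nhds h4
  simp only [zero_mul, Finset.sum_const_zero, Complex.ofReal_eq_zero] at h5
  exact hc0.ne' h5

end Pool.Agent.P.MP_0279ce_an.Unif
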