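import Pool.Agent.P.MP_0279ce_an.UFibD

/-! Bounds for a decomposition by the maximum modulus principle. -/

namespace Pool.Agent.P.MP_0279ce_an.Unif

open MvPolynomial Filter
open scoped Topology

lemma ub_circle {δ : ℝ} (hδ : 0 < δ) {A : ℂ → ℂ} (hA : DiffContOnCl ℂ A (Metric.ball 0 δ)) :
    ∃ x0 : ℂ, ‖x0‖ = δ ∧ ∀ x : ℂ, ‖x‖ ≤ δ → ‖A x‖ ≤ ‖A x0‖ := by
  obtain ⟨z, hz, hmax⟩ := Complex.exists_mem_frontier_isMaxOn_norm Metric.isBounded_ball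
    (Metric.nonempty_ball.2 hδ) hA
  rw [frontier_ball _ hδ.ne', mem_sphere_zero_iff_norm] at hz
  rw [closure_ball _ hδ.ne'] at hmax
  exact ⟨z, hz, fun x hx => hmax (mem_closedBall_zero_iff.2 hx)⟩

/-- One-variable bound on the three parts of a function on the curve `x y = s`. -/
lemma ub_bnd {δ M : ℝ} (hδ : 0 < δ) {s a0 : ℂ} (hs : ‖s‖ ≤ δ ^ 2 / 16) {A B : ℂ → ℂ}
    (hA : DiffContOnCl ℂ A (Metric.ball 0 δ)) (hB : DiffContOnCl ℂ B (Metric.ball 0 δ))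
    (h : ∀ x y : ℂ, x * y = s → ‖x‖ ≤ δ → ‖y‖ ≤ δ → ‖a0 + x * A x + y * B y‖ ≤ M) :
    (∀ x : ℂ, ‖x‖ ≤ δ → ‖A x‖ ≤ 10 * M / δ) ∧ (∀ y : ℂ, ‖y‖ ≤ δ → ‖B y‖ ≤ 10 * M / δ) ∧
      ‖a0‖ ≤ 4 * M := by
  obtain ⟨x0, hx0, hAm⟩ := ub_circle hδ hA
  obtain ⟨y0, hy0, hBm⟩ := ub_circle hδ hB
  have hdiv : ∀ x : ℂ, ‖x‖ = δ → x * (s / x) = s ∧ ‖s / x‖ ≤ δ / 16 := by
    intro x hx
    have hx0 : x ≠ 0 := by
      rintro rfl
      rw [norm_zero] at hx
      exact hδ.ne hx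
    refine ⟨mul_div_cancel₀ _ hx0, ?_⟩
    rw [norm_div, hx, div_le_iff₀ hδ]
    nlinarith
  have tri : ∀ a b c : ℂ, ‖b‖ ≤ ‖a + b + c‖ + ‖a‖ + ‖c‖ := by
    intro a b c
    have h1 : b = (a + b + c) - a - c := by ring
    calc ‖b‖ = ‖(a + b + c) - a - c‖ := by rw [← h1]
      _ ≤ ‖(a + b + c) - a‖ + ‖c‖ := norm_sub_le _ _
      _ ≤ ‖a + b + c‖ + ‖a‖ + ‖c‖ := by gcongr; exact norm_sub_le _ _
  have hα := norm_nonneg (A x0)
  have hβ := norm_nonneg (B y0)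
  have e1 : δ * ‖A x0‖ ≤ M + ‖a0‖ + δ / 16 * ‖B y0‖ := by
    obtain ⟨h1, h2⟩ := hdiv x0 hx0
    have h3 : ‖s / x0‖ ≤ δ := by linarith
    have h4 := h x0 (s / x0) h1 hx0.le h3
    have h5 := tri a0 (x0 * A x0) (s / x0 * B (s / x0))
    have h6 : ‖s / x0 * B (s / x0)‖ ≤ δ / 16 * ‖B y0‖ := by
      rw [norm_mul]
      exact mul_le_mul h2 (hBm _ h3) (norm_nonneg _) (by positivity)
    rw [norm_mul, hx0] at h5
    linarith
  have e2 : δ * ‖B y0‖ ≤ M + ‖a0‖ + δ / 16 * ‖A x0‖ := by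
    obtain ⟨h1, h2⟩ := hdiv y0 hy0
    have h3 : ‖s / y0‖ ≤ δ := by linarith
    have h4 := h (s / y0) y0 (by rw [mul_comm]; exact h1) h3 hy0.le
    have h5 := tri a0 (y0 * B y0) (s / y0 * A (s / y0))
    have h6 : ‖s / y0 * A (s / y0)‖ ≤ δ / 16 * ‖A x0‖ := by
      rw [norm_mul]
      exact mul_le_mul h2 (hAm _ h3) (norm_nonneg _) (by positivity)
    rw [norm_mul, hy0, add_right_comm a0] at h5
    linarith
  have e3 : ‖a0‖ ≤ M + δ / 4 * ‖A x0‖ + δ / 4 * ‖B y0‖ := by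
    obtain ⟨r, hr⟩ := IsAlgClosed.exists_eq_mul_self s
    have h2 : ‖r‖ ≤ δ / 4 := by
      have h1 : ‖r‖ * ‖r‖ ≤ δ ^ 2 / 16 := by rw [← norm_mul, ← hr]; exact hs
      by_contra hc
      push Not at hc
      nlinarith
    have h3 : ‖r‖ ≤ δ := by linarith
    have h4 := h r r hr.symm h3 h3
    have h5 := tri (r * A r) a0 (r * B r)
    have h6 : ‖r * A r‖ ≤ δ / 4 * ‖A x0‖ := by
      rw [norm_mul]
      exact mul_le_mul h2 (hAm _ h3) (norm_nonneg _) (by positivity)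
    have h7 : ‖r * B r‖ ≤ δ / 4 * ‖B y0‖ := by
      rw [norm_mul]
      exact mul_le_mul h2 (hBm _ h3) (norm_nonneg _) (by positivity)
    rw [add_comm (r * A r) a0] at h5
    linarith
  have p1 : 0 ≤ δ * ‖A x0‖ := by positivity
  have p2 : 0 ≤ δ * ‖B y0‖ := by positivity
  refine ⟨fun x hx => (hAm x hx).trans ?_, fun y hy => (hBm y hy).trans ?_, by linarith⟩
  · rw [le_div_iff₀ hδ]; linarith
  · rw [le_div_iff₀ hδ]; linarith

lemma ub_diff {V : Type} [DecidableEq V] (q : V → ℂ) (u w : V) :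
    Differentiable ℂ fun t : ℂ => Function.update q u t w := by
  by_cases h : w = u
  · subst h
    simp only [Function.update_self]
    exact differentiable_id
  · simp only [Function.update_of_ne h]
    exact differentiable_const _

variable {V : Type} [DecidableEq V] {S : Set (V → ℂ)} {s : (V → ℂ) → ℂ} {u v : V} {δ : ℝ}

theorem Dec.bound (hF : Fib S s u v δ) {a a0 A B : (V → ℂ) → ℂ} (h : Dec S s u v a a0 A B)
    {M : ℝ} (hM : ∀ q ∈ Up S s u v, ‖a q‖ ≤ M) :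
    ∀ q ∈ S, ‖a0 q‖ ≤ 4 * M ∧ ‖A q‖ ≤ 10 * M / δ ∧ ‖B q‖ ≤ 10 * M / δ := by
  intro q hq
  obtain ⟨h1, h2, h3⟩ := ub_bnd (M := M) (a0 := a0 q) hF.pos (hF.bd q hq)
    (h.apA.line (ub_diff q u) hF.pos (hF.mu q hq)) (h.apB.line (ub_diff q v) hF.pos (hF.mv q hq))
    fun x y hxy hx hy => by
      have e1 : Function.update (Function.update q u x) v y u = x := by
        rw [Function.update_of_ne hF.ne, Function.update_self]
      have hq' : Function.update (Function.update q u x) v y ∈ Up S s u v :=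
        ⟨hF.mv _ (hF.mu q hq x hx) y hy, by rw [e1, Function.update_self, hF.sv, hF.su, hxy]⟩
      have h4 := hM _ hq'
      rwa [h.eq _ hq', e1, Function.update_self, h.v0, h.u0, h.vA, Function.update_comm hF.ne,
        h.uB] at h4
  have h4 := h1 _ (hF.bu q hq)
  have h5 := h2 _ (hF.bv q hq)
  rw [Function.update_eq_self] at h4 h5
  exact ⟨h3, h4, h5⟩

end Pool.Agent.P.MP_0279ce_an.Unif
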