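import Pool.Agent.P.MP_0279ce_an.UBnd

/-! Existence of decompositions. -/

namespace Pool.Agent.P.MP_0279ce_an.Unif

open MvPolynomial Filter
open scoped Topology

variable {V : Type} [DecidableEq V] {S : Set (V → ℂ)} {s : (V → ℂ) → ℂ} {u v : V} {δ : ℝ}

lemma ud_mono (hF : Fib S s u v δ) (i j : ℕ) {f : (V → ℂ) → ℂ} (hf : Ap S f)
    (hu : ∀ q x, f (Function.update q u x) = f q) (hv : ∀ q x, f (Function.update q v x) = f q) :
    ∃ a0 A B, Dec S s u v (fun q => f q * q u ^ i * q v ^ j) a0 A B := by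
  have h0 := ap_const S 0
  induction i generalizing f j with
  | zero =>
    cases j with
    | zero =>
      exact ⟨f, _, _, hf, h0, h0, hu, hv, fun _ _ => rfl, fun _ _ => rfl, fun q _ => by ring⟩
    | succ j =>
      exact ⟨_, _, _, h0, h0, hf.mul hF.sub ((ap_coord S v).pow hF.sub j), fun _ _ => rfl,
        fun _ _ => rfl, fun _ _ => rfl, fun q x => by rw [hu, Function.update_of_ne hF.ne.symm],
        fun q _ => by ring⟩
  | succ i ih =>
    cases j with
    | zero =>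
      exact ⟨_, _, _, h0, hf.mul hF.sub ((ap_coord S u).pow hF.sub i), h0, fun _ _ => rfl,
        fun _ _ => rfl, fun q x => by rw [hv, Function.update_of_ne hF.ne], fun _ _ => rfl,
        fun q _ => by ring⟩
    | succ j =>
      obtain ⟨a0, A, B, h⟩ := ih j (hF.ap.mul hF.sub hf) (fun q x => by rw [hF.su, hu])
        fun q x => by rw [hF.sv, hv]
      exact ⟨a0, A, B, h.ap0, h.apA, h.apB, h.u0, h.v0, h.vA, h.uB, fun q hq => by
        rw [← h.eq q hq, ← hq.2]; ring⟩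

lemma ud_poly (hF : Fib S s u v δ) (p : MvPolynomial V ℂ) (i j : ℕ) {f : (V → ℂ) → ℂ}
    (hf : Ap S f) (hu : ∀ q x, f (Function.update q u x) = f q)
    (hv : ∀ q x, f (Function.update q v x) = f q) :
    ∃ a0 A B, Dec S s u v (fun q => eval q p * (f q * q u ^ i * q v ^ j)) a0 A B := by
  induction p using MvPolynomial.induction_on generalizing f i j with
  | C c =>
    obtain ⟨a0, A, B, h⟩ := ud_mono hF i j (hf.const_mul c) (fun q x => by rw [hu])
      fun q x => by rw [hv]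
    exact ⟨a0, A, B, h.ap0, h.apA, h.apB, h.u0, h.v0, h.vA, h.uB, fun q hq => by
      rw [← h.eq q hq, eval_C]; ring⟩
  | add a b ha hb =>
    obtain ⟨a0, A, B, h⟩ := ha i j hf hu hv
    obtain ⟨a0', A', B', h'⟩ := hb i j hf hu hv
    exact ⟨_, _, _, h.ap0.add h'.ap0, h.apA.add h'.apA, h.apB.add h'.apB,
      fun q x => by rw [h.u0, h'.u0], fun q x => by rw [h.v0, h'.v0],
      fun q x => by rw [h.vA, h'.vA], fun q x => by rw [h.uB, h'.uB], fun q hq => by
        rw [map_add]; linear_combination h.eq q hq + h'.eq q hq⟩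
  | mul_X a w ha =>
    by_cases h1 : w = u
    · obtain ⟨a0, A, B, h⟩ := ha (i + 1) j hf hu hv
      exact ⟨a0, A, B, h.ap0, h.apA, h.apB, h.u0, h.v0, h.vA, h.uB, fun q hq => by
        rw [← h.eq q hq, map_mul, eval_X, h1]; ring⟩
    by_cases h2 : w = v
    · obtain ⟨a0, A, B, h⟩ := ha i (j + 1) hf hu hv
      exact ⟨a0, A, B, h.ap0, h.apA, h.apB, h.u0, h.v0, h.vA, h.uB, fun q hq => by
        rw [← h.eq q hq, map_mul, eval_X, h2]; ring⟩
    obtain ⟨a0, A, B, h⟩ := ha i j (hf.mul hF.sub (ap_coord S w))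
      (fun q x => by rw [hu, Function.update_of_ne h1])
      fun q x => by rw [hv, Function.update_of_ne h2]
    exact ⟨a0, A, B, h.ap0, h.apA, h.apB, h.u0, h.v0, h.vA, h.uB, fun q hq => by
      rw [← h.eq q hq, map_mul, eval_X]; ring⟩

omit [DecidableEq V] in
lemma ud_sum {f : ℕ → (V → ℂ) → ℂ} {K : ℝ} (h : ∀ n, Ap S (f n))
    (hb : ∀ n, ∀ q ∈ S, ‖f n q‖ ≤ K * (1 / 2) ^ n) : Ap S (fun q => ∑' n, f n q) ∧
      ∀ q ∈ S, ‖∑' n, f n q‖ ≤ K * 2 ∧ HasSum (fun n => f n q) (∑' n, f n q) :=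
  ⟨ap_tsum (summable_geometric_two.mul_left K) h hb, fun q hq =>
    ⟨tsum_of_norm_bounded (hasSum_geometric_two.mul_left K) fun n => hb n q hq,
      (Summable.of_norm_bounded (summable_geometric_two.mul_left K) fun n => hb n q hq).hasSum⟩⟩

theorem Fib.exists_dec (hF : Fib S s u v δ) {a : (V → ℂ) → ℂ} (ha : Ap (Up S s u v) a)
    {M : ℝ} (hM0 : 0 ≤ M) (hM : ∀ q ∈ Up S s u v, ‖a q‖ ≤ M) :
    ∃ a0 A B, Dec S s u v a a0 A B ∧
      ∀ q ∈ S, ‖a0 q‖ ≤ 16 * M ∧ ‖A q‖ ≤ 40 * M / δ ∧ ‖B q‖ ≤ 40 * M / δ := by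
  rcases hM0.eq_or_lt with rfl | hpos
  · have h0 := ap_const S 0
    exact ⟨_, _, _, ⟨h0, h0, h0, fun _ _ => rfl, fun _ _ => rfl, fun _ _ => rfl, fun _ _ => rfl,
      fun q hq => by simpa using hM q hq⟩, fun q _ => by simp⟩
  obtain ⟨r, h1, h2⟩ := ha.tele hpos hM
  choose a0 A B h using fun n => ud_poly hF (r n) 0 0 (ap_const S 1) (fun _ _ => rfl) fun _ _ => rfl
  have hb := fun n => (h n).bound hF (M := 2 * M * (1 / 2) ^ n) fun q hq => by
    simpa using h1 n q hq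
  obtain ⟨p0, q0⟩ := ud_sum (K := 8 * M) (fun n => (h n).ap0) fun n q hq =>
    (hb n q hq).1.trans_eq (by ring)
  obtain ⟨pA, qA⟩ := ud_sum (K := 20 * M / δ) (fun n => (h n).apA) fun n q hq =>
    (hb n q hq).2.1.trans_eq (by ring)
  obtain ⟨pB, qB⟩ := ud_sum (K := 20 * M / δ) (fun n => (h n).apB) fun n q hq =>
    (hb n q hq).2.2.trans_eq (by ring)
  refine ⟨_, _, _, ⟨p0, pA, pB, fun q x => tsum_congr fun n => (h n).u0 q x,
    fun q x => tsum_congr fun n => (h n).v0 q x, fun q x => tsum_congr fun n => (h n).vA q x,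
    fun q x => tsum_congr fun n => (h n).uB q x, fun q hq => (h2 q hq).unique ?_⟩, fun q hq =>
    ⟨(q0 q hq).1.trans_eq (by ring), (qA q hq).1.trans_eq (by ring),
      (qB q hq).1.trans_eq (by ring)⟩⟩
  have h3 := ((q0 q hq.1).2.add ((qA q hq.1).2.mul_left (q u))).add ((qB q hq.1).2.mul_left (q v))
  have h4 : (fun n => eval q (r n)) = fun n => a0 n q + q u * A n q + q v * B n q :=
    funext fun n => by rw [← (h n).eq q hq]; ring
  rwa [h4]

end Pool.Agent.P.MP_0279ce_an.Unif
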