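import Pool.Agent.P.MP_0279ce_an.UAp

/-! One relation over a base: definitions. -/

namespace Pool.Agent.P.MP_0279ce_an.Unif

open MvPolynomial Filter
open scoped Topology

variable {V : Type} [DecidableEq V]

/-- A base set over which one relation is imposed. -/
structure Fib (S : Set (V → ℂ)) (s : (V → ℂ) → ℂ) (u v : V) (δ : ℝ) : Prop where
  ne : u ≠ v
  pos : 0 < δ
  sub : S ⊆ DD V
  ap : Ap S s
  bd : ∀ q ∈ S, ‖s q‖ ≤ δ ^ 2 / 16
  su : ∀ q x, s (Function.update q u x) = s q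
  sv : ∀ q x, s (Function.update q v x) = s q
  mu : ∀ q ∈ S, ∀ x : ℂ, ‖x‖ ≤ δ → Function.update q u x ∈ S
  mv : ∀ q ∈ S, ∀ x : ℂ, ‖x‖ ≤ δ → Function.update q v x ∈ S
  bu : ∀ q ∈ S, ‖q u‖ ≤ δ
  bv : ∀ q ∈ S, ‖q v‖ ≤ δ

/-- The points of the base satisfying the relation. -/
def Up (S : Set (V → ℂ)) (s : (V → ℂ) → ℂ) (u v : V) : Set (V → ℂ) :=
  {q | q ∈ S ∧ q u * q v = s q}

/-- A decomposition along the two coordinates of the relation. -/
structure Dec (S : Set (V → ℂ)) (s : (V → ℂ) → ℂ) (u v : V) (a a0 A B : (V → ℂ) → ℂ) : Prop where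
  ap0 : Ap S a0
  apA : Ap S A
  apB : Ap S B
  u0 : ∀ q x, a0 (Function.update q u x) = a0 q
  v0 : ∀ q x, a0 (Function.update q v x) = a0 q
  vA : ∀ q x, A (Function.update q v x) = A q
  uB : ∀ q x, B (Function.update q u x) = B q
  eq : ∀ q ∈ Up S s u v, a q = a0 q + q u * A q + q v * B q

end Pool.Agent.P.MP_0279ce_an.Unif
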