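import Pool.Agent.P.MP_0279ce_an.UKey

/-! The uniform algebra of a tower. -/

namespace Pool.Agent.P.MP_0279ce_an.Unif

open MvPolynomial Filter
open scoped Topology

section alg

variable {V : Type} {Y : Set (V → ℂ)}

/-- The continuous functions that are uniform limits of polynomials. -/
def finB (hY : Y ⊆ DD V) : Subalgebra ℂ C(Y, ℂ) where
  carrier := {f | ∃ g, Ap Y g ∧ ∀ x : Y, f x = g x}
  mul_mem' := by
    rintro f f' ⟨g, hg, h⟩ ⟨g', hg', h'⟩
    exact ⟨fun q => g q * g' q, hg.mul hY hg', fun x => by simp [h, h']⟩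
  add_mem' := by
    rintro f f' ⟨g, hg, h⟩ ⟨g', hg', h'⟩
    exact ⟨fun q => g q + g' q, hg.add hg', fun x => by simp [h, h']⟩
  algebraMap_mem' c := ⟨fun _ => c, ap_const _ c, fun x => by simp⟩

/-- The maximal ideal at the origin. -/
def finM (hY : Y ⊆ DD V) (h0 : (0 : V → ℂ) ∈ Y) : NonUnitalSubalgebra ℂ C(Y, ℂ) where
  carrier := {f | f ∈ finB hY ∧ f ⟨0, h0⟩ = 0}
  add_mem' h h' := ⟨add_mem h.1 h'.1, by simp [h.2, h'.2]⟩
  zero_mem' := ⟨zero_mem _, rfl⟩
  mul_mem' h h' := ⟨mul_mem h.1 h'.1, by simp [h.2]⟩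
  smul_mem' c _ h := ⟨Subalgebra.smul_mem _ h.1 c, by simp [h.2]⟩

/-- The element of the ideal given by an approximable function. -/
def finMk (hY : Y ⊆ DD V) (h0 : (0 : V → ℂ) ∈ Y) (g : (V → ℂ) → ℂ) (hg : Ap Y g)
    (hg0 : g 0 = 0) : finM hY h0 :=
  ⟨⟨fun x => g x, hg.continuousOn.domRestrict⟩, ⟨g, hg, fun _ => rfl⟩, hg0⟩

lemma fin_exists {hY : Y ⊆ DD V} {h0 : (0 : V → ℂ) ∈ Y} (x : finM hY h0) :
    ∃ g, Ap Y g ∧ g 0 = 0 ∧ ∀ y : Y, (x : C(Y, ℂ)) y = g y := by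
  obtain ⟨⟨g, hg, h⟩, h1⟩ := x.2
  exact ⟨g, hg, (h ⟨0, h0⟩).symm.trans h1, h⟩

lemma fin_closedB [CompactSpace Y] (hY : Y ⊆ DD V) : IsClosed (finB hY : Set C(Y, ℂ)) := by
  classical
  refine isClosed_of_closure_subset fun f hf => ?_
  refine ⟨fun q => if h : q ∈ Y then f ⟨q, h⟩ else 0, ap_lim fun ε hε => ?_, fun x => by simp⟩
  obtain ⟨f', ⟨g, hg, h⟩, h1⟩ := Metric.mem_closure_iff.1 hf ε hε
  refine ⟨g, hg, fun q hq => ?_⟩
  rw [dif_pos hq, ← h ⟨q, hq⟩, ← dist_eq_norm]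
  exact (ContinuousMap.dist_apply_le_dist _).trans h1.le

lemma fin_closedM [CompactSpace Y] (hY : Y ⊆ DD V) (h0 : (0 : V → ℂ) ∈ Y) :
    IsClosed (finM hY h0 : Set C(Y, ℂ)) :=
  (fin_closedB hY).inter (isClosed_eq (continuous_eval_const _) continuous_const)

lemma fin_sep (hY : Y ⊆ DD V) : (finB hY).SeparatesPoints := by
  intro x y hxy
  obtain ⟨v, hv⟩ := Function.ne_iff.1 (Subtype.coe_injective.ne hxy)
  exact ⟨_, ⟨⟨fun x => x.1 v, (continuous_apply v).comp continuous_subtype_val⟩,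
    ⟨fun q => q v, ap_coord _ v, fun _ => rfl⟩, rfl⟩, hv⟩

lemma fin_jac' {A : Type} [NonUnitalRing A] [Module ℂ A] [IsScalarTower ℂ A A]
    [SMulCommClass ℂ A A] (h : ∀ a : A, (∀ φ : A →ₙₐ[ℂ] ℂ, φ a = 0) → a = 0) :
    Ring.jacobson (Unitization ℂ A) = ⊥ := by
  rw [eq_bot_iff]
  intro x hx
  have h1 : ∀ f : Unitization ℂ A →ₐ[ℂ] ℂ, f x = 0 := fun f => by
    have := RingHom.ker_isMaximal_of_surjective f.toRingHom fun c => ⟨_, f.commutes c⟩
    exact Ring.jacobson_le_of_isMaximal (RingHom.ker f.toRingHom) hx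
  have h2 : x.fst = 0 := h1 (Unitization.fstHom ℂ _)
  have h4 : x.snd = 0 := h _ fun φ => by
    have := h1 (Unitization.lift φ)
    change algebraMap ℂ ℂ x.fst + φ x.snd = 0 at this
    rwa [h2, map_zero, zero_add] at this
  exact Unitization.ext h2 h4

lemma fin_jac (M : NonUnitalSubalgebra ℂ C(Y, ℂ)) : Ring.jacobson (Unitization ℂ M) = ⊥ :=
  fin_jac' fun _ h => Subtype.ext (ContinuousMap.ext fun y =>
    h (((ContinuousMap.evalAlgHom ℂ ℂ y : C(Y, ℂ) →ₐ[ℂ] ℂ) : C(Y, ℂ) →ₙₐ[ℂ] ℂ).comp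
      (NonUnitalSubalgebraClass.subtype M)))

end alg

theorem of_tower {I : Type} [LinearOrder I] [OrderTop I] {s : I → (VI I → ℂ) → ℂ}
    (hs : Tow s) (hs1 : s ⊤ = zz) (hH : ¬ WL (XX s (Set.Iio ⊤)) zz)
    (hall : ∀ f, Ap (XX s (Set.Iio ⊤)) f → f 0 = 0 → (∀ q, f (tr ⊤ q) = f q) →
      ∃ (i : I) (t l : ℂ), ∀ q ∈ XX s (Set.Iio ⊤), f q = t * s i q + l * zz q) :
    ∃ (X : Type) (_ : TopologicalSpace X) (_ : CompactSpace X) (_ : T2Space X)
      (B : Subalgebra ℂ C(X, ℂ)) (x₀ : X) (M : NonUnitalSubalgebra ℂ C(X, ℂ)),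
      IsClosed (B : Set C(X, ℂ)) ∧ B.SeparatesPoints ∧ (∀ f, f ∈ M ↔ f ∈ B ∧ f x₀ = 0) ∧
      CompleteSpace M ∧ Ring.jacobson (Unitization ℂ M) = ⊥ ∧
      FiniteDimensional ℂ (M ⧸ Submodule.span ℂ {x : M | ∃ a b : M, x = a * b}) ∧
      ¬ ∃ C : ℝ, ∀ x ∈ Submodule.span ℂ {x : M | ∃ a b : M, x = a * b},
        ∃ (n : ℕ) (a b : Fin n → M), x = ∑ i, a i * b i ∧ ∑ i, ‖a i‖ * ‖b i‖ ≤ C * ‖x‖ := by
  obtain ⟨hF, hUp⟩ := hs.fib_top
  rw [hs1] at hF hUp
  have hY : XX s Set.univ ⊆ DD (VI I) := XX_subset _ _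
  have h0 : (0 : VI I → ℂ) ∈ XX s Set.univ := hs.zero_mem _
  have hsub : XX s Set.univ ⊆ XX s (Set.Iio ⊤) := XX_anti s (Set.subset_univ _)
  have hc : CompactSpace (XX s Set.univ) := isCompact_iff_compactSpace.1 (hs.isCompact _)
  let co : VI I → finM hY h0 := fun w => finMk hY h0 (fun q => q w) (ap_coord _ w) rfl
  have hW : ∀ a b : finM hY h0,
      a * b ∈ Submodule.span ℂ {x : finM hY h0 | ∃ a b : finM hY h0, x = a * b} :=
    fun a b => Submodule.subset_span ⟨a, b, rfl⟩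
  have htop : ∀ q ∈ XX s Set.univ, q (Sum.inr (⊤, true)) * q (Sum.inr (⊤, false)) = zz q :=
    fun q hq => hs1 ▸ hq.2 ⊤ trivial
  refine ⟨XX s Set.univ, inferInstance, hc, inferInstance, finB hY, ⟨0, h0⟩, finM hY h0,
    fin_closedB hY, fin_sep hY, fun _ => Iff.rfl, (fin_closedM hY h0).completeSpace_coe,
    fin_jac _, ?_, ?_⟩
  · refine Module.Finite.of_surjective ((Submodule.mkQ _).comp
      ((LinearMap.toSpanSingleton ℂ _ (co (Sum.inr (⊤, true)))).coprod
        (LinearMap.toSpanSingleton ℂ _ (co (Sum.inr (⊤, false)))))) fun x => ?_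
    obtain ⟨x, rfl⟩ := Submodule.Quotient.mk_surjective _ x
    obtain ⟨g, hg, hg0, hx⟩ := fin_exists x
    obtain ⟨K, hK, hgK⟩ := hg.bdd hY
    obtain ⟨a0, A, B, hD, -⟩ := hF.exists_dec (hUp ▸ hg) hK.le (hUp ▸ hgK)
    have heq := hD.eq
    rw [hUp] at heq
    obtain ⟨i, t, l, h1⟩ := hall a0 hD.ap0 (by simpa [hg0] using (heq 0 h0).symm) fun q => by
      rw [← hD.u0 q 0, ← hD.v0 (Function.update q _ 0) 0]
      congr 1
      funext w
      rcases w with n | ⟨j, c⟩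
      · simp
      · rcases eq_or_lt_of_le (le_top (a := j)) with rfl | hj
        · rw [tr_ge le_rfl]
          cases c <;> simp
        · rw [tr_lt hj]
          simp [hj.ne]
    let A' : finM hY h0 := finMk hY h0 (fun q => A q - A 0)
      ((hD.apA.mono hsub).sub (ap_const _ _)) (sub_self _)
    let B' : finM hY h0 := finMk hY h0 (fun q => B q - B 0)
      ((hD.apB.mono hsub).sub (ap_const _ _)) (sub_self _)
    refine ⟨(A 0, B 0), ((Submodule.Quotient.eq _).2 ?_).symm⟩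
    have h2 : x - (A 0 • co (Sum.inr (⊤, true)) + B 0 • co (Sum.inr (⊤, false))) =
        t • (co (Sum.inr (i, true)) * co (Sum.inr (i, false))) +
        l • (co (Sum.inr (⊤, true)) * co (Sum.inr (⊤, false))) +
        co (Sum.inr (⊤, true)) * A' + co (Sum.inr (⊤, false)) * B' := by
      refine Subtype.ext (ContinuousMap.ext fun y => ?_)
      change (x : C(XX s Set.univ, ℂ)) y -
          (A 0 * y.1 (Sum.inr (⊤, true)) + B 0 * y.1 (Sum.inr (⊤, false))) =
        t * (y.1 (Sum.inr (i, true)) * y.1 (Sum.inr (i, false))) +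
        l * (y.1 (Sum.inr (⊤, true)) * y.1 (Sum.inr (⊤, false))) +
        y.1 (Sum.inr (⊤, true)) * (A y - A 0) + y.1 (Sum.inr (⊤, false)) * (B y - B 0)
      rw [hx, heq y y.2, h1 y (hsub y.2), htop y y.2, y.2.2 i trivial]
      ring
    change x - (A 0 • co (Sum.inr (⊤, true)) + B 0 • co (Sum.inr (⊤, false))) ∈ _
    rw [h2]
    exact add_mem (add_mem (add_mem (Submodule.smul_mem _ _ (hW _ _))
      (Submodule.smul_mem _ _ (hW _ _))) (hW _ _)) (hW _ _)
  · rintro ⟨C, hC⟩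
    obtain ⟨N, hN⟩ := exists_pow_lt_of_lt_one (x := 1 / (3200 * (|C| + 1))) (y := (1 / 2 : ℝ))
      (by positivity) (by norm_num)
    have hf : Ap (DD (VI I)) fun q => zz q - ∑ n ∈ Finset.range N, zt n q :=
      ap_zz.sub (ap_sum _ fun n _ => ap_zt n)
    let x : finM hY h0 := finMk hY h0 _ (hf.mono hY) (by simp [zz_zero, zt_zero])
    have hxn : ‖x‖ ≤ 1 / 16 * (1 / 2) ^ N :=
      (ContinuousMap.norm_le (x : C(XX s Set.univ, ℂ)) (by positivity)).2 fun y =>
        norm_zz_sub_le N y.1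
    have hx : x = co (Sum.inr (⊤, true)) * co (Sum.inr (⊤, false)) - ∑ n ∈ Finset.range N,
        (1 / 32 * (1 / 2) ^ n : ℂ) • (co (Sum.inl n) * co (Sum.inl n)) := by
      refine Subtype.ext (ContinuousMap.ext fun y => ?_)
      rw [AddSubgroupClass.coe_sub, AddSubmonoidClass.coe_finsetSum, ContinuousMap.sub_apply,
        ContinuousMap.sum_apply]
      change zz y.1 - ∑ n ∈ Finset.range N, zt n y.1 =
        y.1 (Sum.inr (⊤, true)) * y.1 (Sum.inr (⊤, false)) - ∑ n ∈ Finset.range N,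
          (1 / 32 * (1 / 2) ^ n : ℂ) * (y.1 (Sum.inl n) * y.1 (Sum.inl n))
      rw [htop y y.2]
      simp only [fun n => zt_eq n (hY y.2), mul_assoc]
    obtain ⟨n, a, b, h1, h2⟩ := hC x (hx ▸ sub_mem (hW _ _)
      (Submodule.sum_mem _ fun n _ => Submodule.smul_mem _ _ (hW _ _)))
    choose a' ha ha0 haa using fun i => fin_exists (a i)
    choose b' hb hb0 hbb using fun i => fin_exists (b i)
    obtain ⟨c, hc1, hc2⟩ := hF.key (hsub h0) zz_zero (a := a') (b := b') (hUp ▸ ha) (hUp ▸ hb)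
      ha0 hb0 (M := fun i => ‖a i‖) (N := fun i => ‖b i‖)
      (by
        rw [hUp]
        intro i q hq
        rw [← haa i ⟨q, hq⟩]
        exact (a i : C(XX s Set.univ, ℂ)).norm_coe_le_norm _)
      (by
        rw [hUp]
        intro i q hq
        rw [← hbb i ⟨q, hq⟩]
        exact (b i : C(XX s Set.univ, ℂ)).norm_coe_le_norm _)
      (hf.mono (XX_subset _ _))
      (fun q y => by
        rw [zz_update]
        exact congrArg _ (Finset.sum_congr rfl fun n _ =>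
          zt_congr n fun _ => Function.update_of_ne (by simp) _ _))
      (fun q y => by
        rw [zz_update]
        exact congrArg _ (Finset.sum_congr rfl fun n _ =>
          zt_congr n fun _ => Function.update_of_ne (by simp) _ _))
      (by
        rw [hUp]
        intro q hq
        have h3 := congrArg (fun z : finM hY h0 => (z : C(XX s Set.univ, ℂ)) ⟨q, hq⟩) h1
        simp only [AddSubmonoidClass.coe_finsetSum, ContinuousMap.sum_apply, MulMemClass.coe_mul,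
          ContinuousMap.mul_apply, haa, hbb] at h3
        exact h3)
    have h3 : c = 1 := by
      by_contra hne
      refine hH ?_
      have h4 : WL (XX s (Set.Iio ⊤)) fun q => ∑ n : Fin N,
          ((1 / 32 * (1 / 2) ^ (n : ℕ) : ℂ) * q (Sum.inl n)) * q (Sum.inl n) :=
        wl_sum_mul (fun n => (ap_coord _ _).const_mul _) (fun n => ap_coord _ _)
          (fun n => by simp) fun n => rfl
      refine ((hc2.add h4).const_mul (1 - c)⁻¹).congr fun q hq => ?_
      rw [Finset.sum_range]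
      simp only [fun n => zt_eq n hq.1]
      have h5 : 1 - c ≠ 0 := sub_ne_zero.2 (Ne.symm hne)
      field_simp
      ring
    rw [h3, norm_one, one_pow, div_one] at hc1
    have h4 : C * ‖x‖ ≤ (|C| + 1) * (1 / 16 * (1 / 2) ^ N) :=
      mul_le_mul (by linarith [le_abs_self C]) hxn (norm_nonneg _) (by positivity)
    rw [lt_div_iff₀ (by positivity)] at hN
    linarith

end Pool.Agent.P.MP_0279ce_an.Unif
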