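import Pool.Agent.P.MP_0279ce_an.CGeo
import Pool.Agent.P.MP_0279ce_an.UAp

/-! Good points of a tower whose relations are approximable on the variety only. -/

namespace Pool.Agent.P.MP_0279ce_an.Unif

open MvPolynomial Filter
open scoped Topology

open Pool.Agent.P.MP_0279ce_an.Comm

section

variable {ι : Type} {s : ι → (ι × Bool → ℂ) → ℂ}

lemma ug_cpt (hsc : ∀ k, Continuous (s k)) (L : Set ι) {U : Set (ι × Bool → ℂ)} (hU : IsOpen U)
    (h : ∀ q ∈ Om (fun _ : ι => (1 : ℝ)), (∀ j ∈ L, q (j, true) * q (j, false) = s j q) → q ∈ U) :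
    ∃ F : Finset ι, (∀ j ∈ F, j ∈ L) ∧ ∃ η : ℝ, 0 < η ∧ ∀ q ∈ Om (fun _ : ι => (1 : ℝ)),
      (∀ j ∈ F, ‖q (j, true) * q (j, false) - s j q‖ ≤ η) → q ∈ U := by
  classical
  by_contra hcon
  push Not at hcon
  obtain ⟨q, hq, hall⟩ := exists_mem_all2
    ((isCompact_Om (fun _ : ι => (1 : ℝ))).inter_right hU.isClosed_compl)
    (fun (F : Finset ι) n => {q | ∀ j ∈ F, j ∈ L →
      ‖q (j, true) * q (j, false) - s j q‖ ≤ 1 / ((n : ℝ) + 1)})
    (fun F n => by
      simp only [Set.ofPred_forall]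
      exact isClosed_iInter fun k => isClosed_iInter fun _ => isClosed_iInter fun _ => isClosed_le
        (((continuous_apply (k, true)).mul (continuous_apply (k, false))).sub (hsc k)).norm
        continuous_const)
    (fun F F' n n' h1 h2 q hq j hj hL =>
      (hq j (h1 hj) hL).trans (div_succ_anti (by norm_num) h2))
    (fun F n => by
      obtain ⟨q, hq, h1, h2⟩ := hcon (F.filter (· ∈ L)) (fun j hj => (Finset.mem_filter.1 hj).2)
        (1 / ((n : ℝ) + 1)) (by positivity)
      exact ⟨q, ⟨hq, h2⟩, fun j hj hL => h1 j (Finset.mem_filter.2 ⟨hj, hL⟩)⟩)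
  exact hq.2 (h q hq.1 fun j hj =>
    sub_eq_zero.1 (eq_zero_of_forall_le fun n => hall {j} n j (by simp) hj))

variable [LinearOrder ι] [WellFoundedLT ι]

lemma ug_Q (hsc : ∀ k, Continuous (s k))
    (hsa : ∀ k (ε : ℝ), 0 < ε → ∃ g : MvPolynomial (ι × Bool) ℂ, ∀ q ∈ Om (fun _ : ι => (1 : ℝ)),
      (∀ j < k, q (j, true) * q (j, false) = s j q) → ‖s k q - eval q g‖ ≤ ε) (k : ι) :
    ∀ (F0 : Finset ι) (η : ℝ), (∀ j ∈ F0, j < k) → 0 < η →
      ∃ (F : Finset ι) (S : ι → MvPolynomial (ι × Bool) ℂ) (e : ι → ℝ), F0 ⊆ F ∧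
        (∀ j ∈ F, j < k) ∧ (∀ j ∈ F, ∀ q ∈ Sig s, ‖s j q - eval q (S j)‖ ≤ e j) ∧
        ∀ q ∈ Om (fun _ : ι => (1 : ℝ)),
          (∀ j ∈ F, ‖q (j, true) * q (j, false) - eval q (S j)‖ ≤ e j) →
          ∀ j ∈ F, ‖q (j, true) * q (j, false) - s j q‖ ≤ η := by
  classical
  induction k using WellFoundedLT.induction with
  | ind k ih =>
    intro F0 η hF0 hη
    rcases F0.eq_empty_or_nonempty with rfl | hne
    · exact ⟨∅, 0, 0, le_rfl, by simp, by simp, by simp⟩
    set m := F0.max' hne with hm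
    have hmk : m < k := hF0 m (F0.max'_mem hne)
    obtain ⟨T, hT⟩ := hsa m (η / 3) (by positivity)
    obtain ⟨F1, hF1, η1, hη1, h1⟩ := ug_cpt hsc (Set.Iio m)
      (U := {q | ‖s m q - eval q T‖ < η / 2})
      (isOpen_lt ((hsc m).sub (MvPolynomial.continuous_eval T)).norm continuous_const)
      fun q hq hr => (hT q hq hr).trans_lt (by linarith)
    obtain ⟨F, S, e, h2, h3, h4, h5⟩ := ih m hmk (F0.erase m ∪ F1) (min η η1) (fun j hj => by
      rcases Finset.mem_union.1 hj with hj | hj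
      · exact lt_of_le_of_ne (F0.le_max' j (Finset.mem_of_mem_erase hj))
          (Finset.ne_of_mem_erase hj)
      · exact hF1 j hj) (lt_min hη hη1)
    have hne' : ∀ j ∈ F, j ≠ m := fun j hj => (h3 j hj).ne
    refine ⟨insert m F, Function.update S m T, Function.update e m (η / 3), fun j hj => ?_,
      fun j hj => ?_, fun j hj q hq => ?_, fun q hq hr j hj => ?_⟩
    · by_cases hjm : j = m
      · rw [hjm]; exact Finset.mem_insert_self _ _
      · exact Finset.mem_insert_of_mem
          (h2 (Finset.mem_union_left _ (Finset.mem_erase.2 ⟨hjm, hj⟩)))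
    · rcases Finset.mem_insert.1 hj with rfl | hj
      · exact hmk
      · exact (h3 j hj).trans hmk
    · rcases Finset.mem_insert.1 hj with rfl | hj
      · rw [Function.update_self, Function.update_self]
        exact hT q hq.1 fun j _ => hq.2 j
      · rw [Function.update_of_ne (hne' j hj), Function.update_of_ne (hne' j hj)]
        exact h4 j hj q hq
    · have h6 := h5 q hq fun j hj => by
        have := hr j (Finset.mem_insert_of_mem hj)
        rwa [Function.update_of_ne (hne' j hj), Function.update_of_ne (hne' j hj)] at this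
      rcases Finset.mem_insert.1 hj with rfl | hj
      · have h7 : ‖s m q - eval q T‖ < η / 2 :=
          h1 q hq fun j hj => (h6 j (h2 (Finset.mem_union_right _ hj))).trans (min_le_right _ _)
        have h8 := hr m (Finset.mem_insert_self _ _)
        rw [Function.update_self, Function.update_self] at h8
        have h9 : q (m, true) * q (m, false) - s m q =
            (q (m, true) * q (m, false) - eval q T) - (s m q - eval q T) := by ring
        rw [h9]
        exact (norm_sub_le _ _).trans (by linarith)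
      · exact (h6 j hj).trans (min_le_left _ _)

theorem ug_base [NoMaxOrder ι] [Nonempty ι] (hsc : ∀ k, Continuous (s k))
    (hsa : ∀ k (ε : ℝ), 0 < ε → ∃ g : MvPolynomial (ι × Bool) ℂ, ∀ q ∈ Om (fun _ : ι => (1 : ℝ)),
      (∀ j < k, q (j, true) * q (j, false) = s j q) → ‖s k q - eval q g‖ ≤ ε)
    {κ : Type} [Fintype κ] (g : κ → (ι × Bool → ℂ) → ℂ) (hgc : ∀ i, Continuous (g i))
    (hga : ∀ i (ε : ℝ), 0 < ε → ∃ G : MvPolynomial (ι × Bool) ℂ, ∀ q ∈ Sig s,
      ‖g i q - eval q G‖ ≤ ε)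
    {ρ : ι → ℝ} (hρ : Adm s ρ) {p : ι × Bool → ℂ} (hp : p ∈ Sig s) (hpρ : p ∈ Om ρ)
    (hg : ∀ i, g i p = 0) :
    ∃ q ∈ Sig s, q ∈ Om ρ ∧ (∀ i, g i q = 0) ∧ q ∈ Few ρ Set.univ (Fintype.card κ) := by
  classical
  have hsub : Om ρ ⊆ Om (fun _ : ι => (1 : ℝ)) := Om_mono hρ.le_one
  obtain ⟨q, hq, hall⟩ := exists_mem_all2 (isCompact_Om ρ)
    (fun (F : Finset ι) n =>
      {q | ∀ k ∈ F, ‖q (k, true) * q (k, false) - s k q‖ ≤ 2 / ((n : ℝ) + 1)} ∩
      ({q | ∀ i, ‖g i q‖ ≤ 2 / ((n : ℝ) + 1)} ∩ Few ρ (Set.univ ∩ F) (Fintype.card κ)))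
    (fun F n => by
      refine IsClosed.inter ?_ (IsClosed.inter ?_ (isClosed_Few _ _ _))
      · simp only [Set.ofPred_forall]
        exact isClosed_iInter fun k => isClosed_iInter fun _ => isClosed_le
          (((continuous_apply (k, true)).mul (continuous_apply (k, false))).sub (hsc k)).norm
          continuous_const
      · simp only [Set.ofPred_forall]
        exact isClosed_iInter fun i => isClosed_le (hgc i).norm continuous_const)
    (fun F F' n n' h1 h2 q hq =>
      ⟨fun k hk => (hq.1 k (h1 hk)).trans (div_succ_anti (by norm_num) h2),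
      fun i => (hq.2.1 i).trans (div_succ_anti (by norm_num) h2),
      Few.mono (Set.inter_subset_inter_right _ (Finset.coe_subset.2 h1)) _ hq.2.2⟩)
    (by
      intro F0 n
      obtain ⟨ε, hε, hε1, hε2⟩ : ∃ ε : ℝ, 0 < ε ∧ ε ≤ 1 / ((n : ℝ) + 1) ∧
          ∀ k, ε ≤ ρ k ^ 2 / 8 := by
        have h1 : ∀ᶠ ε in 𝓝[>] (0 : ℝ), ε ≤ 1 / ((n : ℝ) + 1) :=
          nhdsWithin_le_nhds (Iic_mem_nhds (by positivity))
        have h2 : ∀ᶠ ε in 𝓝[>] (0 : ℝ), ∀ k ∈ {k | ρ k ≠ 1}, ε ≤ ρ k ^ 2 / 8 := by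
          rw [eventually_all_finite hρ.fin]
          intro k _
          have := hρ.pos k
          exact nhdsWithin_le_nhds (Iic_mem_nhds (by positivity))
        have h3 : ∀ᶠ ε in 𝓝[>] (0 : ℝ), ε ≤ 1 / 8 :=
          nhdsWithin_le_nhds (Iic_mem_nhds (by positivity))
        obtain ⟨ε, ⟨⟨a1, a2⟩, a3⟩, a4⟩ := (((h1.and h2).and h3).and self_mem_nhdsWithin).exists
        refine ⟨ε, a4, a1, fun k => ?_⟩
        by_cases hk : ρ k = 1
        · rw [hk]; simpa using a3
        · exact a2 k hk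
      choose G hG using fun i => hga i (ε / 2) (half_pos hε)
      obtain ⟨F2, -, η2, hη2, hF2⟩ := ug_cpt hsc Set.univ
        (U := ⋂ i, {q | ‖g i q - eval q (G i)‖ < ε})
        (isOpen_iInter_of_finite fun i =>
          isOpen_lt ((hgc i).sub (MvPolynomial.continuous_eval _)).norm continuous_const)
        fun q hq hr => Set.mem_iInter.2 fun i =>
          (hG i q ⟨hq, fun k => hr k trivial⟩).trans_lt (half_lt_self hε)
      obtain ⟨k0, hk0⟩ := (F0 ∪ F2).bddAbove
      obtain ⟨k1, hk1⟩ := exists_gt k0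
      obtain ⟨F, S, e, hF0, -, hS, hQ⟩ := ug_Q hsc hsa k1 (F0 ∪ F2) (min ε η2)
        (fun j hj => (hk0 (Finset.mem_coe.2 hj)).trans_lt hk1) (lt_min hε hη2)
      let ex : (F × Bool → ℂ) → (ι × Bool → ℂ) :=
        fun x v => if h : v.1 ∈ F then x (⟨v.1, h⟩, v.2) else p v
      let sub : MvPolynomial (ι × Bool) ℂ →ₐ[ℂ] MvPolynomial (F × Bool) ℂ :=
        aeval fun v => if h : v.1 ∈ F then X (⟨v.1, h⟩, v.2) else C (p v)
      have hsubev : ∀ x f, eval x (sub f) = eval (ex x) f := by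
        intro x f
        induction f using MvPolynomial.induction_on with
        | C c => simp [sub]
        | add a b ha hb => simp [ha, hb]
        | mul_X a v ha =>
          rw [map_mul, map_mul, ha, map_mul]
          congr 1
          by_cases hv : v.1 ∈ F <;> simp [sub, ex, hv]
      have hexρ : ∀ x : F × Bool → ℂ, (∀ v, ‖x v‖ ≤ ρ v.1) → ex x ∈ Om ρ := by
        intro x hx v
        by_cases hv : v.1 ∈ F
        · simpa [ex, hv] using hx (⟨v.1, hv⟩, v.2)
        · simpa [ex, hv] using hpρ v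
      have hexF : ∀ x (k : F) b, ex x (k, b) = x (k, b) := by
        intro x k b; simp [ex]
      let w : F ⊕ κ → MvPolynomial (ι × Bool) ℂ :=
        Sum.elim (fun k => X (k.1, true) * X (k.1, false) - S k) G
      let h : F ⊕ κ → MvPolynomial (F × Bool) ℂ := fun j => sub (w j) - C (eval p (w j))
      have hh : ∀ x j, eval x (h j) = 0 ↔ eval (ex x) (w j) = eval p (w j) := by
        intro x j
        simp only [h, map_sub, hsubev, eval_C, sub_eq_zero]
      have hrel0 : ∀ x : F × Bool → ℂ, (∀ j, eval x (h j) = 0) → (∀ v, ‖x v‖ ≤ ρ v.1) →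
          ∀ k ∈ F, ‖ex x (k, true) * ex x (k, false) - s k (ex x)‖ ≤ min ε η2 := by
        intro x hx hxρ
        refine hQ _ (hsub (hexρ x hxρ)) fun k hk => ?_
        have h1 := (hh x (Sum.inl ⟨k, hk⟩)).1 (hx _)
        simp only [w, Sum.elim_inl, map_sub, map_mul, eval_X] at h1
        rw [h1, hp.2 k]
        exact hS k hk p hp
      have hrel : ∀ x : F × Bool → ℂ, (∀ j, eval x (h j) = 0) → (∀ v, ‖x v‖ ≤ ρ v.1) →
          ∀ k : F, ‖x (k, true) * x (k, false) - s k (ex x)‖ ≤ 2 * ε := by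
        intro x hx hxρ k
        have h1 := hrel0 x hx hxρ k k.2
        rw [hexF, hexF] at h1
        exact h1.trans ((min_le_left _ _).trans (by linarith))
      have hpex : ex (fun v => p (v.1.1, v.2)) = p := by
        funext v
        by_cases hv : v.1 ∈ F <;> simp [ex, hv]
      obtain ⟨x, hx, hxρ, hfew⟩ := walk h (Fintype.card κ) (by simp) (fun k : F => ρ k)
        (fun x hx hxρ k => by
          by_contra hcon
          push Not at hcon
          have h1 := hrel x hx hxρ k
          have h2 := hρ.slack k _ (hexρ x hxρ)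
          have h3 := hε2 k
          have h4 : ‖x (k, true) * x (k, false)‖ ≤ 2 * ε + ρ k ^ 2 / 2 := by
            have := norm_add_le (x (k, true) * x (k, false) - s k (ex x)) (s k (ex x))
            rw [sub_add_cancel] at this
            linarith
          have h5 : ρ k * ρ k ≤ ‖x (k, true) * x (k, false)‖ := by
            rw [norm_mul]
            exact mul_le_mul hcon.1 hcon.2 (hρ.pos k).le (norm_nonneg _)
          have := hρ.pos k
          nlinarith)
        (p := fun v => p (v.1.1, v.2)) (fun j => by rw [hh, hpex]) (fun v => hpρ (v.1.1, v.2))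
      have h2ε : 2 * ε ≤ 2 / ((n : ℝ) + 1) := by
        rw [div_eq_mul_one_div]; linarith
      have hF0' : ∀ k ∈ F0, k ∈ F := fun k hk => hF0 (Finset.mem_union_left _ hk)
      refine ⟨ex x, hexρ x hxρ, fun k hk => ?_, fun i => ?_, fun T hT => ?_⟩
      · exact (hrel0 x hx hxρ k (hF0' k hk)).trans
          ((min_le_left _ _).trans (le_trans (by linarith) h2ε))
      · have h1 := (hh x (Sum.inr i)).1 (hx _)
        simp only [w, Sum.elim_inr] at h1
        have h2 : ‖g i (ex x) - eval (ex x) (G i)‖ < ε :=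
          Set.mem_iInter.1 (hF2 _ (hsub (hexρ x hxρ)) fun j hj =>
            (hrel0 x hx hxρ j (hF0 (Finset.mem_union_right _ hj))).trans (min_le_right _ _)) i
        have h3 := hG i _ hp
        rw [hg i] at h3
        have h4 : g i (ex x) = (g i (ex x) - eval (ex x) (G i)) - (0 - eval p (G i)) := by
          rw [h1]; ring
        rw [h4]
        exact ((norm_sub_le _ _).trans (by linarith)).trans h2ε
      · have := hfew (T.subtype (· ∈ F)) (fun k hk b => by
          rw [← hexF x k b]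
          exact (hT k (Finset.mem_subtype.1 hk)).2 b)
        rwa [Finset.card_subtype, Finset.filter_true_of_mem
          (fun k hk => hF0' k (Finset.mem_coe.1 (hT k hk).1.2))] at this)
  refine ⟨q, ⟨hsub hq, fun k => ?_⟩, hq, fun i => ?_, Few.of_finset fun T => (hall T 0).2.2⟩
  · exact sub_eq_zero.1 (eq_zero_of_forall_le fun n => (hall {k} n).1 k (by simp))
  · exact eq_zero_of_forall_le fun n => (hall ∅ n).2.1 i

end

theorem exists_good' {ι : Type} [LinearOrder ι] [WellFoundedLT ι] [NoMaxOrder ι] [Nonempty ι]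
    {s : ι → (ι × Bool → ℂ) → ℂ} (hsc : ∀ k, Continuous (s k))
    (hsa : ∀ k, Ap {q | q ∈ Om (fun _ : ι => (1 : ℝ)) ∧
      ∀ j < k, q (j, true) * q (j, false) = s j q} (s k))
    (hsb : ∀ k, ∀ q ∈ Om (fun _ : ι => (1 : ℝ)), ‖s k q‖ ≤ 1 / 2)
    (hloc : ∀ k (ε : ℝ), 0 < ε → ∃ L : Finset ι, (∀ j ∈ L, j < k) ∧ ∃ δ : ℝ, 0 < δ ∧
      ∀ q ∈ Om (fun _ : ι => (1 : ℝ)), (∀ j ∈ L, ∀ b, ‖q (j, b)‖ ≤ δ) → ‖s k q‖ ≤ ε)
    {κ : Type} [Fintype κ] (c : κ → (ι × Bool → ℂ) → ℂ) (hcc : ∀ i, Continuous (c i))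
    (hca : ∀ i, Ap (Sig s) (c i)) (hc0 : ∀ i, c i 0 = 0) :
    ∃ β, ∃ q ∈ Sig s, (∀ i, c i q = 0) ∧ (∀ k < β, ∀ b, q (k, b) = 0) ∧
      {k | β ≤ k ∧ ∀ b, ‖q (k, b)‖ < 1}.Finite ∧ ∀ k, β ≤ k → ∃ b, q (k, b) ≠ 0 := by
  by_contra hcon
  let Z : Set (ι × Bool → ℂ) := Sig s ∩ {q | ∀ i, c i q = 0}
  have hZc : IsClosed Z := by
    have h1 : IsClosed {q : ι × Bool → ℂ | ∀ k, q (k, true) * q (k, false) = s k q} := by
      simp only [Set.ofPred_forall]
      exact isClosed_iInter fun k =>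
        isClosed_eq ((continuous_apply (k, true)).mul (continuous_apply (k, false))) (hsc k)
    refine IsClosed.inter ((isCompact_Om _).isClosed.inter h1) ?_
    · simp only [Set.ofPred_forall]
      exact isClosed_iInter fun i => isClosed_eq (hcc i) continuous_const
  obtain ⟨β, -, hβ⟩ := (wellFounded_lt (α := ι)).has_min Set.univ Set.univ_nonempty
  refine no_PA hsb hloc (Z := Z) (fun β q hq h0 hfin => ?_) (fun q hq => hq.1.1)
    (Fintype.card (Option κ)) Z β hZc le_rfl ⟨⟨fun v => by simp, fun k => ?_⟩, hc0⟩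
    (fun _ _ k hk => absurd hk (hβ k trivial)) ?_
  · by_contra hcon'
    push Not at hcon'
    exact hcon ⟨β, q, hq.1, hq.2, h0, hfin, hcon'⟩
  · simp only [Pi.zero_apply, mul_zero]
    symm
    refine eq_zero_of_forall_le (c := 1) fun n => ?_
    obtain ⟨L, -, δ, hδ, h⟩ := hloc k (1 / ((n : ℝ) + 1)) (by positivity)
    exact h 0 (fun v => by simp) fun j _ b => by simpa using hδ.le
  · intro ρ hρ f p hp hpρ
    obtain ⟨q, hq, hqρ, hg, hfew⟩ := ug_base hsc
      (fun k ε hε => (hsa k ε hε).imp fun _ hg q h1 h2 => hg q ⟨h1, h2⟩)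
      (fun i : Option κ => i.elim (fun q => eval q f - eval p f) c)
      (by
        rintro (_ | i)
        · exact (MvPolynomial.continuous_eval f).sub continuous_const
        · exact hcc i)
      (by
        rintro (_ | i)
        · exact fun ε hε => ⟨f - C (eval p f), fun q _ => by simpa using hε.le⟩
        · exact hca i)
      hρ hp.1 (fun v => by
        rcases (hρ.le_one v.1).lt_or_eq with h | h
        · exact (hpρ v h).le
        · rw [h]; exact hp.1.1 v)
      (by
        rintro (_ | i)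
        · exact sub_self _
        · exact hp.2 i)
    refine ⟨q, ⟨hq, fun i => hg (some i)⟩, hqρ, Few.mono (Set.subset_univ _) _ hfew, ?_⟩
    have : eval q f - eval p f = 0 := hg none
    rw [sub_eq_zero.1 this]

end Pool.Agent.P.MP_0279ce_an.Unif
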