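import Pool.Agent.P.MP_0279ce_an.UAp

/-! Towers of hypersurfaces in a polydisc. -/

namespace Pool.Agent.P.MP_0279ce_an.Unif

open MvPolynomial Filter
open scoped Topology

lemma exists_fix {α β : Type} [Nonempty β] {r : α → α → Prop} (wf : WellFounded r)
    (G : (α → β) → α → β) (hG : ∀ a f f', (∀ a', r a' a → f a' = f' a') → G f a = G f' a) :
    ∃ f : α → β, ∀ a, f a = G f a := by
  classical
  let d : β := Classical.arbitrary β
  refine ⟨wf.fix fun a ih => G (fun a' => if h : r a' a then ih a' h else d) a, fun a => ?_⟩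
  rw [wf.fix_eq]
  exact hG _ _ _ fun a' h => by rw [dif_pos h]

/-- The variables. -/
abbrev VI (I : Type) : Type := ℕ ⊕ I × Bool

variable {I : Type}

/-- One term of the infinite sum of squares. -/
noncomputable def zt (n : ℕ) (q : VI I → ℂ) : ℂ :=
  (1 / 32 * (1 / 2) ^ n : ℂ) * (cl 1 (q (Sum.inl n)) * cl 1 (q (Sum.inl n)))

/-- The infinite sum of squares. -/
noncomputable def zz (q : VI I → ℂ) : ℂ := ∑' n, zt n q

/-- The points of the polydisc satisfying the relations of a set of levels. -/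
def XX (s : I → (VI I → ℂ) → ℂ) (Λ : Set I) : Set (VI I → ℂ) :=
  {q | q ∈ DD (VI I) ∧ ∀ k ∈ Λ, q (Sum.inr (k, true)) * q (Sum.inr (k, false)) = s k q}

lemma norm_zt_le (n : ℕ) (q : VI I → ℂ) : ‖zt n q‖ ≤ 1 / 32 * (1 / 2) ^ n := by
  have h := norm_cl_le one_pos (q (Sum.inl n))
  have h1 : ‖(1 / 32 * (1 / 2) ^ n : ℂ)‖ = 1 / 32 * (1 / 2) ^ n := by simp
  rw [zt, norm_mul, norm_mul (cl 1 _), h1]
  exact mul_le_of_le_one_right (by positivity) (mul_le_one₀ h (norm_nonneg _) h)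

lemma hasSum_c : HasSum (fun n : ℕ => (1 / 32 * (1 / 2) ^ n : ℝ)) (1 / 16) := by
  have := hasSum_geometric_two.mul_left (1 / 32)
  rwa [show (1 / 32 * 2 : ℝ) = 1 / 16 by norm_num] at this

lemma summable_zt (q : VI I → ℂ) : Summable fun n => zt n q :=
  Summable.of_norm_bounded hasSum_c.summable fun n => norm_zt_le n q

lemma norm_zz_le (q : VI I → ℂ) : ‖zz q‖ ≤ 1 / 16 :=
  tsum_of_norm_bounded hasSum_c fun n => norm_zt_le n q

lemma continuous_zt (n : ℕ) : Continuous (zt n : (VI I → ℂ) → ℂ) :=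
  continuous_const.mul (((continuous_cl one_pos).comp (continuous_apply _)).mul
    ((continuous_cl one_pos).comp (continuous_apply _)))

lemma continuous_zz : Continuous (zz : (VI I → ℂ) → ℂ) :=
  continuous_tsum continuous_zt hasSum_c.summable norm_zt_le

lemma zt_eq (n : ℕ) {q : VI I → ℂ} (hq : q ∈ DD (VI I)) :
    zt n q = (1 / 32 * (1 / 2) ^ n : ℂ) * q (Sum.inl n) * q (Sum.inl n) := by
  rw [zt, cl_of_le one_pos (hq _), ← mul_assoc]

lemma ap_zt (n : ℕ) : Ap (DD (VI I)) (zt n) :=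
  (((ap_coord _ (Sum.inl n)).const_mul _).mul le_rfl (ap_coord _ (Sum.inl n))).congr
    fun _ hq => zt_eq n hq

lemma ap_zz : Ap (DD (VI I)) zz :=
  ap_tsum hasSum_c.summable ap_zt fun n q _ => norm_zt_le n q

lemma zt_congr (n : ℕ) {q q' : VI I → ℂ} (h : ∀ n, q (Sum.inl n) = q' (Sum.inl n)) :
    zt n q = zt n q' := by rw [zt, zt, h]

lemma zz_congr {q q' : VI I → ℂ} (h : ∀ n, q (Sum.inl n) = q' (Sum.inl n)) : zz q = zz q' :=
  tsum_congr fun n => zt_congr n h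

lemma zt_zero (n : ℕ) : zt n (0 : VI I → ℂ) = 0 := by simp [zt, cl]

lemma zz_zero : zz (0 : VI I → ℂ) = 0 := by simp [zz, zt_zero]

lemma norm_zz_sub_le (N : ℕ) (q : VI I → ℂ) :
    ‖zz q - ∑ n ∈ Finset.range N, zt n q‖ ≤ 1 / 16 * (1 / 2) ^ N := by
  rw [zz, ← (summable_zt q).sum_add_tsum_nat_add N, add_sub_cancel_left]
  refine tsum_of_norm_bounded (g := fun n => 1 / 32 * (1 / 2) ^ n * (1 / 2) ^ N)
    (hasSum_c.mul_right _) fun n => ?_
  rw [mul_assoc, ← pow_add]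
  exact norm_zt_le _ q

lemma XX_subset (s : I → (VI I → ℂ) → ℂ) (Λ : Set I) : XX s Λ ⊆ DD (VI I) := fun _ h => h.1

lemma XX_anti (s : I → (VI I → ℂ) → ℂ) {Λ Λ' : Set I} (h : Λ ⊆ Λ') : XX s Λ' ⊆ XX s Λ :=
  fun _ hq => ⟨hq.1, fun k hk => hq.2 k (h hk)⟩

lemma XX_congr {s s' : I → (VI I → ℂ) → ℂ} {Λ : Set I} (h : ∀ k ∈ Λ, s k = s' k) :
    XX s Λ = XX s' Λ :=
  Set.ext fun _ => and_congr_right fun _ => forall₂_congr fun k hk => by rw [h k hk]

lemma XX_empty (s : I → (VI I → ℂ) → ℂ) : XX s ∅ = DD (VI I) := Set.ext fun _ => by simp [XX]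

variable [LinearOrder I]

/-- Setting all levels from a given one on to zero. -/
noncomputable def tr (k : I) (q : VI I → ℂ) : VI I → ℂ :=
  Sum.elim (fun n => q (Sum.inl n)) fun x => if x.1 < k then q (Sum.inr x) else 0

@[simp] lemma tr_inl (k : I) (q : VI I → ℂ) (n : ℕ) : tr k q (Sum.inl n) = q (Sum.inl n) := rfl

lemma tr_lt {j k : I} (h : j < k) (q : VI I → ℂ) (c : Bool) :
    tr k q (Sum.inr (j, c)) = q (Sum.inr (j, c)) := if_pos h

lemma tr_ge {j k : I} (h : k ≤ j) (q : VI I → ℂ) (c : Bool) : tr k q (Sum.inr (j, c)) = 0 :=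
  if_neg (not_lt.2 h)

lemma tr_congr {k : I} {q q' : VI I → ℂ} (h1 : ∀ n, q (Sum.inl n) = q' (Sum.inl n))
    (h2 : ∀ j < k, ∀ c, q (Sum.inr (j, c)) = q' (Sum.inr (j, c))) : tr k q = tr k q' := by
  funext v
  rcases v with n | ⟨j, c⟩
  · exact h1 n
  · rcases lt_or_ge j k with h | h
    · rw [tr_lt h, tr_lt h, h2 j h]
    · rw [tr_ge h, tr_ge h]

lemma tr_tr {j k : I} (h : j ≤ k) (q : VI I → ℂ) : tr j (tr k q) = tr j q :=
  tr_congr (fun _ => rfl) fun _ hi c => tr_lt (hi.trans_le h) q c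

lemma tr_zero (k : I) : tr k (0 : VI I → ℂ) = 0 := by
  funext v
  rcases v with n | ⟨j, c⟩
  · rfl
  · rcases lt_or_ge j k with h | h
    exacts [tr_lt h _ _, tr_ge h _ _]

lemma continuous_tr (k : I) : Continuous (tr k : (VI I → ℂ) → VI I → ℂ) := by
  refine continuous_pi ?_
  rintro (n | ⟨j, c⟩)
  · exact continuous_apply _
  · rcases lt_or_ge j k with h | h
    · simpa only [tr_lt h] using continuous_apply _
    · simpa only [tr_ge h] using continuous_const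

lemma ap_tr (S : Set (VI I → ℂ)) (k : I) (v : VI I) : Ap S fun q => tr k q v := by
  rcases v with n | ⟨j, c⟩
  · exact ap_coord S _
  · rcases lt_or_ge j k with h | h
    · simpa only [tr_lt h] using ap_coord S _
    · simpa only [tr_ge h] using ap_const S 0

lemma tr_mem_DD (k : I) {q : VI I → ℂ} (hq : q ∈ DD (VI I)) : tr k q ∈ DD (VI I) := by
  rintro (n | ⟨j, c⟩)
  · exact hq _
  · rcases lt_or_ge j k with h | h
    · rw [tr_lt h]; exact hq _
    · rw [tr_ge h]; simp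

lemma zz_tr (k : I) (q : VI I → ℂ) : zz (tr k q) = zz q := zz_congr fun _ => rfl

/-- A tower of relations. -/
structure Tow (s : I → (VI I → ℂ) → ℂ) : Prop where
  cont : ∀ k, Continuous (s k)
  bd : ∀ k q, ‖s k q‖ ≤ 1 / 16
  zero : ∀ k, s k 0 = 0
  dep : ∀ k q, s k (tr k q) = s k q
  ap : ∀ k, Ap (XX s (Set.Iio k)) (s k)

variable {s : I → (VI I → ℂ) → ℂ}

lemma Tow.congr (hs : Tow s) {k : I} {q q' : VI I → ℂ}
    (h1 : ∀ n, q (Sum.inl n) = q' (Sum.inl n))
    (h2 : ∀ j < k, ∀ c, q (Sum.inr (j, c)) = q' (Sum.inr (j, c))) : s k q = s k q' := by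
  rw [← hs.dep k q, tr_congr h1 h2, hs.dep]

lemma Tow.s_tr (hs : Tow s) {j k : I} (h : j ≤ k) (q : VI I → ℂ) : s j (tr k q) = s j q := by
  rw [← hs.dep j (tr k q), tr_tr h, hs.dep]

lemma Tow.tr_mem (hs : Tow s) {k : I} {q : VI I → ℂ} (hq : q ∈ XX s (Set.Iio k)) :
    tr k q ∈ XX s (Set.Iio k) :=
  ⟨tr_mem_DD k hq.1, fun j hj => by
    rw [tr_lt hj, tr_lt hj, hs.s_tr (le_of_lt hj)]
    exact hq.2 j hj⟩

lemma Tow.zero_mem (hs : Tow s) (Λ : Set I) : (0 : VI I → ℂ) ∈ XX s Λ :=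
  ⟨zero_mem_DD, fun k _ => by simp [hs.zero]⟩

lemma Tow.isCompact (hs : Tow s) (Λ : Set I) : IsCompact (XX s Λ) := by
  have : IsClosed {q : VI I → ℂ |
      ∀ k ∈ Λ, q (Sum.inr (k, true)) * q (Sum.inr (k, false)) = s k q} := by
    simp only [Set.setOf_forall]
    exact isClosed_iInter fun k => isClosed_iInter fun _ =>
      isClosed_eq (by fun_prop) (hs.cont k)
  exact isCompact_DD.inter_right this

lemma Tow.s_update (hs : Tow s) {j k : I} (h : j ≤ k) (q : VI I → ℂ) (c : Bool) (x : ℂ) :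
    s j (Function.update q (Sum.inr (k, c)) x) = s j q :=
  hs.congr (fun _ => Function.update_of_ne (by simp) _ _) fun i hi _ =>
    Function.update_of_ne (by simp [(hi.trans_le h).ne]) _ _

lemma Tow.update_mem (hs : Tow s) {k : I} {q : VI I → ℂ} (hq : q ∈ XX s (Set.Iio k)) (c : Bool)
    {x : ℂ} (hx : ‖x‖ ≤ 1) : Function.update q (Sum.inr (k, c)) x ∈ XX s (Set.Iio k) := by
  refine ⟨fun v => ?_, fun j hj => ?_⟩
  · by_cases h : v = Sum.inr (k, c)
    · rw [h, Function.update_self]; exact hx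
    · rw [Function.update_of_ne h]; exact hq.1 v
  · have hj' : j < k := hj
    rw [Function.update_of_ne (by simp [hj'.ne]), Function.update_of_ne (by simp [hj'.ne]),
      hs.s_update hj'.le]
    exact hq.2 j hj

lemma zz_update (q : VI I → ℂ) (x : I × Bool) (y : ℂ) :
    zz (Function.update q (Sum.inr x) y) = zz q :=
  zz_congr fun _ => Function.update_of_ne (by simp) _ _

end Pool.Agent.P.MP_0279ce_an.Unif
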