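import Pool.Agent.P.MP_0279ce_an.UDec
import Pool.Agent.P.MP_0279ce_an.UTow

/-! Pushing a sum of products down one relation; the successor step. -/

namespace Pool.Agent.P.MP_0279ce_an.Unif

open MvPolynomial Filter
open scoped Topology

lemma key_pair {V : Type} [DecidableEq V] {S : Set (V → ℂ)} {s : (V → ℂ) → ℂ} {u v : V} {δ : ℝ}
    (hF : Fib S s u v δ) (h0 : (0 : V → ℂ) ∈ S) (hs0 : s 0 = 0) {a b : (V → ℂ) → ℂ}
    (ha : Ap (Up S s u v) a) (hb : Ap (Up S s u v) b) (ha0 : a 0 = 0) (hb0 : b 0 = 0) {M N : ℝ}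
    (hM : ∀ q ∈ Up S s u v, ‖a q‖ ≤ M) (hN : ∀ q ∈ Up S s u v, ‖b q‖ ≤ N) :
    ∃ a0 b0 c0 P Q : (V → ℂ) → ℂ, Ap S a0 ∧ Ap S b0 ∧ Ap S c0 ∧ a0 0 = 0 ∧ b0 0 = 0 ∧
      ‖c0 0‖ ≤ 51200 / δ ^ 2 * (M * N) ∧
      Dec S s u v (fun q => a q * b q) (fun q => a0 q * b0 q + s q * c0 q) P Q := by
  have hz : (0 : V → ℂ) ∈ Up S s u v := ⟨h0, by simp [hs0]⟩
  have hM0 : 0 ≤ M := (norm_nonneg _).trans (hM 0 hz)
  have hN0 : 0 ≤ N := (norm_nonneg _).trans (hN 0 hz)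
  have hδ := hF.pos
  have hS := hF.sub
  have hsub : Up S s u v ⊆ S := fun q hq => hq.1
  obtain ⟨a0, A, B, d1, n1⟩ := hF.exists_dec ha hM0 hM
  obtain ⟨b0, A', B', d2, n2⟩ := hF.exists_dec hb hN0 hN
  have hc : Ap S fun q => A q * B' q + B q * A' q :=
    (d1.apA.mul hS d2.apB).add (d1.apB.mul hS d2.apA)
  have hcb : ∀ q ∈ Up S s u v, ‖A q * B' q + B q * A' q‖ ≤ 3200 / δ ^ 2 * (M * N) := by
    intro q hq
    obtain ⟨-, e1, e2⟩ := n1 q hq.1
    obtain ⟨-, e3, e4⟩ := n2 q hq.1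
    have e5 : ‖A q‖ * ‖B' q‖ ≤ 40 * M / δ * (40 * N / δ) :=
      mul_le_mul e1 e4 (norm_nonneg _) (by positivity)
    have e6 : ‖B q‖ * ‖A' q‖ ≤ 40 * M / δ * (40 * N / δ) :=
      mul_le_mul e2 e3 (norm_nonneg _) (by positivity)
    have e7 : 40 * M / δ * (40 * N / δ) = 1600 / δ ^ 2 * (M * N) := by field_simp; ring
    have e8 : 3200 / δ ^ 2 * (M * N) = 2 * (1600 / δ ^ 2 * (M * N)) := by ring
    refine (norm_add_le _ _).trans ?_
    rw [norm_mul, norm_mul]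
    linarith
  obtain ⟨c0, C', E, d3, n3⟩ := hF.exists_dec (hc.mono hsub) (by positivity) hcb
  refine ⟨a0, b0, c0, fun q => a0 q * A' q + b0 q * A q + q u * (A q * A' q) + s q * C' q,
    fun q => a0 q * B' q + b0 q * B q + q v * (B q * B' q) + s q * E q, d1.ap0, d2.ap0, d3.ap0,
    ?_, ?_, ?_, ?_, ?_, ?_, ?_, ?_, ?_, ?_, ?_⟩
  · have := d1.eq 0 hz
    simpa [ha0] using this.symm
  · have := d2.eq 0 hz
    simpa [hb0] using this.symm
  · refine (n3 0 h0).1.trans (le_of_eq ?_)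
    ring
  · exact (d1.ap0.mul hS d2.ap0).add (hF.ap.mul hS d3.ap0)
  · exact (((d1.ap0.mul hS d2.apA).add (d2.ap0.mul hS d1.apA)).add
      ((ap_coord S u).mul hS (d1.apA.mul hS d2.apA))).add (hF.ap.mul hS d3.apA)
  · exact (((d1.ap0.mul hS d2.apB).add (d2.ap0.mul hS d1.apB)).add
      ((ap_coord S v).mul hS (d1.apB.mul hS d2.apB))).add (hF.ap.mul hS d3.apB)
  · intro q x
    simp only [d1.u0, d2.u0, d3.u0, hF.su]
  · intro q x
    simp only [d1.v0, d2.v0, d3.v0, hF.sv]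
  · intro q x
    simp only [d1.v0, d2.v0, d1.vA, d2.vA, d3.vA, hF.sv, Function.update_of_ne hF.ne]
  · intro q x
    simp only [d1.u0, d2.u0, d1.uB, d2.uB, d3.uB, hF.su, Function.update_of_ne hF.ne.symm]
  · intro q hq
    have e1 := d1.eq q hq
    have e2 := d2.eq q hq
    have e3 := d3.eq q hq
    have e4 : q u * q v = s q := hq.2
    beta_reduce at e3 ⊢
    rw [e1, e2]
    linear_combination (A q * B' q + B q * A' q) * e4 + s q * e3

theorem Fib.key {V : Type} [DecidableEq V] {S : Set (V → ℂ)} {s : (V → ℂ) → ℂ} {u v : V} {δ : ℝ}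
    (hF : Fib S s u v δ) (h0 : (0 : V → ℂ) ∈ S) (hs0 : s 0 = 0) {κ : Type} [Fintype κ]
    {a b : κ → (V → ℂ) → ℂ} (ha : ∀ i, Ap (Up S s u v) (a i)) (hb : ∀ i, Ap (Up S s u v) (b i))
    (ha0 : ∀ i, a i 0 = 0) (hb0 : ∀ i, b i 0 = 0) {M N : κ → ℝ}
    (hM : ∀ i, ∀ q ∈ Up S s u v, ‖a i q‖ ≤ M i) (hN : ∀ i, ∀ q ∈ Up S s u v, ‖b i q‖ ≤ N i)
    {f : (V → ℂ) → ℂ} (hf : Ap S f) (hfu : ∀ q x, f (Function.update q u x) = f q)
    (hfv : ∀ q x, f (Function.update q v x) = f q)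
    (h : ∀ q ∈ Up S s u v, f q = ∑ i, a i q * b i q) :
    ∃ c : ℂ, ‖c‖ ≤ 51200 / δ ^ 2 * ∑ i, M i * N i ∧ WL S fun q => f q - c * s q := by
  choose a0 b0 c0 P Q p1 p2 p3 z1 z2 n d using fun i =>
    key_pair hF h0 hs0 (ha i) (hb i) (ha0 i) (hb0 i) (hM i) (hN i)
  have hD : Dec S s u v (fun _ => 0) (fun q => ∑ i, (a0 i q * b0 i q + s q * c0 i q) - f q)
      (fun q => ∑ i, P i q) (fun q => ∑ i, Q i q) := by
    refine ⟨(ap_sum _ fun i _ => (d i).ap0).sub hf, ap_sum _ fun i _ => (d i).apA,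
      ap_sum _ fun i _ => (d i).apB, fun q x => ?_, fun q x => ?_, fun q x => ?_, fun q x => ?_,
      fun q hq => ?_⟩
    · rw [hfu]
      exact congrArg (· - f q) (Finset.sum_congr rfl fun i _ => (d i).u0 q x)
    · rw [hfv]
      exact congrArg (· - f q) (Finset.sum_congr rfl fun i _ => (d i).v0 q x)
    · exact Finset.sum_congr rfl fun i _ => (d i).vA q x
    · exact Finset.sum_congr rfl fun i _ => (d i).uB q x
    · have e1 : ∑ i, a i q * b i q = ∑ i, ((a0 i q * b0 i q + s q * c0 i q) + q u * P i q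
          + q v * Q i q) := Finset.sum_congr rfl fun i _ => (d i).eq q hq
      rw [Finset.sum_add_distrib, Finset.sum_add_distrib, ← Finset.mul_sum, ← Finset.mul_sum,
        ← h q hq] at e1
      linear_combination e1
  have hz := hD.bound hF (M := 0) fun q _ => by simp
  refine ⟨∑ i, c0 i 0, ?_, ?_⟩
  · rw [Finset.mul_sum]
    exact (norm_sum_le _ _).trans (Finset.sum_le_sum fun i _ => n i)
  · have w1 := wl_sum_mul p1 p2 z1 z2
    have w2 := wl_mul hF.ap ((ap_sum Finset.univ fun i _ => p3 i).sub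
      (ap_const S (∑ i, c0 i 0))) hs0 (sub_self _)
    refine (w1.add w2).congr fun q hq => ?_
    have e1 := (hz q hq).1
    rw [mul_zero, norm_le_zero_iff, Finset.sum_add_distrib, ← Finset.mul_sum] at e1
    linear_combination -e1

theorem Tow.succ {I : Type} [LinearOrder I] {s : I → (VI I → ℂ) → ℂ} (hs : Tow s) (m : I)
    (h : WL (XX s (Set.Iic m)) zz) : ∃ c : ℂ, WL (XX s (Set.Iio m)) fun q => zz q + c * s m q := by
  obtain ⟨U, hU, κ, _, a, b, h1, h2, h3, h4, h5⟩ := h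
  obtain ⟨F, δ, hδ, hδ1, hF⟩ := exists_basic hU
  obtain ⟨F', hu, hv, hFF⟩ : ∃ F' : Finset (VI I), Sum.inr (m, true) ∈ F' ∧
      Sum.inr (m, false) ∈ F' ∧ F ⊆ F' :=
    ⟨insert (Sum.inr (m, true)) (insert (Sum.inr (m, false)) F), Finset.mem_insert_self _ _,
      Finset.mem_insert_of_mem (Finset.mem_insert_self _ _),
      fun w hw => Finset.mem_insert_of_mem (Finset.mem_insert_of_mem hw)⟩
  obtain ⟨U', hU', hmem⟩ : ∃ U' ∈ 𝓝 (0 : VI I → ℂ), ∀ q, q ∈ U' ↔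
      (∀ w ∈ F', ‖q w‖ ≤ δ) ∧ ‖s m q‖ ≤ δ ^ 2 / 16 := by
    refine ⟨{q | ∀ w ∈ F', ‖q w‖ ≤ δ} ∩ {q | ‖s m q‖ ≤ δ ^ 2 / 16},
      inter_mem (basic_mem_nhds F' fun w _ => by simpa using hδ) ?_, fun q => Iff.rfl⟩
    have e1 : ‖s m 0‖ < δ ^ 2 / 16 := by
      rw [hs.zero, norm_zero]
      positivity
    exact (((hs.cont m).norm.tendsto 0).eventually (gt_mem_nhds e1)).mono fun q hq => hq.le
  have hup : ∀ c : Bool, ∀ q ∈ XX s (Set.Iio m) ∩ U', ∀ x : ℂ, ‖x‖ ≤ δ →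
      Function.update q (Sum.inr (m, c)) x ∈ XX s (Set.Iio m) ∩ U' := by
    intro c q hq x hx
    refine ⟨hs.update_mem hq.1 c (hx.trans hδ1), (hmem _).2 ⟨fun w hw => ?_, ?_⟩⟩
    · by_cases e : w = Sum.inr (m, c)
      · rw [e, Function.update_self]
        exact hx
      · rw [Function.update_of_ne e]
        exact ((hmem q).1 hq.2).1 w hw
    · rw [hs.s_update le_rfl]
      exact ((hmem q).1 hq.2).2
  have hFib : Fib (XX s (Set.Iio m) ∩ U') (s m) (Sum.inr (m, true)) (Sum.inr (m, false)) δ :=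
    ⟨by simp, hδ, fun q hq => hq.1.1, (hs.ap m).mono Set.inter_subset_left,
      fun q hq => ((hmem q).1 hq.2).2, fun q x => hs.s_update le_rfl q true x,
      fun q x => hs.s_update le_rfl q false x, hup true, hup false,
      fun q hq => ((hmem q).1 hq.2).1 _ hu, fun q hq => ((hmem q).1 hq.2).1 _ hv⟩
  have hsub : Up (XX s (Set.Iio m) ∩ U') (s m) (Sum.inr (m, true)) (Sum.inr (m, false))
      ⊆ XX s (Set.Iic m) ∩ U := by
    intro q hq
    refine ⟨⟨hq.1.1.1, fun k hk => ?_⟩, hF q fun w hw => ((hmem q).1 hq.1.2).1 w (hFF hw)⟩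
    rcases lt_or_eq_of_le (show k ≤ m from hk) with e | e
    · exact hq.1.1.2 k e
    · rw [e]
      exact hq.2
  have hDD : XX s (Set.Iic m) ∩ U ⊆ DD (VI I) := fun q hq => hq.1.1
  choose M hM0 hM using fun i => (h1 i).bdd hDD
  choose N hN0 hN using fun i => (h2 i).bdd hDD
  obtain ⟨c, -, hc⟩ := hFib.key ⟨hs.zero_mem _, mem_of_mem_nhds hU'⟩ (hs.zero m)
    (fun i => (h1 i).mono hsub) (fun i => (h2 i).mono hsub) h3 h4
    (fun i q hq => hM i q (hsub hq)) (fun i q hq => hN i q (hsub hq))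
    (ap_zz.mono fun q hq => hq.1.1) (fun q x => zz_update q _ x) (fun q x => zz_update q _ x)
    fun q hq => h5 q (hsub hq)
  exact ⟨-c, (hc.of_inter hU').congr fun q _ => by ring⟩

theorem Tow.fib_top {I : Type} [LinearOrder I] [OrderTop I] {s : I → (VI I → ℂ) → ℂ}
    (hs : Tow s) : Fib (XX s (Set.Iio ⊤)) (s ⊤) (Sum.inr (⊤, true)) (Sum.inr (⊤, false)) 1 ∧
      Up (XX s (Set.Iio ⊤)) (s ⊤) (Sum.inr (⊤, true)) (Sum.inr (⊤, false)) = XX s Set.univ := by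
  refine ⟨⟨by simp, one_pos, XX_subset s _, hs.ap ⊤, fun q _ => by simpa using hs.bd ⊤ q,
    fun q x => hs.s_update le_rfl q true x, fun q x => hs.s_update le_rfl q false x,
    fun q hq x hx => hs.update_mem hq true hx, fun q hq x hx => hs.update_mem hq false hx,
    fun q hq => hq.1 _, fun q hq => hq.1 _⟩, Set.ext fun q => ⟨fun hq => ⟨hq.1.1, fun k _ => ?_⟩,
    fun hq => ⟨XX_anti s (Set.subset_univ _) hq, hq.2 ⊤ (Set.mem_univ _)⟩⟩⟩
  rcases lt_or_eq_of_le (le_top : k ≤ ⊤) with e | e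
  · exact hq.1.2 k e
  · rw [e]
    exact hq.2

end Pool.Agent.P.MP_0279ce_an.Unif
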