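import Pool.Agent.P.MP_0279ce_an.UPt

/-! Sections of a tower and the limit step. -/

namespace Pool.Agent.P.MP_0279ce_an.Unif

open MvPolynomial Filter
open scoped Topology

variable {I : Type} [LinearOrder I] [WellFoundedLT I] {s : I → (VI I → ℂ) → ℂ}

/-- A section over a set of levels with one prescribed side on each level. -/
structure UlSec (s : I → (VI I → ℂ) → ℂ) (L : Set I) (b : I → Bool) (w : I → ℂ)
    (σ : (VI I → ℂ) → VI I → ℂ) : Prop where
  inl : ∀ q n, σ q (Sum.inl n) = q (Sum.inl n)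
  off : ∀ q k c, k ∉ L → σ q (Sum.inr (k, c)) = q (Sum.inr (k, c))
  fix : ∀ q, ∀ k ∈ L, σ q (Sum.inr (k, b k)) = w k
  oth : ∀ q, ∀ k ∈ L, ∀ c, c ≠ b k → σ q (Sum.inr (k, c)) = (w k)⁻¹ * s k (σ q)

lemma ul_exists (hs : Tow s) (L : Set I) (b : I → Bool) (w : I → ℂ) :
    ∃ σ, UlSec s L b w σ := by
  classical
  let mk : (I → (VI I → ℂ) → ℂ) → (VI I → ℂ) → VI I → ℂ := fun t q =>
    Sum.elim (fun n => q (Sum.inl n)) fun x =>
      if x.1 ∈ L then (if x.2 = b x.1 then w x.1 else (w x.1)⁻¹ * t x.1 q) else q (Sum.inr x)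
  obtain ⟨t, ht⟩ := exists_fix (wellFounded_lt (α := I)) (fun t k q => s k (mk t q))
    (fun k t t' h => funext fun q => hs.congr (fun _ => rfl) fun j hj c => by
      simp only [mk, Sum.elim_inr, h j hj])
  refine ⟨mk t, fun _ _ => rfl, fun q k c hk => ?_, fun q k hk => ?_, fun q k hk c hc => ?_⟩
  · simp only [mk, Sum.elim_inr, if_neg hk]
  · simp only [mk, Sum.elim_inr, if_pos hk, if_true]
  · have h1 : t k q = s k (mk t q) := congrFun (ht k) q
    rw [← h1]
    simp only [mk, Sum.elim_inr, if_pos hk, if_neg hc]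

variable {L : Set I} {b : I → Bool} {w : I → ℂ} {σ : (VI I → ℂ) → VI I → ℂ}

omit [LinearOrder I] [WellFoundedLT I] in
lemma UlSec.coord (h : UlSec s L b w σ) (P : ((VI I → ℂ) → ℂ) → Prop)
    (h1 : ∀ v, P fun q => q v) (h2 : ∀ c, P fun _ => c) (j : I) (c : Bool)
    (h3 : j ∈ L → P fun q => (w j)⁻¹ * s j (σ q)) : P fun q => σ q (Sum.inr (j, c)) := by
  by_cases hj : j ∈ L
  · by_cases hc : c = b j
    · rw [hc, funext fun q => h.fix q j hj]
      exact h2 _
    · rw [funext fun q => h.oth q j hj c hc]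
      exact h3 hj
  · rw [funext fun q => h.off q j c hj]
    exact h1 _

lemma UlSec.continuous (h : UlSec s L b w σ) (hs : Tow s) : Continuous σ := by
  have key : ∀ k, Continuous fun q => s k (σ q) := by
    intro k
    induction k using WellFoundedLT.induction with
    | ind k ih =>
    rw [← funext fun q => hs.dep k (σ q)]
    refine (hs.cont k).comp (continuous_pi ?_)
    rintro (n | ⟨j, c⟩)
    · simpa only [tr_inl, h.inl] using continuous_apply _
    · rcases lt_or_ge j k with hj | hj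
      · simp only [tr_lt hj]
        exact h.coord Continuous continuous_apply (fun _ => continuous_const) j c
          fun _ => continuous_const.mul (ih j hj)
      · simpa only [tr_ge hj] using continuous_const
  refine continuous_pi ?_
  rintro (n | ⟨j, c⟩)
  · simpa only [h.inl] using continuous_apply _
  · exact h.coord Continuous continuous_apply (fun _ => continuous_const) j c
      fun _ => continuous_const.mul (key j)

lemma UlSec.ap (h : UlSec s L b w σ) (hs : Tow s) {k₀ : I} (hL : ∀ k ∈ L, k < k₀)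
    {S : Set (VI I → ℂ)} (hS : S ⊆ DD (VI I)) (hσ : ∀ q ∈ S, σ q ∈ XX s (Set.Iio k₀))
    (v : VI I) : Ap S fun q => σ q v := by
  have key : ∀ k, k < k₀ → Ap S fun q => s k (σ q) := by
    intro k
    induction k using WellFoundedLT.induction with
    | ind k ih =>
    intro hk
    rw [← funext fun q => hs.dep k (σ q)]
    refine Ap.comp hS (hs.ap k) (φ := fun q => tr k (σ q))
      (fun q hq => hs.tr_mem (XX_anti s (Set.Iio_subset_Iio hk.le) (hσ q hq))) ?_
    rintro (n | ⟨j, c⟩)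
    · simpa only [tr_inl, h.inl] using ap_coord S _
    · rcases lt_or_ge j k with hj | hj
      · simp only [tr_lt hj]
        exact h.coord (Ap S) (ap_coord S) (ap_const S) j c
          fun _ => (ih j hj (hj.trans hk)).const_mul _
      · simpa only [tr_ge hj] using ap_const S 0
  rcases v with n | ⟨j, c⟩
  · simpa only [h.inl] using ap_coord S _
  · exact h.coord (Ap S) (ap_coord S) (ap_const S) j c fun hj => (key j (hL j hj)).const_mul _

omit [WellFoundedLT I] in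
lemma UlSec.mem (h : UlSec s L b w σ) (hs : Tow s) {β : I} (hL : ∀ k ∈ L, β ≤ k)
    (hw : ∀ k ∈ L, w k ≠ 0) (hw1 : ∀ k ∈ L, ‖w k‖ ≤ 1) {Λ : Set I}
    (hΛ : ∀ k ∈ Λ, k < β ∨ k ∈ L) {q : VI I → ℂ} (hq : q ∈ XX s (Set.Iio β))
    (hb : ∀ k ∈ L, ‖w k‖ = 1 ∨ ∀ c, ‖σ q (Sum.inr (k, c))‖ ≤ 1) : σ q ∈ XX s Λ := by
  have hoff : ∀ j < β, ∀ c, σ q (Sum.inr (j, c)) = q (Sum.inr (j, c)) :=
    fun j hj c => h.off q j c fun hj' => absurd hj (not_lt.2 (hL j hj'))
  refine ⟨?_, fun k hk => ?_⟩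
  · rintro (n | ⟨j, c⟩)
    · rw [h.inl]; exact hq.1 _
    · by_cases hj : j ∈ L
      · by_cases hc : c = b j
        · rw [hc, h.fix q j hj]; exact hw1 j hj
        · rcases hb j hj with h1 | h1
          · rw [h.oth q j hj c hc, norm_mul, norm_inv, h1, inv_one, one_mul]
            exact (hs.bd _ _).trans (by norm_num)
          · exact h1 c
      · rw [h.off q j c hj]; exact hq.1 _
  · rcases hΛ k hk with hk | hk
    · rw [hoff k hk, hoff k hk, hs.congr (h.inl q) fun j hj c => hoff j (hj.trans hk) c]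
      exact hq.2 k hk
    · have h1 := h.fix q k hk
      have h2 := h.oth q k hk
      cases hb' : b k
      · rw [hb'] at h1 h2
        rw [h1, h2 true (by decide), mul_comm, mul_inv_cancel_left₀ (hw k hk)]
      · rw [hb'] at h1 h2
        rw [h1, h2 false (by decide), mul_inv_cancel_left₀ (hw k hk)]

lemma UlSec.zero (h : UlSec s L b w σ) (hs : Tow s) {p : VI I → ℂ}
    (hp : ∀ k ∈ L, p (Sum.inr (k, true)) * p (Sum.inr (k, false)) = s k p)
    (hw : ∀ k ∈ L, w k ≠ 0) (hpw : ∀ k ∈ L, p (Sum.inr (k, b k)) = w k)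
    (h1 : ∀ n, p (Sum.inl n) = 0) (h2 : ∀ k c, k ∉ L → p (Sum.inr (k, c)) = 0) : σ 0 = p := by
  have e1 : ∀ n, σ 0 (Sum.inl n) = p (Sum.inl n) := fun n => by rw [h.inl, h1]; rfl
  have key : ∀ k c, σ 0 (Sum.inr (k, c)) = p (Sum.inr (k, c)) := by
    intro k
    induction k using WellFoundedLT.induction with
    | ind k ih =>
    intro c
    by_cases hk : k ∈ L
    · by_cases hc : c = b k
      · rw [hc, h.fix 0 k hk, hpw k hk]
      · rw [h.oth 0 k hk c hc, hs.congr e1 ih, ← hp k hk]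
        have h3 := hpw k hk
        have h4 := hw k hk
        cases c <;> cases hb' : b k <;> rw [hb'] at hc h3
        · exact absurd rfl hc
        · rw [h3, inv_mul_cancel_left₀ h4]
        · rw [h3, mul_comm (p _), inv_mul_cancel_left₀ h4]
        · exact absurd rfl hc
    · rw [h.off 0 k c hk, h2 k c hk]; rfl
  funext v
  rcases v with n | ⟨k, c⟩
  exacts [e1 n, key k c]

theorem Tow.exists_lift (hs : Tow s) (i : I) {q : VI I → ℂ} (hq : q ∈ XX s (Set.Iio i)) :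
    ∃ q' ∈ XX s Set.univ, tr i q' = tr i q := by
  obtain ⟨σ, h⟩ := ul_exists hs (Set.Ici i) (fun _ => true) fun _ => 1
  exact ⟨σ q, h.mem hs (fun _ hk => hk) (fun _ _ => one_ne_zero) (fun _ _ => norm_one.le)
    (fun k _ => lt_or_ge k i) hq fun _ _ => Or.inl norm_one,
    tr_congr (h.inl q) fun j hj c => h.off q j c (not_le.2 hj)⟩

theorem Tow.limit (hs : Tow s) {k₀ : I} (hne : (Set.Iio k₀).Nonempty)
    (hmax : ∀ j < k₀, ∃ i < k₀, j < i) (h : WL (XX s (Set.Iio k₀)) zz) :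
    ∃ β < k₀, WL (XX s (Set.Iio β)) zz := by
  classical
  obtain ⟨U, hU, κ, _, a, a', ha, ha', ha0, ha0', hz⟩ := h
  obtain ⟨β, hβ, p, hp, hUp, hap, hp1, hp2, hfin, hnz⟩ := hs.good_point hne hmax hU
    (κ := κ ⊕ κ) (a := Sum.elim a a') (by rintro (i | i); exacts [ha i, ha' i])
    (by rintro (i | i); exacts [ha0 i, ha0' i])
  have hside : ∀ k, ∃ c, k ∈ Set.Ico β k₀ → p (Sum.inr (k, c)) ≠ 0 ∧
      (‖p (Sum.inr (k, c))‖ = 1 ∨ ∀ c', ‖p (Sum.inr (k, c'))‖ < 1) := by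
    intro k
    by_cases hk : k ∈ Set.Ico β k₀
    · by_cases h1 : ∀ c', ‖p (Sum.inr (k, c'))‖ < 1
      · obtain ⟨c, hc⟩ := hnz k hk
        exact ⟨c, fun _ => ⟨hc, Or.inr h1⟩⟩
      · push Not at h1
        obtain ⟨c, hc⟩ := h1
        exact ⟨c, fun _ => ⟨norm_pos_iff.1 (one_pos.trans_le hc),
          Or.inl (le_antisymm (hp.1 _) hc)⟩⟩
    · exact ⟨true, fun h => absurd h hk⟩
  choose b hb using hside
  obtain ⟨σ, hσ⟩ := ul_exists hs (Set.Ico β k₀) b fun k => p (Sum.inr (k, b k))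
  have h0 : σ 0 = p := hσ.zero hs (fun k hk => hp.2 k hk.2) (fun k hk => (hb k hk).1)
    (fun _ _ => rfl) hp1 hp2
  let F : Finset (VI I) := (hfin.toFinset ×ˢ (Finset.univ : Finset Bool)).image Sum.inr
  have hF : {x : VI I → ℂ | ∀ v ∈ F, ‖x v‖ ≤ 1} ∈ 𝓝 p := by
    refine basic_mem_nhds F fun v hv => ?_
    obtain ⟨⟨k, c⟩, hx, rfl⟩ := Finset.mem_image.1 hv
    exact (hfin.mem_toFinset.1 (Finset.mem_product.1 hx).1).2 c
  have hU' : σ ⁻¹' (U ∩ {x : VI I → ℂ | ∀ v ∈ F, ‖x v‖ ≤ 1}) ∈ 𝓝 (0 : VI I → ℂ) :=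
    (hσ.continuous hs).continuousAt.preimage_mem_nhds (h0 ▸ inter_mem hUp hF)
  have hmem : ∀ q ∈ XX s (Set.Iio β) ∩ σ ⁻¹' (U ∩ {x : VI I → ℂ | ∀ v ∈ F, ‖x v‖ ≤ 1}),
      σ q ∈ XX s (Set.Iio k₀) ∩ U := by
    refine fun q hq => ⟨hσ.mem hs (fun _ hk => hk.1) (fun k hk => (hb k hk).1)
      (fun _ _ => hp.1 _) (fun k hk => (lt_or_ge k β).imp_right fun h1 => ⟨h1, hk⟩) hq.1
      fun k hk => (hb k hk).2.imp_right fun h1 c => hq.2.2 _ ?_, hq.2.1⟩
    exact Finset.mem_image.2 ⟨(k, c), Finset.mem_product.2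
      ⟨hfin.mem_toFinset.2 ⟨hk, h1⟩, Finset.mem_univ _⟩, rfl⟩
  have hD : XX s (Set.Iio β) ∩ σ ⁻¹' (U ∩ {x : VI I → ℂ | ∀ v ∈ F, ‖x v‖ ≤ 1}) ⊆ DD (VI I) :=
    fun q hq => hq.1.1
  have hc := hσ.ap hs (fun _ hk => hk.2) hD fun q hq => (hmem q hq).1
  refine ⟨β, hβ, _, hU', κ, inferInstance, fun i q => a i (σ q), fun i q => a' i (σ q),
    fun i => (ha i).comp hD hmem hc, fun i => (ha' i).comp hD hmem hc,
    fun i => ?_, fun i => ?_, fun q hq => ?_⟩
  · show a i (σ 0) = 0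
    rw [h0]; exact hap (Sum.inl i)
  · show a' i (σ 0) = 0
    rw [h0]; exact hap (Sum.inr i)
  · exact (zz_congr (hσ.inl q)).symm.trans (hz _ (hmem q hq))

end Pool.Agent.P.MP_0279ce_an.Unif
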