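import Pool.Agent.P.MP_0279ce_an.URec
import Pool.Agent.P.MP_0279ce_an.UFin
import Pool.Agent.P.MP_0279ce_an.L1

/-! The example. -/

namespace Pool.Agent.P.MP_0279ce_an.Unif

open MvPolynomial Filter
open scoped Topology

open Cardinal in
lemma mk_seq_le : #(ℕ → MvPolynomial (VI (WithTop Idx)) ℂ) ≤ 𝔠 := by
  have h1 : #(WithTop Idx) = 𝔠 := by
    change #(Option Idx) = 𝔠
    rw [mk_option, mk_Idx, add_one_eq aleph0_le_continuum]
  have h2 : #(MvPolynomial (VI (WithTop Idx)) ℂ) ≤ 𝔠 :=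
    MvPolynomial.cardinalMk_le_max.trans (by simp [h1, aleph0_le_continuum])
  rw [← power_def, mk_nat]
  exact (power_le_power_right h2).trans_eq continuum_power_aleph0

theorem main :
    ∃ (X : Type) (_ : TopologicalSpace X) (_ : CompactSpace X) (_ : T2Space X)
      (B : Subalgebra ℂ C(X, ℂ)) (x₀ : X) (M : NonUnitalSubalgebra ℂ C(X, ℂ)),
      IsClosed (B : Set C(X, ℂ)) ∧ B.SeparatesPoints ∧ (∀ f, f ∈ M ↔ f ∈ B ∧ f x₀ = 0) ∧
      CompleteSpace M ∧ Ring.jacobson (Unitization ℂ M) = ⊥ ∧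
      FiniteDimensional ℂ (M ⧸ Submodule.span ℂ {x : M | ∃ a b : M, x = a * b}) ∧
      ¬ ∃ C : ℝ, ∀ x ∈ Submodule.span ℂ {x : M | ∃ a b : M, x = a * b},
        ∃ (n : ℕ) (a b : Fin n → M), x = ∑ i, a i * b i ∧ ∑ i, ‖a i‖ * ‖b i‖ ≤ C * ‖x‖ := by
  obtain ⟨e, he⟩ := Idx.exists_enum mk_seq_le
  obtain ⟨s, h1, h2, h3, h4⟩ := exists_tower (I := WithTop Idx) (fun S hS hS' => by
      obtain ⟨a, ha⟩ := Idx.exists_gt (hS.preimage WithTop.coe_injective)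
      refine ⟨a, WithTop.coe_lt_top a, fun k hk => ?_⟩
      obtain ⟨i, rfl⟩ := WithTop.ne_top_iff_exists.1 (hS' k hk).ne
      exact WithTop.coe_lt_coe.2 (ha i hk))
    (fun k => WithTop.recTopCoe 0 e k) (fun x a ha => by
      obtain ⟨a, rfl⟩ := WithTop.ne_top_iff_exists.1 ha.ne
      obtain ⟨i, h1, h2⟩ := he x a
      exact ⟨i, WithTop.coe_le_coe.2 h1, WithTop.coe_lt_top i, h2⟩)
  exact of_tower h1 h2 h3 h4

end Pool.Agent.P.MP_0279ce_an.Unif
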