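import Pool.Agent.P.MP_0279ce_an.UGeo
import Pool.Agent.P.MP_0279ce_an.UTow

/-! A good point below a limit level. -/

namespace Pool.Agent.P.MP_0279ce_an.Unif

open MvPolynomial Filter
open scoped Topology

open Pool.Agent.P.MP_0279ce_an.Comm

section

variable {I : Type} [LinearOrder I] {a b : I}

/-- Extension by zero from an interval of levels. -/
noncomputable def ptE (a b : I) (q : Set.Ico a b × Bool → ℂ) : VI I → ℂ :=
  Sum.elim (fun _ => 0) fun x => if h : a ≤ x.1 ∧ x.1 < b then q (⟨x.1, h⟩, x.2) else 0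

lemma pt_in (q : Set.Ico a b × Bool → ℂ) {k : I} (h : k ∈ Set.Ico a b) (c : Bool) :
    ptE a b q (Sum.inr (k, c)) = q (⟨k, h⟩, c) := dif_pos h

lemma pt_out (q : Set.Ico a b × Bool → ℂ) {k : I} (h : k ∉ Set.Ico a b) (c : Bool) :
    ptE a b q (Sum.inr (k, c)) = 0 := dif_neg h

lemma pt_cases (v : VI I) :
    (∀ q, ptE a b q v = 0) ∨ ∃ w : Set.Ico a b × Bool, ∀ q, ptE a b q v = q w := by
  rcases v with n | ⟨k, c⟩
  · exact Or.inl fun _ => rfl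
  · by_cases h : k ∈ Set.Ico a b
    · exact Or.inr ⟨(⟨k, h⟩, c), fun q => pt_in q h c⟩
    · exact Or.inl fun q => pt_out q h c

lemma pt_cont : Continuous (ptE a b) := by
  refine continuous_pi fun v => ?_
  rcases pt_cases (a := a) (b := b) v with h | ⟨w, h⟩
  · simpa only [h] using continuous_const
  · simpa only [h] using continuous_apply w

lemma pt_ap (T : Set (Set.Ico a b × Bool → ℂ)) (v : VI I) : Ap T fun q => ptE a b q v := by
  rcases pt_cases (a := a) (b := b) v with h | ⟨w, h⟩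
  · exact (ap_const T 0).congr fun q _ => h q
  · exact (ap_coord T w).congr fun q _ => h q

lemma pt_zero : ptE a b 0 = 0 := by
  funext v
  rcases pt_cases (a := a) (b := b) v with h | ⟨w, h⟩ <;> exact h 0

lemma pt_mem {s : I → (VI I → ℂ) → ℂ} (hs : Tow s) {k : I} (hk : k ≤ b)
    {q : Set.Ico a b × Bool → ℂ} (hq : ∀ v, ‖q v‖ ≤ 1)
    (hr : ∀ j : Set.Ico a b, j.1 < k → q (j, true) * q (j, false) = s j.1 (ptE a b q)) :
    ptE a b q ∈ XX s (Set.Iio k) := by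
  refine ⟨fun v => ?_, fun j hj => ?_⟩
  · rcases pt_cases (a := a) (b := b) v with h | ⟨w, h⟩
    · rw [h, norm_zero]; exact zero_le_one
    · rw [h]; exact hq w
  · by_cases h : j ∈ Set.Ico a b
    · rw [pt_in q h, pt_in q h]
      exact hr ⟨j, h⟩ hj
    · have hja : j < a := not_le.1 fun h' => h ⟨h', lt_of_lt_of_le hj hk⟩
      rw [pt_out q h, zero_mul, ← hs.zero j]
      exact hs.congr (fun _ => rfl) fun i hi c =>
        (pt_out q (fun h' => absurd (hi.trans hja) (not_lt.2 h'.1)) c).symm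

lemma pt_bound {k₀ : I} (hne : (Set.Iio k₀).Nonempty) (hmax : ∀ j < k₀, ∃ i < k₀, j < i)
    (T : Finset I) : ∃ β < k₀, ∀ j ∈ T, j < k₀ → j < β := by
  induction T using Finset.induction_on with
  | empty => exact hne.imp fun β h => ⟨h, by simp⟩
  | insert i T _ ih =>
    obtain ⟨β, hβ, h⟩ := ih
    by_cases hi : i < k₀
    · obtain ⟨γ, hγ, h'⟩ := hmax _ (max_lt hβ hi)
      refine ⟨γ, hγ, fun j hj hj' => ?_⟩
      rcases Finset.mem_insert.1 hj with rfl | hj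
      · exact (le_max_right _ _).trans_lt h'
      · exact (h j hj hj').trans ((le_max_left _ _).trans_lt h')
    · refine ⟨β, hβ, fun j hj hj' => ?_⟩
      rcases Finset.mem_insert.1 hj with rfl | hj
      · exact absurd hj' hi
      · exact h j hj hj'

lemma pt_loc {s : I → (VI I → ℂ) → ℂ} (hs : Tow s) (k : Set.Ico a b) {ε : ℝ} (hε : 0 < ε) :
    ∃ L : Finset (Set.Ico a b), (∀ j ∈ L, j < k) ∧ ∃ δ : ℝ, 0 < δ ∧
      ∀ q : Set.Ico a b × Bool → ℂ, (∀ j ∈ L, ∀ c, ‖q (j, c)‖ ≤ δ) →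
        ‖s k.1 (ptE a b q)‖ ≤ ε := by
  have h1 : {x | ‖s k.1 x‖ < ε} ∈ 𝓝 (0 : VI I → ℂ) :=
    (isOpen_lt (hs.cont k.1).norm continuous_const).mem_nhds (by simpa [hs.zero] using hε)
  obtain ⟨F, δ, hδ, -, hF⟩ := exists_basic h1
  refine ⟨((F.image (Sum.elim (fun _ => a) Prod.fst)).subtype (· ∈ Set.Ico a b)).filter (· < k),
    fun j hj => (Finset.mem_filter.1 hj).2, δ, hδ, fun q hq => ?_⟩
  rw [← hs.dep]
  refine le_of_lt (hF _ ?_)
  rintro (n | ⟨j, c⟩) hw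
  · rw [tr_inl]
    exact norm_zero.le.trans hδ.le
  · rcases lt_or_ge j k.1 with h | h
    · rw [tr_lt h]
      by_cases hj : j ∈ Set.Ico a b
      · rw [pt_in q hj]
        exact hq _ (Finset.mem_filter.2
          ⟨Finset.mem_subtype.2 (Finset.mem_image.2 ⟨_, hw, rfl⟩), h⟩) c
      · rw [pt_out q hj, norm_zero]; exact hδ.le
    · rw [tr_ge h, norm_zero]; exact hδ.le

end

theorem Tow.good_point {I : Type} [LinearOrder I] [WellFoundedLT I] {s : I → (VI I → ℂ) → ℂ}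
    (hs : Tow s) {k₀ : I} (hne : (Set.Iio k₀).Nonempty) (hmax : ∀ j < k₀, ∃ i < k₀, j < i)
    {U : Set (VI I → ℂ)} (hU : U ∈ 𝓝 (0 : VI I → ℂ)) {κ : Type} [Fintype κ]
    {a : κ → (VI I → ℂ) → ℂ} (ha : ∀ i, Ap (XX s (Set.Iio k₀) ∩ U) (a i)) (ha0 : ∀ i, a i 0 = 0) :
    ∃ β < k₀, ∃ p ∈ XX s (Set.Iio k₀), U ∈ 𝓝 p ∧ (∀ i, a i p = 0) ∧
      (∀ n, p (Sum.inl n) = 0) ∧ (∀ k c, k ∉ Set.Ico β k₀ → p (Sum.inr (k, c)) = 0) ∧
      {k | k ∈ Set.Ico β k₀ ∧ ∀ c, ‖p (Sum.inr (k, c))‖ < 1}.Finite ∧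
      ∀ k ∈ Set.Ico β k₀, ∃ c, p (Sum.inr (k, c)) ≠ 0 := by
  obtain ⟨F, δ, hδ, -, hF⟩ := exists_basic hU
  obtain ⟨β₀, hβ₀, hb⟩ := pt_bound hne hmax (F.image (Sum.elim (fun _ => k₀) Prod.fst))
  have : Nonempty (Set.Ico β₀ k₀) := ⟨⟨β₀, le_rfl, hβ₀⟩⟩
  have : NoMaxOrder (Set.Ico β₀ k₀) := ⟨fun x => by
    obtain ⟨i, hi, h⟩ := hmax x.1 x.2.2
    exact ⟨⟨i, x.2.1.trans h.le, hi⟩, h⟩⟩
  have hF0 : ∀ q, ∀ w ∈ F, ‖ptE β₀ k₀ q w‖ < δ := by
    rintro q (n | ⟨j, c⟩) hw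
    · exact norm_zero.trans_lt hδ
    · rw [pt_out q (fun h => absurd (hb j (Finset.mem_image.2 ⟨_, hw, rfl⟩) h.2) (not_lt.2 h.1)),
        norm_zero]
      exact hδ
  let s' : Set.Ico β₀ k₀ → (Set.Ico β₀ k₀ × Bool → ℂ) → ℂ := fun k q => s k.1 (ptE β₀ k₀ q)
  have hS : ∀ q ∈ Sig s', ptE β₀ k₀ q ∈ XX s (Set.Iio k₀) ∩ U := fun q hq =>
    ⟨pt_mem hs le_rfl hq.1 fun j _ => hq.2 j, hF _ fun w hw => (hF0 q w hw).le⟩
  have hD : Sig s' ⊆ DD _ := fun q hq => hq.1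
  have hap : ∀ i, Ap (Sig s') fun q => a i (ptE β₀ k₀ q) := fun i =>
    (ha i).comp hD hS (pt_ap _)
  have hex : ∀ i, ∃ g : (Set.Ico β₀ k₀ × Bool → ℂ) → ℂ, Continuous g ∧
      ∀ q ∈ Sig s', g q = a i (ptE β₀ k₀ q) := fun i => by
    obtain ⟨M, hM, h⟩ := (hap i).bdd hD
    obtain ⟨g, h1, -, h2⟩ := (hap i).exists_ext hM h
    exact ⟨g, h1, h2⟩
  choose c hc hce using hex
  have h0 : (0 : Set.Ico β₀ k₀ × Bool → ℂ) ∈ Sig s' :=
    ⟨fun v => by simp, fun k => by simp [s', pt_zero, hs.zero]⟩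
  obtain ⟨β, q, hq, h1, h2, h3, h4⟩ := exists_good' (s := s')
    (fun k => (hs.cont k.1).comp pt_cont)
    (fun k => (hs.ap k.1).comp (fun q hq => hq.1)
      (fun q hq => pt_mem hs k.2.2.le hq.1 fun j hj => hq.2 j hj) (pt_ap _))
    (fun k q _ => (hs.bd _ _).trans (by norm_num))
    (fun k ε hε => by
      obtain ⟨L, hL, η, hη, h⟩ := pt_loc hs k hε
      exact ⟨L, hL, η, hη, fun q _ => h q⟩)
    c hc (fun i => (hap i).congr (hce i)) fun i => by rw [hce i 0 h0, pt_zero, ha0]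
  have hin : ∀ k ∈ Set.Ico β.1 k₀, k ∈ Set.Ico β₀ k₀ := fun k hk => ⟨β.2.1.trans hk.1, hk.2⟩
  refine ⟨β.1, β.2.2, ptE β₀ k₀ q, (hS q hq).1,
    mem_of_superset (basic_mem_nhds F (hF0 q)) hF, fun i => (hce i q hq).symm.trans (h1 i),
    fun _ => rfl, fun k c hk => ?_, (h3.image Subtype.val).subset fun k hk => ?_,
    fun k hk => ?_⟩
  · by_cases h : k ∈ Set.Ico β₀ k₀
    · rw [pt_in q h]
      exact h2 _ (not_le.1 fun h' => hk ⟨h', h.2⟩) c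
    · exact pt_out q h c
  · exact ⟨⟨k, hin k hk.1⟩, ⟨hk.1.1, fun c => by
      rw [← pt_in q (hin k hk.1)]; exact hk.2 c⟩, rfl⟩
  · obtain ⟨c, hc⟩ := h4 ⟨k, hin k hk⟩ hk.1
    exact ⟨c, by rwa [pt_in q (hin k hk)]⟩

end Pool.Agent.P.MP_0279ce_an.Unif
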