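import Pool.Agent.P.MP_0279ce_an.ULim
import Pool.Agent.P.MP_0279ce_an.UKey
import Pool.Agent.P.MP_0279ce_an.UBase

/-! The transfinite construction of the relations. -/

namespace Pool.Agent.P.MP_0279ce_an.Unif

open MvPolynomial Filter
open scoped Topology

/-- Admissible right hand sides for a new relation. -/
def Good {I : Type} [LinearOrder I] (S : Set (VI I → ℂ)) (k : I) (p : ℕ → MvPolynomial (VI I) ℂ)
    (g : (VI I → ℂ) → ℂ) : Prop :=
  Continuous g ∧ (∀ q, ‖g q‖ ≤ 1 / 16) ∧ g 0 = 0 ∧ (∀ q, g (tr k q) = g q) ∧ Ap S g ∧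
    (∀ c : ℂ, ¬ WL S fun q => zz q + c * g q) ∧
    ∃ t l : ℂ, ∀ q ∈ S, Tendsto (fun n => eval (tr k q) (p n)) atTop (𝓝 (t * g q + l * zz q))

lemma Tow.exists_cand {I : Type} [LinearOrder I] {s : I → (VI I → ℂ) → ℂ} (hs : Tow s) (i : I)
    (hinv : ¬ WL (XX s (Set.Iio i)) zz) {p : ℕ → MvPolynomial (VI I) ℂ} {f : (VI I → ℂ) → ℂ}
    (hp : TendstoUniformlyOn (fun n q => eval (tr i q) (p n)) f atTop (XX s (Set.Iio i)))
    (hf0 : f 0 = 0) : ∃ g, Good (XX s (Set.Iio i)) i p g := by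
  have hS := XX_subset s (Set.Iio i)
  have hf : Ap (XX s (Set.Iio i)) f := ap_lim fun ε hε => by
    obtain ⟨n, hn⟩ := (Metric.tendstoUniformlyOn_iff.1 hp ε hε).exists
    exact ⟨_, (ap_poly Set.univ (p n)).comp hS (fun _ _ => trivial) (ap_tr _ i), fun q hq => by
      simpa [dist_eq_norm] using (hn q hq).le⟩
  have hft : ∀ q ∈ XX s (Set.Iio i), f (tr i q) = f q := fun q hq => by
    have h1 := hp.tendsto_at (hs.tr_mem hq)
    simp only [tr_tr le_rfl] at h1
    exact tendsto_nhds_unique h1 (hp.tendsto_at hq)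
  obtain ⟨l, hl⟩ : ∃ l : ℂ, ∀ c : ℂ,
      ¬ WL (XX s (Set.Iio i)) fun q => zz q + c * (f q - l * zz q) := by
    by_cases h : ∃ c : ℂ, WL (XX s (Set.Iio i)) fun q => zz q + c * f q
    · obtain ⟨c, hc⟩ := h
      have hc0 : c ≠ 0 := by
        rintro rfl
        exact hinv (hc.congr fun q _ => by ring)
      refine ⟨-c⁻¹, fun d hd => hinv ((hd.add (hc.const_mul (-d * c⁻¹))).congr fun q _ => ?_)⟩
      field_simp
      ring
    · exact ⟨0, fun c hc => h ⟨c, hc.congr fun q _ => by ring⟩⟩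
  have hh : Ap (XX s (Set.Iio i)) fun q => f q - l * zz q := hf.sub ((ap_zz.mono hS).const_mul l)
  obtain ⟨M, hM, hb⟩ := hh.bdd hS
  have hM' : (M : ℂ) ≠ 0 := by exact_mod_cast hM.ne'
  obtain ⟨g, hg1, hg2, hg3⟩ := (hh.const_mul (16 * M : ℂ)⁻¹).exists_ext (r := 1 / 16) (by norm_num)
    fun q hq => by
      have h1 : ‖(16 * M : ℂ)⁻¹‖ = (16 * M)⁻¹ := by simp [abs_of_pos hM]
      rw [norm_mul, h1, inv_mul_le_iff₀ (by positivity)]
      linarith [hb q hq]
  have hg4 : ∀ q ∈ XX s (Set.Iio i), g (tr i q) = (16 * M : ℂ)⁻¹ * (f q - l * zz q) :=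
    fun q hq => by rw [hg3 _ (hs.tr_mem hq), hft q hq, zz_tr]
  refine ⟨fun q => g (tr i q), hg1.comp (continuous_tr i), fun q => hg2 _, ?_,
    fun q => by simp only [tr_tr le_rfl], (hh.const_mul _).congr hg4, fun c hc => ?_,
    16 * M, l, fun q hq => ?_⟩
  · simp only [hg4 0 (hs.zero_mem _), hf0, zz_zero, mul_zero, sub_zero]
  · refine hl (c * (16 * M : ℂ)⁻¹) (hc.congr fun q hq => ?_)
    simp only [hg4 q hq, mul_assoc]
  · have h1 : 16 * M * g (tr i q) + l * zz q = f q := by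
      rw [hg4 q hq]
      field_simp
      ring
    simpa only [h1] using hp.tendsto_at hq

theorem exists_tower {I : Type} [LinearOrder I] [WellFoundedLT I] [OrderTop I]
    (hcof : ∀ S : Set I, S.Countable → (∀ k ∈ S, k < ⊤) → ∃ a < ⊤, ∀ k ∈ S, k < a)
    (e : I → ℕ → MvPolynomial (VI I) ℂ) (he : ∀ x, ∀ a < ⊤, ∃ i, a ≤ i ∧ i < ⊤ ∧ e i = x) :
    ∃ s : I → (VI I → ℂ) → ℂ, Tow s ∧ s ⊤ = zz ∧ ¬ WL (XX s (Set.Iio ⊤)) zz ∧
      ∀ f, Ap (XX s (Set.Iio ⊤)) f → f 0 = 0 → (∀ q, f (tr ⊤ q) = f q) →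
        ∃ (i : I) (t l : ℂ), ∀ q ∈ XX s (Set.Iio ⊤), f q = t * s i q + l * zz q := by
  classical
  let St : Set (VI I → ℂ) → I → (VI I → ℂ) → ℂ := fun S k =>
    if k = ⊤ then zz else if h : ∃ g, Good S k (e k) g then h.choose else fun _ => 0
  obtain ⟨s, hs⟩ := exists_fix (wellFounded_lt (α := I))
    (fun s k => St (XX s (Set.Iio k)) k) fun k s s' h => by
      simp only [XX_congr (Λ := Set.Iio k) h]
  have hs1 : s ⊤ = zz := by rw [hs]; exact if_pos rfl
  have hs2 : ∀ i < ⊤, (∃ g, Good (XX s (Set.Iio i)) i (e i) g) →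
      Good (XX s (Set.Iio i)) i (e i) (s i) := fun i hi h => by
    have h1 : s i = h.choose := (hs i).trans ((if_neg hi.ne).trans (dif_pos h))
    have h2 := h.choose_spec
    rwa [← h1] at h2
  have hs3 : ∀ i < ⊤, Good (XX s (Set.Iio i)) i (e i) (s i) ∨ s i = fun _ => 0 := fun i hi => by
    by_cases h : ∃ g, Good (XX s (Set.Iio i)) i (e i) g
    · exact Or.inl (hs2 i hi h)
    · exact Or.inr ((hs i).trans ((if_neg hi.ne).trans (dif_neg h)))
  have hT : Tow s := by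
    have : ∀ k, Continuous (s k) ∧ (∀ q, ‖s k q‖ ≤ 1 / 16) ∧ s k 0 = 0 ∧
        (∀ q, s k (tr k q) = s k q) ∧ Ap (XX s (Set.Iio k)) (s k) := by
      intro k
      rcases eq_or_lt_of_le (le_top (a := k)) with rfl | hk
      · rw [hs1]
        exact ⟨continuous_zz, norm_zz_le, zz_zero, zz_tr _, ap_zz.mono (XX_subset _ _)⟩
      · rcases hs3 k hk with h | h
        · exact ⟨h.1, h.2.1, h.2.2.1, h.2.2.2.1, h.2.2.2.2.1⟩
        · rw [h]
          exact ⟨continuous_const, fun _ => by simp, rfl, fun _ => rfl, ap_const _ 0⟩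
    exact ⟨fun k => (this k).1, fun k => (this k).2.1, fun k => (this k).2.2.1,
      fun k => (this k).2.2.2.1, fun k => (this k).2.2.2.2⟩
  have hH : ∀ k : I, ¬ WL (XX s (Set.Iio k)) zz := by
    intro k
    induction k using WellFoundedLT.induction with
    | _ k ih =>
      intro hz
      by_cases hne : (Set.Iio k).Nonempty
      · by_cases hmax : ∀ j < k, ∃ i < k, j < i
        · obtain ⟨β, hβ, h⟩ := hT.limit hne hmax hz
          exact ih β hβ h
        · push Not at hmax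
          obtain ⟨j, hj, hjmax⟩ := hmax
          have h1 : Set.Iio k = Set.Iic j :=
            Set.ext fun i => ⟨fun h => hjmax i h, fun h => lt_of_le_of_lt h hj⟩
          rw [h1] at hz
          obtain ⟨c, hc⟩ := hT.succ j hz
          rcases hs3 j (hj.trans_le le_top) with h | h
          · exact h.2.2.2.2.2.1 c hc
          · exact ih j hj (hc.congr fun q _ => by simp [h])
      · rw [Set.not_nonempty_iff_eq_empty.1 hne, XX_empty] at hz
        exact not_WL_zz hz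
  refine ⟨s, hT, hs1, hH ⊤, fun f hf hf0 hft => ?_⟩
  obtain ⟨p, hp⟩ := hf.exists_seq
  obtain ⟨a, haT, ha⟩ := hcof {i | i < ⊤ ∧ ∃ n c, Sum.inr (i, c) ∈ (p n).vars} (by
    have h1 : ∀ n c, {i : I | Sum.inr (i, c) ∈ (p n).vars}.Countable := fun n c =>
      (p n).vars.countable_toSet.preimage_of_injOn (f := fun i : I => (Sum.inr (i, c) : VI I))
        fun i _ j _ h => (Prod.mk.inj (Sum.inr.inj h)).1
    refine (Set.countable_iUnion fun n => Set.countable_iUnion (h1 n)).mono ?_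
    rintro i ⟨-, n, c, hc⟩
    exact Set.mem_iUnion₂.2 ⟨n, c, hc⟩) fun k hk => hk.1
  obtain ⟨i, hai, hiT, hi⟩ := he p a haT
  have h1 : ∀ q n, eval (tr i q) (p n) = eval (tr ⊤ q) (p n) := fun q n => by
    refine MvPolynomial.hom_congr_vars (RingHom.ext fun c => by simp) ?_ rfl
    rintro (m | ⟨j, c⟩) hw -
    · simp
    · rw [eval_X, eval_X]
      rcases eq_or_lt_of_le (le_top (a := j)) with rfl | hj
      · rw [tr_ge le_top, tr_ge le_rfl]
      · rw [tr_lt hj, tr_lt ((ha j ⟨hj, n, c, hw⟩).trans_le hai)]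
  have hsub : XX s Set.univ ⊆ XX s (Set.Iio ⊤) := XX_anti s (Set.subset_univ _)
  choose! σ hσ1 hσ2 using fun q (hq : q ∈ XX s (Set.Iio i)) => hT.exists_lift i hq
  have h2 : TendstoUniformlyOn (fun n q => eval (tr i q) (p n)) (fun q => f (tr ⊤ (σ q))) atTop
      (XX s (Set.Iio i)) := by
    refine ((hp.comp fun q => tr ⊤ (σ q)).mono fun q hq => hT.tr_mem (hsub (hσ1 q hq))).congr
      (Eventually.of_forall fun n q hq => ?_)
    change eval (tr ⊤ (σ q)) (p n) = eval (tr i q) (p n)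
    rw [← h1, hσ2 q hq]
  have h3 : ∀ q ∈ XX s (Set.Iio ⊤), Tendsto (fun n => eval (tr i q) (p n)) atTop (𝓝 (f q)) :=
    fun q hq => by simpa only [h1, hft] using hp.tendsto_at (hT.tr_mem hq)
  obtain ⟨t, l, h4⟩ := (hs2 i hiT (hi ▸ hT.exists_cand i (hH i) h2
    ((tendsto_nhds_unique (h2.tendsto_at (hT.zero_mem _)) (h3 0 (hT.zero_mem _))).trans
      hf0))).2.2.2.2.2.2
  rw [hi] at h4
  exact ⟨i, t, l, fun q hq => tendsto_nhds_unique (h3 q hq)
    (h4 q (XX_anti s (Set.Iio_subset_Iio le_top) hq))⟩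

end Pool.Agent.P.MP_0279ce_an.Unif
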