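import Pool.Agent.P.MP_0279ce_an.CFin

theorem Pool.Agent.P.MP_0279ce_an.VariantCommutative.stmt :
    ∃ (A : Type) (_ : NonUnitalNormedCommRing A) (_ : NormedSpace ℂ A)
      (_ : IsScalarTower ℂ A A) (_ : SMulCommClass ℂ A A) (_ : CompleteSpace A),
      Ring.jacobson (Unitization ℂ A) = ⊥ ∧
      FiniteDimensional ℂ (A ⧸ Submodule.span ℂ {x : A | ∃ a b : A, x = a * b}) ∧
      ¬ ∃ C : ℝ, ∀ x ∈ Submodule.span ℂ {x : A | ∃ a b : A, x = a * b},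
        ∃ (n : ℕ) (a b : Fin n → A), x = ∑ i, a i * b i ∧ ∑ i, ‖a i‖ * ‖b i‖ ≤ C * ‖x‖ :=
  Pool.Agent.P.MP_0279ce_an.Comm.main
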